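import Pool.Agent.WarC.Stmts3

/-!
# Simultaneous Waring decompositions (MP_db021c_ag): triples of binary cubics   (helper44)
-/

set_option autoImplicit false

open Module MvPolynomial
open Pool.Agent.War Pool.Agent.WarS Pool.Agent.WarQ

namespace Pool.Agent.WarC

namespace AA13aux

/-- the polynomial in one variable -/
noncomputable def uni : MvPolynomial (Fin 1) ℂ →ₐ[ℂ] Polynomial ℂ :=
  aeval (fun _ : Fin 1 => (Polynomial.X : Polynomial ℂ))

theorem uni_eval (g : MvPolynomial (Fin 1) ℂ) (t : ℂ) :
    (uni g).eval t = eval (fun _ : Fin 1 => t) g := by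
  induction g using MvPolynomial.induction_on with
  | C a => simp [uni]
  | add p q hp hq => simp [hp, hq]
  | mul_X p k hp =>
    rw [map_mul, Polynomial.eval_mul, hp, map_mul]
    simp [uni]

theorem uni_derivative (g : MvPolynomial (Fin 1) ℂ) :
    Polynomial.derivative (uni g) = uni (pderiv 0 g) := by
  induction g using MvPolynomial.induction_on with
  | C a => simp [uni]
  | add p q hp hq => simp [hp, hq]
  | mul_X p k hp =>
    have hk : k = 0 := Subsingleton.elim _ _
    subst hk
    have hX : uni (X 0) = Polynomial.X := by simp [uni]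
    rw [map_mul, Polynomial.derivative_mul, hp, hX, Polynomial.derivative_X, Derivation.leibniz]
    simp only [pderiv_X_self, smul_eq_mul, mul_one, map_add, map_mul, hX]
    ring

theorem uni_natDegree {g : MvPolynomial (Fin 1) ℂ} (hg : g.totalDegree ≤ 3) :
    (uni g).natDegree ≤ 3 := by
  have := MvPolynomial.aeval_natDegree_le g hg (fun _ : Fin 1 => (Polynomial.X : Polynomial ℂ))
    (n := 1) (fun _ => Polynomial.natDegree_X_le)
  unfold uni
  simpa using this

/-- a cubic with three simple roots and one double root among them -/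
theorem cubic_zero {p : Polynomial ℂ} (hp : p.natDegree ≤ 3) (h0 : p.eval 0 = 0)
    (h1 : p.eval 1 = 0) (h2 : p.eval 2 = 0) {j : ℕ} (hj : j < 3)
    (h3 : (Polynomial.derivative p).eval (j : ℂ) = 0) : p = 0 := by
  have e := p.as_sum_range_C_mul_X_pow' (Nat.lt_succ_of_le hp)
  rw [Finset.sum_range_succ, Finset.sum_range_succ, Finset.sum_range_succ,
    Finset.sum_range_one] at e
  generalize p.coeff 0 = a at e
  generalize p.coeff 1 = b at e
  generalize p.coeff 2 = c at e
  generalize p.coeff 3 = d at e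
  subst e
  simp only [Polynomial.eval_add, Polynomial.eval_mul, Polynomial.eval_C, Polynomial.eval_pow,
    Polynomial.eval_X, Polynomial.derivative_add, Polynomial.derivative_mul,
    Polynomial.derivative_C, Polynomial.derivative_X_pow] at h0 h1 h2 h3
  norm_num at h0 h1 h2 h3
  have key : a = 0 ∧ b = 0 ∧ c = 0 ∧ d = 0 := by
    interval_cases j
    · norm_num at h3
      subst h0 h3
      have hd : d = 0 := by linear_combination (1 / 4) * h2 - h1
      have hc : c = 0 := by linear_combination h1 - hd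
      exact ⟨rfl, rfl, hc, hd⟩
    · norm_num at h3
      subst h0
      have hd : d = 0 := by linear_combination (1 / 2) * h2 - h3
      have hc : c = 0 := by linear_combination h3 - h1 - 2 * hd
      have hb : b = 0 := by linear_combination h1 - hc - hd
      exact ⟨rfl, hb, hc, hd⟩
    · norm_num at h3
      subst h0
      have hd : d = 0 := by linear_combination (1 / 2) * h3 + h1 - (3 / 4) * h2
      have hc : c = 0 := by linear_combination (1 / 2) * h2 - h1 - 3 * hd
      have hb : b = 0 := by linear_combination h1 - hc - hd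
      exact ⟨rfl, hb, hc, hd⟩
  obtain ⟨rfl, rfl, rfl, rfl⟩ := key
  simp

theorem cubic_zero_mv {g : MvPolynomial (Fin 1) ℂ} (hg : g.totalDegree ≤ 3)
    (h : ∀ i : ℕ, i < 3 → eval (fun _ : Fin 1 => (i : ℂ)) g = 0) {j : ℕ} (hj : j < 3)
    (h3 : eval (fun _ : Fin 1 => (j : ℂ)) (pderiv 0 g) = 0) : g = 0 := by
  have h0 : uni g = 0 := by
    refine cubic_zero (uni_natDegree hg) ?_ ?_ ?_ hj ?_
    · rw [uni_eval]; simpa using h 0 (by norm_num)
    · rw [uni_eval]; simpa using h 1 (by norm_num)
    · rw [uni_eval]; simpa using h 2 (by norm_num)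
    · rw [uni_derivative, uni_eval]; exact h3
  refine MvPolynomial.funext fun x => ?_
  have hx : x = fun _ => x 0 := by
    funext i
    rw [Subsingleton.elim i 0]
  rw [hx, ← uni_eval, h0]
  simp

/-- the points `0, 1, 2, ..` -/
def pt (i : ℕ) : Fin 1 → ℂ := fun _ => (i : ℂ)

/-- the vectors `e_0, e_1, e_2, 0, ..` -/
def vt (i : ℕ) : Fin 3 → ℂ := fun j => if i = (j : ℕ) then 1 else 0

/-- the conditions of the points `h, h+1, ..` -/
noncomputable def rho (h m : ℕ) :
    (Fin 3 → Pol 1 3) →ₗ[ℂ] (Fin m × (Fin 3 ⊕ Fin 1) → ℂ) :=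
  LinearMap.pi fun q => Sum.elim
    (fun j : Fin 3 => (ev 1 3 (pt (h + q.1))).comp
      (LinearMap.proj j : (Fin 3 → Pol 1 3) →ₗ[ℂ] Pol 1 3))
    (fun k : Fin 1 => gr 1 3 k (pt (h + q.1)) (vt (h + q.1))) q.2

theorem inf_ker (h m : ℕ) (hm : 3 ≤ h + m) :
    FK 1 3 (fun i : Fin h => pt i) (fun i : Fin h => vt i) ⊓ LinearMap.ker (rho h m) = ⊥ := by
  rw [eq_bot_iff]
  rintro f ⟨h1, h2⟩
  obtain ⟨h1, h1'⟩ := mem_FK.1 h1
  have h2 : rho h m f = 0 := h2
  have key : ∀ i : ℕ, i < 3 → (∀ j, eval (pt i) (f j : MvPolynomial (Fin 1) ℂ) = 0) ∧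
      ∀ k, ∑ j, vt i j * eval (pt i) (pderiv k (f j : MvPolynomial (Fin 1) ℂ)) = 0 := by
    intro i hi
    by_cases hih : i < h
    · exact ⟨fun j => h1 ⟨i, hih⟩ j, fun k => h1' ⟨i, hih⟩ k⟩
    · have hr : i - h < m := by omega
      have e : h + (i - h) = i := by omega
      constructor
      · intro j
        have := congrFun h2 (⟨i - h, hr⟩, Sum.inl j)
        simp only [rho, LinearMap.pi_apply, Sum.elim_inl, LinearMap.comp_apply,
          LinearMap.proj_apply, ev_apply, Pi.zero_apply, e] at this
        exact this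
      · intro k
        have := congrFun h2 (⟨i - h, hr⟩, Sum.inr k)
        simp only [rho, LinearMap.pi_apply, Sum.elim_inr, gr_apply, Pi.zero_apply, e] at this
        exact this
  rw [Submodule.mem_bot]
  funext j
  apply Subtype.ext
  refine cubic_zero_mv (mem_Pol.1 (f j).2) (fun i hi => (key i hi).1 j) j.2 ?_
  have h3 := (key j j.2).2 0
  rw [Finset.sum_eq_single j] at h3
  · simp only [vt, if_true, one_mul] at h3
    exact h3
  · intro j' _ hj'
    have : (j : ℕ) ≠ (j' : ℕ) := fun he => hj' (Fin.ext he.symm)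
    simp [vt, this]
  · intro hj
    exact absurd (Finset.mem_univ j) hj

end AA13aux

open AA13aux

theorem x_AA13 : S_AA13 := by
  intro h
  refine ⟨fun i => pt i, fun i => vt i, ?_⟩
  have h1 := finrank_le_map_add_ker (rho h (3 - h))
    (FK 1 3 (fun i : Fin h => pt i) (fun i : Fin h => vt i))
  rw [inf_ker h (3 - h) (by omega), finrank_bot, add_zero] at h1
  have h2 : finrank ℂ ((FK 1 3 (fun i : Fin h => pt i) (fun i : Fin h => vt i)).map
      (rho h (3 - h))) ≤ (3 - h) * 4 := by
    refine (Submodule.finrank_le _).trans ?_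
    rw [Module.finrank_fintype_fun_eq_card, Fintype.card_prod, Fintype.card_sum, Fintype.card_fin,
      Fintype.card_fin, Fintype.card_fin]
  rw [NN_one]
  omega

end Pool.Agent.WarC
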