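import Pool.Agent.WarC.Stmts3

/-!
# Simultaneous Waring decompositions (MP_db021c_ag), cubics: module AAH   (helper46)

The two critical numbers of full points are enough.
-/

set_option autoImplicit false

open Module MvPolynomial
open Pool.Agent.War Pool.Agent.WarS Pool.Agent.WarQ

namespace Pool.Agent.WarC

namespace AAHaux

/-- all the conditions at finitely many full points -/
noncomputable def rho (n d : ℕ) {s e : ℕ} (z : Fin e → Fin n → ℂ) (a : Fin e → Fin s → ℂ) :
    (Fin s → Pol n d) →ₗ[ℂ] (Fin e × (Fin n ⊕ Fin s) → ℂ) :=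
  LinearMap.pi fun q => Sum.elim (fun k => gr n d k (z q.1) (a q.1))
    (fun j => (ev n d (z q.1)).comp (LinearMap.proj j)) q.2

theorem mem_ker_rho {n d s e : ℕ} {z : Fin e → Fin n → ℂ} {a : Fin e → Fin s → ℂ}
    {f : Fin s → Pol n d} (h : f ∈ LinearMap.ker (rho n d z a)) (i : Fin e) :
    (∀ j, eval (z i) (f j : MvPolynomial (Fin n) ℂ) = 0) ∧
      ∀ k, ∑ j, a i j * eval (z i) (pderiv k (f j : MvPolynomial (Fin n) ℂ)) = 0 := by
  rw [LinearMap.mem_ker] at h
  refine ⟨fun j => ?_, fun k => ?_⟩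
  · have h1 := congrFun h (i, Sum.inr j)
    change ev n d (z i) (f j) = 0 at h1
    rwa [ev_apply] at h1
  · have h1 := congrFun h (i, Sum.inl k)
    change gr n d k (z i) (a i) f = 0 at h1
    rwa [gr_apply] at h1

theorem finrank_map_rho {n d s e : ℕ} (z : Fin e → Fin n → ℂ) (a : Fin e → Fin s → ℂ)
    (Z : Submodule ℂ (Fin s → Pol n d)) :
    finrank ℂ (Z.map (rho n d z a)) ≤ (n + s) * e := by
  refine (Submodule.finrank_le _).trans (le_of_eq ?_)
  rw [Module.finrank_fintype_fun_eq_card]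
  simp [mul_comm]

/-- leaving out full points -/
theorem full {n d s p e : ℕ} (z : Fin (p + e) → Fin n → ℂ) (a : Fin (p + e) → Fin s → ℂ) :
    finrank ℂ (FK n d (fun i : Fin p => z (Fin.castAdd e i)) fun i => a (Fin.castAdd e i)) ≤
      finrank ℂ (FK n d z a) + (n + s) * e := by
  have h1 := finrank_le_map_add_ker
    (rho n d (fun i : Fin e => z (Fin.natAdd p i)) fun i => a (Fin.natAdd p i))
    (FK n d (fun i : Fin p => z (Fin.castAdd e i)) fun i => a (Fin.castAdd e i))
  have h2 := finrank_map_rho (fun i : Fin e => z (Fin.natAdd p i))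
    (fun i => a (Fin.natAdd p i))
    (FK n d (fun i : Fin p => z (Fin.castAdd e i)) fun i => a (Fin.castAdd e i))
  have h3 : (FK n d (fun i : Fin p => z (Fin.castAdd e i)) fun i => a (Fin.castAdd e i)) ⊓
      LinearMap.ker (rho n d (fun i : Fin e => z (Fin.natAdd p i)) fun i => a (Fin.natAdd p i)) ≤
      FK n d z a := by
    rintro f ⟨hf1, hf2⟩
    rw [SetLike.mem_coe, mem_FK] at hf1
    rw [mem_FK]
    refine ⟨fun i => ?_, fun i => ?_⟩
    · refine Fin.addCases (fun j => ?_) (fun j => ?_) i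
      · exact hf1.1 j
      · exact (mem_ker_rho hf2 j).1
    · refine Fin.addCases (fun j => ?_) (fun j => ?_) i
      · exact hf1.2 j
      · exact (mem_ker_rho hf2 j).2
  have h4 := Submodule.finrank_mono h3
  omega

theorem down {n s p q : ℕ} (h : Full n s q) (hq : (n + s) * q ≤ s * NN n 3) (hp : p ≤ q) :
    Full n s p := by
  obtain ⟨z, a, hz⟩ := h
  obtain ⟨e, rfl⟩ : ∃ e, q = p + e := ⟨q - p, by omega⟩
  refine ⟨fun i => z (Fin.castAdd e i), fun i => a (Fin.castAdd e i), ?_⟩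
  have h1 := full (d := 3) z a
  have h2 : (n + s) * (p + e) = (n + s) * p + (n + s) * e := by ring
  omega

theorem up {n s p q : ℕ} (h : Full n s q) (hq : s * NN n 3 ≤ (n + s) * q) (hp : q ≤ p) :
    Full n s p := by
  obtain ⟨z, a, hz⟩ := h
  obtain ⟨e, rfl⟩ : ∃ e, p = q + e := ⟨p - q, by omega⟩
  refine ⟨Fin.addCases z fun _ => 0, Fin.addCases a fun _ => 0, ?_⟩
  have h1 : FK n 3 (Fin.addCases z fun _ => 0 : Fin (q + e) → Fin n → ℂ)
      (Fin.addCases a fun _ => 0 : Fin (q + e) → Fin s → ℂ) ≤ FK n 3 z a := by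
    intro f hf
    rw [mem_FK] at hf ⊢
    refine ⟨fun i j => ?_, fun i k => ?_⟩
    · have := hf.1 (Fin.castAdd e i) j
      rwa [Fin.addCases_left] at this
    · have := hf.2 (Fin.castAdd e i) k
      rwa [Fin.addCases_left, Fin.addCases_left] at this
  have h2 := Submodule.finrank_mono h1
  omega

end AAHaux

open AAHaux in
theorem x_AAH : S_AAH := by
  intro n s hs h1 h2 h
  obtain ⟨m, hm⟩ : ∃ m, m = n + s := ⟨_, rfl⟩
  obtain ⟨x, hx⟩ : ∃ x, x = s * NN n 3 := ⟨_, rfl⟩
  have hm0 : 0 < m := by omega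
  have e1 := Nat.div_add_mod x m
  have e2 := Nat.div_add_mod (x + (m - 1)) m
  have e3 := Nat.mod_lt (x + (m - 1)) hm0
  have e4 := Nat.div_le_div_right (c := m) (show x + (m - 1) ≤ x + m by omega)
  rw [Nat.add_div_right x hm0] at e4
  rcases Nat.lt_or_ge (x / m) h with hh | hh
  · rw [← hm, ← hx] at h2
    refine up h2 ?_ (by omega)
    rw [← hm, ← hx]
    omega
  · rw [← hm, ← hx] at h1
    refine down h1 ?_ hh
    rw [← hm, ← hx]
    omega

end Pool.Agent.WarC
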