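import Pool.Agent.WarC.Stmts3

/-!
# ARR: the types
-/

set_option autoImplicit false

open Pool.Agent.War Pool.Agent.WarS Pool.Agent.WarQ

namespace Pool.Agent.WarC

namespace ARRaux

theorem NN_two'' (n : ℕ) : NN n 2 = (n + 1) * (n + 2) / 2 := by
  have h : 2 * NN n 2 = (n + 1) * (n + 2) := by
    induction n with
    | zero => simp
    | succ n ih =>
      rw [NN_succ, NN_right_one]
      linarith
  omega

/-- a map with given fibres -/
theorem exists_fib {s : ℕ} (g : Fin s → ℕ) (N : ℕ) (h : ∑ k, g k = N) :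
    ∃ κ : Fin N → Fin s, ∀ k, fib κ k = g k := by
  classical
  have hc : Fintype.card (Fin N) = Fintype.card (Σ k : Fin s, Fin (g k)) := by
    rw [Fintype.card_sigma]
    simp [h]
  let e : Fin N ≃ Σ k : Fin s, Fin (g k) := Fintype.equivOfCardEq hc
  refine ⟨fun i => (e i).1, fun k => ?_⟩
  unfold fib
  have h1 : (Finset.univ.filter fun i : Fin N => (e i).1 = k).card =
      (Finset.univ.filter fun x : Σ k : Fin s, Fin (g k) => x.1 = k).card := by
    refine Finset.card_bij (fun i _ => e i) ?_ ?_ ?_
    · intro i hi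
      simpa using hi
    · intro i _ j _ hij
      exact e.injective hij
    · intro x hx
      refine ⟨e.symm x, ?_, by simp⟩
      simpa using hx
  rw [h1]
  have h2 : (Finset.univ.filter fun x : Σ k : Fin s, Fin (g k) => x.1 = k).card =
      (Finset.univ : Finset (Fin (g k))).card := by
    symm
    refine Finset.card_bij (fun i _ => (⟨k, i⟩ : Σ k : Fin s, Fin (g k))) ?_ ?_ ?_
    · intro i _
      simp
    · intro i _ j _ hij
      simpa using hij
    · rintro ⟨x, i⟩ hx
      simp only [Finset.mem_filter, Finset.mem_univ, true_and] at hx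
      subst hx
      exact ⟨i, Finset.mem_univ _, rfl⟩
  rw [h2]
  simp

theorem fib_elim {P Y s : ℕ} (f : Fin P → Fin s) (g : Fin Y → Fin s) (k : Fin s) :
    fib (Sum.elim f g) k = fib f k + fib g k := by
  unfold fib
  rw [Finset.card_filter, Finset.card_filter, Finset.card_filter, Fintype.sum_sum_type]
  rfl

/-- the fibres of the even distribution -/
def ev' (s T : ℕ) (k : Fin s) : ℕ := T / s + if (k : ℕ) < T % s then 1 else 0

theorem sum_ev {s : ℕ} (hs : 1 ≤ s) (T : ℕ) : ∑ k, ev' s T k = T := by
  unfold ev'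
  rw [Finset.sum_add_distrib, Finset.sum_const, Finset.card_univ, Fintype.card_fin, smul_eq_mul]
  have h : ∑ k : Fin s, (if (k : ℕ) < T % s then 1 else 0) = T % s := by
    rw [Fin.sum_univ_eq_sum_range (fun k => if k < T % s then 1 else 0) s]
    rw [← Finset.card_filter]
    have h1 : (Finset.range s).filter (fun k => k < T % s) = Finset.range (T % s) := by
      ext k
      simp only [Finset.mem_filter, Finset.mem_range]
      have := Nat.mod_lt T hs
      omega
    rw [h1, Finset.card_range]
  rw [h]
  exact Nat.div_add_mod T s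

theorem choose_succ_two (t : ℕ) : (t + 1).choose 2 = t.choose 2 + t := by
  have h := Nat.choose_succ_succ' t 1
  rw [Nat.choose_one_right] at h
  have e : 1 + 1 = 2 := rfl
  rw [e] at h
  omega

end ARRaux

open ARRaux

/-- MODULE ARR -/
theorem x_ARR : S_ARR := by
  intro n s P Y hs hNC
  obtain ⟨h1, h2, h3, h4⟩ := hNC
  have hN : NN (n + 1) 2 = (n + 1 + 1) * (n + 1 + 2) / 2 := NN_two'' (n + 1)
  rw [← hN] at h1 h4
  set N := NN (n + 1) 2 with hNdef
  have hle : ∀ k : Fin s, ev' s Y k + 1 ≤ ev' s (P + Y) k := by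
    intro k
    unfold ev'
    rcases h2 with ⟨h2a, h2b⟩ | h2
    · split_ifs <;> omega
    · split_ifs <;> omega
  obtain ⟨f, hf⟩ := exists_fib (fun k : Fin s => ev' s (P + Y) k - ev' s Y k) P (by
    have hA := sum_ev (s := s) (by omega) (P + Y)
    have hB := sum_ev (s := s) (by omega) Y
    have hC : ∑ k : Fin s, (ev' s (P + Y) k - ev' s Y k) + ∑ k : Fin s, ev' s Y k =
        ∑ k : Fin s, ev' s (P + Y) k := by
      rw [← Finset.sum_add_distrib]
      refine Finset.sum_congr rfl fun k _ => ?_
      have := hle k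
      omega
    omega)
  obtain ⟨g, hg⟩ := exists_fib (fun k : Fin s => ev' s Y k) Y (sum_ev (by omega) Y)
  have hfib : ∀ k, fib (Sum.elim f g) k = ev' s (P + Y) k := by
    intro k
    rw [fib_elim, hf, hg]
    have := hle k
    omega
  have hrot : ∀ k : Fin s, finRotate s k ≠ k := by
    intro k
    obtain ⟨m, rfl⟩ : ∃ m, s = m + 2 := ⟨s - 2, by omega⟩
    rw [finRotate_apply]
    intro h
    have := congrArg Fin.val h
    have h5 : ((1 : Fin (m + 2)) : ℕ) = 1 := by simp
    rw [Fin.val_add, h5] at this
    have hk := k.2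
    rcases Nat.lt_or_ge ((k : ℕ) + 1) (m + 2) with h6 | h6
    · rw [Nat.mod_eq_of_lt h6] at this
      omega
    · have h7 : (k : ℕ) + 1 = m + 2 := by omega
      rw [h7, Nat.mod_self] at this
      omega
  -- values
  set t := (P + Y) / s with ht
  set c := (P + Y) % s with hc
  have hval : ∀ k : Fin s, ev' s (P + Y) k = t + if (k : ℕ) < c then 1 else 0 := fun k => rfl
  have hne : ∀ k : Fin s, ¬ (c = 1 ∧ (k : ℕ) < c ∧ (finRotate s k : ℕ) < c) := by
    rintro k ⟨h5, h6, h7⟩
    apply hrot k
    apply Fin.ext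
    omega
  refine ⟨Sum.elim f g, finRotate s, hrot, ?_, ?_, ?_, h1, ?_⟩
  · intro k
    rw [hfib, hfib, hval, hval]
    have := hne k
    split_ifs <;> omega
  · intro k
    have e1 : (fun i : Fin Y => (Sum.elim f g : Fin P ⊕ Fin Y → Fin s) (Sum.inr i)) = g := rfl
    rw [e1, hg, hg]
    have h5 := hle k
    have h6 := hle (finRotate s k)
    rw [hval] at h5 h6
    have := hne k
    split_ifs at h5 h6 <;> omega
  · intro k
    have h5 : 0 < fib f k := by
      rw [hf]
      have := hle k
      omega
    unfold fib at h5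
    rw [Finset.card_pos] at h5
    obtain ⟨i, hi⟩ := h5
    refine ⟨i, ?_⟩
    simpa using hi
  · intro k
    rw [hfib, hfib, hval, hval]
    have hk := hne k
    have e2 := choose_succ_two t
    have e3 : (n + 1) * (t + 1) = (n + 1) * t + (n + 1) := by ring
    have e4 : (n + 1 + 1) * t = (n + 1) * t + t := by ring
    rw [e3, e4] at h4
    by_cases hk1 : (k : ℕ) < c
    · by_cases hk2 : (finRotate s k : ℕ) < c
      · rw [if_pos hk1, if_pos hk2, e3]
        omega
      · rw [if_pos hk1, if_neg hk2, e2, add_zero]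
        omega
    · by_cases hk2 : (finRotate s k : ℕ) < c
      · rw [if_neg hk1, if_pos hk2, e3, e2, add_zero]
        omega
      · rw [if_neg hk1, if_neg hk2, add_zero]
        omega

end Pool.Agent.WarC
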