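import Pool.Agent.WarC.Ge3
import Pool.Agent.WarN.Bin
import Pool.Agent.WarN.Lin
import Pool.Agent.WarR.Quad

/-!
# Simultaneous Waring decompositions (MP_db021c_ag): all degrees, from degree 2
-/

set_option autoImplicit false

open Pool.Agent.War Pool.Agent.WarS

namespace Pool.Agent.WarC

/-- the statement in degree 2 -/
def D2 : Prop := ∀ n s h : ℕ, 2 ≤ n → 2 ≤ s →
  (Waring.W 2 h n s ↔ (min s ((n + 2).choose n) ≤ h ∧ s * (n + 2).choose n ≤ h * (n + s)) ∧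
    ¬ (s = 3 ∧ Odd n ∧ 2 * h = 3 * n + 1))

theorem D2_of (hyp : ∀ n s h, 2 ≤ n → 3 ≤ s → s < NN n 2 → WarR.Crit n s h →
    (∀ h' < h, ¬ WarR.Crit n s h') → WarR.KQ ℂ (n + 1) s h 0 0) : D2 :=
  fun n s h hn hs => WarR.W_two_of hyp n s h hn hs

/-- degree 1 -/
theorem W_one (n s h : ℕ) (hn : 1 ≤ n) :
    Waring.W 1 h n s ↔ min s ((n + 1).choose n) ≤ h ∧ s * (n + 1).choose n ≤ h * (n + s) := by
  have hN : (n + 1).choose n = n + 1 := by simp
  refine ⟨fun H => ⟨H.bound2, H.bound1 (by omega)⟩, fun H => ?_⟩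
  rw [hN] at H
  rcases Nat.lt_or_ge h s with h1 | h1
  · have h2 : (n + 1).choose n ≤ h := by
      rw [hN]
      have := H.1
      omega
    exact (WarM.W_top s hn).mono h2
  · exact WarN.W_linear h n s h1

/-- **The classification** from degree 2 -/
theorem W_all_of (h2 : D2) (n d s h : ℕ) (hn : 1 ≤ n) (hd : 1 ≤ d) (hs : 2 ≤ s) :
    Waring.W d h n s ↔
      (min s ((n + d).choose n) ≤ h ∧ s * (n + d).choose n ≤ h * (n + s)) ∧
        ¬ (d = 3 ∧ h = 5 ∧ n = 2 ∧ s = 2) ∧ ¬ (d = 2 ∧ 2 * h = 3 * n + 1 ∧ Odd n ∧ s = 3) := by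
  rcases Nat.lt_or_ge n 2 with h1 | h1
  · have hn1 : n = 1 := by omega
    subst hn1
    rw [WarN.W_binary d h s hd]
    constructor
    · rintro ⟨H1, H2⟩
      refine ⟨⟨H1, H2⟩, by omega, ?_⟩
      rintro ⟨rfl, e2, -, rfl⟩
      rw [Nat.choose_one_right] at H2
      omega
    · exact fun H => H.1
  · rcases Nat.lt_or_ge d 3 with h3 | h3
    · rcases Nat.lt_or_ge d 2 with h4 | h4
      · have hd1 : d = 1 := by omega
        subst hd1
        rw [W_one n s h hn]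
        constructor
        · exact fun H => ⟨H, by omega, by omega⟩
        · exact fun H => H.1
      · have hd2 : d = 2 := by omega
        subst hd2
        rw [h2 n s h h1 hs]
        constructor
        · rintro ⟨H1, H2⟩
          exact ⟨H1, by omega, fun H3 => H2 ⟨H3.2.2.2, H3.2.2.1, H3.2.1⟩⟩
        · rintro ⟨H1, -, H2⟩
          exact ⟨H1, fun H3 => H2 ⟨rfl, H3.2.2, H3.2.1, H3.1⟩⟩
    · rw [W_ge_three n d s h h1 h3 hs]
      constructor
      · rintro ⟨H1, H2⟩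
        exact ⟨H1, fun H3 => H2 ⟨H3.1, H3.2.2.1, H3.2.2.2, H3.2.1⟩, by omega⟩
      · rintro ⟨H1, H2, -⟩
        exact ⟨H1, fun H3 => H2 ⟨H3.1, H3.2.2.2, H3.2.1, H3.2.2.1⟩⟩

end Pool.Agent.WarC
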