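import Pool.Agent.WarC.UK

/-!
# MP_db021c_ag, cubics: quadrics, the base of the induction (`S_B4`)
-/

set_option autoImplicit false

open Module MvPolynomial
open Pool.Agent.War Pool.Agent.WarS Pool.Agent.WarQ

namespace Pool.Agent.WarC

namespace B4aux

open UKaux

/-- a representation which is antisymmetric gives the zero polynomial -/
theorem pq_zero {n : ℕ} {c : ℂ} {a : Fin n → ℂ} {b : Fin n → Fin n → ℂ} (hc : c = 0)
    (ha : ∀ i, a i = 0) (hb : ∀ i j, b i j + b j i = 0) : pq c a b = 0 := by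
  have h : (∑ i, ∑ j, C (b i j) * (X i * X j) : MvPolynomial (Fin n) ℂ) = 0 := by
    have h1 : (∑ i, ∑ j, C (b i j) * (X i * X j) : MvPolynomial (Fin n) ℂ) +
        ∑ i, ∑ j, C (b i j) * (X i * X j) = 0 := by
      conv_lhs =>
        rhs
        rw [Finset.sum_comm]
      rw [← Finset.sum_add_distrib]
      refine Finset.sum_eq_zero fun i _ => ?_
      rw [← Finset.sum_add_distrib]
      refine Finset.sum_eq_zero fun j _ => ?_
      have e : (C (b i j) + C (b j i) : MvPolynomial (Fin n) ℂ) = 0 := by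
        rw [← C_add, hb, C_0]
      linear_combination (X i * X j) * e
    exact self_eq_neg.1 (eq_neg_of_add_eq_zero_left h1)
  unfold pq
  rw [h, hc]
  simp [ha]

/-- the centroids of the five triangles -/
noncomputable def cen : Fin 5 → Fin 4 → ℂ :=
  ![![1 / 3, 0, 1 / 3, 0], ![1 / 3, 1 / 3, 0, 1 / 3], ![0, 1 / 3, 1 / 3, 0],
    ![1 / 3, 0, 1 / 3, 1 / 3], ![0, 1 / 3, 0, 1 / 3]]

/-- coefficients of a quadric through the vertices and the centroids -/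
theorem co {c : ℂ} {a : Fin 4 → ℂ} {b : Fin 4 → Fin 4 → ℂ} (h0 : eval 0 (pq c a b) = 0)
    (h1 : ∀ i, eval (Pi.single i 1) (pq c a b) = 0) (h2 : ∀ t, eval (cen t) (pq c a b) = 0) :
    c = 0 ∧ (∀ i, a i = - b i i) ∧
    a 0 + a 2 + (b 0 2 + b 2 0 + a 0 + a 2) = 0 ∧
    (b 0 1 + b 1 0 + a 0 + a 1) + (b 0 3 + b 3 0 + a 0 + a 3) + (b 1 3 + b 3 1 + a 1 + a 3) = 0 ∧
    (b 1 2 + b 2 1 + a 1 + a 2) + a 1 + a 2 = 0 ∧
    (b 2 3 + b 3 2 + a 2 + a 3) + (b 0 2 + b 2 0 + a 0 + a 2) + (b 0 3 + b 3 0 + a 0 + a 3) = 0 ∧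
    a 3 + (b 1 3 + b 3 1 + a 1 + a 3) + a 1 = 0 := by
  have hc : c = 0 := by
    rw [eval_pq] at h0
    simpa using h0
  subst hc
  have ha : ∀ i, a i = - b i i := by
    intro i
    have h := h1 i
    rw [eval_pq] at h
    simp [Pi.single_apply] at h
    exact eq_neg_of_add_eq_zero_left h
  have e0 := ha 0
  have e1 := ha 1
  have e2 := ha 2
  have e3 := ha 3
  have t0 := h2 0
  have t1 := h2 1
  have t2 := h2 2
  have t3 := h2 3
  have t4 := h2 4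
  rw [eval_pq] at t0 t1 t2 t3 t4
  simp [cen, Fin.sum_univ_four] at t0 t1 t2 t3 t4
  refine ⟨rfl, ha, ?_, ?_, ?_, ?_, ?_⟩
  · linear_combination 9 * t0 - e0 - e2
  · linear_combination 9 * t1 - e0 - e1 - e3
  · linear_combination 9 * t2 - e1 - e2
  · linear_combination 9 * t3 - e0 - e2 - e3
  · linear_combination 9 * t4 - e1 - e3

/-- the zero polynomial in terms of the coefficients -/
theorem fin {c : ℂ} {a : Fin 4 → ℂ} {b : Fin 4 → Fin 4 → ℂ} (hc : c = 0)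
    (ha : ∀ i, a i = - b i i) (h0 : a 0 = 0) (ha1 : a 1 = 0) (ha2 : a 2 = 0) (ha3 : a 3 = 0)
    (h1 : b 0 1 + b 1 0 = 0) (h2 : b 0 2 + b 2 0 = 0) (h3 : b 0 3 + b 3 0 = 0)
    (h4 : b 1 2 + b 2 1 = 0) (h5 : b 1 3 + b 3 1 = 0) (h6 : b 2 3 + b 3 2 = 0) :
    pq c a b = 0 := by
  have h : ∀ i, a i = 0 := by
    intro i
    fin_cases i <;> assumption
  have hd : ∀ i, b i i = 0 := fun i => by linear_combination ha i - h i
  have k1 : b 1 0 + b 0 1 = 0 := by linear_combination h1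
  have k2 : b 2 0 + b 0 2 = 0 := by linear_combination h2
  have k3 : b 3 0 + b 0 3 = 0 := by linear_combination h3
  have k4 : b 2 1 + b 1 2 = 0 := by linear_combination h4
  have k5 : b 3 1 + b 1 3 = 0 := by linear_combination h5
  have k6 : b 3 2 + b 2 3 = 0 := by linear_combination h6
  refine pq_zero hc h fun i j => ?_
  fin_cases i <;> fin_cases j <;> simp [hd, h1, h2, h3, h4, h5, h6, k1, k2, k3, k4, k5, k6]

/-- the conditions at the vertices and at the centroids -/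
def VC (f : MvPolynomial (Fin 4) ℂ) : Prop :=
  f.totalDegree ≤ 2 ∧ eval 0 f = 0 ∧ (∀ i, eval (Pi.single i 1) f = 0) ∧ ∀ t, eval (cen t) f = 0

/-- the gradient of a quadric at the origin -/
noncomputable def gr (f : MvPolynomial (Fin 4) ℂ) (m : Fin 4) : ℂ := eval 0 (pderiv m f)

theorem gr_pq {c : ℂ} {a : Fin 4 → ℂ} {b : Fin 4 → Fin 4 → ℂ} (m : Fin 4) :
    gr (pq c a b) m = a m := by
  unfold gr
  rw [eval_pderiv_pq]
  simp

theorem dbl {c : ℂ} {a : Fin 4 → ℂ} {b : Fin 4 → Fin 4 → ℂ} {k : Fin 4}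
    (h : ∀ m, eval (Pi.single k 1) (pderiv m (pq c a b)) = 0) (m : Fin 4) :
    a m + b m k + b k m = 0 := by
  have h1 := h m
  rw [eval_pderiv_pq] at h1
  simpa [Pi.single_apply] using h1

theorem F0 {f : MvPolynomial (Fin 4) ℂ} (hf : VC f)
    (h : ∀ m, eval (Pi.single 0 1) (pderiv m f) = 0) :
    gr f 0 = 0 ∧ gr f 2 = 0 ∧ gr f 3 = - gr f 1 ∧ (gr f 1 = 0 → f = 0) := by
  obtain ⟨hd, h0, h1, h2⟩ := hf
  obtain ⟨c, a, b, hr⟩ := rp_of_deg f hd
  have hr' : f = pq c a b := hr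
  subst hr'
  obtain ⟨hc, ha, t0, t1, t2, t3, t4⟩ := co h0 h1 h2
  have d := dbl h
  have d0 := d 0
  have d1 := d 1
  have d2 := d 2
  have d3 := d 3
  have e0 := ha 0
  have e1 := ha 1
  have e2 := ha 2
  have e3 := ha 3
  simp only [gr_pq]
  have a0 : a 0 = 0 := by grind
  have a2 : a 2 = 0 := by grind
  have a3 : a 3 = - a 1 := by grind
  refine ⟨a0, a2, a3, fun a1 => ?_⟩
  apply fin hc ha <;> grind

theorem F1 {f : MvPolynomial (Fin 4) ℂ} (hf : VC f)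
    (h : ∀ m, eval (Pi.single 1 1) (pderiv m f) = 0) :
    gr f 1 = 0 ∧ gr f 2 = 0 ∧ gr f 3 = 0 ∧ (gr f 0 = 0 → f = 0) := by
  obtain ⟨hd, h0, h1, h2⟩ := hf
  obtain ⟨c, a, b, hr⟩ := rp_of_deg f hd
  have hr' : f = pq c a b := hr
  subst hr'
  obtain ⟨hc, ha, t0, t1, t2, t3, t4⟩ := co h0 h1 h2
  have d := dbl h
  have d0 := d 0
  have d1 := d 1
  have d2 := d 2
  have d3 := d 3
  have e0 := ha 0
  have e1 := ha 1
  have e2 := ha 2
  have e3 := ha 3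
  simp only [gr_pq]
  have a1 : a 1 = 0 := by grind
  have a2 : a 2 = 0 := by grind
  have a3 : a 3 = 0 := by grind
  refine ⟨a1, a2, a3, fun a0 => ?_⟩
  apply fin hc ha <;> grind

theorem F2 {f : MvPolynomial (Fin 4) ℂ} (hf : VC f)
    (h : ∀ m, eval (Pi.single 2 1) (pderiv m f) = 0) :
    gr f 0 = 0 ∧ gr f 1 = 0 ∧ gr f 2 = 0 ∧ (gr f 3 = 0 → f = 0) := by
  obtain ⟨hd, h0, h1, h2⟩ := hf
  obtain ⟨c, a, b, hr⟩ := rp_of_deg f hd
  have hr' : f = pq c a b := hr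
  subst hr'
  obtain ⟨hc, ha, t0, t1, t2, t3, t4⟩ := co h0 h1 h2
  have d := dbl h
  have d0 := d 0
  have d1 := d 1
  have d2 := d 2
  have d3 := d 3
  have e0 := ha 0
  have e1 := ha 1
  have e2 := ha 2
  have e3 := ha 3
  simp only [gr_pq]
  have a0 : a 0 = 0 := by grind
  have a1 : a 1 = 0 := by grind
  have a2 : a 2 = 0 := by grind
  refine ⟨a0, a1, a2, fun a3 => ?_⟩
  apply fin hc ha <;> grind

theorem F3 {f : MvPolynomial (Fin 4) ℂ} (hf : VC f)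
    (h : ∀ m, eval (Pi.single 3 1) (pderiv m f) = 0) :
    gr f 1 = 0 ∧ gr f 3 = 0 ∧ gr f 2 = - gr f 0 ∧ (gr f 0 = 0 → f = 0) := by
  obtain ⟨hd, h0, h1, h2⟩ := hf
  obtain ⟨c, a, b, hr⟩ := rp_of_deg f hd
  have hr' : f = pq c a b := hr
  subst hr'
  obtain ⟨hc, ha, t0, t1, t2, t3, t4⟩ := co h0 h1 h2
  have d := dbl h
  have d0 := d 0
  have d1 := d 1
  have d2 := d 2
  have d3 := d 3
  have e0 := ha 0
  have e1 := ha 1
  have e2 := ha 2
  have e3 := ha 3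
  simp only [gr_pq]
  have a1 : a 1 = 0 := by grind
  have a3 : a 3 = 0 := by grind
  have a2 : a 2 = - a 0 := by grind
  refine ⟨a1, a3, a2, fun a0 => ?_⟩
  apply fin hc ha <;> grind

/-- the configuration with three forms -/
noncomputable def P3 : PT 4 3 1 6 :=
  (Sum.elim (Sum.elim (fun k => Pi.single k.castSucc 1) 0) (Fin.cons (Pi.single 3 1) cen),
    fun _ _ => 1)

/-- the configuration with four forms -/
noncomputable def P4 : PT 4 4 1 5 :=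
  (Sum.elim (Sum.elim (fun k => Pi.single k 1) 0) cen, fun _ _ => 1)

theorem MZ_P3 : MZ 4 P3 = ⊥ := by
  rw [eq_bot_iff]
  intro f hf
  obtain ⟨h1, h2, h3⟩ := mem_MZ.1 hf
  have hV : ∀ j, VC (f j : MvPolynomial (Fin 4) ℂ) := by
    intro j
    refine ⟨mem_Pol.1 (f j).2, h1 (Sum.inl (Sum.inr 0)) j, fun i => ?_, fun t => ?_⟩
    · refine Fin.lastCases ?_ (fun i => ?_) i
      · exact h1 (Sum.inr 0) j
      · exact h1 (Sum.inl (Sum.inl i)) j
    · exact h1 (Sum.inr t.succ) j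
  obtain ⟨x0, x1, x2, x3⟩ := F0 (hV 0) (h2 0)
  obtain ⟨y0, y1, y2, y3⟩ := F1 (hV 1) (h2 1)
  obtain ⟨z0, z1, z2, z3⟩ := F2 (hV 2) (h2 2)
  have h4 : ∀ v, gr (f 0 : MvPolynomial (Fin 4) ℂ) v + gr (f 1 : MvPolynomial (Fin 4) ℂ) v +
      gr (f 2 : MvPolynomial (Fin 4) ℂ) v = 0 := by
    intro v
    have h5 := h3 0 v
    rw [Fin.sum_univ_three] at h5
    simpa [P3, gr] using h5
  have m0 := h4 0
  have m1 := h4 1
  have m3 := h4 3
  have l0 : (f 0 : MvPolynomial (Fin 4) ℂ) = 0 := x3 (by grind)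
  have l1 : (f 1 : MvPolynomial (Fin 4) ℂ) = 0 := y3 (by grind)
  have l2 : (f 2 : MvPolynomial (Fin 4) ℂ) = 0 := z3 (by grind)
  rw [Submodule.mem_bot]
  funext j
  apply Subtype.ext
  fin_cases j
  · exact l0
  · exact l1
  · exact l2

theorem MZ_P4 : MZ 4 P4 = ⊥ := by
  rw [eq_bot_iff]
  intro f hf
  obtain ⟨h1, h2, h3⟩ := mem_MZ.1 hf
  have hV : ∀ j, VC (f j : MvPolynomial (Fin 4) ℂ) := by
    intro j
    exact ⟨mem_Pol.1 (f j).2, h1 (Sum.inl (Sum.inr 0)) j, fun i => h1 (Sum.inl (Sum.inl i)) j,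
      fun t => h1 (Sum.inr t) j⟩
  obtain ⟨x0, x1, x2, x3⟩ := F0 (hV 0) (h2 0)
  obtain ⟨y0, y1, y2, y3⟩ := F1 (hV 1) (h2 1)
  obtain ⟨z0, z1, z2, z3⟩ := F2 (hV 2) (h2 2)
  obtain ⟨w0, w1, w2, w3⟩ := F3 (hV 3) (h2 3)
  have h4 : ∀ v, gr (f 0 : MvPolynomial (Fin 4) ℂ) v + gr (f 1 : MvPolynomial (Fin 4) ℂ) v +
      gr (f 2 : MvPolynomial (Fin 4) ℂ) v + gr (f 3 : MvPolynomial (Fin 4) ℂ) v = 0 := by
    intro v
    have h5 := h3 0 v
    rw [Fin.sum_univ_four] at h5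
    simpa [P4, gr] using h5
  have m0 := h4 0
  have m1 := h4 1
  have m2 := h4 2
  have m3 := h4 3
  have l0 : (f 0 : MvPolynomial (Fin 4) ℂ) = 0 := x3 (by grind)
  have l3 : (f 3 : MvPolynomial (Fin 4) ℂ) = 0 := w3 (by grind)
  have l1 : (f 1 : MvPolynomial (Fin 4) ℂ) = 0 := y3 (by grind)
  have l2 : (f 2 : MvPolynomial (Fin 4) ℂ) = 0 := z3 (by grind)
  rw [Submodule.mem_bot]
  funext j
  apply Subtype.ext
  fin_cases j
  · exact l0
  · exact l1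
  · exact l2
  · exact l3

end B4aux

open B4aux

/-- MODULE B4 -/
theorem x_B4 : S_B4 := by
  constructor
  · have h : NN 4 2 - (4 + 1) - (3 + 1) = 6 := by decide
    unfold MR
    rw [h]
    refine ⟨P3, ?_⟩
    rw [MZ_P3, finrank_bot]
  · have h : NN 4 2 - (4 + 1) - (4 + 1) = 5 := by decide
    unfold MR
    rw [h]
    refine ⟨P4, ?_⟩
    rw [MZ_P4, finrank_bot]

end Pool.Agent.WarC
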