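import Pool.Agent.WarC.Stmts3
import Pool.Agent.WarS.SG
import Pool.Agent.War5.Cub5

/-!
# Simultaneous Waring decompositions (MP_db021c_ag), cubics: module BASE   (helper37)

The base of the induction: `n + 1` cubics in `n` variables.
-/

set_option autoImplicit false

open Module MvPolynomial
open Pool.Agent.War Pool.Agent.WarS Pool.Agent.WarQ

namespace Pool.Agent.WarC

namespace BASEaux

theorem six_NN (m : ℕ) : 6 * NN m 3 = (m + 1) * (m + 2) * (m + 3) := by
  have h1 : NN m 3 = (m + 3).choose 3 := by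
    unfold NN
    rw [Nat.choose_symm_add]
  have h2 := Nat.choose_mul_factorial_mul_factorial (show 3 ≤ m + 3 by omega)
  rw [← h1, Nat.add_sub_cancel] at h2
  have h3 : (m + 3).factorial = (m + 1) * (m + 2) * (m + 3) * m.factorial := by
    simp only [Nat.factorial_succ]
    ring
  rw [h3] at h2
  have h4 : (Nat.factorial 3) = 6 := rfl
  rw [h4] at h2
  have h5 := Nat.factorial_pos m
  exact Nat.eq_of_mul_eq_mul_right h5 (by linarith)

/-- A space which is killed. -/
theorem full_of_kill {n s h : ℕ} {z : Fin h → Fin n → ℂ} {a : Fin h → Fin s → ℂ}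
    {y : Fin 0 → Fin n → ℂ} (hK : Kill n 3 z a y) : Full n s h := by
  refine ⟨z, a, ?_⟩
  have h0 : FK n 3 z a = ⊥ := by
    rw [eq_bot_iff]
    intro f hf
    obtain ⟨h1, h2⟩ := mem_FK.1 hf
    rw [Submodule.mem_bot]
    funext j
    exact Subtype.ext (hK (fun j => (f j : MvPolynomial (Fin n) ℂ)) (fun j => mem_Pol.1 (f j).2)
      h1 h2 (fun i => i.elim0) j)
  rw [h0, finrank_bot]
  exact Nat.zero_le _

/-- A finrank of a subspace of the tuples whose members `j ≠ last` vanish. -/
theorem finrank_last {n : ℕ} {V : Type} [AddCommGroup V] [Module ℂ V] [FiniteDimensional ℂ V]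
    (S : Submodule ℂ (Fin (n + 1) → V)) (W : Submodule ℂ V)
    (h0 : ∀ f ∈ S, ∀ j : Fin n, f j.castSucc = 0) (h1 : ∀ f ∈ S, f (Fin.last n) ∈ W) :
    finrank ℂ S ≤ finrank ℂ W := by
  let L : S →ₗ[ℂ] W := ((LinearMap.proj (Fin.last n)).comp S.subtype).codRestrict W
    fun f => h1 f.1 f.2
  refine LinearMap.finrank_le_finrank_of_injective (f := L) ?_
  intro f g hfg
  apply Subtype.ext
  funext j
  refine Fin.lastCases ?_ (fun j => ?_) j
  · exact congrArg Subtype.val hfg
  · rw [h0 f.1 f.2 j, h0 g.1 g.2 j]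

/-- A block of `n` forms and one more form. -/
theorem glue (n m p : ℕ) (hn : 1 ≤ n)
    (hB : ∃ (z : Fin m → Fin n → ℂ) (a : Fin m → Fin n → ℂ) (y : Fin p → Fin n → ℂ),
      Kill n 3 z a y) (hG : GG n 3 p) :
    ∃ (z : Fin (m + p) → Fin n → ℂ) (a : Fin (m + p) → Fin (n + 1) → ℂ),
      finrank ℂ (FK n 3 z a) ≤ NN n 3 - (n * p + (m + p)) := by
  classical
  obtain ⟨z0, a0, y0, hK⟩ := hB
  let P : Finset (Fin m ⊕ Fin p) := Finset.univ.map ⟨Sum.inr, Sum.inr_injective⟩
  have hP : P.card = p := by simp [P]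
  have hT : TrC1 n 3 ((Sum.elim z0 y0, a0) :
      (Fin m ⊕ Fin p → Fin n → ℂ) × (Fin m → Fin n → ℂ)) = ⊥ := by
    rw [eq_bot_iff]
    intro f hf
    obtain ⟨h1, h2⟩ := mem_TrC1.1 hf
    rw [Submodule.mem_bot]
    funext j
    exact Subtype.ext (hK (fun j => (f j : MvPolynomial (Fin n) ℂ)) (fun j => mem_Pol.1 (f j).2)
      (fun i => h1 (Sum.inl i)) h2 (fun i => h1 (Sum.inr i)) j)
  have g1 := (PK_TrC1 n 3 (α := Fin m) (β := Fin p) (γ := Fin n)).gen_bot hT
  have g2 := (SG n 3 (Fin m ⊕ Fin p) P hn (by rw [hP]; exact hG)).comp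
    (LinearMap.fst ℂ (Fin m ⊕ Fin p → Fin n → ℂ) (Fin m → Fin n → ℂ)) LinearMap.fst_surjective
  obtain ⟨x, hx1, hx2⟩ := (g1.and g2).exists
  rw [hP] at hx2
  have hx2' : finrank ℂ (Dbl n 3 P x.1) ≤ NN n 3 - (n * p + (m + p)) := by
    have e : Fintype.card (Fin m ⊕ Fin p) = m + p := by simp
    rw [e] at hx2
    exact hx2
  refine ⟨fun i => x.1 (finSumFinEquiv.symm i), fun i => Sum.elim
    (fun i' => (Fin.snoc (x.2 i') 0 : Fin (n + 1) → ℂ)) (fun _ => Pi.single (Fin.last n) 1)
    (finSumFinEquiv.symm i), ?_⟩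
  refine (finrank_last _ (Dbl n 3 P x.1) ?_ ?_).trans hx2'
  · intro f hf j
    obtain ⟨h1, h2⟩ := mem_FK.1 hf
    have hmem : (fun j : Fin n => f j.castSucc) ∈ TrC1 n 3 x := by
      refine mem_TrC1.2 ⟨fun i j => ?_, fun i k => ?_⟩
      · have := h1 (finSumFinEquiv i) j.castSucc
        simpa using this
      · have := h2 (finSumFinEquiv (Sum.inl i)) k
        rw [Fin.sum_univ_castSucc] at this
        simpa using this
    rw [hx1, Submodule.mem_bot] at hmem
    exact congrFun hmem j
  · intro f hf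
    obtain ⟨h1, h2⟩ := mem_FK.1 hf
    refine mem_Dbl.2 ⟨fun i => ?_, fun i hi k => ?_⟩
    · have := h1 (finSumFinEquiv i) (Fin.last n)
      simpa using this
    · obtain ⟨i', -, rfl⟩ := Finset.mem_map.1 hi
      have := h2 (finSumFinEquiv (Sum.inr i')) k
      rw [Fin.sum_univ_castSucc] at this
      simpa [Pi.single_apply] using this

/-- `n = 5`: six forms, each has five double and twenty-five simple points. -/
theorem five : Full 5 6 30 := by
  classical
  let P : Fin 6 → Finset (Fin 6 × Fin 5) := fun j => Finset.univ.filter fun q => q.1 = j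
  have hP : ∀ j, (P j).card = 5 := by
    intro j
    fin_cases j <;> rfl
  obtain ⟨z, hz⟩ := (Gen.forall fun j : Fin 6 =>
    SG 5 3 (Fin 6 × Fin 5) (P j) (by norm_num) (by
      rw [hP]
      exact War5.CUB 5 5 (by norm_num))).exists
  have hN : NN 5 3 = 56 := by decide
  have hz' : ∀ j, finrank ℂ (Dbl 5 3 (P j) z) ≤ 1 := by
    intro j
    have h := hz j
    rw [hP, hN] at h
    simpa using h
  let e : Fin 30 ≃ Fin 6 × Fin 5 := (finProdFinEquiv (m := 6) (n := 5)).symm
  refine ⟨fun i => z (e i), fun i => Pi.single (e i).1 1, ?_⟩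
  have hle : FK 5 3 (fun i => z (e i)) (fun i => (Pi.single (e i).1 1 : Fin 6 → ℂ)) ≤
      Submodule.pi Set.univ fun j => Dbl 5 3 (P j) z := by
    intro f hf
    obtain ⟨h1, h2⟩ := mem_FK.1 hf
    rw [Submodule.mem_pi]
    intro j _
    refine mem_Dbl.2 ⟨fun i => ?_, fun i hi k => ?_⟩
    · have := h1 (e.symm i) j
      simpa using this
    · have hi' : i.1 = j := (Finset.mem_filter.1 hi).2
      have := h2 (e.symm i) k
      simpa [Pi.single_apply, hi'] using this
  refine (Submodule.finrank_mono hle).trans ((finrank_pi_leC1 _).trans ?_)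
  refine (Finset.sum_le_sum fun j _ => hz' j).trans ?_
  rw [hN]
  simp

end BASEaux

open BASEaux

theorem x_BASE (hB : S_BLKM) (hT : S_TOPC) (hA : S_AAH) : S_BASE := by
  intro n hn
  have h6 := six_NN n
  have hN1 : 4 * n + 1 ≤ NN n 3 := by
    have : 6 * (4 * n + 1) ≤ 6 * NN n 3 := by
      rw [h6]
      nlinarith [mul_nonneg (Nat.zero_le n) (Nat.zero_le n)]
    omega
  generalize hNN : NN n 3 = N at *
  have hm : 0 < n + (n + 1) := by omega
  have e1 := Nat.div_add_mod ((n + 1) * N) (n + (n + 1))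
  have e2 := Nat.mod_lt ((n + 1) * N) hm
  have e3 := Nat.div_add_mod ((n + 1) * N + (n + (n + 1) - 1)) (n + (n + 1))
  have e4 := Nat.mod_lt ((n + 1) * N + (n + (n + 1) - 1)) hm
  obtain ⟨hp, hhp⟩ : ∃ x, x = ((n + 1) * N + (n + (n + 1) - 1)) / (n + (n + 1)) := ⟨_, rfl⟩
  obtain ⟨hm', hhm⟩ : ∃ x, x = ((n + 1) * N) / (n + (n + 1)) := ⟨_, rfl⟩
  rw [← hhp] at e3
  rw [← hhm] at e1
  have hplus : Full n (n + 1) hp := by
    obtain ⟨z, a, y, hK⟩ := hT n (n + 1) hp hn le_rfl (by
      by_contra hc
      have h1 : hp ≤ n := by omega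
      have h2 : (n + (n + 1)) * hp ≤ (n + (n + 1)) * n := Nat.mul_le_mul_left _ h1
      nlinarith) (by
      rw [hNN]
      by_contra hc
      have h1 : N ≤ hp := by omega
      have h2 : (n + (n + 1)) * N ≤ (n + (n + 1)) * hp := Nat.mul_le_mul_left _ h1
      have h3 : (n + (n + 1)) * N = (n + 1) * N + n * N := by ring
      have h4 : n * 5 ≤ n * N := Nat.mul_le_mul_left _ (by omega)
      omega) (by
      rw [hNN]
      have h1 : hp * (n + (n + 1)) = (n + (n + 1)) * hp := by ring
      omega)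
    exact full_of_kill hK
  refine hA n (n + 1) (by omega) ?_ ?_
  · rw [hNN, ← hhm]
    by_cases hz : ((n + 1) * N) % (n + (n + 1)) = 0
    · have h1 : hp = hm' := by
        have h2 : (n + (n + 1)) * hp < (n + (n + 1)) * (hm' + 1) := by
          rw [mul_add]
          omega
        have h3 : (n + (n + 1)) * hm' < (n + (n + 1)) * (hp + 1) := by
          rw [mul_add]
          omega
        have h4 := Nat.lt_of_mul_lt_mul_left h2
        have h5 := Nat.lt_of_mul_lt_mul_left h3
        omega
      rw [← h1]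
      exact hplus
    · by_cases h5 : n = 5
      · subst h5
        have hN : N = 56 := by rw [← hNN]; decide
        subst hN
        have : hm' = 30 := by rw [hhm]
        rw [this]
        exact five
      · -- the complement
        have hmN : hm' ≤ N := by
          by_contra hc
          have h2 : (n + (n + 1)) * (N + 1) ≤ (n + (n + 1)) * hm' := Nat.mul_le_mul_left _ (by omega)
          have h3 : (n + (n + 1)) * (N + 1) = (n + 1) * N + n * N + (n + (n + 1)) := by ring
          have h4 : 0 ≤ n * N := Nat.zero_le _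
          omega
        obtain ⟨μ, hμ⟩ : ∃ μ, N = hm' + μ := ⟨N - hm', by omega⟩
        have k0 : (n + (n + 1)) * N = (n + 1) * N + n * N := by ring
        have k1 : (n + (n + 1)) * N = (n + (n + 1)) * hm' + (n + (n + 1)) * μ := by
          rw [← mul_add, ← hμ]
        have k2 : n * N < (n + (n + 1)) * μ := by omega
        have k3 : (n + (n + 1)) * μ < n * N + (n + (n + 1)) := by omega
        have k4 : 2 * n + 1 = n + (n + 1) := by ring
        have hBl := hB n μ hn h5 (by rw [hNN, k4]; exact k2) (by rw [hNN, k4]; exact k3)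
        unfold Block at hBl
        have hμμ : (n * μ + n - 1) / n = μ := by
          have : n * μ + n - 1 = (n - 1) + n * μ := by omega
          rw [this, Nat.add_mul_div_left _ _ (by omega), Nat.div_eq_of_lt (by omega), zero_add]
        rw [hμμ, hNN] at hBl
        -- `2 μ ≤ N`
        have k5 : 2 * μ ≤ N := by
          by_contra hc
          have h2 : (n + (n + 1)) * (N + 1) ≤ (n + (n + 1)) * (2 * μ) :=
            Nat.mul_le_mul_left _ (by omega)
          have h3 : (n + (n + 1)) * (N + 1) = 2 * (n * N) + N + (n + (n + 1)) := by ring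
          have h4 : (n + (n + 1)) * (2 * μ) = 2 * ((n + (n + 1)) * μ) := by ring
          omega
        obtain ⟨p, hp'⟩ : ∃ p, N = 2 * μ + p := ⟨N - 2 * μ, by omega⟩
        have hpe : N - μ - μ = p := by omega
        rw [hpe] at hBl
        have k6 : (n + (n + 1)) * p < N := by
          have h3 : (n + (n + 1)) * N = 2 * (n * N) + N := by ring
          have h4 : (n + (n + 1)) * N = 2 * ((n + (n + 1)) * μ) + (n + (n + 1)) * p := by
            rw [hp']; ring
          omega
        have hG : GG n 3 p := War5.CUB n p (by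
          have h2 : 6 * ((n + (n + 1)) * p) ≤ (n + 1) * (n + 2) * (n + 3) := by
            rw [← h6]; omega
          have h3 : (n + (n + 1)) * (9 * p) * 2 ≤ (n + (n + 1)) * (n + 3) ^ 2 * 2 := by
            have h4 : 3 * ((n + 1) * (n + 2) * (n + 3)) ≤ (n + (n + 1)) * (n + 3) ^ 2 * 2 := by
              have : 3 * ((n + 1) * (n + 2)) ≤ 2 * ((n + (n + 1)) * (n + 3)) := by nlinarith
              calc 3 * ((n + 1) * (n + 2) * (n + 3)) = (3 * ((n + 1) * (n + 2))) * (n + 3) := by ring
                _ ≤ (2 * ((n + (n + 1)) * (n + 3))) * (n + 3) := Nat.mul_le_mul_right _ this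
                _ = (n + (n + 1)) * (n + 3) ^ 2 * 2 := by ring
            calc (n + (n + 1)) * (9 * p) * 2 = 3 * (6 * ((n + (n + 1)) * p)) := by ring
              _ ≤ 3 * ((n + 1) * (n + 2) * (n + 3)) := Nat.mul_le_mul_left _ h2
              _ ≤ _ := h4
          have h5 : (n + (n + 1)) * (9 * p) ≤ (n + (n + 1)) * (n + 3) ^ 2 := by omega
          exact Nat.le_of_mul_le_mul_left h5 hm)
        obtain ⟨z, a, hza⟩ := glue n μ p (by omega) hBl hG
        have hsum : hm' = μ + p := by omega
        rw [hsum]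
        refine ⟨z, a, hza.trans ?_⟩
        rw [hNN]
        have k7 : (n + (n + 1)) * (μ + p) = (n + (n + 1)) * μ + (n + (n + 1)) * p := by ring
        have k8 : (n + 1) * N = n * N + N := by ring
        have k9 : (n + (n + 1)) * p = n * p + (n * p + p) := by ring
        have k10 : n * N = 2 * (n * μ) + n * p := by rw [hp']; ring
        have k11 : (n + (n + 1)) * μ = 2 * (n * μ) + μ := by ring
        omega
  · rw [hNN, ← hhp]
    exact hplus

end Pool.Agent.WarC
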