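import Pool.Agent.WarC.Stmts
import Pool.Agent.WarM.AH
import Pool.Agent.WarM.CORE
import Pool.Agent.WarM.ONE
import Pool.Agent.WarM.PB

/-!
# Module BLK3: the block lemma in degree three
-/

set_option autoImplicit false

open Module MvPolynomial
open Pool.Agent.War

namespace Pool.Agent.WarC

namespace BLK3aux

/-- more simple points -/
theorem anti {n d b μ μ' : ℕ} (h : Block n d b μ') (hμ : μ ≤ μ')
    (hm : (b * μ' + n - 1) / n = (b * μ + n - 1) / n) : Block n d b μ := by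
  unfold Block at h
  rw [hm] at h
  obtain ⟨z, a, y, hK⟩ := h
  refine ⟨z, a, fun i => if hi : i.val < NN n d - μ' - (b * μ + n - 1) / n then y ⟨i, hi⟩ else 0,
    ?_⟩
  intro f hf h1 h2 h3
  refine hK f hf h1 h2 fun i j => ?_
  have := h3 ⟨i.val, by omega⟩ j
  simpa using this

theorem numA {ν q : ℕ} (h : (2 * (ν + 1) + 5) * q ≤ NN (ν + 1) 3) :
    (2 * ν + 1) * q ≤ NN ν 3 := by
  have h1 := WarM.NN_three ν
  have h2 := WarM.NN_three (ν + 1)
  have h3 : (ν + 4) * ((2 * ν + 1) * q) ≤ (ν + 4) * NN ν 3 := by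
    have e1 : (ν + 4) * (2 * ν + 1) ≤ (ν + 1) * (2 * (ν + 1) + 5) := by nlinarith
    have e2 : (ν + 4) * ((2 * ν + 1) * q) ≤ (ν + 1) * ((2 * (ν + 1) + 5) * q) := by
      calc (ν + 4) * ((2 * ν + 1) * q) = ((ν + 4) * (2 * ν + 1)) * q := by ring
        _ ≤ ((ν + 1) * (2 * (ν + 1) + 5)) * q := Nat.mul_le_mul_right _ e1
        _ = _ := by ring
    have e3 : (ν + 1) * NN (ν + 1) 3 = (ν + 4) * NN ν 3 := by
      have : 6 * ((ν + 1) * NN (ν + 1) 3) = 6 * ((ν + 4) * NN ν 3) := by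
        calc 6 * ((ν + 1) * NN (ν + 1) 3) = (ν + 1) * (6 * NN (ν + 1) 3) := by ring
          _ = (ν + 4) * (6 * NN ν 3) := by rw [h1, h2]; ring
          _ = _ := by ring
      omega
    calc _ ≤ _ := e2
      _ ≤ (ν + 1) * NN (ν + 1) 3 := Nat.mul_le_mul_left _ h
      _ = _ := e3
  exact Nat.le_of_mul_le_mul_left h3 (by omega)

theorem numB {ν q : ℕ} (hν : 2 ≤ ν) (h : (2 * (ν + 1) + 5) * q ≤ NN (ν + 1) 3) :
    q + ν + (ν + 2) ≤ NN (ν + 1) 2 := by
  have h1 := WarM.NN_two (ν + 1)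
  have h2 := WarM.NN_three (ν + 1)
  obtain ⟨t, rfl⟩ : ∃ t, ν = t + 2 := ⟨ν - 2, by omega⟩
  -- `q ≤ (t+4)(t+5)(t+6) / (6 (2t + 11))`
  have h3 : 6 * ((2 * t + 11) * q) ≤ (t + 4) * (t + 5) * (t + 6) := by
    have e : 6 * ((2 * (t + 2 + 1) + 5) * q) = 6 * ((2 * t + 11) * q) := by ring
    have e' : (t + 2 + 1 + 1) * (t + 2 + 1 + 2) * (t + 2 + 1 + 3) =
      (t + 4) * (t + 5) * (t + 6) := by ring
    rw [e'] at h2
    rw [← e, ← h2]
    exact Nat.mul_le_mul_left _ h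
  have h4 : 6 * q ≤ (t + 4) * (t + 5) := by
    have h5 : (t + 4) * (t + 5) * (t + 6) ≤ (t + 4) * (t + 5) * (2 * t + 11) :=
      Nat.mul_le_mul_left _ (by omega)
    have : (2 * t + 11) * (6 * q) ≤ (2 * t + 11) * ((t + 4) * (t + 5)) := by
      calc (2 * t + 11) * (6 * q) = 6 * ((2 * t + 11) * q) := by ring
        _ ≤ _ := h3.trans h5
        _ = _ := by ring
    exact Nat.le_of_mul_le_mul_left this (by omega)
  have e : (t + 2 + 1 + 1) * (t + 2 + 1 + 2) = t ^ 2 + 9 * t + 20 := by ring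
  have e2 : (t + 4) * (t + 5) = t ^ 2 + 9 * t + 20 := by ring
  rw [e] at h1
  rw [e2] at h4
  have : 0 ≤ t ^ 2 := Nat.zero_le _
  omega

theorem numC {m : ℕ} (hm : 2 ≤ m) : (2 * (m + 1) + 1) * m ≤ NN (m + 1) 3 := by
  have h := WarM.NN_three (m + 1)
  obtain ⟨t, rfl⟩ : ∃ t, m = t + 2 := ⟨m - 2, by omega⟩
  have e1 : (t + 2 + 1 + 1) * (t + 2 + 1 + 2) * (t + 2 + 1 + 3) =
      t ^ 3 + 15 * t ^ 2 + 74 * t + 120 := by ring
  have e2 : (2 * (t + 2 + 1) + 1) * (t + 2) = 2 * t ^ 2 + 11 * t + 14 := by ring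
  rw [e1] at h
  rw [e2]
  have : 0 ≤ t ^ 3 + 3 * t ^ 2 := Nat.zero_le _
  omega

/-- the main case -/
theorem MB3 {ν b q D : ℕ} (hν : 2 ≤ ν) (hbn : b ≤ ν + 1) (hD : D < ν + 1)
    (hq : ν + 1 ≤ q + D) (h : (2 * (ν + 1) + 5) * q ≤ NN (ν + 1) 3) :
    Block (ν + 1) 3 b ((ν + 1) * q + D) := by
  have hu := numA h
  have hv := numB hν h
  have hN : NN (ν + 1) 3 = NN ν 3 + NN (ν + 1) 2 := NN_succ ν 2
  obtain ⟨hc1, hc2, hc3⟩ := arith3C1 (b := b) hD hbn
  have hm := arith4C1 (b := b) (q := q) (D := D) (ν := ν) rfl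
  generalize (b * D + ν) / (ν + 1) = c at hc1 hc2 hc3 hm
  have hbu : (ν + b) * q ≤ NN ν 3 := (Nat.mul_le_mul_right _ (by omega)).trans hu
  have e2 : (ν + b) * q = ν * q + b * q := by ring
  have e3 : b * (q + D) = b * q + b * D := by ring
  have e4 : (ν + 1) * q = ν * q + q := by ring
  have hN1 : NN (ν + 1) 1 = ν + 2 := NN_right_one (ν + 1)
  obtain ⟨z, a, y, hK⟩ := WarM.CORE ν 1 b q 0 c (NN ν 3 - (ν + b) * q)
    (NN (ν + 1) 2 - (c + (q + D))) (q + D) 0 (by omega) hc1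
    (WarM.AH _ _ _ (by omega) (by omega) hu) (by simp only [Nat.reduceAdd]; omega)
    (WarM.ONE _ _ (by omega)) (GG.zero _ _) (GG.zero _ _) (le_refl _)
    (by simp only [Nat.mul_zero]; norm_num; omega) hq (by omega)
    (by simp only [Nat.mul_zero]; rw [hN1]; omega)
  have hcα : Fintype.card ((Fin b × Fin q) ⊕ ((Fin b × Fin 0) ⊕ Fin c)) =
      (b * ((ν + 1) * q + D) + (ν + 1) - 1) / (ν + 1) := by
    simp only [Fintype.card_sum, Fintype.card_prod, Fintype.card_fin]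
    rw [hm]
    omega
  have hcβ : Fintype.card (Fin (NN ν 3 - (ν + b) * q) ⊕
      Fin (NN (ν + 1) 2 - (c + (q + D)))) =
      NN (ν + 1) 3 - ((ν + 1) * q + D) -
        (b * ((ν + 1) * q + D) + (ν + 1) - 1) / (ν + 1) := by
    simp only [Fintype.card_sum, Fintype.card_fin]
    rw [hm]
    omega
  exact ⟨_, _, _, hK.reindexC1 (Fintype.equivFinOfCardEq hcα).symm
    (Fintype.equivFinOfCardEq hcβ).symm⟩

end BLK3aux

open BLK3aux

theorem x_BLK3 (h : S_SM3) : S_BLK3 := by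
  intro n b μ hn hb1 hbn hnμ hμ
  obtain ⟨ν, rfl⟩ : ∃ ν, n = ν + 1 := ⟨n - 1, by omega⟩
  have hμq : (ν + 1) * (μ / (ν + 1)) + μ % (ν + 1) = μ := Nat.div_add_mod μ (ν + 1)
  have hDlt : μ % (ν + 1) < ν + 1 := Nat.mod_lt _ (by omega)
  have hq1 : 1 ≤ μ / (ν + 1) := (Nat.one_le_div_iff (by omega)).2 hnμ
  have hq5 : (2 * (ν + 1) + 5) * (μ / (ν + 1)) ≤ NN (ν + 1) 3 := by
    refine Nat.le_of_mul_le_mul_left (c := ν + 1) ?_ (by omega)
    calc (ν + 1) * ((2 * (ν + 1) + 5) * (μ / (ν + 1))) =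
        (2 * (ν + 1) + 5) * ((ν + 1) * (μ / (ν + 1))) := by ring
      _ ≤ (2 * (ν + 1) + 5) * μ := Nat.mul_le_mul_left _ (by omega)
      _ ≤ _ := hμ
  by_cases hD0 : μ % (ν + 1) = 0
  · -- `D = 0`
    rw [hD0, add_zero] at hμq
    clear hD0 hDlt
    generalize μ / (ν + 1) = q at hμq hq1 hq5
    have hG : GG (ν + 1) 3 q :=
      WarM.AH _ _ _ (by omega) (by omega) ((Nat.mul_le_mul_right _ (by omega)).trans hq5)
    refine WarM.PB (ν + 1) 3 b q μ (by omega) hb1 hG hμq.ge ?_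
    have := arith4C1 (b := b) (D := 0) (ν := ν) (q := q) (μ := μ) (by rw [add_zero]; exact hμq)
    rw [this, mul_zero, zero_add, Nat.div_eq_of_lt (show ν < ν + 1 by omega), add_zero]
  rcases Nat.lt_or_ge (μ / (ν + 1) + μ % (ν + 1)) (ν + 1) with hS | hS
  · -- small case
    obtain ⟨hc1, hc2, hc3⟩ := arith3C1 (b := b) hDlt hbn
    have hm := arith4C1 (b := b) hμq
    have hcl : (ν + 1) * ((b * (μ % (ν + 1)) + ν) / (ν + 1)) < b * (μ % (ν + 1)) + (ν + 1) := by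
      have := Nat.mul_div_le (b * (μ % (ν + 1)) + ν) (ν + 1)
      omega
    generalize μ / (ν + 1) = q at hS hm hμq hq1 hq5
    generalize μ % (ν + 1) = D at hS hm hμq hDlt hD0 hc1 hc2 hc3 hcl
    generalize (b * D + ν) / (ν + 1) = c at hc1 hc2 hc3 hm hcl
    have hD1 : 1 ≤ D := by omega
    rcases Nat.lt_or_ge c b with hcb | hcb
    · -- `c < b`
      have hDD : D ≤ (ν + 1) * c / b := (Nat.le_div_iff_mul_le (by omega)).2 (by
        rw [mul_comm D b]; exact hc3)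
      have hD'1 : b * ((ν + 1) * c / b) ≤ (ν + 1) * c := Nat.mul_div_le _ _
      have hD'3 : (ν + 1) * c < b * ((ν + 1) * c / b + 1) :=
        Nat.lt_mul_div_succ _ (by omega)
      have hD'2 : (ν + 1) * c / b < ν + 1 := by
        rw [Nat.div_lt_iff_lt_mul (by omega)]
        exact Nat.mul_lt_mul_of_pos_left hcb (by omega)
      have hc0 : 1 ≤ c := by
        by_contra hc
        have : c = 0 := by omega
        subst this
        have : 1 ≤ b * D := Nat.mul_pos (by omega) (by omega)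
        omega
      obtain ⟨D', hD'⟩ : ∃ D', D' = (ν + 1) * c / b := ⟨_, rfl⟩
      rw [← hD'] at hDD hD'1 hD'2 hD'3
      have hbD : b * D ≤ b * D' := Nat.mul_le_mul_left _ hDD
      have hm' : (b * ((ν + 1) * q + D') + (ν + 1) - 1) / (ν + 1) = b * q + c := by
        rw [arith4C1 rfl]
        congr 1
        refine Nat.div_eq_of_lt_le ?_ ?_
        · rw [mul_comm c]
          omega
        · rw [mul_comm (c + 1), mul_add, mul_one]
          omega
      have hB : Block (ν + 1) 3 b ((ν + 1) * q + D') := by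
        rcases Nat.lt_or_ge (q + D') (ν + 1) with hS' | hS'
        · exact h (ν + 1) b c D' q hc0 hcb hbn hD'1 hD'3 (by omega) hq1 hS'
        · exact MB3 (by omega) hbn hD'2 hS' hq5
      exact anti hB (by omega) (by rw [hm', hm])
    · -- `c = b`
      have hcb' : c = b := by omega
      have hG : GG (ν + 1) 3 (q + 1) :=
        WarM.AH _ _ _ (by omega) (by omega)
          ((Nat.mul_le_mul_left _ (by omega)).trans (numC (m := ν) (by omega)))
      refine WarM.PB (ν + 1) 3 b (q + 1) μ (by omega) hb1 hG (by rw [mul_add, mul_one]; omega) ?_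
      rw [hm, hcb', mul_add, mul_one]
  · have := MB3 (b := b) (by omega) hbn hDlt hS hq5
    rw [hμq] at this
    exact this

end Pool.Agent.WarC
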