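import Pool.Agent.WarC.Stmts2
import Pool.Agent.WarM.PB
import Pool.Agent.War5.Cub5

/-!
# Simultaneous Waring decompositions (MP_db021c_ag): the block lemma for cubics   (helper63)
-/

set_option autoImplicit false

open Module MvPolynomial
open Pool.Agent.War Pool.Agent.WarS

namespace Pool.Agent.WarC

namespace BLKCaux

/-- more simple points (as `WarM.Block_anti`) -/
theorem anti {n d b μ μ' : ℕ} (h : Block n d b μ') (hμ : μ ≤ μ')
    (hm : (b * μ' + n - 1) / n = (b * μ + n - 1) / n) : Block n d b μ := by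
  unfold Block at h
  rw [hm] at h
  obtain ⟨z, a, y, hK⟩ := h
  refine ⟨z, a, fun i => if hi : i.val < NN n d - μ' - (b * μ + n - 1) / n then y ⟨i, hi⟩ else 0,
    ?_⟩
  intro f hf h1 h2 h3
  refine hK f hf h1 h2 fun i j => ?_
  have := h3 ⟨i.val, by omega⟩ j
  simpa using this

theorem six_NN (m : ℕ) : 6 * NN m 3 = (m + 1) * (m + 2) * (m + 3) := by
  have h2 : ∀ k : ℕ, 2 * NN k 2 = (k + 1) * (k + 2) := by
    intro k
    induction k with
    | zero => rfl
    | succ k ih =>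
      rw [NN_succ, NN_right_one]
      nlinarith
  induction m with
  | zero => rfl
  | succ m ih =>
    rw [NN_succ]
    have h := h2 (m + 1)
    nlinarith

/-- the number of double points is small enough for `CUB` -/
theorem cub_q {n q : ℕ} (hn : 3 ≤ n) (h : (2 * n + 1) * (n * q + 1) ≤ n * NN n 3) :
    9 * (q + 1) ≤ (n + 3) ^ 2 := by
  have h6 := six_NN n
  by_contra hcon
  have h1 : (n + 3) ^ 2 + 1 ≤ 9 * (q + 1) := by omega
  have h2 : 6 * ((2 * n + 1) * (n * q + 1)) ≤ n * ((n + 1) * (n + 2) * (n + 3)) := by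
    rw [← h6]
    nlinarith
  have h3 : 6 * ((2 * n + 1) * (n * q)) < n * ((n + 1) * (n + 2) * (n + 3)) := by
    nlinarith
  have h4 : n * (6 * ((2 * n + 1) * q)) < n * ((n + 1) * (n + 2) * (n + 3)) := by
    calc n * (6 * ((2 * n + 1) * q)) = 6 * ((2 * n + 1) * (n * q)) := by ring
      _ < _ := h3
  have h5 : 6 * ((2 * n + 1) * q) < (n + 1) * (n + 2) * (n + 3) := Nat.lt_of_mul_lt_mul_left h4
  obtain ⟨t, rfl⟩ : ∃ t, n = t + 3 := ⟨n - 3, by omega⟩
  have e1 : (t + 3 + 1) * (t + 3 + 2) * (t + 3 + 3) = t ^ 3 + 15 * t ^ 2 + 74 * t + 120 := by ring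
  have e2 : (t + 3 + 3) ^ 2 = t ^ 2 + 12 * t + 36 := by ring
  rw [e1] at h5
  rw [e2] at h1
  have h7 : (2 * (t + 3) + 1) * (t ^ 2 + 12 * t + 28) ≤ (2 * (t + 3) + 1) * (9 * q) :=
    Nat.mul_le_mul_left _ (by omega)
  have e3 : (2 * (t + 3) + 1) * (t ^ 2 + 12 * t + 28) =
      2 * t ^ 3 + 31 * t ^ 2 + 140 * t + 196 := by ring
  have e4 : (2 * (t + 3) + 1) * (9 * q) = 9 * ((2 * (t + 3) + 1) * q) := by ring
  rw [e3, e4] at h7
  have h8 : 0 ≤ t ^ 3 := Nat.zero_le _
  omega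

theorem NN_ge {n : ℕ} (hn : 3 ≤ n) : (2 * n + 1) * (n - 1) ≤ NN n 3 := by
  obtain ⟨t, rfl⟩ : ∃ t, n = t + 3 := ⟨n - 3, by omega⟩
  have h6 := six_NN (t + 3)
  have e1 : (t + 3 + 1) * (t + 3 + 2) * (t + 3 + 3) = t ^ 3 + 15 * t ^ 2 + 74 * t + 120 := by ring
  have e2 : 6 * ((2 * (t + 3) + 1) * (t + 3 - 1)) = 12 * t ^ 2 + 66 * t + 84 := by
    rw [show t + 3 - 1 = t + 2 by omega]
    ring
  rw [e1] at h6
  have h8 : 0 ≤ t ^ 3 := Nat.zero_le _
  have h9 : 0 ≤ t ^ 2 := Nat.zero_le _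
  omega

/-- number of full points for each form -/
def rr (b c r : ℕ) (k : Fin b) : ℕ := if k.val < c then r + 1 else r

theorem sum_rr {b c r : ℕ} (hc : c ≤ b) : ∑ k, rr b c r k = b * r + c := by
  have h : ∀ k : Fin b, rr b c r k = r + if k.val < c then 1 else 0 := by
    intro k
    unfold rr
    split_ifs <;> rfl
  rw [Finset.sum_congr rfl fun k _ => h k, Finset.sum_add_distrib, Finset.sum_const,
    Finset.card_univ, Fintype.card_fin, smul_eq_mul]
  congr 1
  rw [Fin.sum_univ_eq_sum_range (fun j => if j < c then 1 else 0) b, ← Finset.sum_filter,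
    Finset.sum_const, smul_eq_mul, mul_one]
  have : (Finset.range b).filter (fun x => x < c) = Finset.range c := by
    ext x
    simp only [Finset.mem_filter, Finset.mem_range]
    omega
  rw [this, Finset.card_range]

/-- the main case -/
theorem main (hP : S_PERT) (hC : S_COR3) (hN : S_NUMC) {ν b q D : ℕ} (hn : 3 ≤ ν + 1) (hb : 2 ≤ b)
    (hbn : b ≤ ν + 1) (hD : 1 ≤ D) (hDn : D < ν + 1) (hq : ν + 1 ≤ q + D)
    (hμ : (2 * (ν + 1) + 1) * ((ν + 1) * q + D) ≤ (ν + 1) * NN (ν + 1) 3)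
    (hX : ¬ XB (ν + 1) b ((ν + 1) * q + D)) : Block (ν + 1) 3 b ((ν + 1) * q + D) := by
  obtain ⟨hc1, hc2, hc3⟩ := arith3C1 (b := b) hDn hbn
  have hm := arith4C1 (b := b) (rfl : (ν + 1) * q + D = (ν + 1) * q + D)
  have hcl : (ν + 1) * ((b * D + ν) / (ν + 1)) < b * D + (ν + 1) := by
    have := Nat.mul_div_le (b * D + ν) (ν + 1)
    omega
  generalize (b * D + ν) / (ν + 1) = c at hc1 hc2 hc3 hm hcl
  obtain ⟨u, r, e, hur, huD, hu1, hu2, hr, hsum, hoff⟩ := hN (ν + 1) b q D c hn hb hbn hD hDn hq hc3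
    hcl hμ hX
  rw [show ν + 1 - 1 = ν by omega] at hu1
  obtain ⟨β, rfl⟩ : ∃ β, b = β + 2 := ⟨b - 2, by omega⟩
  have hN : NN (ν + 1) 3 = NN ν 3 + NN (ν + 1) 2 := NN_succ ν 2
  -- the residual
  have hσ : ∀ k : Fin (β + 2), finRotate (β + 2) k ≠ k := by
    intro k
    rw [finRotate_apply]
    intro h
    have h1 : (1 : Fin (β + 2)) = 0 := by
      have : k + 1 = k + 0 := by rw [h, add_zero]
      exact add_left_cancel this
    exact absurd h1 (by
      intro h2
      have := congrArg Fin.val h2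
      simp at this)
  have hch : (r + 1).choose 2 = r.choose 2 + r := by
    rw [Nat.choose_succ_succ' r 1, Nat.choose_one_right, add_comm]
  have hrn : (ν + 1) * (r + 1) = (ν + 1) * r + (ν + 1) := by ring
  obtain ⟨x, hx⟩ := hP (ν + 1) (β + 2) e ((ν + 1) * r + D + u) (rr (β + 2) c r)
    (finRotate (β + 2)) (by omega) hσ (fun k => by unfold rr; split_ifs <;> omega)
    (by rw [sum_rr hc1]; omega)
    (fun k => by
      unfold rr
      split_ifs <;> (try rw [hch]) <;> (try rw [hrn]) <;> omega)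
  rw [sum_rr hc1] at hx
  have hx' : finrank ℂ (TrC1 (ν + 1) 2 x) ≤ (β + 2) * u := by
    refine hx.trans ?_
    have e1 : (β + 2) * ((ν + 1) * r + D + u) =
        (ν + 1) * ((β + 2) * r) + (β + 2) * D + (β + 2) * u := by ring
    have e2 : (ν + 1) * ((β + 2) * r + c) = (ν + 1) * ((β + 2) * r) + (ν + 1) * c := by ring
    rw [e1, e2]
    omega
  have e3 : (ν + (β + 2)) * u = ν * u + (β + 2) * u := by ring
  obtain ⟨z, a, y, hK⟩ := hC ν (β + 2) u e (NN ν 3 - (ν + (β + 2)) * u)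
    ((k : Fin (β + 2)) × Fin (rr (β + 2) c r k)) (by omega)
    (War5.CUB ν u (by rw [show ν + 3 = ν + 1 + 2 by omega]; exact hu2)) (by omega)
    (by simp only [Fintype.card_sigma, Fintype.card_fin, sum_rr hc1]; omega) ⟨x, hx'⟩
  have e4 : (β + 2) * q = (β + 2) * u + (β + 2) * r := by rw [← hur]; ring
  have e5 : (ν + 1) * q = ν * u + u + (ν + 1) * r := by rw [← hur]; ring
  have hcα : Fintype.card ((Fin (β + 2) × Fin u) ⊕
      ((k : Fin (β + 2)) × Fin (rr (β + 2) c r k))) =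
      ((β + 2) * ((ν + 1) * q + D) + (ν + 1) - 1) / (ν + 1) := by
    simp only [Fintype.card_sum, Fintype.card_prod, Fintype.card_fin, Fintype.card_sigma,
      sum_rr hc1]
    rw [hm]
    omega
  have hcβ : Fintype.card (Fin (NN ν 3 - (ν + (β + 2)) * u) ⊕ Fin e) =
      NN (ν + 1) 3 - ((ν + 1) * q + D) - ((β + 2) * ((ν + 1) * q + D) + (ν + 1) - 1) / (ν + 1) := by
    simp only [Fintype.card_sum, Fintype.card_fin]
    rw [hm]
    omega
  exact ⟨_, _, _, hK.reindexC1 (Fintype.equivFinOfCardEq hcα).symm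
    (Fintype.equivFinOfCardEq hcβ).symm⟩

end BLKCaux

open BLKCaux in
theorem x_BLKC (hS : S_SM3) (hP : S_PERT) (hC : S_COR3) (hN : S_NUMC) : S_BLKC := by
  intro n b μ hn hb1 hbn hnμ hμ hX
  obtain ⟨ν, rfl⟩ : ∃ ν, n = ν + 1 := ⟨n - 1, by omega⟩
  have hμq : (ν + 1) * (μ / (ν + 1)) + μ % (ν + 1) = μ := Nat.div_add_mod μ (ν + 1)
  have hDlt : μ % (ν + 1) < ν + 1 := Nat.mod_lt _ (by omega)
  have hq1 : 1 ≤ μ / (ν + 1) := (Nat.one_le_div_iff (by omega)).2 hnμ
  by_cases hD0 : μ % (ν + 1) = 0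
  · -- `D = 0`
    rw [hD0, add_zero] at hμq
    clear hD0 hDlt
    generalize μ / (ν + 1) = q at hμq hq1
    have hm := arith4C1 (b := b) (D := 0) (ν := ν) (q := q) (μ := μ) (by rw [add_zero]; exact hμq)
    obtain ⟨q', rfl⟩ : ∃ q', q = q' + 1 := ⟨q - 1, by omega⟩
    have hG : GG (ν + 1) 3 (q' + 1) := by
      refine War5.CUB _ _ (cub_q hn ((Nat.mul_le_mul_left _ ?_).trans hμ))
      rw [← hμq, mul_add, mul_one]
      omega
    refine WarM.PB (ν + 1) 3 b (q' + 1) μ (by omega) hb1 hG hμq.ge ?_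
    rw [hm, mul_zero, zero_add, Nat.div_eq_of_lt (show ν < ν + 1 by omega), add_zero]
  obtain ⟨hc1, hc2, hc3⟩ := arith3C1 (b := b) hDlt hbn
  have hm := arith4C1 (b := b) hμq
  have hcl : (ν + 1) * ((b * (μ % (ν + 1)) + ν) / (ν + 1)) < b * (μ % (ν + 1)) + (ν + 1) := by
    have := Nat.mul_div_le (b * (μ % (ν + 1)) + ν) (ν + 1)
    omega
  generalize μ / (ν + 1) = q at hm hμq hq1
  generalize μ % (ν + 1) = D at hm hμq hDlt hD0 hc1 hc2 hc3 hcl
  have hD1 : 1 ≤ D := by omega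
  subst hμq
  have hpure : (b * D + ν) / (ν + 1) = b → Block (ν + 1) 3 b ((ν + 1) * q + D) := by
    intro hcb
    have hG : GG (ν + 1) 3 (q + 1) := by
      refine War5.CUB _ _ (cub_q hn ((Nat.mul_le_mul_left _ ?_).trans hμ))
      omega
    refine WarM.PB (ν + 1) 3 b (q + 1) _ (by omega) hb1 hG (by rw [mul_add, mul_one]; omega) ?_
    rw [hm, hcb, mul_add, mul_one]
  generalize (b * D + ν) / (ν + 1) = c at hc1 hc2 hc3 hm hcl hpure
  have hc0 : 1 ≤ c := by
    by_contra hc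
    have : c = 0 := by omega
    subst this
    have : 1 ≤ b * D := Nat.mul_pos (by omega) (by omega)
    omega
  rcases Nat.lt_or_ge c b with hcb | hcb
  swap
  · exact hpure (by omega)
  have hb2 : 2 ≤ b := by omega
  rcases Nat.lt_or_ge (q + D) (ν + 1) with hS1 | hS1
  swap
  · exact main hP hC hN hn hb2 hbn hD1 hDlt hS1 hμ hX
  -- small case
  have hDD : D ≤ (ν + 1) * c / b := (Nat.le_div_iff_mul_le (by omega)).2 (by
    rw [mul_comm D b]; exact hc3)
  have hD'1 : b * ((ν + 1) * c / b) ≤ (ν + 1) * c := Nat.mul_div_le _ _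
  have hD'3 : (ν + 1) * c < b * ((ν + 1) * c / b + 1) := by
    have h1 := Nat.div_add_mod ((ν + 1) * c) b
    have h2 : ((ν + 1) * c) % b < b := Nat.mod_lt _ (by omega)
    rw [mul_add, mul_one]
    omega
  have hD'2 : (ν + 1) * c / b < ν + 1 := by
    rw [Nat.div_lt_iff_lt_mul (by omega)]
    exact Nat.mul_lt_mul_of_pos_left hcb (by omega)
  generalize (ν + 1) * c / b = D' at hDD hD'1 hD'2 hD'3
  have hbD : b * D ≤ b * D' := Nat.mul_le_mul_left _ hDD
  have hm' : (b * ((ν + 1) * q + D') + (ν + 1) - 1) / (ν + 1) = b * q + c := by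
    rw [arith4C1 rfl]
    congr 1
    refine Nat.div_eq_of_lt_le ?_ ?_
    · rw [mul_comm c]
      omega
    · rw [mul_comm (c + 1), mul_add, mul_one]
      omega
  have hB : Block (ν + 1) 3 b ((ν + 1) * q + D') := by
    rcases Nat.lt_or_ge (q + D') (ν + 1) with hS' | hS'
    · exact hS (ν + 1) b c D' q hc0 hcb hbn hD'1 hD'3 (by omega) hq1 hS'
    · have h0 : (ν + 1) * (q + 1) ≤ (ν + 1) * ν := Nat.mul_le_mul_left _ (by omega)
      have h0' : (ν + 1) * (q + 1) = (ν + 1) * q + (ν + 1) := by ring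
      have h1 : (ν + 1) * q + D' ≤ (ν + 1) * ν := by omega
      refine main hP hC hN hn hb2 hbn (by omega) hD'2 hS' ?_ ?_
      · have h2 := NN_ge hn
        rw [show ν + 1 - 1 = ν by omega] at h2
        calc (2 * (ν + 1) + 1) * ((ν + 1) * q + D') ≤ (2 * (ν + 1) + 1) * ((ν + 1) * ν) :=
              Nat.mul_le_mul_left _ h1
          _ = (ν + 1) * ((2 * (ν + 1) + 1) * ν) := by ring
          _ ≤ _ := Nat.mul_le_mul_left _ h2
      · rintro (⟨h3, -, h4⟩ | ⟨h3, -, h4⟩ | ⟨h3, -, h4⟩)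
        · have : ν = 3 := by omega
          subst this
          omega
        · have : ν = 3 := by omega
          subst this
          omega
        · have : ν = 4 := by omega
          subst this
          omega
  exact anti hB (by omega) (by rw [hm', hm])

end Pool.Agent.WarC
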