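import Pool.Agent.WarC.Stmts3
import Pool.Agent.WarC.BLKC
import Pool.Agent.War.TOP

/-!
# Simultaneous Waring decompositions (MP_db021c_ag): the block of `n` cubics above the diagonal   (helper76)
-/

set_option autoImplicit false

open Module MvPolynomial
open Pool.Agent.War Pool.Agent.WarS

namespace Pool.Agent.WarC

namespace BLKMaux

open BLKCaux (six_NN rr sum_rr)

/-- assembly of the blocks, with simple points left over -/
theorem asm3 {n d h r : ℕ} {T : Type} [Fintype T] (b m c : T → ℕ) (hc : ∀ t, m t + c t = h)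
    (hm : ∑ t, m t + r = h)
    (H : ∀ t, ∃ (z : Fin (m t) → Fin n → ℂ) (a : Fin (m t) → Fin (b t) → ℂ)
      (y : Fin (c t) → Fin n → ℂ), Kill n d z a y) :
    ∃ (z : ((t : T) × Fin (m t)) → Fin n → ℂ)
      (a : ((t : T) × Fin (m t)) → ((t : T) × Fin (b t)) → ℂ) (y : Fin r → Fin n → ℂ),
      Kill n d z a y := by
  classical
  choose z0 a0 y0 hK using H
  obtain ⟨E⟩ : Nonempty ((((t : T) × Fin (m t)) ⊕ Fin r) ≃ Fin h) :=
    ⟨Fintype.equivFinOfCardEq (by simpa using hm)⟩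
  let ι : ((t : T) × Fin (m t)) ↪ Fin h :=
    ⟨fun q => E (Sum.inl q), fun q q' hq => Sum.inl_injective (E.injective hq)⟩
  -- extend to equivalences
  have hE : ∀ t, ∃ e : Fin (m t) ⊕ Fin (c t) ≃ Fin h, ∀ i, e (Sum.inl i) = ι ⟨t, i⟩ := by
    intro t
    have hinj : Function.Injective fun i : Fin (m t) => ι ⟨t, i⟩ := by
      intro i i' hii
      have := ι.injective hii
      simpa using this
    let R : Set (Fin h) := Set.range fun i : Fin (m t) => ι ⟨t, i⟩
    have e1 : Fin (m t) ≃ R := Equiv.ofInjective _ hinj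
    have hcard : Fintype.card (↥(Rᶜ) : Type) = c t := by
      rw [Fintype.card_compl_set, Fintype.card_fin, ← Fintype.card_congr e1, Fintype.card_fin,
        ← hc t]
      omega
    have e2 : Fin (c t) ≃ ↥(Rᶜ) := (Fintype.equivFinOfCardEq hcard).symm
    refine ⟨(Equiv.sumCongr (Equiv.ofInjective _ hinj) e2).trans (Equiv.Set.sumCompl R), ?_⟩
    intro i
    simp [R]
  choose e he using hE
  obtain ⟨z, hz⟩ := (Gen.forall fun t => KG_gen (e t) (z0 t) (a0 t) (y0 t) (hK t)).exists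
  let A : Fin h → ((t : T) × Fin (b t)) → ℂ := fun i q =>
    ∑ i' : Fin (m q.1), if ι ⟨q.1, i'⟩ = i then a0 q.1 i' q.2 else 0
  have hA1 : ∀ t i j, A (ι ⟨t, i⟩) ⟨t, j⟩ = a0 t i j := by
    intro t i j
    show (∑ i' : Fin (m t), if ι ⟨t, i'⟩ = ι ⟨t, i⟩ then a0 t i' j else 0) = a0 t i j
    rw [Finset.sum_eq_single i]
    · simp
    · intro i' _ hi'
      rw [if_neg]
      intro hh
      have := ι.injective hh
      simp at this
      exact hi' this
    · simp
  have hA2 : ∀ t t' i j, t' ≠ t → A (ι ⟨t, i⟩) ⟨t', j⟩ = 0 := by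
    intro t t' i j ht'
    show (∑ i' : Fin (m t'), if ι ⟨t', i'⟩ = ι ⟨t, i⟩ then a0 t' i' j else 0) = 0
    refine Finset.sum_eq_zero fun i' _ => ?_
    rw [if_neg]
    intro hh
    exact ht' (congrArg Sigma.fst (ι.injective hh))
  refine ⟨fun q => z (ι q), fun q => A (ι q), fun i => z (E (Sum.inr i)), ?_⟩
  rintro f hd h1 h2 h3 ⟨t, j⟩
  have h4 : ∀ i j, eval (z i) (f j) = 0 := by
    intro i j
    obtain ⟨q, rfl⟩ := E.surjective i
    rcases q with q | q
    · exact h1 q j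
    · exact h3 q j
  refine hz t (fun j => f ⟨t, j⟩) (fun j => hd _) (fun i j => h4 i _) (fun i k => ?_) j
  have h5 : ∑ q, A (ι ⟨t, i⟩) q * eval (z (ι ⟨t, i⟩)) (pderiv k (f q)) = 0 := h2 ⟨t, i⟩ k
  rw [Fintype.sum_sigma, Finset.sum_eq_single t] at h5
  · rw [← h5]
    refine Finset.sum_congr rfl fun j _ => ?_
    rw [hA1]
    simp only [he]
  · intro t' _ ht'
    refine Finset.sum_eq_zero fun j _ => ?_
    rw [hA2 _ _ _ _ ht', zero_mul]
  · simp

theorem rot_ne {β : ℕ} (k : Fin (β + 2)) : finRotate (β + 2) k ≠ k := by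
  rw [finRotate_apply]
  intro h
  have h1 : (1 : Fin (β + 2)) = 0 := by
    have : k + 1 = k + 0 := by rw [h, add_zero]
    exact add_left_cancel this
  exact absurd h1 (by
    intro h2
    have := congrArg Fin.val h2
    simp at this)

/-- the number of double points is small enough for `CUB` -/
theorem cub_q' {n q : ℕ} (hn : 3 ≤ n) (h : (2 * n + 1) * (n * q) < n * NN n 3 + (2 * n + 1)) :
    9 * q ≤ (n + 3) ^ 2 := by
  have h6 := six_NN n
  by_contra hcon
  have h1 : (n + 3) ^ 2 + 1 ≤ 9 * q := by omega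
  have h3 : n * ((2 * n + 1) * q) < n * (NN n 3 + 3) := by
    calc n * ((2 * n + 1) * q) = (2 * n + 1) * (n * q) := by ring
      _ < n * NN n 3 + (2 * n + 1) := h
      _ ≤ n * (NN n 3 + 3) := by
        rw [mul_add]
        omega
  have h4 : (2 * n + 1) * q < NN n 3 + 3 := Nat.lt_of_mul_lt_mul_left h3
  have h5 : 6 * ((2 * n + 1) * q) < (n + 1) * (n + 2) * (n + 3) + 18 := by omega
  obtain ⟨t, rfl⟩ : ∃ t, n = t + 3 := ⟨n - 3, by omega⟩
  have e1 : (t + 3 + 1) * (t + 3 + 2) * (t + 3 + 3) = t ^ 3 + 15 * t ^ 2 + 74 * t + 120 := by ring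
  have e2 : (t + 3 + 3) ^ 2 = t ^ 2 + 12 * t + 36 := by ring
  rw [e1] at h5
  rw [e2] at h1
  have h7 : (2 * (t + 3) + 1) * (t ^ 2 + 12 * t + 37) ≤ (2 * (t + 3) + 1) * (9 * q) :=
    Nat.mul_le_mul_left _ (by omega)
  have e3 : (2 * (t + 3) + 1) * (t ^ 2 + 12 * t + 37) =
      2 * t ^ 3 + 31 * t ^ 2 + 158 * t + 259 := by ring
  have e4 : (2 * (t + 3) + 1) * (9 * q) = 9 * ((2 * (t + 3) + 1) * q) := by ring
  rw [e3, e4] at h7
  have h8 : 0 ≤ t ^ 3 := Nat.zero_le _
  omega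

/-- the main case, with explicit numbers -/
theorem main (hP : S_PERT) (hC : S_COR3) {ν β q D u r e c : ℕ} (hn : 2 ≤ ν)
    (hc1 : c ≤ β + 2) (hc3 : (β + 2) * D ≤ (ν + 1) * c)
    (hm : ((β + 2) * ((ν + 1) * q + D) + (ν + 1) - 1) / (ν + 1) = (β + 2) * q + c)
    (hur : u + r = q) (huD : ν + 1 ≤ u + D) (hu1 : (ν + (β + 2)) * u ≤ NN ν 3)
    (hu2 : 9 * u ≤ (ν + 3) ^ 2) (hr : 2 * (r + 1) ≤ ν + 2)
    (hsum : ((β + 2) * r + c) + e + ((ν + 1) * r + D + u) = NN (ν + 1) 2)
    (hoff : ν + 2 ≤ ((β + 2) * r + c) + e) :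
    Block (ν + 1) 3 (β + 2) ((ν + 1) * q + D) := by
  have hN : NN (ν + 1) 3 = NN ν 3 + NN (ν + 1) 2 := NN_succ ν 2
  have hch : (r + 1).choose 2 = r.choose 2 + r := by
    rw [Nat.choose_succ_succ' r 1, Nat.choose_one_right, add_comm]
  have hrn : (ν + 1) * (r + 1) = (ν + 1) * r + (ν + 1) := by ring
  obtain ⟨x, hx⟩ := hP (ν + 1) (β + 2) e ((ν + 1) * r + D + u) (rr (β + 2) c r)
    (finRotate (β + 2)) (by omega) rot_ne (fun k => by unfold rr; split_ifs <;> omega)
    (by rw [sum_rr hc1]; omega)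
    (fun k => by
      unfold rr
      split_ifs <;> (try rw [hch]) <;> (try rw [hrn]) <;> omega)
  rw [sum_rr hc1] at hx
  have hx' : finrank ℂ (TrC1 (ν + 1) 2 x) ≤ (β + 2) * u := by
    refine hx.trans ?_
    have e1 : (β + 2) * ((ν + 1) * r + D + u) =
        (ν + 1) * ((β + 2) * r) + (β + 2) * D + (β + 2) * u := by ring
    have e2 : (ν + 1) * ((β + 2) * r + c) = (ν + 1) * ((β + 2) * r) + (ν + 1) * c := by ring
    rw [e1, e2]
    omega
  have e3 : (ν + (β + 2)) * u = ν * u + (β + 2) * u := by ring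
  obtain ⟨z, a, y, hK⟩ := hC ν (β + 2) u e (NN ν 3 - (ν + (β + 2)) * u)
    ((k : Fin (β + 2)) × Fin (rr (β + 2) c r k)) (by omega)
    (War5.CUB ν u hu2) (by omega)
    (by simp only [Fintype.card_sigma, Fintype.card_fin, sum_rr hc1]; omega) ⟨x, hx'⟩
  have e4 : (β + 2) * q = (β + 2) * u + (β + 2) * r := by rw [← hur]; ring
  have e5 : (ν + 1) * q = ν * u + u + (ν + 1) * r := by rw [← hur]; ring
  have hcα : Fintype.card ((Fin (β + 2) × Fin u) ⊕
      ((k : Fin (β + 2)) × Fin (rr (β + 2) c r k))) =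
      ((β + 2) * ((ν + 1) * q + D) + (ν + 1) - 1) / (ν + 1) := by
    simp only [Fintype.card_sum, Fintype.card_prod, Fintype.card_fin, Fintype.card_sigma,
      sum_rr hc1]
    rw [hm]
    omega
  have hcβ : Fintype.card (Fin (NN ν 3 - (ν + (β + 2)) * u) ⊕ Fin e) =
      NN (ν + 1) 3 - ((ν + 1) * q + D) -
        ((β + 2) * ((ν + 1) * q + D) + (ν + 1) - 1) / (ν + 1) := by
    simp only [Fintype.card_sum, Fintype.card_fin]
    rw [hm]
    omega
  exact ⟨_, _, _, hK.reindexC1 (Fintype.equivFinOfCardEq hcα).symm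
    (Fintype.equivFinOfCardEq hcβ).symm⟩

/-- a block with explicit numbers of full and simple points (`r k = [k < c]`) -/
theorem blk (hP : S_PERT) (hC : S_COR3) {ν β u e eH w c m m' : ℕ} (hn : 2 ≤ ν)
    (hc1 : c ≤ β + 2) (hu2 : 9 * u ≤ (ν + 3) ^ 2)
    (hH : NN ν 3 ≤ ν * u + ((β + 2) * u + eH)) (hoff : ν + 2 ≤ c + e)
    (hsum : c + e + w = NN (ν + 1) 2) (hw : ν + 1 ≤ w)
    (hb : (β + 2) * w ≤ (β + 2) * u + (ν + 1) * c)
    (hm : (β + 2) * u + c = m) (hm' : eH + e = m') :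
    ∃ (z : Fin m → Fin (ν + 1) → ℂ) (a : Fin m → Fin (β + 2) → ℂ)
      (y : Fin m' → Fin (ν + 1) → ℂ), Kill (ν + 1) 3 z a y := by
  have hs : ∑ k, rr (β + 2) c 0 k = c := by rw [sum_rr hc1]; omega
  have hr1 : ∀ k, rr (β + 2) c 0 k ≤ 1 := fun k => by unfold rr; split_ifs <;> omega
  have hr2 : ∀ k, (rr (β + 2) c 0 k).choose 2 = 0 := fun k =>
    Nat.choose_eq_zero_of_lt (by have := hr1 k; omega)
  obtain ⟨x, hx⟩ := hP (ν + 1) (β + 2) e w (rr (β + 2) c 0)
    (finRotate (β + 2)) (by omega) rot_ne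
    (fun k => by
      have h1 := hr1 k
      have h2 := hr1 (finRotate (β + 2) k)
      omega)
    (by rw [hs]; omega)
    (fun k => by
      rw [hr2, hr2]
      have h2 := Nat.mul_le_mul_left (ν + 1) (hr1 (finRotate (β + 2) k))
      omega)
  rw [hs] at hx
  obtain ⟨z, a, y, hK⟩ := hC ν (β + 2) u e eH
    ((k : Fin (β + 2)) × Fin (rr (β + 2) c 0 k)) (by omega)
    (War5.CUB ν u hu2) hH
    (by simp only [Fintype.card_sigma, Fintype.card_fin, hs]; omega) ⟨x, by omega⟩
  have hcα : Fintype.card ((Fin (β + 2) × Fin u) ⊕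
      ((k : Fin (β + 2)) × Fin (rr (β + 2) c 0 k))) = m := by
    simp only [Fintype.card_sum, Fintype.card_prod, Fintype.card_fin, Fintype.card_sigma, hs]
    exact hm
  have hcβ : Fintype.card (Fin eH ⊕ Fin e) = m' := by
    simp only [Fintype.card_sum, Fintype.card_fin]
    exact hm'
  exact ⟨_, _, _, hK.reindexC1 (Fintype.equivFinOfCardEq hcα).symm
    (Fintype.equivFinOfCardEq hcβ).symm⟩

/-- three equal blocks -/
theorem three {n b m m' μ r : ℕ} (hn : 1 ≤ n) (hb : 3 * b = n) (hm : 3 * m = μ) (hmm : m + m' = μ + r)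
    (hN : NN n 3 = μ + (μ + r))
    (H : ∃ (z : Fin m → Fin n → ℂ) (a : Fin m → Fin b → ℂ) (y : Fin m' → Fin n → ℂ),
      Kill n 3 z a y) : Block n 3 n μ := by
  obtain ⟨z, a, y, hK⟩ := asm3 (T := Fin 3) (h := μ + r) (r := r) (n := n) (d := 3) (fun _ => b)
    (fun _ => m) (fun _ => m') (fun _ => hmm) (by simp; omega) (fun _ => H)
  have hq : (n * μ + n - 1) / n = μ := by
    have : n * μ + n - 1 = (n - 1) + n * μ := by omega
    rw [this, Nat.add_mul_div_left _ _ (by omega), Nat.div_eq_of_lt (by omega), zero_add]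
  have hcγ : Fintype.card ((_ : Fin 3) × Fin b) = n := by
    simp only [Fintype.card_sigma, Fintype.card_fin, Finset.sum_const, Finset.card_univ,
      smul_eq_mul]
    exact hb
  have hcα : Fintype.card ((_ : Fin 3) × Fin m) = (n * μ + n - 1) / n := by
    simp only [Fintype.card_sigma, Fintype.card_fin, Finset.sum_const, Finset.card_univ,
      smul_eq_mul]
    rw [hq]
    exact hm
  have hcβ : Fintype.card (Fin r) = NN n 3 - μ - (n * μ + n - 1) / n := by
    rw [hq, hN, Fintype.card_fin]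
    omega
  exact ⟨_, _, _, (Kill_equiv (Fintype.equivFinOfCardEq hcγ).symm hK).reindexC1
    (Fintype.equivFinOfCardEq hcα).symm (Fintype.equivFinOfCardEq hcβ).symm⟩

end BLKMaux

open BLKMaux in
theorem x_BLKM (hN : S_NUMB) (hP : S_PERT) (hC : S_COR3) : S_BLKM := by
  intro n μ hn h5 h1 h2
  by_cases h9 : n = 9
  · subst h9
    have e1 : NN 9 3 = 220 := by decide
    have e2 : NN 8 3 = 165 := by decide
    have e3 : NN (8 + 1) 2 = 55 := by decide
    rw [e1] at h1 h2
    have hμ : μ = 105 := by omega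
    subst hμ
    exact three (b := 3) (m := 35) (m' := 80) (r := 10) (by norm_num) (by norm_num) (by norm_num)
      (by norm_num) (by rw [e1]) (blk hP hC (ν := 8) (β := 1) (u := 11) (e := 36) (eH := 44)
        (w := 17) (c := 2) (by norm_num) (by norm_num) (by norm_num) (by rw [e2]) (by norm_num)
        (by rw [e3]) (by norm_num) (by norm_num) (by norm_num) (by norm_num))
  by_cases h12 : n = 12
  · subst h12
    have e1 : NN 12 3 = 455 := by decide
    have e2 : NN 11 3 = 364 := by decide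
    have e3 : NN (11 + 1) 2 = 91 := by decide
    rw [e1] at h1 h2
    have hμ : μ = 219 := by omega
    subst hμ
    exact three (b := 4) (m := 73) (m' := 163) (r := 17) (by norm_num) (by norm_num) (by norm_num)
      (by norm_num) (by rw [e1]) (blk hP hC (ν := 11) (β := 2) (u := 18) (e := 69) (eH := 94)
        (w := 21) (c := 1) (by norm_num) (by norm_num) (by norm_num) (by rw [e2]) (by norm_num)
        (by rw [e3]) (by norm_num) (by norm_num) (by norm_num) (by norm_num))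
  obtain ⟨ν, rfl⟩ : ∃ ν, n = ν + 1 := ⟨n - 1, by omega⟩
  have hμq : (ν + 1) * (μ / (ν + 1)) + μ % (ν + 1) = μ := Nat.div_add_mod μ (ν + 1)
  have hDlt : μ % (ν + 1) < ν + 1 := Nat.mod_lt _ (by omega)
  generalize μ / (ν + 1) = q at hμq
  generalize μ % (ν + 1) = D at hμq hDlt
  subst hμq
  have hm : ((ν + 1) * ((ν + 1) * q + D) + (ν + 1) - 1) / (ν + 1) = (ν + 1) * q + D := by
    have : (ν + 1) * ((ν + 1) * q + D) + (ν + 1) - 1 = ν + (ν + 1) * ((ν + 1) * q + D) := by omega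
    rw [this, Nat.add_mul_div_left _ _ (by omega), Nat.div_eq_of_lt (by omega), zero_add]
  rcases Nat.eq_zero_or_pos D with hD | hD
  · subst hD
    rw [add_zero] at h2 hm ⊢
    exact WarM.PB (ν + 1) 3 (ν + 1) q _ (by omega) (by omega)
      (War5.CUB _ _ (cub_q' hn h2)) le_rfl hm.symm
  · obtain ⟨u, r, e, hur, huD, hu1, hu2, hr, hsum, hoff⟩ :=
      hN (ν + 1) q D hn hD hDlt h1 h2 h5 h9 h12
    obtain ⟨β, rfl⟩ : ∃ β, ν = β + 1 := ⟨ν - 1, by omega⟩
    rw [show β + 1 + 1 - 1 = β + 1 by omega] at hu1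
    rw [show β + 1 + 1 = β + 2 by omega] at *
    exact main hP hC (ν := β + 1) (β := β) (q := q) (D := D) (c := D) (by omega) (by omega)
      (by rw [show β + 1 + 1 = β + 2 by omega]) (by
        rw [show β + 1 + 1 = β + 2 by omega]
        exact hm) hur (by omega) (by
        rw [show β + 1 + (β + 2) = 2 * (β + 2) - 1 by omega]
        exact hu1) (by
        rw [show β + 1 + 3 = β + 2 + 2 by omega]
        exact hu2) (by omega) (by
        rw [show β + 1 + 1 = β + 2 by omega]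
        exact hsum) (by omega)

end Pool.Agent.WarC
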