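import Pool.Agent.WarC.Stmts2
import Pool.Agent.WarQ.SB
import Pool.Agent.WarS.SG

/-!
# MP_db021c_ag, cubics: the Horace core in degree 3 (`S_COR3`)   (helper80)

Adapted from `SBaux.core` in `Pool/Agent/WarQ/SB.lean`.
-/

set_option autoImplicit false

open Module MvPolynomial
open Pool.Agent.War Pool.Agent.WarS Pool.Agent.WarQ

namespace Pool.Agent.WarC

namespace COR3aux

/-- the Horace core with off points indexed by `α` and `Fin e` -/
theorem core (ν δ b e q eH : ℕ) (α : Type) [Fintype α] (hν : 1 ≤ ν)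
    (hGG : GG ν (δ + 2) q) (h2 : NN ν (δ + 2) ≤ ν * q + (b * q + eH))
    (h3 : NN (ν + 1) δ ≤ Fintype.card α + e)
    (hx : ∃ x : (α ⊕ Fin e → Fin (ν + 1) → ℂ) × (α → Fin b → ℂ),
      finrank ℂ (TrC1 (ν + 1) (δ + 1) x) ≤ b * q) :
    ∃ (z : (Fin b × Fin q) ⊕ α → Fin (ν + 1) → ℂ)
      (a : (Fin b × Fin q) ⊕ α → Fin b → ℂ)
      (y : Fin eH ⊕ Fin e → Fin (ν + 1) → ℂ), Kill (ν + 1) (δ + 2) z a y := by
  classical
  obtain ⟨x₀, hx₀⟩ := hx
  -- the off points
  have gA := (PK_TrC1 (ν + 1) (δ + 1) (α := α) (β := Fin e) (γ := Fin b)).gen_finrank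
    (x₀ := x₀) hx₀
  have hfst : Function.Surjective
      (LinearMap.fst ℂ (α ⊕ Fin e → Fin (ν + 1) → ℂ) (α → Fin b → ℂ)) :=
    LinearMap.fst_surjective
  have gB := (gen_off (n := ν) (I := α ⊕ Fin e)).comp
    (LinearMap.fst ℂ (α ⊕ Fin e → Fin (ν + 1) → ℂ) (α → Fin b → ℂ)) hfst
  have gC := (SG (ν + 1) δ (α ⊕ Fin e) ∅ (by omega)
    (by rw [Finset.card_empty]; exact GG.zero _ _)).comp
    (LinearMap.fst ℂ (α ⊕ Fin e → Fin (ν + 1) → ℂ) (α → Fin b → ℂ)) hfst
  obtain ⟨x', ⟨hV, hoff⟩, hC⟩ := ((gA.and gB).and gC).exists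
  simp only [LinearMap.fst_apply] at hoff hC
  have hC' : Dbl (ν + 1) δ ∅ x'.1 = ⊥ := by
    refine Dbl_eq_botC1 hC ?_
    have hc : Fintype.card (α ⊕ Fin e) = Fintype.card α + e := by simp
    rw [hc]
    simp only [Finset.card_empty, mul_zero, zero_add]
    omega
  set V : Submodule ℂ (Fin b → Pol (ν + 1) (δ + 1)) := TrC1 (ν + 1) (δ + 1) x' with hVdef
  -- points with one condition on the hyperplane
  have hred : ∀ w ∈ V, w ∉ (⊥ : Submodule ℂ (Fin b → Pol (ν + 1) (δ + 1))) →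
      ∃ y : (Fin ν → ℂ) × (Fin b → ℂ), OmC1 ν (δ + 1) y w ≠ 0 := by
    intro w hw hw0
    by_contra hcon
    push Not at hcon
    apply hw0
    rw [Submodule.mem_bot]
    funext j
    have e1 : ∀ p : Fin ν → ℂ, eval p (res ν (w j : MvPolynomial (Fin (ν + 1)) ℂ)) = 0 := by
      intro p
      have := hcon (p, Pi.single j 1)
      rw [OmC1_apply] at this
      simpa [Pi.single_apply, eval_hp] using this
    have e2 : res ν (w j : MvPolynomial (Fin (ν + 1)) ℂ) = 0 :=
      MvPolynomial.funext fun p => by rw [e1, map_zero]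
    obtain ⟨g, hg⟩ := exists_mulXC1 e2
    have e3 : g ∈ Dbl (ν + 1) δ ∅ x'.1 := by
      refine Dbl_of_mulXC1 hoff ?_
      rw [← hg]
      exact mem_Dbl.2 ⟨fun i => (mem_TrC1.1 hw).1 i j, fun i hi => absurd hi (Finset.notMem_empty i)⟩
    rw [hC', Submodule.mem_bot] at e3
    rw [hg, e3, map_zero]
    rfl
  obtain ⟨yy, hyy⟩ := red (OmC1 ν (δ + 1)) V ⊥ hred (b * q)
  have hyy' : V ⊓ ⨅ i, LinearMap.ker (OmC1 ν (δ + 1) (yy i)) = ⊥ := by
    apply Submodule.finrank_eq_zero.1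
    have : finrank ℂ (⊥ : Submodule ℂ (Fin b → Pol (ν + 1) (δ + 1))) = 0 := finrank_bot _ _
    rw [this] at hyy
    omega
  have hres : Gen ℂ fun x : ((Fin b × Fin q) ⊕ Fin eH → Fin ν → ℂ) × (Fin b × Fin q → Fin b → ℂ) =>
      (⨅ i : Fin b × Fin q, LinearMap.ker (OmC1 ν (δ + 1) (x.1 (Sum.inl i), x.2 i))).comap
        V.subtype = ⊥ := by
    have hPK := PK_OmC1 ν (δ + 1) (α := Fin b × Fin q) (β := Fin eH) (γ := Fin b)
    refine (PK.comap (V' := V) hPK V.subtype).gen_bot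
      (x₀ := (Sum.elim (fun q => (yy (finProdFinEquiv q)).1) (fun _ => 0),
        fun q => (yy (finProdFinEquiv q)).2)) ?_
    rw [eq_bot_iff]
    intro v hv
    rw [Submodule.mem_comap, Submodule.mem_iInf] at hv
    have : (v : Fin b → Pol (ν + 1) (δ + 1)) ∈
        V ⊓ ⨅ i, LinearMap.ker (OmC1 ν (δ + 1) (yy i)) := by
      refine ⟨v.2, (Submodule.mem_iInf _).2 fun i => ?_⟩
      have := hv (finProdFinEquiv.symm i)
      simp only [Sum.elim_inl, Equiv.apply_symm_apply] at this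
      exact this
    rw [hyy', Submodule.mem_bot] at this
    rw [Submodule.mem_bot]
    exact Subtype.ext this
  obtain ⟨x, hx1, hx2⟩ := ((SBaux.trace SG ν (δ + 2) b q eH hν hGG h2).and hres).exists
  refine ⟨Sum.elim (fun i => hp (x.1 (Sum.inl i))) (fun i => x'.1 (Sum.inl i)),
    Sum.elim x.2 x'.2,
    Sum.elim (fun i => hp (x.1 (Sum.inr i))) (fun i => x'.1 (Sum.inr i)), ?_⟩
  intro f hf k1 k2 k3
  -- trace
  have t1 : (fun j => resL ν (δ + 2) ⟨f j, mem_Pol.2 (hf j)⟩) ∈ TrC1 ν (δ + 2) x := by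
    refine mem_TrC1.2 ⟨?_, fun i k => ?_⟩
    · rintro (i | i) j
      · have := k1 (Sum.inl i) j
        rw [Sum.elim_inl, eval_hp] at this
        exact this
      · have := k3 (Sum.inl i) j
        rw [Sum.elim_inl, eval_hp] at this
        exact this
    · have := k2 (Sum.inl i) k.succ
      simp only [Sum.elim_inl, eval_hp_pderiv] at this
      exact this
  rw [hx1, Submodule.mem_bot] at t1
  have t2 : ∀ j, ∃ g : Pol (ν + 1) (δ + 1), (⟨f j, mem_Pol.2 (hf j)⟩ : Pol (ν + 1) (δ + 2)) =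
      mulX ν (δ + 1) g := fun j => by
    refine exists_mulXC1 ?_
    have := congrArg Subtype.val (congrFun t1 j)
    simpa using this
  choose g hg using t2
  have hg' : ∀ j, f j = X 0 * (g j : MvPolynomial (Fin (ν + 1)) ℂ) := fun j =>
    congrArg Subtype.val (hg j)
  have tz : ∀ i j, eval (x'.1 i) (g j : MvPolynomial (Fin (ν + 1)) ℂ) = 0 := by
    intro i j
    have h : eval (x'.1 i) (f j) = 0 := by
      rcases i with i | i
      · exact k1 (Sum.inr i) j
      · exact k3 (Sum.inr i) j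
    rw [hg', eval_X_mulC1] at h
    exact (mul_eq_zero.1 h).resolve_left (hoff i)
  have t3 : g ∈ V := by
    refine mem_TrC1.2 ⟨tz, fun i k => ?_⟩
    have h := k2 (Sum.inr i) k
    simp only [Sum.elim_inr, hg', eval_pderiv_X_mulC1, tz, mul_zero, add_zero] at h
    have h' : x'.1 (Sum.inl i) 0 * ∑ j, x'.2 i j *
        eval (x'.1 (Sum.inl i)) (pderiv k (g j : MvPolynomial (Fin (ν + 1)) ℂ)) = 0 := by
      rw [Finset.mul_sum, ← h]
      exact Finset.sum_congr rfl fun j _ => by ring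
    exact (mul_eq_zero.1 h').resolve_left (hoff (Sum.inl i))
  have t4 : (⟨g, t3⟩ : V) ∈
      (⨅ i : Fin b × Fin q, LinearMap.ker (OmC1 ν (δ + 1) (x.1 (Sum.inl i), x.2 i))).comap
        V.subtype := by
    rw [Submodule.mem_comap, Submodule.mem_iInf]
    intro i
    rw [LinearMap.mem_ker, Submodule.subtype_apply, OmC1_apply]
    have := k2 (Sum.inl i) 0
    simp only [Sum.elim_inl, hg', eval_pderiv_X_mulC1, hp_zero, zero_mul, zero_add,
      if_true, one_mul] at this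
    exact this
  rw [hx2, Submodule.mem_bot] at t4
  intro j
  have : g j = 0 := congrFun (congrArg Subtype.val t4) j
  rw [hg', this]
  simp

end COR3aux

theorem x_COR3 : S_COR3 := by
  intro ν b u e eH α _ hν hGG h2 h3 hx
  exact COR3aux.core ν 1 b e u eH α hν hGG h2 (by rw [NN_right_one]; omega) hx

end Pool.Agent.WarC
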