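import Pool.Agent.WarC.Stmts

set_option autoImplicit false

namespace Pool.Agent.WarC

namespace CYaux

/-- the cyclic intervals -/
def S (n D : ℕ) (hn : 0 < n) (i : ℕ) : Finset (Fin n) :=
  (Finset.range D).image (fun t => (⟨(i * D + t) % n, Nat.mod_lt _ hn⟩ : Fin n))

lemma mem_S {n D : ℕ} {hn : 0 < n} {i : ℕ} {r : Fin n} :
    r ∈ S n D hn i ↔ ∃ t < D, (i * D + t) % n = r.val := by
  unfold S
  rw [Finset.mem_image]
  constructor
  · rintro ⟨t, ht, hr⟩
    exact ⟨t, Finset.mem_range.1 ht, congrArg Fin.val hr⟩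
  · rintro ⟨t, ht, hr⟩
    exact ⟨t, Finset.mem_range.2 ht, Fin.ext hr⟩

lemma card_S {n D : ℕ} (hn : 0 < n) (hD : D ≤ n) (i : ℕ) : (S n D hn i).card = D := by
  unfold S
  rw [Finset.card_image_of_injOn, Finset.card_range]
  intro t ht t' ht' h
  have h1 : (i * D + t) % n = (i * D + t') % n := congrArg Fin.val h
  have h2 : t ≡ t' [MOD n] := Nat.ModEq.add_left_cancel' (i * D) h1
  have ht1 : t < D := Finset.mem_range.1 ht
  have ht2 : t' < D := Finset.mem_range.1 ht'
  exact Nat.ModEq.eq_of_lt_of_lt h2 (by omega) (by omega)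

/-- the number of the intervals which contain `r` -/
lemma card_r {n D b : ℕ} (hn : 0 < n) (hD : D ≤ n) (r : Fin n) :
    (Finset.univ.filter fun i : Fin b => r ∈ S n D hn i.val).card =
      b * D / n + if r.val < b * D % n then 1 else 0 := by
  have h0 : b * D / n + (if r.val < b * D % n then 1 else 0) =
      ((Finset.range (b * D)).filter (fun x => x ≡ r.val [MOD n])).card := by
    rw [← Nat.count_eq_card_filter_range, Nat.count_modEq_card (b * D) hn,
      Nat.mod_eq_of_lt r.isLt]
  rw [h0]
  symm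
  refine Finset.card_bij (fun x hx => ⟨x / D, ?_⟩) ?_ ?_ ?_
  · have h1 := Finset.mem_range.1 (Finset.mem_filter.1 hx).1
    exact Nat.div_lt_of_lt_mul (by rw [mul_comm]; exact h1)
  · intro x hx
    rw [Finset.mem_filter] at hx
    obtain ⟨h1, h2⟩ := hx
    rw [Finset.mem_range] at h1
    have hD0 : 0 < D := by
      rcases Nat.eq_zero_or_pos D with h | h
      · rw [h, mul_zero] at h1
        omega
      · exact h
    refine Finset.mem_filter.2 ⟨Finset.mem_univ _, mem_S.2 ⟨x % D, Nat.mod_lt _ hD0, ?_⟩⟩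
    show (x / D * D + x % D) % n = r.val
    rw [Nat.div_add_mod' x D]
    have h3 : x % n = r.val % n := h2
    rw [h3, Nat.mod_eq_of_lt r.isLt]
  · intro x hx y hy hxy
    rw [Finset.mem_filter, Finset.mem_range] at hx hy
    have hD0 : 0 < D := by
      rcases Nat.eq_zero_or_pos D with h | h
      · rw [h, mul_zero] at hx
        omega
      · exact h
    have h1 : x / D = y / D := congrArg Fin.val hxy
    have h2 : x ≡ y [MOD n] := hx.2.trans hy.2.symm
    rw [← Nat.div_add_mod' x D, ← Nat.div_add_mod' y D, h1] at h2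
    have h3 : x % D ≡ y % D [MOD n] := Nat.ModEq.add_left_cancel' _ h2
    have h4 := Nat.mod_lt x hD0
    have h5 := Nat.mod_lt y hD0
    have h6 := Nat.ModEq.eq_of_lt_of_lt h3 (by omega) (by omega)
    rw [← Nat.div_add_mod' x D, ← Nat.div_add_mod' y D, h1, h6]
  · intro i hi
    obtain ⟨t, ht, hr⟩ := mem_S.1 (Finset.mem_filter.1 hi).2
    have h1 : i.val * D + D ≤ b * D := by
      have := Nat.mul_le_mul_right D i.isLt
      calc i.val * D + D = (i.val + 1) * D := by ring
        _ ≤ b * D := this
    refine ⟨i.val * D + t, Finset.mem_filter.2 ⟨Finset.mem_range.2 (by omega), ?_⟩, ?_⟩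
    · show (i.val * D + t) % n = r.val % n
      rw [hr, Nat.mod_eq_of_lt r.isLt]
    · apply Fin.ext
      show (i.val * D + t) / D = i.val
      rw [mul_comm, Nat.mul_add_div (by omega), Nat.div_eq_of_lt ht, add_zero]

lemma sum_ite {n m : ℕ} (hm : m ≤ n) :
    ∑ r : Fin n, (if r.val < m then 1 else 0) = m := by
  rw [Finset.sum_boole, Nat.cast_id]
  have h1 : (Finset.univ.filter fun r : Fin n => r.val < m).card =
      ((Finset.range n).filter fun x => x < m).card := by
    refine Finset.card_bij (fun r _ => r.val) ?_ ?_ ?_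
    · intro r hr
      exact Finset.mem_filter.2 ⟨Finset.mem_range.2 r.isLt, (Finset.mem_filter.1 hr).2⟩
    · intro r _ s _ h
      exact Fin.ext h
    · intro x hx
      rw [Finset.mem_filter, Finset.mem_range] at hx
      exact ⟨⟨x, hx.1⟩, Finset.mem_filter.2 ⟨Finset.mem_univ _, hx.2⟩, rfl⟩
  rw [h1]
  have h2 : (Finset.range n).filter (fun x => x < m) = Finset.range m := by
    ext x
    rw [Finset.mem_filter, Finset.mem_range, Finset.mem_range]
    omega
  rw [h2, Finset.card_range]

end CYaux

open CYaux in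
theorem x_CY : S_CY := by
  intro n b D hD
  rcases Nat.eq_zero_or_pos n with rfl | hn
  · refine ⟨fun _ => ∅, fun _ => ?_, fun c => ?_⟩
    · rw [Finset.card_empty]
      omega
    · rw [Finset.univ_eq_empty, Finset.sum_empty]
      exact Nat.zero_le _
  refine ⟨fun i => S n D hn i.val, fun i => card_S hn hD i.val, fun c => ?_⟩
  have h1 : ∀ r : Fin n, (Finset.univ.filter fun i : Fin b => r ∈ S n D hn i.val).card - c =
      (b * D / n + if r.val < b * D % n then 1 else 0) - c := fun r => by rw [card_r hn hD r]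
  rw [Finset.sum_congr rfl fun r _ => h1 r]
  rcases Nat.lt_or_ge (b * D / n) c with hc | hc
  · rw [Finset.sum_eq_zero]
    · exact Nat.zero_le _
    · intro r _
      split_ifs <;> omega
  · have h2 : ∀ r : Fin n, (b * D / n + if r.val < b * D % n then 1 else 0) - c =
        (b * D / n - c) + if r.val < b * D % n then 1 else 0 := by
      intro r
      split_ifs <;> omega
    rw [Finset.sum_congr rfl fun r _ => h2 r, Finset.sum_add_distrib, Finset.sum_const,
      Finset.card_univ, Fintype.card_fin, smul_eq_mul, sum_ite (Nat.mod_lt _ hn).le, Nat.mul_sub]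
    have h3 := Nat.div_add_mod (b * D) n
    have h4 : n * c ≤ n * (b * D / n) := Nat.mul_le_mul_left n hc
    omega

end Pool.Agent.WarC
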