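import Pool.Agent.WarC.Stmts3
import Pool.Agent.WarS.DH

/-!
# Simultaneous Waring decompositions (MP_db021c_ag), cubics: decoupled differential Horace   (helper71)

For `t ≠ 0` write `f = t ρ + x₀ g`; the conditions on `(ρ, g)` are polynomial in `t`, and at `t = 0`
the solutions have `ρ = 0` and `g` in the residual space.
-/

set_option autoImplicit false

open Module MvPolynomial
open Pool.Agent.War Pool.Agent.WarS Pool.Agent.WarQ

namespace Pool.Agent.WarC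

namespace DHCaux

open Pool.Agent.WarS.DHaux (el pd el_apply pd_apply res_rename pderiv_zero_rename LP_id LP_neg
  LP_cons eval_rename_succ eval_cons_rename eval_hp_rename pderiv_succ_rename pderiv_zero_X_mul
  pderiv_succ_X_mul)

/-- the unknowns -/
abbrev VW (n s : ℕ) : Type := (Fin s → Pol n 3) × (Fin s → Pol (n + 1) 2)

/-- the component without `x₀` -/
noncomputable def rh {n s : ℕ} (j : Fin s) : VW n s →ₗ[ℂ] MvPolynomial (Fin n) ℂ :=
  (Pol n 3).subtype ∘ₗ LinearMap.proj j ∘ₗ LinearMap.fst ℂ _ _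

/-- the component divisible by `x₀` -/
noncomputable def gq {n s : ℕ} (j : Fin s) : VW n s →ₗ[ℂ] MvPolynomial (Fin (n + 1)) ℂ :=
  (Pol (n + 1) 2).subtype ∘ₗ LinearMap.proj j ∘ₗ LinearMap.snd ℂ _ _

/-- polynomials in `x_1, …` as polynomials in `x_0, x_1, …` -/
noncomputable def liftL (n d : ℕ) : Pol n d →ₗ[ℂ] Pol (n + 1) d :=
  (rename Fin.succ : MvPolynomial (Fin n) ℂ →ₐ[ℂ] MvPolynomial (Fin (n + 1)) ℂ).toLinearMap.restrict
    fun f hf => by
      rw [mem_Pol] at hf ⊢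
      exact (totalDegree_rename_le _ _).trans hf

@[simp] theorem liftL_coe (n d : ℕ) (f : Pol n d) :
    ((liftL n d f : Pol (n + 1) d) : MvPolynomial (Fin (n + 1)) ℂ) =
      rename Fin.succ (f : MvPolynomial (Fin n) ℂ) := rfl

/-- the polynomials `t ρ_j + x₀ g_j` -/
noncomputable def Ph (n s : ℕ) (t : ℂ) : VW n s →ₗ[ℂ] (Fin s → Pol (n + 1) 3) :=
  LinearMap.pi fun j => t • (liftL n 3 ∘ₗ LinearMap.proj j ∘ₗ LinearMap.fst ℂ _ _) +
    mulX n 2 ∘ₗ LinearMap.proj j ∘ₗ LinearMap.snd ℂ _ _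

/-- the polynomial `t ρ_j + x₀ g_j` -/
noncomputable def fq {n s : ℕ} (t : ℂ) (j : Fin s) :
    VW n s →ₗ[ℂ] MvPolynomial (Fin (n + 1)) ℂ :=
  t • ((rename Fin.succ : MvPolynomial (Fin n) ℂ →ₐ[ℂ] MvPolynomial (Fin (n + 1)) ℂ).toLinearMap ∘ₗ
    rh j) + LinearMap.mulLeft ℂ (X 0 : MvPolynomial (Fin (n + 1)) ℂ) ∘ₗ gq j

@[simp] theorem rh_apply {n s : ℕ} (j : Fin s) (v : VW n s) :
    rh j v = (v.1 j : MvPolynomial (Fin n) ℂ) := rfl

@[simp] theorem gq_apply {n s : ℕ} (j : Fin s) (v : VW n s) :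
    gq j v = (v.2 j : MvPolynomial (Fin (n + 1)) ℂ) := rfl

@[simp] theorem fq_apply {n s : ℕ} (t : ℂ) (j : Fin s) (v : VW n s) :
    fq t j v = t • rename Fin.succ (v.1 j : MvPolynomial (Fin n) ℂ) +
      X 0 * (v.2 j : MvPolynomial (Fin (n + 1)) ℂ) := rfl

theorem Ph_coe {n s : ℕ} (t : ℂ) (j : Fin s) (v : VW n s) :
    ((Ph n s t v j : Pol (n + 1) 3) : MvPolynomial (Fin (n + 1)) ℂ) = fq t j v := rfl

section

variable {n s : ℕ} {I U Y : Type}

/-- the conditions on `(ρ, g)` -/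
structure Cd (w : I → Fin (n + 1) → ℂ) (b : I → Fin s → ℂ) (z : U → Fin n → ℂ)
    (a : U → Fin s → ℂ) (y : Y → Fin n → ℂ) (α : Y → Fin s → ℂ) (t : ℂ) (x : VW n s) : Prop where
  c1 : ∀ i j, eval (w i) (fq t j x) = 0
  c2 : ∀ i k, ∑ j, b i j * eval (w i) (pderiv k (fq t j x)) = 0
  b1 : ∀ i j, eval (z i) (x.1 j : MvPolynomial (Fin n) ℂ) = 0
  b2 : ∀ i k, ∑ j, a i j * eval (z i) (pderiv k (x.1 j : MvPolynomial (Fin n) ℂ)) = 0
  b3 : ∀ i, ∑ j, a i j * eval (hp (z i)) (x.2 j : MvPolynomial (Fin (n + 1)) ℂ) = 0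
  e1 : ∀ i j, eval (y i) (x.1 j : MvPolynomial (Fin n) ℂ) +
    eval (Fin.cons t (y i) : Fin (n + 1) → ℂ) (x.2 j : MvPolynomial (Fin (n + 1)) ℂ) = 0
  e2 : ∀ i (k : Fin n), ∑ j, α i j * (eval (y i) (pderiv k (x.1 j : MvPolynomial (Fin n) ℂ)) +
    eval (Fin.cons t (y i) : Fin (n + 1) → ℂ)
      (pderiv k.succ (x.2 j : MvPolynomial (Fin (n + 1)) ℂ))) = 0
  e3 : ∀ i, ∑ j, α i j * (eval (y i) (x.1 j : MvPolynomial (Fin n) ℂ) +
    (-t) * eval (Fin.cons t (y i) : Fin (n + 1) → ℂ)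
      (pderiv 0 (x.2 j : MvPolynomial (Fin (n + 1)) ℂ))) = 0

/-- the family of the solution spaces -/
theorem exists_PK [Finite I] [Finite U] [Finite Y] (w : I → Fin (n + 1) → ℂ)
    (b : I → Fin s → ℂ) (z : U → Fin n → ℂ) (a : U → Fin s → ℂ) (y : Y → Fin n → ℂ)
    (α : Y → Fin s → ℂ) :
    ∃ Z : ℂ → Submodule ℂ (VW n s), PK Z ∧ ∀ t x, x ∈ Z t ↔ Cd w b z a y α t x := by
  have hconst : ∀ φ : VW n s →ₗ[ℂ] ℂ, PK fun _ : ℂ => LinearMap.ker φ := fun φ =>
    PK.one (φ := fun _ : ℂ => φ) fun x => LP.const _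
  have B1 : PK fun _ : ℂ => ⨅ q : U × Fin s,
      LinearMap.ker (el (z q.1) ∘ₗ (rh q.2 : VW n s →ₗ[ℂ] _)) :=
    PK.iInf fun q => hconst _
  have B2 : PK fun _ : ℂ => ⨅ q : U × Fin n,
      LinearMap.ker (∑ j, a q.1 j • (el (z q.1) ∘ₗ pd q.2 ∘ₗ (rh j : VW n s →ₗ[ℂ] _))) :=
    PK.iInf fun q => hconst _
  have B3 : PK fun _ : ℂ => ⨅ q : U,
      LinearMap.ker (∑ j, a q j • (el (hp (z q)) ∘ₗ (gq j : VW n s →ₗ[ℂ] _))) :=
    PK.iInf fun q => hconst _
  have C1 : PK fun t : ℂ => ⨅ q : I × Fin s,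
      LinearMap.ker (el (w q.1) ∘ₗ (fq t q.2 : VW n s →ₗ[ℂ] _)) := by
    refine PK.iInf fun q => PK.one
      (φ := fun t : ℂ => el (w q.1) ∘ₗ (fq t q.2 : VW n s →ₗ[ℂ] _)) fun x => ?_
    simp only [LinearMap.comp_apply, el_apply, fq_apply, map_add, smul_eval]
    exact (LP_id.mul (LP.const _)).add (LP.const _)
  have C2 : PK fun t : ℂ => ⨅ q : I × Fin (n + 1),
      LinearMap.ker (∑ j, b q.1 j • (el (w q.1) ∘ₗ pd q.2 ∘ₗ (fq t j : VW n s →ₗ[ℂ] _))) := by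
    refine PK.iInf fun q => PK.one
      (φ := fun t : ℂ => ∑ j, b q.1 j • (el (w q.1) ∘ₗ pd q.2 ∘ₗ (fq t j : VW n s →ₗ[ℂ] _)))
      fun x => ?_
    simp only [LinearMap.sum_apply, LinearMap.smul_apply, LinearMap.comp_apply, el_apply, pd_apply,
      fq_apply, map_add, Derivation.map_smul, smul_eval, smul_eq_mul]
    exact LP.sum _ fun j _ => (LP.const _).mul ((LP_id.mul (LP.const _)).add (LP.const _))
  have E1 : PK fun t : ℂ => ⨅ q : Y × Fin s,
      LinearMap.ker (el (y q.1) ∘ₗ (rh q.2 : VW n s →ₗ[ℂ] _) +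
        el (Fin.cons t (y q.1) : Fin (n + 1) → ℂ) ∘ₗ (gq q.2 : VW n s →ₗ[ℂ] _)) := by
    refine PK.iInf fun q => PK.one
      (φ := fun t : ℂ => el (y q.1) ∘ₗ (rh q.2 : VW n s →ₗ[ℂ] _) +
        el (Fin.cons t (y q.1) : Fin (n + 1) → ℂ) ∘ₗ (gq q.2 : VW n s →ₗ[ℂ] _))
        fun x => ?_
    simp only [LinearMap.add_apply, LinearMap.comp_apply, el_apply, rh_apply, gq_apply]
    exact (LP.const _).add (LP_cons _ _)
  have E2 : PK fun t : ℂ => ⨅ q : Y × Fin n,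
      LinearMap.ker (∑ j, α q.1 j • (el (y q.1) ∘ₗ pd q.2 ∘ₗ (rh j : VW n s →ₗ[ℂ] _) +
        el (Fin.cons t (y q.1) : Fin (n + 1) → ℂ) ∘ₗ pd q.2.succ ∘ₗ
          (gq j : VW n s →ₗ[ℂ] _))) := by
    refine PK.iInf fun q => PK.one
      (φ := fun t : ℂ => ∑ j, α q.1 j • (el (y q.1) ∘ₗ pd q.2 ∘ₗ (rh j : VW n s →ₗ[ℂ] _) +
        el (Fin.cons t (y q.1) : Fin (n + 1) → ℂ) ∘ₗ pd q.2.succ ∘ₗ
          (gq j : VW n s →ₗ[ℂ] _))) fun x => ?_
    simp only [LinearMap.sum_apply, LinearMap.smul_apply, LinearMap.add_apply,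
      LinearMap.comp_apply, el_apply, pd_apply, rh_apply, gq_apply, smul_eq_mul]
    exact LP.sum _ fun j _ => (LP.const _).mul ((LP.const _).add (LP_cons _ _))
  have E3 : PK fun t : ℂ => ⨅ q : Y,
      LinearMap.ker (∑ j, α q j • (el (y q) ∘ₗ (rh j : VW n s →ₗ[ℂ] _) + (-t) •
        (el (Fin.cons t (y q) : Fin (n + 1) → ℂ) ∘ₗ pd 0 ∘ₗ (gq j : VW n s →ₗ[ℂ] _)))) := by
    refine PK.iInf fun q => PK.one
      (φ := fun t : ℂ => ∑ j, α q j • (el (y q) ∘ₗ (rh j : VW n s →ₗ[ℂ] _) + (-t) •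
        (el (Fin.cons t (y q) : Fin (n + 1) → ℂ) ∘ₗ pd 0 ∘ₗ (gq j : VW n s →ₗ[ℂ] _))))
        fun x => ?_
    simp only [LinearMap.sum_apply, LinearMap.smul_apply, LinearMap.add_apply,
      LinearMap.comp_apply, el_apply, pd_apply, rh_apply, gq_apply, smul_eq_mul]
    exact LP.sum _ fun j _ => (LP.const _).mul ((LP.const _).add (LP_neg.mul (LP_cons _ _)))
  refine ⟨_, ((B1.inf B2).inf B3).inf ((C1.inf C2).inf (E1.inf (E2.inf E3))), fun t x => ?_⟩
  simp only [Submodule.mem_inf, Submodule.mem_iInf, LinearMap.mem_ker, Prod.forall,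
    LinearMap.comp_apply, LinearMap.add_apply, LinearMap.smul_apply, LinearMap.sum_apply,
    el_apply, pd_apply, rh_apply, gq_apply, smul_eq_mul]
  constructor
  · rintro ⟨⟨⟨h1, h2⟩, h3⟩, ⟨h4, h5⟩, h6, h7, h8⟩
    exact ⟨h4, h5, h1, h2, h3, h6, h7, h8⟩
  · rintro ⟨h4, h5, h1, h2, h3, h6, h7, h8⟩
    exact ⟨⟨⟨h1, h2⟩, h3⟩, ⟨h4, h5⟩, h6, h7, h8⟩

/-- the solutions at `t = 0` -/
theorem of_cd_zero {w : I → Fin (n + 1) → ℂ} {b : I → Fin s → ℂ} {z : U → Fin n → ℂ}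
    {a : U → Fin s → ℂ} {y : Y → Fin n → ℂ} {α : Y → Fin s → ℂ} (hw : ∀ i, w i 0 ≠ 0)
    (hT : TS n z a y α = ⊥) {x : VW n s} (h : Cd w b z a y α 0 x) :
    x.1 = 0 ∧ x.2 ∈ RS n w b z a y α := by
  have hρ : x.1 = 0 := by
    have h1 : x.1 ∈ TS n z a y α := by
      unfold TS
      rw [Submodule.mem_inf, mem_FK, Submodule.mem_iInf]
      refine ⟨⟨h.b1, h.b2⟩, fun i => ?_⟩
      rw [LinearMap.mem_ker, om_apply]
      have h2 := h.e3 i
      simpa using h2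
    rw [hT, Submodule.mem_bot] at h1
    exact h1
  refine ⟨hρ, ?_⟩
  have hoff : ∀ i j, eval (w i) (x.2 j : MvPolynomial (Fin (n + 1)) ℂ) = 0 := by
    intro i j
    have h1 := h.c1 i j
    rw [fq_apply, zero_smul, zero_add, map_mul, eval_X] at h1
    exact (mul_eq_zero.1 h1).resolve_left (hw i)
  have hoff2 : ∀ i k, ∑ j, b i j *
      eval (w i) (pderiv k (x.2 j : MvPolynomial (Fin (n + 1)) ℂ)) = 0 := by
    intro i k
    have h1 := h.c2 i k
    have h2 : ∀ j, eval (w i) (pderiv k (fq 0 j x)) =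
        w i 0 * eval (w i) (pderiv k (x.2 j : MvPolynomial (Fin (n + 1)) ℂ)) := by
      intro j
      rw [fq_apply, zero_smul, zero_add]
      refine Fin.cases ?_ (fun k => ?_) k
      · rw [pderiv_zero_X_mul, map_add, map_mul, eval_X, hoff, add_zero]
      · rw [pderiv_succ_X_mul, map_mul, eval_X]
    simp only [h2] at h1
    have h3 : ∑ j, b i j * (w i 0 *
        eval (w i) (pderiv k (x.2 j : MvPolynomial (Fin (n + 1)) ℂ))) = w i 0 *
        ∑ j, b i j * eval (w i) (pderiv k (x.2 j : MvPolynomial (Fin (n + 1)) ℂ)) := by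
      rw [Finset.mul_sum]
      exact Finset.sum_congr rfl fun j _ => by ring
    rw [h3] at h1
    exact (mul_eq_zero.1 h1).resolve_left (hw i)
  unfold RS
  rw [Submodule.mem_inf, mem_RV, mem_FK, Submodule.mem_iInf]
  refine ⟨⟨⟨hoff, hoff2⟩, fun i j => ?_, fun i k => ?_⟩, fun i => ?_⟩
  · have h1 := h.e1 i j
    rw [hρ] at h1
    simpa [hp] using h1
  · have h1 := h.e2 i k
    rw [hρ] at h1
    simpa [hp] using h1
  · rw [LinearMap.mem_ker, om_apply]
    exact h.b3 i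

/-- decomposition of `f` -/
theorem exists_dec {t : ℂ} (ht : t ≠ 0) (f : Fin s → Pol (n + 1) 3) :
    ∃ x : VW n s, Ph n s t x = f := by
  have h : ∀ j, ∃ g : MvPolynomial (Fin (n + 1)) ℂ, g.totalDegree ≤ 2 ∧
      (f j : MvPolynomial (Fin (n + 1)) ℂ) -
        rename Fin.succ (res n (f j : MvPolynomial (Fin (n + 1)) ℂ)) = X 0 * g := by
    intro j
    have hf := mem_Pol.1 (f j).2
    refine exists_of_res ?_ ?_
    · refine (totalDegree_sub _ _).trans (max_le hf ?_)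
      exact (totalDegree_rename_le _ _).trans ((res_totalDegree_le _).trans hf)
    · rw [map_sub, res_rename, sub_self]
  choose g hg1 hg2 using h
  refine ⟨(fun j => ⟨t⁻¹ • res n (f j : MvPolynomial (Fin (n + 1)) ℂ), ?_⟩,
    fun j => ⟨g j, mem_Pol.2 (hg1 j)⟩), funext fun j => Subtype.ext ?_⟩
  · exact (Pol n 3).smul_mem _ (mem_Pol.2 ((res_totalDegree_le _).trans (mem_Pol.1 (f j).2)))
  · rw [Ph_coe, fq_apply, map_smul, smul_smul, mul_inv_cancel₀ ht, one_smul, ← hg2 j]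
    ring

/-- the conditions on `f` give those on `(ρ, g)` -/
theorem cd_of_mem {w : I → Fin (n + 1) → ℂ} {b : I → Fin s → ℂ} {z : U → Fin n → ℂ}
    {a : U → Fin s → ℂ} {y : Y → Fin n → ℂ} {α : Y → Fin s → ℂ} {t : ℂ} (ht : t ≠ 0)
    {x : VW n s}
    (hx : Ph n s t x ∈ FK (n + 1) 3
      (Sum.elim w (Sum.elim (fun i => hp (z i)) fun i => (Fin.cons t (y i) : Fin (n + 1) → ℂ)))
      (Sum.elim b (Sum.elim a α))) : Cd w b z a y α t x := by
  rw [mem_FK] at hx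
  obtain ⟨k, k'⟩ := hx
  have k1 : ∀ i j, eval (w i) (fq t j x) = 0 := fun i j => k (Sum.inl i) j
  have k2 : ∀ i l, ∑ j, b i j * eval (w i) (pderiv l (fq t j x)) = 0 := fun i l =>
    k' (Sum.inl i) l
  have k5 : ∀ i j, eval (hp (z i)) (fq t j x) = 0 := fun i j => k (Sum.inr (Sum.inl i)) j
  have k6 : ∀ i l, ∑ j, a i j * eval (hp (z i)) (pderiv l (fq t j x)) = 0 := fun i l =>
    k' (Sum.inr (Sum.inl i)) l
  have k7 : ∀ i j, eval (Fin.cons t (y i) : Fin (n + 1) → ℂ) (fq t j x) = 0 := fun i j =>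
    k (Sum.inr (Sum.inr i)) j
  have k8 : ∀ i l, ∑ j, α i j *
      eval (Fin.cons t (y i) : Fin (n + 1) → ℂ) (pderiv l (fq t j x)) = 0 := fun i l =>
    k' (Sum.inr (Sum.inr i)) l
  -- on the hyperplane
  have H0 : ∀ (z : Fin n → ℂ) j, eval (hp z) (fq t j x) =
      t * eval z (x.1 j : MvPolynomial (Fin n) ℂ) := by
    intro z j
    rw [fq_apply, map_add, smul_eval, eval_hp_rename, map_mul, eval_X, hp_zero, zero_mul,
      add_zero]
  have H1 : ∀ (z : Fin n → ℂ) k j, eval (hp z) (pderiv (Fin.succ k) (fq t j x)) =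
      t * eval z (pderiv k (x.1 j : MvPolynomial (Fin n) ℂ)) := by
    intro z k j
    rw [fq_apply, map_add, Derivation.map_smul, pderiv_succ_rename, pderiv_succ_X_mul, map_add,
      smul_eval, eval_hp_rename, map_mul, eval_X, hp_zero, zero_mul, add_zero]
  have H2 : ∀ (z : Fin n → ℂ) j, eval (hp z) (pderiv 0 (fq t j x)) =
      eval (hp z) (x.2 j : MvPolynomial (Fin (n + 1)) ℂ) := by
    intro z j
    rw [fq_apply, map_add, Derivation.map_smul, pderiv_zero_rename, smul_zero, zero_add,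
      pderiv_zero_X_mul, map_add, map_mul, eval_X, hp_zero, zero_mul, zero_add]
  -- at the moving points
  have M0 : ∀ (z : Fin n → ℂ) j, eval (Fin.cons t z : Fin (n + 1) → ℂ) (fq t j x) =
      t * (eval z (x.1 j : MvPolynomial (Fin n) ℂ) +
        eval (Fin.cons t z : Fin (n + 1) → ℂ) (x.2 j : MvPolynomial (Fin (n + 1)) ℂ)) := by
    intro z j
    rw [fq_apply, map_add, smul_eval, eval_cons_rename, map_mul, eval_X, Fin.cons_zero]
    ring
  have M1 : ∀ (z : Fin n → ℂ) k j, eval (Fin.cons t z : Fin (n + 1) → ℂ)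
      (pderiv (Fin.succ k) (fq t j x)) =
      t * (eval z (pderiv k (x.1 j : MvPolynomial (Fin n) ℂ)) +
        eval (Fin.cons t z : Fin (n + 1) → ℂ)
          (pderiv k.succ (x.2 j : MvPolynomial (Fin (n + 1)) ℂ))) := by
    intro z k j
    rw [fq_apply, map_add, Derivation.map_smul, pderiv_succ_rename, pderiv_succ_X_mul, map_add,
      smul_eval, eval_cons_rename, map_mul, eval_X, Fin.cons_zero]
    ring
  have M2 : ∀ (z : Fin n → ℂ) j, eval (Fin.cons t z : Fin (n + 1) → ℂ) (pderiv 0 (fq t j x)) =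
      eval (Fin.cons t z : Fin (n + 1) → ℂ) (x.2 j : MvPolynomial (Fin (n + 1)) ℂ) +
        t * eval (Fin.cons t z : Fin (n + 1) → ℂ)
          (pderiv 0 (x.2 j : MvPolynomial (Fin (n + 1)) ℂ)) := by
    intro z j
    rw [fq_apply, map_add, Derivation.map_smul, pderiv_zero_rename, smul_zero, zero_add,
      pderiv_zero_X_mul, map_add, map_mul, eval_X, Fin.cons_zero]
    ring
  have N0 : ∀ i j, eval (y i) (x.1 j : MvPolynomial (Fin n) ℂ) +
      eval (Fin.cons t (y i) : Fin (n + 1) → ℂ) (x.2 j : MvPolynomial (Fin (n + 1)) ℂ) = 0 := by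
    intro i j
    have := k7 i j
    rw [M0] at this
    exact (mul_eq_zero.1 this).resolve_left ht
  have pull : ∀ (c : Fin s → ℂ) (u : Fin s → ℂ), ∑ j, c j * (t * u j) = t * ∑ j, c j * u j := by
    intro c u
    rw [Finset.mul_sum]
    exact Finset.sum_congr rfl fun j _ => by ring
  refine ⟨k1, k2, fun i j => ?_, fun i k => ?_, fun i => ?_, N0, fun i k => ?_, fun i => ?_⟩
  · have := k5 i j
    rw [H0] at this
    exact (mul_eq_zero.1 this).resolve_left ht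
  · have := k6 i k.succ
    simp only [H1] at this
    rw [pull] at this
    exact (mul_eq_zero.1 this).resolve_left ht
  · have := k6 i 0
    simp only [H2] at this
    exact this
  · have := k8 i k.succ
    simp only [M1] at this
    rw [pull] at this
    exact (mul_eq_zero.1 this).resolve_left ht
  · have h1 := k8 i 0
    simp only [M2] at h1
    have h2 : ∑ j, α i j * (eval (y i) (x.1 j : MvPolynomial (Fin n) ℂ) +
        (-t) * eval (Fin.cons t (y i) : Fin (n + 1) → ℂ)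
          (pderiv 0 (x.2 j : MvPolynomial (Fin (n + 1)) ℂ))) =
        -∑ j, α i j * (eval (Fin.cons t (y i) : Fin (n + 1) → ℂ)
          (x.2 j : MvPolynomial (Fin (n + 1)) ℂ) +
          t * eval (Fin.cons t (y i) : Fin (n + 1) → ℂ)
            (pderiv 0 (x.2 j : MvPolynomial (Fin (n + 1)) ℂ))) := by
      rw [← Finset.sum_neg_distrib]
      refine Finset.sum_congr rfl fun j _ => ?_
      linear_combination α i j * N0 i j
    rw [h2, h1, neg_zero]

end

end DHCaux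

open DHCaux in
/-- decoupled differential Horace -/
theorem x_DHC : S_DHC := by
  intro n s I U Y _ _ _ w b z a y α hw hT
  obtain ⟨Z, hZ, hmem⟩ := exists_PK (n := n) (s := s) w b z a y α
  have h0 : finrank ℂ (Z 0) ≤ finrank ℂ (RS n w b z a y α) := by
    have h1 : Z 0 ≤ (RS n w b z a y α).map
        (LinearMap.inr ℂ (Fin s → Pol n 3) (Fin s → Pol (n + 1) 2)) := by
      intro x hx
      obtain ⟨h2, h3⟩ := of_cd_zero hw hT ((hmem 0 x).1 hx)
      exact ⟨x.2, h3, Prod.ext h2.symm rfl⟩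
    exact (Submodule.finrank_mono h1).trans (Submodule.finrank_map_le _ _)
  obtain ⟨t, ht1, ht2⟩ := ((hZ.gen_finrank h0).and
    (Gen.ne (K := ℂ) (X := ℂ) Pool.Agent.WarS.DHaux.LP_id 1 one_ne_zero)).exists
  refine ⟨t, ?_⟩
  have h1 : FK (n + 1) 3
      (Sum.elim w (Sum.elim (fun i => hp (z i)) fun i => (Fin.cons t (y i) : Fin (n + 1) → ℂ)))
      (Sum.elim b (Sum.elim a α)) ≤ (Z t).map (Ph n s t) := by
    intro f hf
    obtain ⟨x, rfl⟩ := exists_dec ht2 f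
    exact ⟨x, (hmem t x).2 (cd_of_mem ht2 hf), rfl⟩
  exact (Submodule.finrank_mono h1).trans ((Submodule.finrank_map_le _ _).trans ht1)

end Pool.Agent.WarC
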