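import Pool.Agent.WarC.UK

/-!
# MP_db021c_ag, WC_PERT: the perturbation lemma for quadrics   (helper76)
-/

set_option autoImplicit false

open Module MvPolynomial
open Pool.Agent.War Pool.Agent.WarS Pool.Agent.WarQ

namespace Pool.Agent.WarC

namespace PERTaux

open UKaux

theorem tay {n : ℕ} (c : ℂ) (a : Fin n → ℂ) (b : Fin n → Fin n → ℂ) (z d : Fin n → ℂ) (t : ℂ) :
    eval (z + t • d) (pq c a b) = eval z (pq c a b) +
      t * ∑ k, eval z (pderiv k (pq c a b)) * d k + t ^ 2 * ∑ i, ∑ j, b i j * (d i * d j) := by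
  rw [taylor_pq]
  congr 1
  · congr 1
    rw [Finset.mul_sum]
    refine Finset.sum_congr rfl fun k _ => ?_
    simp only [Pi.smul_apply, smul_eq_mul]
    ring
  · rw [Finset.mul_sum]
    refine Finset.sum_congr rfl fun i _ => ?_
    rw [Finset.mul_sum]
    refine Finset.sum_congr rfl fun j _ => ?_
    simp only [Pi.smul_apply, smul_eq_mul]
    ring

/-- a quadric vanishing at two points -/
theorem two_points {n : ℕ} (f : MvPolynomial (Fin n) ℂ) (hf : f.totalDegree ≤ 2)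
    (z z' : Fin n → ℂ) (h0 : eval z f = 0) (h1 : eval z' f = 0) :
    eval (mid z z') f = (∑ k, eval z (pderiv k f) * (z' k - z k)) / 4 ∧
      ∑ k, eval z' (pderiv k f) * (z' k - z k) = -∑ k, eval z (pderiv k f) * (z' k - z k) := by
  obtain ⟨c, a, b, hr⟩ := rp_of_deg f hf
  have hr' : f = pq c a b := hr
  rw [hr'] at h0 h1 ⊢
  have e1 : z' = z + (1 : ℂ) • fun k => z' k - z k := by
    funext i
    simp
  have e2 : z = z' + (-1 : ℂ) • fun k => z' k - z k := by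
    funext i
    simp
  have e3 : mid z z' = z + (1 / 2 : ℂ) • fun k => z' k - z k := by
    funext i
    simp only [mid, Pi.add_apply, Pi.smul_apply, smul_eq_mul]
    ring
  have t1 := tay c a b z (fun k => z' k - z k) 1
  have t2 := tay c a b z' (fun k => z' k - z k) (-1)
  have t3 := tay c a b z (fun k => z' k - z k) (1 / 2)
  rw [← e1, h0, h1] at t1
  rw [← e2, h0, h1] at t2
  rw [← e3, h0] at t3
  rw [t3]
  constructor
  · linear_combination (-1 / 4 : ℂ) * t1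
  · linear_combination t2 - t1

theorem sum_two {b : ℕ} (k m : Fin b) (c : ℂ) (g : Fin b → ℂ) :
    ∑ j, ((Pi.single k 1 : Fin b → ℂ) j + c * (Pi.single m 1 : Fin b → ℂ) j) * g j =
      g k + c * g m := by
  simp [Pi.single_apply, add_mul, Finset.sum_add_distrib]

section Gen

variable {n p p' : ℕ} {S A : Type} [Fintype S]

/-- the space of quadrics attached to one form -/
noncomputable def VV (n : ℕ) (φ : (Fin p ⊕ Fin p') ⊕ S ≃ A) (z : A → Fin n → ℂ) :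
    Submodule ℂ (Pol n 2) :=
  UU n ((fun i : Fin p => z (φ (Sum.inl (Sum.inl i)))),
    (fun j : Fin p' => z (φ (Sum.inl (Sum.inr j)))),
    fun t : Fin (Fintype.card S) => z (φ (Sum.inr ((Fintype.equivFin S).symm t))))

theorem mem_VV {φ : (Fin p ⊕ Fin p') ⊕ S ≃ A} {z : A → Fin n → ℂ} {f : Pol n 2}
    (h1 : ∀ x : A, eval (z x) (f : MvPolynomial (Fin n) ℂ) = 0)
    (h2 : ∀ i v, eval (z (φ (Sum.inl (Sum.inl i)))) (pderiv v (f : MvPolynomial (Fin n) ℂ)) = 0)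
    (h3 : ∀ j j', eval (mid (z (φ (Sum.inl (Sum.inr j)))) (z (φ (Sum.inl (Sum.inr j')))))
      (f : MvPolynomial (Fin n) ℂ) = 0) : f ∈ VV n φ z := by
  refine Submodule.mem_inf.2 ⟨mem_U0.2 ⟨⟨⟨fun i => h1 _, h2⟩, fun j => h1 _⟩, h3⟩, ?_⟩
  refine (Submodule.mem_iInf _).2 fun t => ?_
  rw [LinearMap.mem_ker, ev_apply]
  exact h1 _

theorem gen_VV (hU : S_UK) (φ : (Fin p ⊕ Fin p') ⊕ S ≃ A) (hn : 1 ≤ n) (hp : p + p' ≤ n + 1) :
    Gen ℂ fun z : A → Fin n → ℂ => finrank ℂ (VV n φ z) ≤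
      NN n 2 + p.choose 2 - ((n + 1) * p + p' + p'.choose 2 + Fintype.card S) := by
  have h := hU n p p' (Fintype.card S) hn hp
  let L : (A → Fin n → ℂ) →ₗ[ℂ] (Fin p → Fin n → ℂ) × (Fin p' → Fin n → ℂ) ×
      (Fin (Fintype.card S) → Fin n → ℂ) :=
    (LinearMap.funLeft ℂ (Fin n → ℂ) fun i : Fin p => φ (Sum.inl (Sum.inl i))).prod
      ((LinearMap.funLeft ℂ (Fin n → ℂ) fun j : Fin p' => φ (Sum.inl (Sum.inr j))).prod
        (LinearMap.funLeft ℂ (Fin n → ℂ) fun t : Fin (Fintype.card S) =>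
          φ (Sum.inr ((Fintype.equivFin S).symm t))))
  have hL : Function.Surjective L := by
    rintro ⟨u, v, w⟩
    refine ⟨fun x => Sum.elim (Sum.elim u v) (fun s => w (Fintype.equivFin S s)) (φ.symm x), ?_⟩
    refine Prod.ext ?_ (Prod.ext ?_ ?_)
    · funext i
      change Sum.elim (Sum.elim u v) (fun s => w (Fintype.equivFin S s))
        (φ.symm (φ (Sum.inl (Sum.inl i)))) = u i
      rw [Equiv.symm_apply_apply]
      rfl
    · funext i
      change Sum.elim (Sum.elim u v) (fun s => w (Fintype.equivFin S s))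
        (φ.symm (φ (Sum.inl (Sum.inr i)))) = v i
      rw [Equiv.symm_apply_apply]
      rfl
    · funext i
      change Sum.elim (Sum.elim u v) (fun s => w (Fintype.equivFin S s))
        (φ.symm (φ (Sum.inr ((Fintype.equivFin S).symm i)))) = w i
      rw [Equiv.symm_apply_apply]
      change w (Fintype.equivFin S ((Fintype.equivFin S).symm i)) = w i
      rw [Equiv.apply_symm_apply]
  exact h.comp L hL

end Gen

/-- the points of the types `k` and `m`, and the others -/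
theorem split {b e : ℕ} (r : Fin b → ℕ) {k m : Fin b} (hkm : m ≠ k) :
    ∃ (S : Type) (_ : Fintype S) (φ : (Fin (r m) ⊕ Fin (r k)) ⊕ S ≃
      (((k : Fin b) × Fin (r k)) ⊕ Fin e)),
      (∀ i, φ (Sum.inl (Sum.inl i)) = Sum.inl ⟨m, i⟩) ∧
      (∀ j, φ (Sum.inl (Sum.inr j)) = Sum.inl ⟨k, j⟩) ∧
      r m + r k + Fintype.card S = (∑ k, r k) + e := by
  classical
  let P : (((k : Fin b) × Fin (r k)) ⊕ Fin e) → Prop := fun x =>
    (∃ i : Fin (r m), x = Sum.inl ⟨m, i⟩) ∨ ∃ j : Fin (r k), x = Sum.inl ⟨k, j⟩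
  let g : (Fin (r m) ⊕ Fin (r k)) ⊕ {x // ¬ P x} → (((k : Fin b) × Fin (r k)) ⊕ Fin e) :=
    Sum.elim (Sum.elim (fun i => Sum.inl ⟨m, i⟩) (fun j => Sum.inl ⟨k, j⟩)) Subtype.val
  have hg : Function.Bijective g := by
    constructor
    · rintro ((i | j) | x) ((i' | j') | x') h
      · have h1 : (⟨m, i⟩ : (k : Fin b) × Fin (r k)) = ⟨m, i'⟩ := Sum.inl_injective h
        rw [Sigma.mk.injEq] at h1
        rw [eq_of_heq h1.2]
      · have h1 : (⟨m, i⟩ : (k : Fin b) × Fin (r k)) = ⟨k, j'⟩ := Sum.inl_injective h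
        exact absurd (congrArg Sigma.fst h1) hkm
      · exact absurd (Or.inl ⟨i, h.symm⟩) x'.2
      · have h1 : (⟨k, j⟩ : (k : Fin b) × Fin (r k)) = ⟨m, i'⟩ := Sum.inl_injective h
        exact absurd (congrArg Sigma.fst h1).symm hkm
      · have h1 : (⟨k, j⟩ : (k : Fin b) × Fin (r k)) = ⟨k, j'⟩ := Sum.inl_injective h
        rw [Sigma.mk.injEq] at h1
        rw [eq_of_heq h1.2]
      · exact absurd (Or.inr ⟨j, h.symm⟩) x'.2
      · exact absurd (Or.inl ⟨i', h⟩) x.2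
      · exact absurd (Or.inr ⟨j', h⟩) x.2
      · exact congrArg Sum.inr (Subtype.ext h)
    · intro x
      by_cases hx : P x
      · rcases hx with ⟨i, hi⟩ | ⟨j, hj⟩
        · exact ⟨Sum.inl (Sum.inl i), hi.symm⟩
        · exact ⟨Sum.inl (Sum.inr j), hj.symm⟩
      · exact ⟨Sum.inr ⟨x, hx⟩, rfl⟩
  refine ⟨{x // ¬ P x}, inferInstance, Equiv.ofBijective g hg, fun i => rfl, fun j => rfl, ?_⟩
  have h := Fintype.card_congr (Equiv.ofBijective g hg)
  simpa using h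

end PERTaux

open PERTaux UKaux in
theorem x_PERT (hU : S_UK) : S_PERT := by
  classical
  intro n b e w r σ hn hσ hr hw hineq
  choose S iS φ hφ1 hφ2 hφ3 using fun k : Fin b => split (e := e) r (hσ k)
  -- the points
  have hgen : Gen ℂ fun z : (((k : Fin b) × Fin (r k)) ⊕ Fin e) → Fin n → ℂ =>
      ∀ k : Fin b, finrank ℂ (VV n (φ k) z) ≤ w + (r (σ k)).choose 2 -
        (n * r (σ k) + (r k).choose 2) := by
    refine Gen.forall fun k => ?_
    refine (gen_VV hU (φ k) hn (by have := hr k; omega)).mono fun z hz => hz.trans ?_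
    have h1 := hφ3 k
    have h2 : (n + 1) * r (σ k) = n * r (σ k) + r (σ k) := by ring
    omega
  obtain ⟨z, hz⟩ := hgen.exists
  -- the vectors
  let A0 : ((k : Fin b) × Fin (r k)) → Fin b → ℂ := fun q => Pi.single q.1 1
  let A1 : ((k : Fin b) × Fin (r k)) → Fin b → ℂ := fun q =>
    ((q.2 : ℕ) : ℂ) • Pi.single (σ q.1) 1
  let L : ℂ →ₗ[ℂ] ((((k : Fin b) × Fin (r k)) ⊕ Fin e) → Fin n → ℂ) ×
      (((k : Fin b) × Fin (r k)) → Fin b → ℂ) :=
    LinearMap.toSpanSingleton ℂ _ (0, A1)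
  have hLε : ∀ ε : ℂ, L ε + (z, A0) = (z, fun q j => (Pi.single q.1 1 : Fin b → ℂ) j +
      (ε * ((q.2 : ℕ) : ℂ)) * (Pi.single (σ q.1) 1 : Fin b → ℂ) j) := by
    intro ε
    refine Prod.ext ?_ ?_
    · change ε • (0 : (((k : Fin b) × Fin (r k)) ⊕ Fin e) → Fin n → ℂ) + z = z
      rw [smul_zero, zero_add]
    · funext q j
      change ε * (((q.2 : ℕ) : ℂ) * (Pi.single (σ q.1) 1 : Fin b → ℂ) j) +
        (Pi.single q.1 1 : Fin b → ℂ) j = _
      ring
  let Z : ℂ → Submodule ℂ (Fin b → Pol n 2) := fun ε => TrC1 n 2 (L ε + (z, A0)) ⊓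
    ⨅ q : (k : Fin b) × Fin (r k) × Fin (r k), LinearMap.ker
      ((ev n 2 (mid (z (Sum.inl ⟨q.1, q.2.1⟩)) (z (Sum.inl ⟨q.1, q.2.2⟩)))).comp
        (LinearMap.proj (σ q.1) : (Fin b → Pol n 2) →ₗ[ℂ] Pol n 2))
  have hPK : PK Z := by
    refine ((PK_TrC1 n 2).comp_affine L (z, A0)).inf (PK.iInf fun q => ?_)
    refine PK.one (φ := fun _ : ℂ =>
      ((ev n 2 (mid (z (Sum.inl ⟨q.1, q.2.1⟩)) (z (Sum.inl ⟨q.1, q.2.2⟩)))).comp
        (LinearMap.proj (σ q.1) : (Fin b → Pol n 2) →ₗ[ℂ] Pol n 2))) fun v => LP.const _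
  have hmem : ∀ (ε : ℂ) (f : Fin b → Pol n 2), f ∈ TrC1 n 2 (L ε + (z, A0)) ↔
      (∀ i j, eval (z i) (f j : MvPolynomial (Fin n) ℂ) = 0) ∧
      ∀ (k : Fin b) (i : Fin (r k)) (v : Fin n),
        eval (z (Sum.inl ⟨k, i⟩)) (pderiv v (f k : MvPolynomial (Fin n) ℂ)) + (ε * ((i : ℕ) : ℂ)) *
          eval (z (Sum.inl ⟨k, i⟩)) (pderiv v (f (σ k) : MvPolynomial (Fin n) ℂ)) = 0 := by
    intro ε f
    rw [hLε, mem_TrC1]
    refine and_congr_right fun _ => ⟨fun h k i v => ?_, fun h q v => ?_⟩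
    · have := h ⟨k, i⟩ v
      rw [sum_two] at this
      exact this
    · rw [sum_two]
      exact h q.1 q.2 v
  have hZ : ∀ (ε : ℂ) (f : Fin b → Pol n 2), f ∈ Z ε ↔ f ∈ TrC1 n 2 (L ε + (z, A0)) ∧
      ∀ (k : Fin b) (i i' : Fin (r k)), eval (mid (z (Sum.inl ⟨k, i⟩)) (z (Sum.inl ⟨k, i'⟩)))
        (f (σ k) : MvPolynomial (Fin n) ℂ) = 0 := by
    intro ε f
    rw [Submodule.mem_inf, Submodule.mem_iInf]
    refine and_congr_right fun _ => ⟨fun h k i i' => ?_, fun h q => ?_⟩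
    · have := h ⟨k, i, i'⟩
      rw [LinearMap.mem_ker, LinearMap.comp_apply, ev_apply] at this
      exact this
    · rw [LinearMap.mem_ker, LinearMap.comp_apply, ev_apply]
      exact h q.1 q.2.1 q.2.2
  -- the dimension for `ε = 0`
  have h0 : finrank ℂ (Z 0) ≤ b * w - n * ∑ k, r k := by
    have h1 : Z 0 ≤ Submodule.pi Set.univ fun m => VV n (φ (σ.symm m)) z := by
      intro f hf
      obtain ⟨hf1, hf2⟩ := (hZ 0 f).1 hf
      obtain ⟨hf3, hf4⟩ := (hmem 0 f).1 hf1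
      refine Submodule.mem_pi.2 fun m _ => ?_
      obtain ⟨k, rfl⟩ := σ.surjective m
      rw [Equiv.symm_apply_apply]
      refine mem_VV (fun x => hf3 x _) (fun i v => ?_) (fun j j' => ?_)
      · rw [hφ1]
        have := hf4 (σ k) i v
        rwa [zero_mul, zero_mul, add_zero] at this
      · rw [hφ2, hφ2]
        exact hf2 k j j'
    refine (Submodule.finrank_mono h1).trans ((finrank_pi_leC1 _).trans ?_)
    refine (Finset.sum_le_sum fun m _ => hz (σ.symm m)).trans ?_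
    rw [Equiv.sum_comp σ.symm fun k => w + (r (σ k)).choose 2 - (n * r (σ k) + (r k).choose 2)]
    have h2 : ∑ k, (w + (r (σ k)).choose 2 - (n * r (σ k) + (r k).choose 2)) +
        ∑ k, (n * r (σ k) + (r k).choose 2) = ∑ k, (w + (r (σ k)).choose 2) := by
      rw [← Finset.sum_add_distrib]
      exact Finset.sum_congr rfl fun k _ => Nat.sub_add_cancel (hineq k)
    rw [Finset.sum_add_distrib, Finset.sum_add_distrib, Equiv.sum_comp σ fun k => (r k).choose 2,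
      Equiv.sum_comp σ fun k => n * r k, ← Finset.mul_sum, Finset.sum_const, Finset.card_univ,
      Fintype.card_fin, smul_eq_mul] at h2
    omega
  obtain ⟨ε, hε1, hε2⟩ := ((hPK.gen_finrank h0).and
    (Gen.ne (LP.linear (K := ℂ) LinearMap.id) 1 (by simp))).exists
  have hε : ε ≠ 0 := hε2
  refine ⟨L ε + (z, A0), (Submodule.finrank_mono ?_).trans hε1⟩
  intro f hf
  obtain ⟨hf1, hf2⟩ := (hmem ε f).1 hf
  refine (hZ ε f).2 ⟨hf, fun k i i' => ?_⟩
  by_cases hii : i = i'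
  · subst hii
    have : mid (z (Sum.inl ⟨k, i⟩)) (z (Sum.inl ⟨k, i⟩)) = z (Sum.inl ⟨k, i⟩) := by
      funext v
      simp only [mid]
      ring
    rw [this]
    exact hf1 _ _
  · obtain ⟨a1, a2⟩ := two_points (f (σ k) : MvPolynomial (Fin n) ℂ) (mem_Pol.1 (f (σ k)).2)
      (z (Sum.inl ⟨k, i⟩)) (z (Sum.inl ⟨k, i'⟩)) (hf1 _ _) (hf1 _ _)
    obtain ⟨-, b2⟩ := two_points (f k : MvPolynomial (Fin n) ℂ) (mem_Pol.1 (f k).2)
      (z (Sum.inl ⟨k, i⟩)) (z (Sum.inl ⟨k, i'⟩)) (hf1 _ _) (hf1 _ _)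
    have s1 : ∑ v, eval (z (Sum.inl ⟨k, i⟩)) (pderiv v (f k : MvPolynomial (Fin n) ℂ)) *
        (z (Sum.inl ⟨k, i'⟩) v - z (Sum.inl ⟨k, i⟩) v) + (ε * ((i : ℕ) : ℂ)) *
        ∑ v, eval (z (Sum.inl ⟨k, i⟩)) (pderiv v (f (σ k) : MvPolynomial (Fin n) ℂ)) *
        (z (Sum.inl ⟨k, i'⟩) v - z (Sum.inl ⟨k, i⟩) v) = 0 := by
      rw [Finset.mul_sum, ← Finset.sum_add_distrib]
      refine Finset.sum_eq_zero fun v _ => ?_
      linear_combination (z (Sum.inl ⟨k, i'⟩) v - z (Sum.inl ⟨k, i⟩) v) * hf2 k i v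
    have s2 : ∑ v, eval (z (Sum.inl ⟨k, i'⟩)) (pderiv v (f k : MvPolynomial (Fin n) ℂ)) *
        (z (Sum.inl ⟨k, i'⟩) v - z (Sum.inl ⟨k, i⟩) v) + (ε * ((i' : ℕ) : ℂ)) *
        ∑ v, eval (z (Sum.inl ⟨k, i'⟩)) (pderiv v (f (σ k) : MvPolynomial (Fin n) ℂ)) *
        (z (Sum.inl ⟨k, i'⟩) v - z (Sum.inl ⟨k, i⟩) v) = 0 := by
      rw [Finset.mul_sum, ← Finset.sum_add_distrib]
      refine Finset.sum_eq_zero fun v _ => ?_
      linear_combination (z (Sum.inl ⟨k, i'⟩) v - z (Sum.inl ⟨k, i⟩) v) * hf2 k i' v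
    rw [a2, b2] at s2
    have hne : ε * (((i : ℕ) : ℂ) - ((i' : ℕ) : ℂ)) ≠ 0 := by
      refine mul_ne_zero hε (sub_ne_zero.2 fun h => hii (Fin.ext ?_))
      exact_mod_cast h
    have s3 : (ε * (((i : ℕ) : ℂ) - ((i' : ℕ) : ℂ))) *
        ∑ v, eval (z (Sum.inl ⟨k, i⟩)) (pderiv v (f (σ k) : MvPolynomial (Fin n) ℂ)) *
        (z (Sum.inl ⟨k, i'⟩) v - z (Sum.inl ⟨k, i⟩) v) = 0 := by
      linear_combination s1 + s2
    rw [a1, (mul_eq_zero.1 s3).resolve_left hne, zero_div]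

end Pool.Agent.WarC
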