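import Pool.Agent.WarC.Stmts4
import Pool.Agent.WarC.DHC
import Pool.Agent.WarC.PERT

/-!
# Simultaneous Waring decompositions (MP_db021c_ag), cubics, `s = 2`: module DHC2   (helper46)

Decoupled differential Horace with two near points which have the same vector.
-/

set_option autoImplicit false

open Module MvPolynomial
open Pool.Agent.War Pool.Agent.WarS Pool.Agent.WarQ

namespace Pool.Agent.WarC

namespace DHC2aux

open DHCaux UKaux
open Pool.Agent.WarS.DHaux (pderiv_zero_X_mul pderiv_succ_X_mul)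

/-- a quadric on a line: `φ'(0) + φ'(1) = 2 (φ(1) - φ(0))` -/
theorem quad_line {n : ℕ} (f : MvPolynomial (Fin n) ℂ) (hf : f.totalDegree ≤ 2)
    (z z' : Fin n → ℂ) :
    ∑ k, (z' k - z k) * (eval z (pderiv k f) + eval z' (pderiv k f)) =
      2 * (eval z' f - eval z f) := by
  obtain ⟨c, a, b, hr⟩ := rp_of_deg f hf
  have hr' : f = pq c a b := hr
  rw [hr']
  have e1 : z' = z + (1 : ℂ) • fun k => z' k - z k := by
    funext i
    simp
  have e2 : z = z' + (-1 : ℂ) • fun k => z' k - z k := by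
    funext i
    simp
  have t1 := PERTaux.tay c a b z (fun k => z' k - z k) 1
  have t2 := PERTaux.tay c a b z' (fun k => z' k - z k) (-1)
  rw [← e1] at t1
  rw [← e2] at t2
  have e4 : ∑ k, (z' k - z k) * (eval z (pderiv k (pq c a b)) + eval z' (pderiv k (pq c a b))) =
      ∑ k, eval z (pderiv k (pq c a b)) * (z' k - z k) +
        ∑ k, eval z' (pderiv k (pq c a b)) * (z' k - z k) := by
    rw [← Finset.sum_add_distrib]
    exact Finset.sum_congr rfl fun k _ => by ring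
  rw [e4]
  linear_combination t2 - t1

/-- the same at height `t` -/
theorem quad_cons {n : ℕ} (f : MvPolynomial (Fin (n + 1)) ℂ) (hf : f.totalDegree ≤ 2) (t : ℂ)
    (p q : Fin n → ℂ) :
    ∑ k, (q k - p k) * (eval (Fin.cons t p : Fin (n + 1) → ℂ) (pderiv k.succ f) +
        eval (Fin.cons t q : Fin (n + 1) → ℂ) (pderiv k.succ f)) =
      2 * (eval (Fin.cons t q : Fin (n + 1) → ℂ) f - eval (Fin.cons t p : Fin (n + 1) → ℂ) f) := by
  have h := quad_line f hf (Fin.cons t p) (Fin.cons t q)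
  rw [Fin.sum_univ_succ] at h
  simpa using h

section

variable {n s : ℕ} {I U Y : Type}

/-- the solutions at `t = 0` -/
theorem of_cd_zero {w : I → Fin (n + 1) → ℂ} {b : I → Fin s → ℂ} {z : U → Fin n → ℂ}
    {a : U → Fin s → ℂ} {y : Y → Fin n → ℂ} {α : Y → Fin s → ℂ} (hw : ∀ i, w i 0 ≠ 0)
    {x : VW n s} (h : Cd w b z a y α 0 x) (hρ : x.1 = 0) : x.2 ∈ RS n w b z a y α := by
  have hoff : ∀ i j, eval (w i) (x.2 j : MvPolynomial (Fin (n + 1)) ℂ) = 0 := by
    intro i j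
    have h1 := h.c1 i j
    rw [fq_apply, zero_smul, zero_add, map_mul, eval_X] at h1
    exact (mul_eq_zero.1 h1).resolve_left (hw i)
  have hoff2 : ∀ i k, ∑ j, b i j *
      eval (w i) (pderiv k (x.2 j : MvPolynomial (Fin (n + 1)) ℂ)) = 0 := by
    intro i k
    have h1 := h.c2 i k
    have h2 : ∀ j, eval (w i) (pderiv k (fq 0 j x)) =
        w i 0 * eval (w i) (pderiv k (x.2 j : MvPolynomial (Fin (n + 1)) ℂ)) := by
      intro j
      rw [fq_apply, zero_smul, zero_add]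
      refine Fin.cases ?_ (fun k => ?_) k
      · rw [pderiv_zero_X_mul, map_add, map_mul, eval_X, hoff, add_zero]
      · rw [pderiv_succ_X_mul, map_mul, eval_X]
    simp only [h2] at h1
    have h3 : ∑ j, b i j * (w i 0 *
        eval (w i) (pderiv k (x.2 j : MvPolynomial (Fin (n + 1)) ℂ))) = w i 0 *
        ∑ j, b i j * eval (w i) (pderiv k (x.2 j : MvPolynomial (Fin (n + 1)) ℂ)) := by
      rw [Finset.mul_sum]
      exact Finset.sum_congr rfl fun j _ => by ring
    rw [h3] at h1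
    exact (mul_eq_zero.1 h1).resolve_left (hw i)
  unfold RS
  rw [Submodule.mem_inf, mem_RV, mem_FK, Submodule.mem_iInf]
  refine ⟨⟨⟨hoff, hoff2⟩, fun i j => ?_, fun i k => ?_⟩, fun i => ?_⟩
  · have h1 := h.e1 i j
    rw [hρ] at h1
    simpa [hp] using h1
  · have h1 := h.e2 i k
    rw [hρ] at h1
    simpa [hp] using h1
  · rw [LinearMap.mem_ker, om_apply]
    exact h.b3 i

/-- the additional functional -/
noncomputable def ad (n : ℕ) {s : ℕ} (p q : Fin n → ℂ) (β : Fin s → ℂ) : VW n s →ₗ[ℂ] ℂ :=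
  (ecs n 3 p q β + (2 : ℂ) • (om n 3 p β - om n 3 q β)) ∘ₗ LinearMap.fst ℂ _ _

theorem ad_apply (p q : Fin n → ℂ) (β : Fin s → ℂ) (x : VW n s) : ad n p q β x =
    ecs n 3 p q β x.1 + 2 * (om n 3 p β x.1 - om n 3 q β x.1) := rfl

/-- the additional condition holds -/
theorem ad_eq_zero {w : I → Fin (n + 1) → ℂ} {b : I → Fin s → ℂ} {z : U → Fin n → ℂ}
    {a : U → Fin s → ℂ} {y : Y → Fin n → ℂ} {α : Y → Fin s → ℂ} {p q : Fin n → ℂ}
    {β : Fin s → ℂ} {t : ℂ} {x : VW n s}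
    (h : Cd w b z a (Sum.elim y (two p q)) (Sum.elim α fun _ => β) t x) :
    ad n p q β x = 0 := by
  have p1 : ∀ j, eval p (x.1 j : MvPolynomial (Fin n) ℂ) +
      eval (Fin.cons t p : Fin (n + 1) → ℂ) (x.2 j : MvPolynomial (Fin (n + 1)) ℂ) = 0 := fun j =>
    h.e1 (Sum.inr 0) j
  have q1 : ∀ j, eval q (x.1 j : MvPolynomial (Fin n) ℂ) +
      eval (Fin.cons t q : Fin (n + 1) → ℂ) (x.2 j : MvPolynomial (Fin (n + 1)) ℂ) = 0 := fun j =>
    h.e1 (Sum.inr 1) j
  have p2 : ∀ k : Fin n, ∑ j, β j * (eval p (pderiv k (x.1 j : MvPolynomial (Fin n) ℂ)) +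
      eval (Fin.cons t p : Fin (n + 1) → ℂ)
        (pderiv k.succ (x.2 j : MvPolynomial (Fin (n + 1)) ℂ))) = 0 := fun k =>
    h.e2 (Sum.inr 0) k
  have q2 : ∀ k : Fin n, ∑ j, β j * (eval q (pderiv k (x.1 j : MvPolynomial (Fin n) ℂ)) +
      eval (Fin.cons t q : Fin (n + 1) → ℂ)
        (pderiv k.succ (x.2 j : MvPolynomial (Fin (n + 1)) ℂ))) = 0 := fun k =>
    h.e2 (Sum.inr 1) k
  have s1 : ∑ k, (q k - p k) * (∑ j, β j * (eval p (pderiv k (x.1 j : MvPolynomial (Fin n) ℂ)) +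
      eval (Fin.cons t p : Fin (n + 1) → ℂ)
        (pderiv k.succ (x.2 j : MvPolynomial (Fin (n + 1)) ℂ))) +
      ∑ j, β j * (eval q (pderiv k (x.1 j : MvPolynomial (Fin n) ℂ)) +
      eval (Fin.cons t q : Fin (n + 1) → ℂ)
        (pderiv k.succ (x.2 j : MvPolynomial (Fin (n + 1)) ℂ)))) = 0 :=
    Finset.sum_eq_zero fun k _ => by rw [p2, q2]; ring
  have s2 : ∀ j, ∑ k, (q k - p k) * (eval (Fin.cons t p : Fin (n + 1) → ℂ)
      (pderiv k.succ (x.2 j : MvPolynomial (Fin (n + 1)) ℂ)) +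
      eval (Fin.cons t q : Fin (n + 1) → ℂ)
        (pderiv k.succ (x.2 j : MvPolynomial (Fin (n + 1)) ℂ))) =
      2 * (eval p (x.1 j : MvPolynomial (Fin n) ℂ) -
        eval q (x.1 j : MvPolynomial (Fin n) ℂ)) := by
    intro j
    rw [quad_cons _ (mem_Pol.1 (x.2 j).2)]
    linear_combination 2 * q1 j - 2 * p1 j
  have s3 : ∑ k, (q k - p k) * (∑ j, β j * (eval p (pderiv k (x.1 j : MvPolynomial (Fin n) ℂ)) +
      eval (Fin.cons t p : Fin (n + 1) → ℂ)
        (pderiv k.succ (x.2 j : MvPolynomial (Fin (n + 1)) ℂ))) +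
      ∑ j, β j * (eval q (pderiv k (x.1 j : MvPolynomial (Fin n) ℂ)) +
      eval (Fin.cons t q : Fin (n + 1) → ℂ)
        (pderiv k.succ (x.2 j : MvPolynomial (Fin (n + 1)) ℂ)))) =
      ∑ j, β j * (∑ k, (q k - p k) * (eval p (pderiv k (x.1 j : MvPolynomial (Fin n) ℂ)) +
        eval q (pderiv k (x.1 j : MvPolynomial (Fin n) ℂ))) +
      ∑ k, (q k - p k) * (eval (Fin.cons t p : Fin (n + 1) → ℂ)
      (pderiv k.succ (x.2 j : MvPolynomial (Fin (n + 1)) ℂ)) +
      eval (Fin.cons t q : Fin (n + 1) → ℂ)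
        (pderiv k.succ (x.2 j : MvPolynomial (Fin (n + 1)) ℂ)))) := by
    simp only [← Finset.sum_add_distrib, Finset.mul_sum]
    rw [Finset.sum_comm]
    exact Finset.sum_congr rfl fun j _ => Finset.sum_congr rfl fun k _ => by ring
  rw [s3] at s1
  rw [ad_apply, ecs_apply, om_apply, om_apply, ← Finset.sum_sub_distrib, Finset.mul_sum,
    ← Finset.sum_add_distrib, ← s1]
  refine Finset.sum_congr rfl fun j _ => ?_
  rw [ec_apply, s2]
  ring

end

end DHC2aux

open DHC2aux DHCaux in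
/-- decoupled differential Horace with a pair -/
theorem x_DHC2 : S_DHC2 := by
  intro n s I U Y _ _ _ w b z a y α p q β hw hT
  obtain ⟨Z, hZ, hmem⟩ := exists_PK (n := n) (s := s) w b z a (Sum.elim y (two p q))
    (Sum.elim α fun _ => β)
  have hZ' : PK fun t : ℂ => Z t ⊓ LinearMap.ker (ad n p q β) :=
    hZ.inf (PK.one (φ := fun _ : ℂ => ad n p q β) fun x => LP.const _)
  have h0 : finrank ℂ ↥(Z 0 ⊓ LinearMap.ker (ad n p q β)) ≤
      finrank ℂ (RS n w b z a (Sum.elim y (two p q)) (Sum.elim α fun _ => β)) := by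
    have h1 : Z 0 ⊓ LinearMap.ker (ad n p q β) ≤
        (RS n w b z a (Sum.elim y (two p q)) (Sum.elim α fun _ => β)).map
        (LinearMap.inr ℂ (Fin s → Pol n 3) (Fin s → Pol (n + 1) 2)) := by
      rintro x ⟨hx, hx'⟩
      have hc := (hmem 0 x).1 hx
      have hp : om n 3 p β x.1 = 0 := by
        rw [om_apply]
        have h2 := hc.e3 (Sum.inr 0)
        simpa [two] using h2
      have hq : om n 3 q β x.1 = 0 := by
        rw [om_apply]
        have h2 := hc.e3 (Sum.inr 1)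
        simpa [two] using h2
      have hρ : x.1 = 0 := by
        have h1 : x.1 ∈ TS2 n z a y α p q β := by
          unfold TS2 TS
          rw [Submodule.mem_inf, Submodule.mem_inf, Submodule.mem_inf, Submodule.mem_inf, mem_FK,
            Submodule.mem_iInf]
          refine ⟨⟨⟨⟨⟨hc.b1, hc.b2⟩, fun i => ?_⟩, hp⟩, hq⟩, ?_⟩
          · rw [LinearMap.mem_ker, om_apply]
            have h2 := hc.e3 (Sum.inl i)
            simpa using h2
          · rw [SetLike.mem_coe, LinearMap.mem_ker, ad_apply, hp, hq] at hx'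
            rw [LinearMap.mem_ker]
            linear_combination hx'
        rw [hT, Submodule.mem_bot] at h1
        exact h1
      exact ⟨x.2, DHC2aux.of_cd_zero hw hc hρ, Prod.ext hρ.symm rfl⟩
    exact (Submodule.finrank_mono h1).trans (Submodule.finrank_map_le _ _)
  obtain ⟨t, ht1, ht2⟩ := ((hZ'.gen_finrank h0).and
    (Gen.ne (K := ℂ) (X := ℂ) Pool.Agent.WarS.DHaux.LP_id 1 one_ne_zero)).exists
  refine ⟨t, ?_⟩
  have h1 : FK (n + 1) 3
      (Sum.elim w (Sum.elim (fun i => hp (z i))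
        fun i => (Fin.cons t (Sum.elim y (two p q) i) : Fin (n + 1) → ℂ)))
      (Sum.elim b (Sum.elim a (Sum.elim α fun _ => β))) ≤
      (Z t ⊓ LinearMap.ker (ad n p q β)).map (Ph n s t) := by
    intro f hf
    obtain ⟨x, rfl⟩ := exists_dec ht2 f
    have hc := cd_of_mem ht2 hf
    exact ⟨x, ⟨(hmem t x).2 hc, ad_eq_zero hc⟩, rfl⟩
  exact (Submodule.finrank_mono h1).trans ((Submodule.finrank_map_le _ _).trans ht1)

end Pool.Agent.WarC
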