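import Pool.Agent.WarC.Stmts2

/-!
# MP_db021c_ag, cubics: quadrics with double points and midpoints (`S_UK`)
-/

set_option autoImplicit false

open Module MvPolynomial
open Pool.Agent.War Pool.Agent.WarS Pool.Agent.WarQ

namespace Pool.Agent.WarC

namespace UKaux

/-! ### polynomials of degree at most two -/

/-- representation of the polynomials of degree at most two -/
def Rp {n : ℕ} (f : MvPolynomial (Fin n) ℂ) : Prop :=
  ∃ (c : ℂ) (a : Fin n → ℂ) (b : Fin n → Fin n → ℂ),
    f = C c + ∑ i, C (a i) * X i + ∑ i, ∑ j, C (b i j) * (X i * X j)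

theorem Rp.add {n : ℕ} {f g : MvPolynomial (Fin n) ℂ} (hf : Rp f) (hg : Rp g) : Rp (f + g) := by
  obtain ⟨c, a, b, rfl⟩ := hf
  obtain ⟨c', a', b', rfl⟩ := hg
  refine ⟨c + c', fun i => a i + a' i, fun i j => b i j + b' i j, ?_⟩
  simp only [C_add, add_mul, Finset.sum_add_distrib]
  ring

theorem Rp.zero {n : ℕ} : Rp (0 : MvPolynomial (Fin n) ℂ) := ⟨0, 0, 0, by simp⟩

theorem Rp.mono {n : ℕ} (m : Fin n →₀ ℕ) (r : ℂ) (hm : (m.sum fun _ e => e) ≤ 2) :
    Rp (monomial m r) := by
  classical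
  by_cases h0 : m = 0
  · subst h0
    exact ⟨r, 0, 0, by simp⟩
  · obtain ⟨i, hi⟩ : ∃ i, m i ≠ 0 := by
      by_contra hn
      push Not at hn
      exact h0 (Finsupp.ext hn)
    have h1 : Finsupp.single i 1 ≤ m := Finsupp.single_le_iff.2 (Nat.one_le_iff_ne_zero.2 hi)
    obtain ⟨m', rfl⟩ : ∃ m', m = Finsupp.single i 1 + m' := ⟨_, (add_tsub_cancel_of_le h1).symm⟩
    rw [Finsupp.sum_add_index' (fun _ => rfl) (fun _ _ _ => rfl),
      Finsupp.sum_single_index rfl] at hm
    have e1 : monomial (Finsupp.single i 1 + m') r = X i * monomial m' r := by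
      rw [X, monomial_mul, one_mul]
    by_cases h2 : m' = 0
    · subst h2
      refine ⟨0, Pi.single i r, 0, ?_⟩
      rw [e1, Finset.sum_eq_single i]
      · simp [mul_comm]
      · intro j _ hj
        simp [hj]
      · simp
    · have h3 : (m'.sum fun _ e => e) = 1 := by
        refine le_antisymm (by omega) (Nat.one_le_iff_ne_zero.2 fun h => h2 ?_)
        ext j
        by_contra hj
        have hj' : j ∈ m'.support := Finsupp.mem_support_iff.2 hj
        have h4 := Finset.single_le_sum (f := fun i => m' i) (fun _ _ => Nat.zero_le _) hj'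
        have h5 : (m'.sum fun _ e => e) = ∑ x ∈ m'.support, m' x := rfl
        have h6 : m' j ≠ 0 := hj
        omega
      obtain ⟨j, rfl⟩ := (Finsupp.sum_eq_one_iff m').1 h3
      refine ⟨0, 0, fun i' j' => if i' = i ∧ j' = j then r else 0, ?_⟩
      simp only [Pi.zero_apply, C_0, zero_mul, Finset.sum_const_zero, zero_add]
      rw [e1, Finset.sum_eq_single i]
      · rw [Finset.sum_eq_single j]
        · have e2 : monomial (Finsupp.single j 1) r = C r * X j := by
            rw [X, C_mul_monomial, mul_one]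
          rw [e2]
          simp
          ring
        · intro j' _ hj'
          simp [hj']
        · simp
      · intro i' _ hi'
        simp [hi']
      · simp

theorem rp_of_deg {n : ℕ} (f : MvPolynomial (Fin n) ℂ) (hf : f.totalDegree ≤ 2) : Rp f := by
  rw [f.as_sum]
  exact Finset.sum_induction _ Rp (fun _ _ => Rp.add) Rp.zero
    fun m hm => Rp.mono m _ ((le_totalDegree hm).trans hf)

section Rep

variable {n : ℕ} (c : ℂ) (a : Fin n → ℂ) (b : Fin n → Fin n → ℂ)

/-- the polynomial with given coefficients -/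
noncomputable def pq : MvPolynomial (Fin n) ℂ :=
  C c + ∑ i, C (a i) * X i + ∑ i, ∑ j, C (b i j) * (X i * X j)

theorem eval_pq (x : Fin n → ℂ) : eval x (pq c a b) =
    c + ∑ i, a i * x i + ∑ i, ∑ j, b i j * (x i * x j) := by
  simp [pq]

theorem eval_pderiv_pq (k : Fin n) (z : Fin n → ℂ) : eval z (pderiv k (pq c a b)) =
    a k + ∑ j, b k j * z j + ∑ i, b i k * z i := by
  classical
  have h1 : ∀ i : Fin n, eval z (pderiv k (X i : MvPolynomial (Fin n) ℂ)) =
      if k = i then 1 else 0 := by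
    intro i
    rw [pderiv_X, Pi.single_apply]
    by_cases h : k = i
    · rw [if_pos h.symm, if_pos h, map_one]
    · rw [if_neg (fun h' => h h'.symm), if_neg h, map_zero]
  have h2 : ∀ i : Fin n, eval z (pderiv k (C (a i) * X i)) = if k = i then a i else 0 := by
    intro i
    rw [pderiv_C_mul, map_mul, eval_C, h1]
    split_ifs <;> simp
  have h3 : ∀ i j : Fin n, eval z (pderiv k (C (b i j) * (X i * X j))) =
      (if k = i then b i j * z j else 0) + (if k = j then b i j * z i else 0) := by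
    intro i j
    rw [pderiv_C_mul, map_mul, eval_C, pderiv_mul, map_add, map_mul, map_mul, h1, h1, eval_X,
      eval_X]
    split_ifs <;> ring
  unfold pq
  rw [map_add (pderiv k), map_add (pderiv k), pderiv_C, zero_add, map_sum, map_sum, map_add,
    map_sum, map_sum]
  simp only [map_sum, h2, h3, Finset.sum_add_distrib, Finset.sum_ite_eq, Finset.mem_univ, if_true]
  rw [add_assoc]
  congr 1
  congr 1
  rw [Finset.sum_comm]
  simp only [Finset.sum_ite_eq, Finset.mem_univ, if_true]

theorem taylor_pq (z w : Fin n → ℂ) : eval (z + w) (pq c a b) =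
    eval z (pq c a b) + ∑ k, eval z (pderiv k (pq c a b)) * w k +
      ∑ i, ∑ j, b i j * (w i * w j) := by
  simp only [eval_pq, eval_pderiv_pq, Pi.add_apply]
  have h1 : ∑ k, (a k + ∑ j, b k j * z j + ∑ i, b i k * z i) * w k =
      ∑ k, a k * w k + ∑ i, ∑ j, b i j * (w i * z j) + ∑ i, ∑ j, b i j * (z i * w j) := by
    rw [Finset.sum_comm (f := fun i j => b i j * (z i * w j)), ← Finset.sum_add_distrib,
      ← Finset.sum_add_distrib]
    refine Finset.sum_congr rfl fun k _ => ?_
    rw [add_mul, add_mul, Finset.sum_mul, Finset.sum_mul]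
    congr 1
    · congr 1
      refine Finset.sum_congr rfl fun j _ => ?_
      ring
    · refine Finset.sum_congr rfl fun j _ => ?_
      ring
  have h2 : ∑ i, ∑ j, b i j * ((z i + w i) * (z j + w j)) = ∑ i, ∑ j, b i j * (z i * z j) +
      ∑ i, ∑ j, b i j * (w i * z j) + ∑ i, ∑ j, b i j * (z i * w j) +
      ∑ i, ∑ j, b i j * (w i * w j) := by
    rw [← Finset.sum_add_distrib, ← Finset.sum_add_distrib, ← Finset.sum_add_distrib]
    refine Finset.sum_congr rfl fun i _ => ?_
    rw [← Finset.sum_add_distrib, ← Finset.sum_add_distrib, ← Finset.sum_add_distrib]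
    refine Finset.sum_congr rfl fun j _ => ?_
    ring
  rw [h1, h2]
  simp only [mul_add, Finset.sum_add_distrib]
  ring

end Rep

/-- a quadric which is double at `z` -/
theorem eval_mid_of_double {n : ℕ} (f : MvPolynomial (Fin n) ℂ) (hf : f.totalDegree ≤ 2)
    (z y : Fin n → ℂ) (h0 : eval z f = 0) (h1 : ∀ k, eval z (pderiv k f) = 0) :
    eval (mid z y) f = eval y f / 4 := by
  obtain ⟨c, a, b, hr⟩ := rp_of_deg f hf
  have hr' : f = pq c a b := hr
  rw [hr'] at h0 h1 ⊢
  have key : ∀ w : Fin n → ℂ, eval (z + w) (pq c a b) = ∑ i, ∑ j, b i j * (w i * w j) := by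
    intro w
    rw [taylor_pq, h0]
    simp [h1]
  have e1 : mid z y = z + fun i => (y i - z i) / 2 := by
    funext i
    simp only [mid, Pi.add_apply]
    ring
  have e2 : y = z + fun i => (y i - z i) := by
    funext i
    simp
  rw [e1, key]
  conv_rhs => rw [e2, key]
  rw [Finset.sum_div]
  refine Finset.sum_congr rfl fun i _ => ?_
  rw [Finset.sum_div]
  refine Finset.sum_congr rfl fun j _ => ?_
  ring

/-! ### the vertices of the simplex -/

/-- the vertices -/
def V (n j : ℕ) : Fin n → ℂ := fun i => if j = (i : ℕ) + 1 then 1 else 0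

theorem V_zero (n : ℕ) : V n 0 = 0 := by
  funext i
  simp [V]

theorem V_succ {n : ℕ} (i : Fin n) : V n ((i : ℕ) + 1) = Pi.single i 1 := by
  funext j
  by_cases h : j = i
  · subst h
    simp [V]
  · have h1 : (i : ℕ) ≠ (j : ℕ) := fun h' => h (Fin.ext (by omega))
    simp [V, h1, h]

theorem eval_two {n : ℕ} (c : ℂ) (a : Fin n → ℂ) (b : Fin n → Fin n → ℂ) (i j : Fin n)
    (x y : ℂ) : eval (Pi.single i x + Pi.single j y) (pq c a b) =
      c + (a i * x + a j * y) + (b i i * x ^ 2 + b j j * y ^ 2 + (b i j + b j i) * (x * y)) := by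
  classical
  rw [eval_pq]
  simp only [Pi.add_apply, mul_add, add_mul, Finset.sum_add_distrib, Pi.single_apply, mul_ite,
    ite_mul, mul_zero, zero_mul, Finset.sum_ite_eq', Finset.mem_univ, if_true]
  ring

/-- a quadric which vanishes at the vertices and at the midpoints of the edges is zero -/
theorem eq_zero_of_nodes {n : ℕ} (f : MvPolynomial (Fin n) ℂ) (hf : f.totalDegree ≤ 2)
    (h : ∀ j k : ℕ, j ≤ k → k ≤ n → eval (mid (V n j) (V n k)) f = 0) : f = 0 := by
  obtain ⟨c, a, b, hr⟩ := rp_of_deg f hf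
  have hr' : f = pq c a b := hr
  rw [hr'] at h ⊢
  have hc : c = 0 := by
    have h1 := h 0 0 le_rfl (Nat.zero_le n)
    have e1 : mid (V n 0) (V n 0) = 0 := by
      rw [V_zero]
      funext i
      simp [mid]
    rw [e1, eval_pq] at h1
    simpa using h1
  have h2 : ∀ i : Fin n, a i * (1 / 2) + b i i * (1 / 2) ^ 2 = 0 := by
    intro i
    have h1 := h 0 ((i : ℕ) + 1) (Nat.zero_le _) i.2
    have e1 : mid (V n 0) (V n ((i : ℕ) + 1)) = Pi.single i (1 / 2) + Pi.single i 0 := by
      rw [V_zero, V_succ]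
      funext k
      by_cases hk : k = i
      · subst hk
        simp [mid]
      · simp [mid, hk]
    rw [e1, eval_two, hc] at h1
    simpa using h1
  have h3 : ∀ i j : Fin n, a i * (1 / 2) + a j * (1 / 2) + (b i i * (1 / 2) ^ 2 +
      b j j * (1 / 2) ^ 2 + (b i j + b j i) * (1 / 2 * (1 / 2))) = 0 := by
    intro i j
    have h1 : eval (mid (V n ((i : ℕ) + 1)) (V n ((j : ℕ) + 1))) (pq c a b) = 0 := by
      rcases le_total (i : ℕ) (j : ℕ) with hij | hij
      · exact h _ _ (by omega) j.2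
      · have e0 : mid (V n ((i : ℕ) + 1)) (V n ((j : ℕ) + 1)) =
            mid (V n ((j : ℕ) + 1)) (V n ((i : ℕ) + 1)) := by
          funext k
          simp only [mid]
          rw [add_comm]
        rw [e0]
        exact h _ _ (by omega) i.2
    have e1 : mid (V n ((i : ℕ) + 1)) (V n ((j : ℕ) + 1)) =
        Pi.single i (1 / 2) + Pi.single j (1 / 2) := by
      rw [V_succ, V_succ]
      funext k
      simp only [mid, Pi.add_apply, Pi.single_apply]
      split_ifs <;> norm_num
    rw [e1, eval_two, hc, zero_add] at h1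
    exact h1
  have h4 : ∀ i j : Fin n, b i j + b j i = 0 := by
    intro i j
    have h5 := h3 i j
    have h6 := h2 i
    have h7 := h2 j
    linear_combination 4 * h5 - 4 * h6 - 4 * h7
  have h5 : ∀ i : Fin n, a i = 0 := by
    intro i
    have h6 := h2 i
    have h7 := h4 i i
    linear_combination 2 * h6 - (1 / 4) * h7
  have h6 : ∑ i, ∑ j, C (b i j) * (X i * X j : MvPolynomial (Fin n) ℂ) = 0 := by
    have h7 : ∑ i, ∑ j, C (b i j) * (X i * X j : MvPolynomial (Fin n) ℂ) =
        - ∑ i, ∑ j, C (b i j) * (X i * X j : MvPolynomial (Fin n) ℂ) := by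
      conv_lhs => rw [Finset.sum_comm]
      rw [← Finset.sum_neg_distrib]
      refine Finset.sum_congr rfl fun i _ => ?_
      rw [← Finset.sum_neg_distrib]
      refine Finset.sum_congr rfl fun j _ => ?_
      have h8 : b j i = - b i j := by linear_combination h4 i j
      rw [h8, C_neg]
      ring
    exact self_eq_neg.1 h7
  unfold pq
  rw [h6, hc]
  simp [h5]

/-! ### the space -/

/-- the space of the statement without the simple points -/
noncomputable def U0 (n : ℕ) {p p' : ℕ} (z : Fin p → Fin n → ℂ) (y : Fin p' → Fin n → ℂ) :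
    Submodule ℂ (Pol n 2) :=
  ((⨅ i : Fin p, LinearMap.ker (ev n 2 (z i))) ⊓
      (⨅ i : Fin p × Fin n, LinearMap.ker (dv n 2 i.2 (z i.1))) ⊓
      (⨅ j : Fin p', LinearMap.ker (ev n 2 (y j))) ⊓
      (⨅ j : Fin p' × Fin p', LinearMap.ker (ev n 2 (mid (y j.1) (y j.2)))))

theorem mem_U0 {n p p' : ℕ} {z : Fin p → Fin n → ℂ} {y : Fin p' → Fin n → ℂ} {f : Pol n 2} :
    f ∈ U0 n z y ↔ (((∀ i, eval (z i) (f : MvPolynomial (Fin n) ℂ) = 0) ∧
      (∀ i k, eval (z i) (pderiv k (f : MvPolynomial (Fin n) ℂ)) = 0)) ∧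
      (∀ j, eval (y j) (f : MvPolynomial (Fin n) ℂ) = 0)) ∧
      ∀ j k, eval (mid (y j) (y k)) (f : MvPolynomial (Fin n) ℂ) = 0 := by
  unfold U0
  simp only [Submodule.mem_inf, Submodule.mem_iInf, LinearMap.mem_ker, ev_apply, dv_apply,
    Prod.forall]

theorem sum_count (p' : ℕ) : ∀ m : ℕ,
    (∑ k ∈ Finset.range m, (k + p' + 1)) + (p' + p'.choose 2) = (m + p' + 1).choose 2 := by
  intro m
  induction m with
  | zero =>
    rw [Finset.sum_range_zero, zero_add, zero_add, Nat.choose_succ_succ' p' 1, Nat.choose_one_right]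
  | succ m ih =>
    rw [Finset.sum_range_succ, show m + 1 + p' + 1 = (m + p' + 1) + 1 by ring,
      Nat.choose_succ_succ' (m + p' + 1) 1, Nat.choose_one_right, ← ih]
    ring

theorem count2 {n p : ℕ} (hp : p ≤ n + 1) :
    NN n 2 + p.choose 2 = (n + 1) * p + (n + 2 - p).choose 2 := by
  obtain ⟨q, hq⟩ : ∃ q, n + 1 = p + q := ⟨n + 1 - p, by omega⟩
  have e1 : n + 2 - p = q + 1 := by omega
  have e2 : NN n 2 = (p + q + 1).choose 2 := by
    have : NN n 2 = (n + 2).choose 2 := by
      show (n + 2).choose n = _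
      rw [← Nat.choose_symm_add]
    rw [this, show n + 2 = p + q + 1 by omega]
  rw [e1, e2, hq]
  have h : ∀ m : ℕ, (m + 1).choose 2 * 2 = (m + 1) * m := by
    intro m
    rw [Nat.choose_two_right, Nat.add_sub_cancel]
    exact Nat.div_mul_cancel (by
      rw [mul_comm]
      exact (Nat.even_mul_succ_self m).two_dvd)
  have h1 := h (p + q)
  have h2 := h q
  have h3 : p.choose 2 * 2 + p = p * p := by
    rcases p with _ | p
    · simp
    · have := h p
      rw [this]
      ring
  nlinarith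

theorem finrank_U0 {n p p' : ℕ} (h : p + p' ≤ n + 1) :
    finrank ℂ ↥(U0 n (fun i : Fin p => V n i) (fun j : Fin p' => V n (p + j))) ≤
      NN n 2 + p.choose 2 - ((n + 1) * p + p' + p'.choose 2) := by
  classical
  set m : ℕ := n + 1 - (p + p') with hm
  let Φ : Pol n 2 →ₗ[ℂ] ((k : Fin m) × Fin ((k : ℕ) + p' + 1) → ℂ) :=
    LinearMap.pi fun x => ev n 2 (mid (V n (p + x.2)) (V n (p + p' + x.1)))
  have hinj : ∀ f ∈ U0 n (fun i : Fin p => V n i) (fun j : Fin p' => V n (p + j)),
      Φ f = 0 → f = 0 := by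
    intro f hf hΦ
    obtain ⟨⟨⟨h1, h2⟩, h3⟩, h4⟩ := mem_U0.1 hf
    have hd : (f : MvPolynomial (Fin n) ℂ).totalDegree ≤ 2 := mem_Pol.1 f.2
    apply Subtype.ext
    -- the nodes with `p ≤ j`
    have h5 : ∀ j k : ℕ, j ≤ k → k ≤ n → p ≤ j →
        eval (mid (V n j) (V n k)) (f : MvPolynomial (Fin n) ℂ) = 0 := by
      intro j k hjk hk hj
      by_cases hk' : k < p + p'
      · have := h4 ⟨j - p, by omega⟩ ⟨k - p, by omega⟩
        simp only at this
        rwa [show p + (j - p) = j by omega, show p + (k - p) = k by omega] at this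
      · have h6 := congrFun hΦ ⟨⟨k - (p + p'), by omega⟩, ⟨j - p, by simp only; omega⟩⟩
        change ev n 2 (mid (V n (p + (j - p))) (V n (p + p' + (k - (p + p'))))) f = 0 at h6
        rwa [ev_apply, show p + (j - p) = j by omega,
          show p + p' + (k - (p + p')) = k by omega] at h6
    have hself : ∀ k : ℕ, mid (V n k) (V n k) = V n k := by
      intro k
      funext i
      simp only [mid]
      ring
    have h6 : ∀ k : ℕ, k ≤ n → eval (V n k) (f : MvPolynomial (Fin n) ℂ) = 0 := by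
      intro k hk
      by_cases hkp : k < p
      · exact h1 ⟨k, hkp⟩
      · have := h5 k k le_rfl hk (by omega)
        rwa [hself] at this
    refine eq_zero_of_nodes _ hd fun j k hjk hk => ?_
    by_cases hj : p ≤ j
    · exact h5 j k hjk hk hj
    · rw [eval_mid_of_double _ hd (V n j) (V n k) (h1 ⟨j, by omega⟩) (h2 ⟨j, by omega⟩), h6 k hk,
        zero_div]
  have hle : finrank ℂ ↥(U0 n (fun i : Fin p => V n i) (fun j : Fin p' => V n (p + j))) ≤
      finrank ℂ ((k : Fin m) × Fin ((k : ℕ) + p' + 1) → ℂ) := by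
    refine LinearMap.finrank_le_finrank_of_injective (f := Φ.domRestrict _) ?_
    intro f g hfg
    have h0 : Φ ((f : Pol n 2) - (g : Pol n 2)) = 0 := by
      rw [map_sub, sub_eq_zero]
      exact hfg
    exact Subtype.ext (sub_eq_zero.1 (hinj _ (Submodule.sub_mem _ f.2 g.2) h0))
  refine hle.trans (le_of_eq ?_)
  rw [Module.finrank_fintype_fun_eq_card, Fintype.card_sigma]
  simp only [Fintype.card_fin]
  rw [Finset.sum_range (fun k => k + p' + 1) |>.symm]
  have e1 := sum_count p' m
  have e2 := count2 (n := n) (p := p) (by omega)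
  rw [show m + p' + 1 = n + 2 - p by omega] at e1
  omega

/-- the space of the statement -/
noncomputable def UU (n : ℕ) {p p' e : ℕ}
    (q : (Fin p → Fin n → ℂ) × (Fin p' → Fin n → ℂ) × (Fin e → Fin n → ℂ)) :
    Submodule ℂ (Pol n 2) :=
  U0 n q.1 q.2.1 ⊓ (⨅ t : Fin e, LinearMap.ker (ev n 2 (q.2.2 t)))

theorem PK_UU (n p p' e : ℕ) : PK (K := ℂ)
    fun q : (Fin p → Fin n → ℂ) × (Fin p' → Fin n → ℂ) × (Fin e → Fin n → ℂ) => UU n q := by
  let X : Type := (Fin p → Fin n → ℂ) × (Fin p' → Fin n → ℂ) × (Fin e → Fin n → ℂ)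
  let P1 : X →ₗ[ℂ] (Fin p → Fin n → ℂ) := LinearMap.fst ℂ _ _
  let P2 : X →ₗ[ℂ] (Fin p' → Fin n → ℂ) := (LinearMap.fst ℂ _ _).comp (LinearMap.snd ℂ _ _)
  let P3 : X →ₗ[ℂ] (Fin e → Fin n → ℂ) := (LinearMap.snd ℂ _ _).comp (LinearMap.snd ℂ _ _)
  have hev : ∀ L : X →ₗ[ℂ] (Fin n → ℂ), PK fun q : X => LinearMap.ker (ev n 2 (L q)) := by
    intro L
    refine PK.one (φ := fun q : X => ev n 2 (L q)) fun f => ?_
    simp only [ev_apply]
    exact (LP_eval _).comp_linear L
  have hdv : ∀ (k : Fin n) (L : X →ₗ[ℂ] (Fin n → ℂ)),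
      PK fun q : X => LinearMap.ker (dv n 2 k (L q)) := by
    intro k L
    refine PK.one (φ := fun q : X => dv n 2 k (L q)) fun f => ?_
    simp only [dv_apply]
    exact (LP_eval _).comp_linear L
  have h1 : PK fun q : X => ⨅ i : Fin p, LinearMap.ker (ev n 2 (q.1 i)) :=
    PK.iInf fun i => hev ((pt i).comp P1)
  have h2 : PK fun q : X => ⨅ i : Fin p × Fin n, LinearMap.ker (dv n 2 i.2 (q.1 i.1)) :=
    PK.iInf fun i => hdv i.2 ((pt i.1).comp P1)
  have h3 : PK fun q : X => ⨅ j : Fin p', LinearMap.ker (ev n 2 (q.2.1 j)) :=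
    PK.iInf fun j => hev ((pt j).comp P2)
  have h4 : PK fun q : X => ⨅ j : Fin p' × Fin p',
      LinearMap.ker (ev n 2 (mid (q.2.1 j.1) (q.2.1 j.2))) := by
    refine PK.iInf fun j => ?_
    refine (hev ((1 / 2 : ℂ) • ((pt j.1).comp P2 + (pt j.2).comp P2))).congr fun q => ?_
    congr 2
    funext i
    change (1 / 2 : ℂ) * (q.2.1 j.1 i + q.2.1 j.2 i) = (q.2.1 j.1 i + q.2.1 j.2 i) / 2
    ring
  have h5 : PK fun q : X => ⨅ t : Fin e, LinearMap.ker (ev n 2 (q.2.2 t)) :=
    PK.iInf fun t => hev ((pt t).comp P3)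
  exact (((h1.inf h2).inf h3).inf h4).inf h5

end UKaux

open UKaux in
theorem x_UK : S_UK := by
  intro n p p' e hn hpp
  obtain ⟨s, hs⟩ := red (fun z : Fin n → ℂ => ev n 2 z)
    (U0 n (fun i : Fin p => V n i) (fun j : Fin p' => V n (p + j))) ⊥ (by
      intro f hf hf0
      by_contra hcon
      push Not at hcon
      apply hf0
      rw [Submodule.mem_bot]
      apply Subtype.ext
      refine MvPolynomial.funext fun z => ?_
      have := hcon z
      rw [ev_apply] at this
      rw [this]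
      simp) e
  rw [finrank_bot] at hs
  have h1 : finrank ℂ ↥(UU n ((fun i : Fin p => V n i), (fun j : Fin p' => V n (p + j)), s)) ≤
      NN n 2 + p.choose 2 - ((n + 1) * p + p' + p'.choose 2 + e) := by
    refine le_trans hs (max_le ?_ (Nat.zero_le _))
    have h2 := finrank_U0 (n := n) hpp
    omega
  exact (PK_UU n p p' e).gen_finrank h1

end Pool.Agent.WarC
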