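import Pool.Agent.WarC.Stmts3
import Pool.Agent.WarC.COR3
import Pool.Agent.WarC.PERT
import Pool.Agent.WarC.UK
import Pool.Agent.WarM.CubAH
import Pool.Agent.WarS.SG

/-!
# Simultaneous Waring decompositions (MP_db021c_ag), cubics: the exceptional cases (EXF)
-/

set_option autoImplicit false

open Module MvPolynomial
open Pool.Agent.War Pool.Agent.WarS Pool.Agent.WarQ

namespace Pool.Agent.WarC

namespace EXFaux

/-- `p` full and `q` simple points: the dimension can be at most `k` -/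
def BD (n b p q k : ℕ) : Prop :=
  ∃ x : (Fin p ⊕ Fin q → Fin n → ℂ) × (Fin p → Fin b → ℂ), finrank ℂ (TrC1 n 3 x) ≤ k

theorem gg {n p : ℕ} (h : (n + 1) * (p + 1) ≤ NN n 3) : GG n 3 p := WarM.CUBIC n p (Or.inl h)

/-- the numbers of full points -/
def r2 : Fin 2 → ℕ := fun k => if k = 0 then 1 else 0

theorem sum_r2 : ∑ k, r2 k = 1 := by decide

/-- a block of two forms which is killed -/
theorem blk {ν u e w : ℕ} (hν : 1 ≤ ν) (hG : GG ν 3 u) (h1 : NN ν 3 ≤ ν * u + 2 * u)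
    (h2 : ν + 2 ≤ 1 + e) (h3 : 1 + e + w = NN (ν + 1) 2) (h4 : ν + 1 ≤ w)
    (h5 : 2 * w ≤ 2 * u + (ν + 1)) : BD (ν + 1) 2 (2 * u + 1) e 0 := by
  obtain ⟨x, hx⟩ := x_PERT x_UK (ν + 1) 2 e w r2 (Equiv.swap 0 1) (by omega) (by decide)
    (fun k => by
      have h6 : r2 k + r2 (Equiv.swap 0 1 k) ≤ 1 := by
        revert k
        decide
      omega) (by rw [sum_r2]; exact h3)
    (fun k => by
      have h6 : (r2 k).choose 2 = 0 := by
        revert k
        decide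
      have h7 : r2 (Equiv.swap 0 1 k) ≤ 1 := by
        revert k
        decide
      have h8 : (ν + 1) * r2 (Equiv.swap 0 1 k) ≤ (ν + 1) * 1 := Nat.mul_le_mul_left _ h7
      omega)
  rw [sum_r2, mul_one] at hx
  obtain ⟨z, a, y, hK⟩ := x_COR3 ν 2 u e 0 ((k : Fin 2) × Fin (r2 k)) hν hG (by omega)
    (by rw [Fintype.card_sigma]; simp only [Fintype.card_fin, sum_r2]; exact h2)
    ⟨x, by omega⟩
  have c1 : Fintype.card (Fin (2 * u + 1)) =
      Fintype.card ((Fin 2 × Fin u) ⊕ ((k : Fin 2) × Fin (r2 k))) := by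
    rw [Fintype.card_sum, Fintype.card_prod, Fintype.card_sigma]
    simp only [Fintype.card_fin, sum_r2]
  have c2 : Fintype.card (Fin e) = Fintype.card (Fin 0 ⊕ Fin e) := by
    rw [Fintype.card_sum]
    simp only [Fintype.card_fin, zero_add]
  have hK' := hK.reindexC1 (Fintype.equivOfCardEq c1) (Fintype.equivOfCardEq c2)
  refine ⟨(Sum.elim (z ∘ Fintype.equivOfCardEq c1) (y ∘ Fintype.equivOfCardEq c2),
    a ∘ Fintype.equivOfCardEq c1), ?_⟩
  rw [Nat.le_zero, Submodule.finrank_eq_zero, Submodule.eq_bot_iff]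
  intro f hf
  obtain ⟨k1, k2⟩ := mem_TrC1.1 hf
  have h6 := hK' (fun j => (f j : MvPolynomial (Fin (ν + 1)) ℂ)) (fun j => mem_Pol.1 (f j).2)
    (fun i j => k1 (Sum.inl i) j) (fun i k => k2 i k) (fun i j => k1 (Sum.inr i) j)
  funext j
  exact Subtype.ext (h6 j)

/-- one full point becomes a simple one -/
theorem drop {n b p q k : ℕ} (h : BD n b (p + 1) q k) : BD n b p (q + 1) (k + n) := by
  obtain ⟨⟨z, a⟩, hx⟩ := h
  refine ⟨(Sum.elim (fun i => z (Sum.inl i.castSucc))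
    (Fin.lastCases (z (Sum.inl (Fin.last p))) fun j => z (Sum.inr j)),
    fun i => a i.castSucc), ?_⟩
  set V' := TrC1 n 3 (γ := Fin b) ((Sum.elim (fun i => z (Sum.inl i.castSucc))
    (Fin.lastCases (z (Sum.inl (Fin.last p))) fun j => z (Sum.inr j)) :
      Fin p ⊕ Fin (q + 1) → Fin n → ℂ), fun i : Fin p => a i.castSucc) with hV'
  let ρ : (Fin b → Pol n 3) →ₗ[ℂ] (Fin n → ℂ) :=
    LinearMap.pi fun k => gr n 3 k (z (Sum.inl (Fin.last p))) (a (Fin.last p))
  have h1 := finrank_le_map_add_ker ρ V'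
  have h2 : finrank ℂ (V'.map ρ) ≤ n := by
    refine (Submodule.finrank_le _).trans (le_of_eq ?_)
    rw [Module.finrank_fintype_fun_eq_card, Fintype.card_fin]
  have h3 : V' ⊓ LinearMap.ker ρ ≤ TrC1 n 3 (z, a) := by
    rintro f ⟨hf1, hf2⟩
    rw [SetLike.mem_coe, hV', mem_TrC1] at hf1
    obtain ⟨k1, k2⟩ := hf1
    rw [SetLike.mem_coe, LinearMap.mem_ker] at hf2
    rw [mem_TrC1]
    refine ⟨?_, ?_⟩
    · rintro (i | i) j
      · refine Fin.lastCases ?_ (fun i' => ?_) i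
        · have := k1 (Sum.inr (Fin.last q)) j
          simpa using this
        · exact k1 (Sum.inl i') j
      · have := k1 (Sum.inr i.castSucc) j
        simpa using this
    · intro i k
      refine Fin.lastCases ?_ (fun i' => ?_) i
      · have := congrFun hf2 k
        change gr n 3 k (z (Sum.inl (Fin.last p))) (a (Fin.last p)) f = 0 at this
        rw [gr_apply] at this
        exact this
      · exact k2 i' k
  have h4 := Submodule.finrank_mono h3
  omega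

/-- two blocks of two forms -/
theorem asm2 {n p q k₁ k₂ : ℕ} (h₁ : BD n 2 p q k₁) (h₂ : BD n 2 q p k₂) :
    ∃ (z : Fin (p + q) → Fin n → ℂ) (a : Fin (p + q) → Fin 4 → ℂ),
      finrank ℂ (FK n 3 z a) ≤ k₁ + k₂ := by
  obtain ⟨x₁, hx₁⟩ := h₁
  obtain ⟨x₂, hx₂⟩ := h₂
  let L₁ : ((Fin p ⊕ Fin q → Fin n → ℂ) × ((Fin p → Fin 2 → ℂ) × (Fin q → Fin 2 → ℂ))) →ₗ[ℂ]
      ((Fin p ⊕ Fin q → Fin n → ℂ) × (Fin p → Fin 2 → ℂ)) :=
    LinearMap.prodMap LinearMap.id (LinearMap.fst ℂ _ _)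
  let S : (Fin p ⊕ Fin q → Fin n → ℂ) →ₗ[ℂ] (Fin q ⊕ Fin p → Fin n → ℂ) :=
    LinearMap.funLeft ℂ (Fin n → ℂ) Sum.swap
  let L₂ : ((Fin p ⊕ Fin q → Fin n → ℂ) × ((Fin p → Fin 2 → ℂ) × (Fin q → Fin 2 → ℂ))) →ₗ[ℂ]
      ((Fin q ⊕ Fin p → Fin n → ℂ) × (Fin q → Fin 2 → ℂ)) :=
    LinearMap.prodMap S (LinearMap.snd ℂ _ _)
  have hL₁ : Function.Surjective L₁ := by
    rintro ⟨z, a⟩
    exact ⟨(z, (a, 0)), rfl⟩
  have hL₂ : Function.Surjective L₂ := by
    rintro ⟨z, a⟩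
    refine ⟨(z ∘ Sum.swap, (0, a)), ?_⟩
    refine Prod.ext ?_ rfl
    funext i
    change (z ∘ Sum.swap) (Sum.swap i) = z i
    rw [Function.comp_apply, Sum.swap_swap]
  obtain ⟨⟨z, a₁, a₂⟩, g1, g2⟩ := (((PK_TrC1 n 3).gen_finrank (x₀ := x₁) hx₁).comp L₁ hL₁ |>.and
    (((PK_TrC1 n 3).gen_finrank (x₀ := x₂) hx₂).comp L₂ hL₂)).exists
  have g1' : finrank ℂ (TrC1 n 3 (z, a₁)) ≤ k₁ := g1
  have g2' : finrank ℂ (TrC1 n 3 ((z ∘ Sum.swap : Fin q ⊕ Fin p → Fin n → ℂ), a₂)) ≤ k₂ := g2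
  let aa : Fin p ⊕ Fin q → Fin (2 + 2) → ℂ :=
    Sum.elim (fun i => Fin.append (a₁ i) 0) (fun i => Fin.append 0 (a₂ i))
  refine ⟨fun i => z (finSumFinEquiv.symm i), fun i => aa (finSumFinEquiv.symm i), ?_⟩
  set V := FK n 3 (s := 4) (fun i : Fin (p + q) => z (finSumFinEquiv.symm i))
    (fun i => aa (finSumFinEquiv.symm i)) with hV
  have hv : ∀ f ∈ V, (∀ i j, eval (z i) (f j : MvPolynomial (Fin n) ℂ) = 0) ∧
      ∀ i k, ∑ j : Fin (2 + 2), aa i j * eval (z i) (pderiv k (f j : MvPolynomial (Fin n) ℂ)) = 0 := by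
    intro f hf
    rw [hV, mem_FK] at hf
    refine ⟨fun i j => ?_, fun i k => ?_⟩
    · have := hf.1 (finSumFinEquiv i) j
      simpa using this
    · have := hf.2 (finSumFinEquiv i) k
      simp only [Equiv.symm_apply_apply] at this
      exact this
  have m1 : ∀ f ∈ V, (fun j : Fin 2 => f (Fin.castAdd 2 j)) ∈ TrC1 n 3 (z, a₁) := by
    intro f hf
    obtain ⟨k1, k2⟩ := hv f hf
    rw [mem_TrC1]
    refine ⟨fun i j => k1 i _, fun i k => ?_⟩
    have := k2 (Sum.inl i) k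
    have e1 : ∀ j : Fin 2, aa (Sum.inl i) (Fin.castAdd 2 j) = a₁ i j := fun j =>
      Fin.append_left (a₁ i) 0 j
    have e2 : ∀ j : Fin 2, aa (Sum.inl i) (Fin.natAdd 2 j) = 0 := fun j =>
      Fin.append_right (a₁ i) 0 j
    rw [Fin.sum_univ_add] at this
    simp only [e1, e2, zero_mul, Finset.sum_const_zero, add_zero] at this
    exact this
  have m2 : ∀ f ∈ V, (fun j : Fin 2 => f (Fin.natAdd 2 j)) ∈
      TrC1 n 3 ((z ∘ Sum.swap : Fin q ⊕ Fin p → Fin n → ℂ), a₂) := by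
    intro f hf
    obtain ⟨k1, k2⟩ := hv f hf
    rw [mem_TrC1]
    refine ⟨fun i j => k1 _ _, fun i k => ?_⟩
    have := k2 (Sum.inr i) k
    have e1 : ∀ j : Fin 2, aa (Sum.inr i) (Fin.castAdd 2 j) = 0 := fun j =>
      Fin.append_left 0 (a₂ i) j
    have e2 : ∀ j : Fin 2, aa (Sum.inr i) (Fin.natAdd 2 j) = a₂ i j := fun j =>
      Fin.append_right 0 (a₂ i) j
    rw [Fin.sum_univ_add] at this
    simp only [e1, e2, zero_mul, Finset.sum_const_zero, zero_add] at this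
    exact this
  let A : (Fin (2 + 2) → Pol n 3) →ₗ[ℂ] (Fin 2 → Pol n 3) :=
    LinearMap.funLeft ℂ (Pol n 3) (Fin.castAdd 2)
  let B : (Fin (2 + 2) → Pol n 3) →ₗ[ℂ] (Fin 2 → Pol n 3) :=
    LinearMap.funLeft ℂ (Pol n 3) (Fin.natAdd 2)
  have n1 := finrank_le_map_add_ker A V
  have n2 := finrank_le_map_add_ker B (V ⊓ LinearMap.ker A)
  have n3 : V.map A ≤ TrC1 n 3 (z, a₁) := by
    rintro _ ⟨f, hf, rfl⟩
    exact m1 f hf
  have n4 : (V ⊓ LinearMap.ker A).map B ≤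
      TrC1 n 3 ((z ∘ Sum.swap : Fin q ⊕ Fin p → Fin n → ℂ), a₂) := by
    rintro _ ⟨f, hf, rfl⟩
    exact m2 f hf.1
  have n5 : V ⊓ LinearMap.ker A ⊓ LinearMap.ker B = ⊥ := by
    rw [Submodule.eq_bot_iff]
    rintro f ⟨⟨-, hfA⟩, hfB⟩
    have e1 : A f = 0 := hfA
    have e2 : B f = 0 := hfB
    funext j
    exact Fin.addCases (m := 2) (n := 2)
      (motive := fun j => (f : Fin (2 + 2) → Pol n 3) j = 0)
      (fun i => congrFun e1 i) (fun i => congrFun e2 i) j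
  have n6 := Submodule.finrank_mono n3
  have n7 := Submodule.finrank_mono n4
  rw [n5, finrank_bot] at n2
  refine le_trans n1 ?_
  omega

theorem e4 : Full 4 4 17 := by
  have h := blk (ν := 3) (u := 4) (e := 8) (w := 6) (by norm_num) (gg (by decide)) (by decide)
    (by norm_num) (by decide) (by norm_num) (by norm_num)
  obtain ⟨z, a, hz⟩ := asm2 h (drop h)
  refine ⟨z, a, hz.trans ?_⟩
  decide

theorem e6 : Full 6 4 34 := by
  have h := blk (ν := 5) (u := 8) (e := 17) (w := 10) (by norm_num) (gg (by decide)) (by decide)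
    (by norm_num) (by decide) (by norm_num) (by norm_num)
  obtain ⟨z, a, hz⟩ := asm2 h h
  refine ⟨z, a, hz.trans ?_⟩
  decide

theorem e6' : Full 6 4 33 := by
  have h := blk (ν := 5) (u := 8) (e := 16) (w := 11) (by norm_num) (gg (by decide)) (by decide)
    (by norm_num) (by decide) (by norm_num) (by norm_num)
  obtain ⟨z, a, hz⟩ := asm2 h (drop h)
  refine ⟨z, a, hz.trans ?_⟩
  decide

/-- the form for which a point is full -/
def cls (i : Fin 24) : Fin 4 := ⟨i.val % 4, Nat.mod_lt _ (by norm_num)⟩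

theorem e5 : Full 5 4 24 := by
  have hP : ∀ j : Fin 4, (Finset.univ.filter fun i : Fin 24 => cls i = j).card = 6 := by decide
  obtain ⟨z, hz⟩ := (Gen.forall fun j : Fin 4 => SG 5 3 (Fin 24)
    (Finset.univ.filter fun i : Fin 24 => cls i = j) (by norm_num)
    (by rw [hP]; exact gg (by decide))).exists
  refine ⟨z, fun i => Pi.single (cls i) 1, ?_⟩
  have h1 : FK 5 3 z (fun i => (Pi.single (cls i) 1 : Fin 4 → ℂ)) ≤
      Submodule.pi Set.univ fun j : Fin 4 =>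
        Dbl 5 3 (Finset.univ.filter fun i : Fin 24 => cls i = j) z := by
    intro f hf
    rw [mem_FK] at hf
    rw [Submodule.mem_pi]
    intro j _
    refine mem_Dbl.2 ⟨fun i => hf.1 i j, fun i hi k => ?_⟩
    have := hf.2 i k
    rw [Finset.mem_filter] at hi
    simpa [Pi.single_apply, hi.2] using this
  refine (Submodule.finrank_mono h1).trans ((finrank_pi_leC1 _).trans ?_)
  refine (Finset.sum_le_sum fun j _ => hz j).trans ?_
  simp only [hP, Fintype.card_fin, Finset.sum_const, Finset.card_univ]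
  decide

end EXFaux

theorem x_EXF : S_EXF := ⟨EXFaux.e4, EXFaux.e5, EXFaux.e6', EXFaux.e6⟩

end Pool.Agent.WarC
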