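import Pool.Agent.WarC.Stmts3

/-!
# Simultaneous Waring decompositions (MP_db021c_ag), cubics, `3 ≤ s ≤ n` forms: the induction   (helper25)
-/

set_option autoImplicit false

open Module MvPolynomial
open Pool.Agent.War Pool.Agent.WarS Pool.Agent.WarQ

namespace Pool.Agent.WarC

theorem FK_reindex {n d s : ℕ} {I J : Type} (e : J ≃ I) (z : I → Fin n → ℂ) (a : I → Fin s → ℂ) :
    FK n d (fun j => z (e j)) (fun j => a (e j)) = FK n d z a := by
  ext f
  rw [mem_FK, mem_FK]
  constructor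
  · rintro ⟨h1, h2⟩
    refine ⟨fun i j => ?_, fun i k => ?_⟩
    · have := h1 (e.symm i) j
      simpa using this
    · have := h2 (e.symm i) k
      simpa using this
  · rintro ⟨h1, h2⟩
    exact ⟨fun i j => h1 (e i) j, fun i k => h2 (e i) k⟩

theorem Full.of_type {n s h : ℕ} {I : Type} [Fintype I] (hI : Fintype.card I = h)
    (H : ∃ (z : I → Fin n → ℂ) (a : I → Fin s → ℂ),
      finrank ℂ (FK n 3 z a) ≤ s * NN n 3 - (n + s) * h) : Full n s h := by
  obtain ⟨z, a, hza⟩ := H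
  let e := (Fintype.equivFinOfCardEq hI).symm
  exact ⟨fun j => z (e j), fun j => a (e j), by rw [FK_reindex]; exact hza⟩

theorem stepC (hT : S_TRC) (hR : S_RESC) (hD : S_DHC) (hA : S_ARR) (hP : S_PERTH)
    {n s h U Y P : ℕ} (hn : 1 ≤ n) (hs : 2 ≤ s) (hF : Full n s U)
    (hUY : (n + s) * U + Y = s * NN n 3) (hh : P + U + Y = h) (hNC : NC (n + 1) s P Y) :
    Full (n + 1) s h := by
  classical
  obtain ⟨κ, σ, h1, h2, h3, h4, h5, h6⟩ := hA n s P Y hs hNC
  set w : ℕ := NN (n + 1) 2 - (P + Y) with hw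
  have hw' : Fintype.card (Fin P) + Fintype.card (Fin Y) + w = NN (n + 1) 2 := by
    simp only [Fintype.card_fin]
    omega
  have hcfg := hP n s w (Fin P) (Fin Y) κ σ h1 h2 h3 h4 hw' h6
  simp only [Fintype.card_fin] at hcfg
  have hPs : s ≤ Fintype.card (Fin P) := by
    have := Fintype.card_le_of_surjective (fun i : Fin P => κ (Sum.inl i)) h4
    simpa using this
  -- the sum of the conditions
  have hsum : (n + 1) * (P + Y) ≤ s * w := by
    have e0 : ∑ k, fib κ k = P + Y := by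
      have := Finset.card_eq_sum_card_fiberwise (s := (Finset.univ : Finset (Fin P ⊕ Fin Y)))
        (t := (Finset.univ : Finset (Fin s))) (f := κ) (fun _ _ => Finset.mem_coe.2 (Finset.mem_univ _))
      simpa [fib] using this.symm
    have e1 : ∑ k, fib κ (σ k) = P + Y := by
      rw [← e0]
      exact Equiv.sum_comp σ fun k => fib κ k
    have e2 : ∑ k, (fib κ (σ k)).choose 2 = ∑ k, (fib κ k).choose 2 :=
      Equiv.sum_comp σ fun k => (fib κ k).choose 2
    have e3 := Finset.sum_le_sum fun k (_ : k ∈ (Finset.univ : Finset (Fin s))) => h6 k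
    rw [Finset.sum_add_distrib, Finset.sum_add_distrib, ← Finset.mul_sum, e1, e2,
      Finset.sum_const, Finset.card_univ, Fintype.card_fin, smul_eq_mul] at e3
    exact Nat.le_of_add_le_add_right e3
  have gR := hR n s (s * w - (n + 1) * (P + Y)) (Fin P) (Fin U) (Fin Y) (by omega) hPs hcfg
  simp only [Fintype.card_fin] at gR
  have gT := (hT n s U Y hn hF hUY.symm.le).comp
    (LinearMap.snd ℂ ((Fin P → Fin (n + 1) → ℂ) × (Fin P → Fin s → ℂ))
      (((Fin U → Fin n → ℂ) × (Fin U → Fin s → ℂ)) × ((Fin Y → Fin n → ℂ) × (Fin Y → Fin s → ℂ))))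
    LinearMap.snd_surjective
  have gO := (gen_off (n := n) (I := Fin P)).comp
    ((LinearMap.fst ℂ (Fin P → Fin (n + 1) → ℂ) (Fin P → Fin s → ℂ)).comp
      (LinearMap.fst ℂ ((Fin P → Fin (n + 1) → ℂ) × (Fin P → Fin s → ℂ))
      (((Fin U → Fin n → ℂ) × (Fin U → Fin s → ℂ)) × ((Fin Y → Fin n → ℂ) × (Fin Y → Fin s → ℂ)))))
    (by
      rw [LinearMap.coe_comp]
      exact LinearMap.fst_surjective.comp LinearMap.fst_surjective)
  obtain ⟨x, ⟨hx1, hx2⟩, hx3⟩ := ((gR.and gT).and gO).exists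
  simp only [LinearMap.snd_apply, LinearMap.comp_apply, LinearMap.fst_apply] at hx2 hx3
  obtain ⟨t, ht⟩ := hD n s (Fin P) (Fin U) (Fin Y) x.1.1 x.1.2 x.2.1.1 x.2.1.2 x.2.2.1 x.2.2.2
    hx3 hx2
  refine Full.of_type (I := Fin P ⊕ (Fin U ⊕ Fin Y)) (by simp; omega) ⟨_, _, (ht.trans hx1).trans ?_⟩
  have hN : NN (n + 1) 3 = NN n 3 + NN (n + 1) 2 := NN_succ n 2
  have hsN : s * NN (n + 1) 3 = s * NN n 3 + s * (w + (P + Y)) := by
    rw [hN, mul_add]
    congr 2
    omega
  have e4 : s * (w + (P + Y)) = s * w + s * P + s * Y := by ring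
  have e5 : (n + 1 + s) * h = ((n + s) * U + Y) + (n + 1) * (P + Y) + s * P + s * Y + U - Y := by
    have : (n + 1 + s) * h + Y =
        ((n + s) * U + Y) + (n + 1) * (P + Y) + s * P + s * Y + U := by
      rw [← hh]
      ring
    omega
  rw [hsN, e5, e4, hUY]
  clear e5 e4 hsN
  have e6 : Y ≤ s * Y := Nat.le_mul_of_pos_left _ (by omega)
  generalize s * NN n 3 = A at *
  generalize s * w = B at *
  generalize (n + 1) * (P + Y) = D at *
  omega

/-- the induction step -/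
theorem AA_step (hT : S_TRC) (hR : S_RESC) (hD : S_DHC) (hA : S_ARR) (hP : S_PERTH)
    (hH : S_AAH) (hNa : S_NUMFa) (hNb : S_NUMFb) (hNc : S_NUMFc) (hE : S_EXF)
    {n s : ℕ} (hn : 1 ≤ n) (hs : 3 ≤ s) (hsn : s ≤ n + 1) (H : AA n s) : AA (n + 1) s := by
  have key : ∀ h, (h = s * NN (n + 1) 3 / (n + 1 + s) ∨
      h = (s * NN (n + 1) 3 + (n + 1 + s - 1)) / (n + 1 + s)) → Full (n + 1) s h := by
    intro h hh
    by_cases hX : XF (n + 1) s h
    · rcases hX with ⟨h1, rfl, rfl⟩ | ⟨h1, rfl, rfl⟩ | ⟨h1, rfl, rfl⟩ | ⟨h1, rfl, rfl⟩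
      · rw [h1]; exact hE.1
      · rw [h1]; exact hE.2.1
      · rw [h1]; exact hE.2.2.1
      · rw [h1]; exact hE.2.2.2
    · have hN : NF (n + 1) s h := by
        by_cases h45 : n + 1 < 45
        · exact hNa (n + 1) s h hs hsn h45 hh hX
        · by_cases h4 : 4 ≤ s
          · exact hNb (n + 1) s h h4 hsn (by omega) hh
          · have h3 : s = 3 := by omega
            subst h3
            exact hNc (n + 1) h (by omega) hh
      obtain ⟨U, Y, P, e1, e2, e3⟩ := hN
      exact stepC hT hR hD hA hP hn (by omega) (H U) e1 e2 e3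
  exact hH (n + 1) s (by omega) (key _ (Or.inl rfl)) (key _ (Or.inr rfl))

theorem AA23 (hT : S_TRC) (hR : S_RESC) (hD : S_DHC) (hA : S_ARR) (hP : S_PERTH)
    (hH : S_AAH) (h13 : S_AA13) : AA 2 3 := by
  have h6 : Full 2 3 6 := stepC (n := 1) (s := 3) (h := 6) (U := 3) (Y := 0) (P := 3)
    hT hR hD hA hP le_rfl (by norm_num) (h13 3) (by rw [NN_one]) rfl (by decide)
  have e1 : 3 * NN 2 3 / (2 + 3) = 6 := by decide
  have e2 : (3 * NN 2 3 + (2 + 3 - 1)) / (2 + 3) = 6 := by decide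
  exact hH 2 3 (by norm_num) (by rw [e1]; exact h6) (by rw [e2]; exact h6)

theorem AA_few (hT : S_TRC) (hR : S_RESC) (hD : S_DHC) (hA : S_ARR) (hP : S_PERTH)
    (hH : S_AAH) (hNa : S_NUMFa) (hNb : S_NUMFb) (hNc : S_NUMFc) (hE : S_EXF) (h13 : S_AA13)
    (hB : S_BASE) {s : ℕ} (hs : 3 ≤ s) : ∀ n, s ≤ n + 1 → AA n s := by
  intro n
  induction n with
  | zero => intro h; omega
  | succ n ih =>
    intro h
    rcases Nat.lt_or_ge n (s - 1) with h1 | h1
    · have hn : s = n + 1 + 1 := by omega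
      subst hn
      rcases Nat.lt_or_ge n 2 with h2 | h2
      · have h3 : n = 1 := by omega
        subst h3
        exact AA23 hT hR hD hA hP hH h13
      · exact hB (n + 1) (by omega)
    · exact AA_step hT hR hD hA hP hH hNa hNb hNc hE (by omega) hs (by omega) (ih (by omega))

end Pool.Agent.WarC
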