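import Pool.Agent.WarC.Stmts

/-!
# MP_db021c_ag, cubics: general position in the trade lemma (`S_GEN`)   (helper80)
-/

set_option autoImplicit false

open Module MvPolynomial
open Pool.Agent.War Pool.Agent.WarS Pool.Agent.WarQ

namespace Pool.Agent.WarC

namespace GENaux

/-- polynomials of degree at most one -/
theorem repr_affine {n : ℕ} (g : MvPolynomial (Fin n) ℂ) (h : g.totalDegree ≤ 1) :
    g = C (g.coeff 0) + ∑ j, C (g.coeff (Finsupp.single j 1)) * X j := by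
  ext m
  rw [coeff_add, coeff_C, coeff_sum]
  simp only [coeff_C_mul, coeff_X']
  by_cases h0 : m = 0
  · subst h0
    have h1 : ∀ j : Fin n, Finsupp.single j 1 ≠ (0 : Fin n →₀ ℕ) := fun j => by simp
    simp [h1]
  · rw [if_neg (fun h => h0 h.symm), zero_add]
    by_cases h1 : ∃ j, Finsupp.single j 1 = m
    · obtain ⟨j, rfl⟩ := h1
      rw [Finset.sum_eq_single j]
      · simp
      · intro i _ hi
        rw [if_neg, mul_zero]
        intro he
        exact hi (Finsupp.single_left_injective one_ne_zero he)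
      · intro hj
        exact absurd (Finset.mem_univ j) hj
    · push Not at h1
      rw [Finset.sum_eq_zero (fun j _ => by rw [if_neg (h1 j), mul_zero])]
      apply coeff_eq_zero_of_totalDegree_lt
      refine lt_of_le_of_lt h ?_
      by_contra hc
      push Not at hc
      obtain ⟨j, hj⟩ : ∃ j, m j ≠ 0 := by
        by_contra hn
        push Not at hn
        exact h0 (Finsupp.ext hn)
      have hjs : j ∈ m.support := Finsupp.mem_support_iff.2 hj
      have h2 : m j ≤ ∑ i ∈ m.support, m i :=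
        Finset.single_le_sum (f := fun i => m i) (fun _ _ => Nat.zero_le _) hjs
      apply h1 j
      ext i
      by_cases hij : j = i
      · subst hij
        rw [Finsupp.single_eq_same]
        omega
      · rw [Finsupp.single_eq_of_ne (fun h => hij h.symm)]
        by_contra hi
        have his : i ∈ m.support := Finsupp.mem_support_iff.2 (fun h => hi h.symm)
        have h3 : m j + m i ≤ ∑ i ∈ m.support, m i := by
          rw [← Finset.sum_pair hij]
          refine Finset.sum_le_sum_of_subset (fun k hk => ?_)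
          rcases Finset.mem_insert.1 hk with rfl | hk
          · exact hjs
          · rw [Finset.mem_singleton.1 hk]
            exact his
        have h4 : m i ≠ 0 := fun h => hi h.symm
        omega

theorem eval_affine {n : ℕ} (g : MvPolynomial (Fin n) ℂ) (h : g.totalDegree ≤ 1)
    (z : Fin n → ℂ) :
    eval z g = g.coeff 0 + ∑ j, g.coeff (Finsupp.single j 1) * z j := by
  conv_lhs => rw [repr_affine g h]
  simp

/-- the affine forms vanishing at all the points -/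
noncomputable def ZG {ν b c e : ℕ} (k : Fin b) (x : PT ν b c e) (q : WY ν c) :
    Submodule ℂ (Pol (ν + 1) 1) :=
  ((⨅ i, LinearMap.ker (ev (ν + 1) 1 (q.2 i))) ⊓
    (⨅ l : Fin c, LinearMap.ker (ev (ν + 1) 1 (hp (x.1 (Sum.inl (Sum.inr l))))))) ⊓
  ((⨅ l : Fin c, LinearMap.ker (ev (ν + 1) 1 (hp (q.1 l)))) ⊓
    LinearMap.ker (ev (ν + 1) 1 (hp (x.1 (Sum.inl (Sum.inl k))))))

theorem mem_ZG {ν b c e : ℕ} (k : Fin b) (x : PT ν b c e) (q : WY ν c) (g : Pol (ν + 1) 1) :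
    g ∈ ZG k x q ↔ ((∀ i, eval (q.2 i) (g : MvPolynomial (Fin (ν + 1)) ℂ) = 0) ∧
      (∀ l, eval (hp (x.1 (Sum.inl (Sum.inr l)))) (g : MvPolynomial (Fin (ν + 1)) ℂ) = 0)) ∧
      ((∀ l, eval (hp (q.1 l)) (g : MvPolynomial (Fin (ν + 1)) ℂ) = 0) ∧
      eval (hp (x.1 (Sum.inl (Sum.inl k)))) (g : MvPolynomial (Fin (ν + 1)) ℂ) = 0) := by
  unfold ZG
  simp only [Submodule.mem_inf, Submodule.mem_iInf, LinearMap.mem_ker, ev_apply]

theorem GP_of {ν b c e : ℕ} {x : PT ν b c e} {q : WY ν c} (h0 : ∀ i, q.2 i 0 ≠ 0)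
    (h : ∀ k, ZG k x q = ⊥) : GP x q := by
  refine ⟨h0, fun k g hg h1 h2 h3 h4 => ?_⟩
  have hm : (⟨g, mem_Pol.2 hg⟩ : Pol (ν + 1) 1) ∈ ZG k x q :=
    (mem_ZG k x q _).2 ⟨⟨h1, h2⟩, ⟨h3, h4⟩⟩
  rw [h k, Submodule.mem_bot] at hm
  exact congrArg Subtype.val hm

theorem PK_const_ev {X : Type} [AddCommGroup X] [Module ℂ X] {n : ℕ} (z : Fin n → ℂ) :
    PK (K := ℂ) fun _ : X => LinearMap.ker (ev n 1 z) :=
  PK.one (φ := fun _ : X => ev n 1 z) fun f => LP.const (ev n 1 z f)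

theorem PK_hp_ev {X : Type} [AddCommGroup X] [Module ℂ X] {n : ℕ} (L : X →ₗ[ℂ] (Fin n → ℂ)) :
    PK (K := ℂ) fun x : X => LinearMap.ker (ev (n + 1) 1 (hp (L x))) := by
  refine PK.one (φ := fun x : X => ev (n + 1) 1 (hp (L x))) fun f => ?_
  simp only [ev_apply]
  exact ((LP_eval (f : MvPolynomial (Fin (n + 1)) ℂ)).comp_linear (hpL n)).comp_linear L

theorem PK_x {ν b c e : ℕ} (k : Fin b) (q : WY ν c) :
    PK (K := ℂ) fun x : PT ν b c e => ZG k x q := by
  refine ((PK.iInf fun i => PK_const_ev _).inf (PK.iInf fun l => ?_)).inf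
    ((PK.iInf fun l => PK_const_ev _).inf ?_)
  · exact PK_hp_ev ((pt (Sum.inl (Sum.inr l))).comp
      (LinearMap.fst ℂ ((Fin b ⊕ Fin c) ⊕ Fin e → Fin ν → ℂ) (Fin c → Fin b → ℂ)))
  · exact PK_hp_ev ((pt (Sum.inl (Sum.inl k))).comp
      (LinearMap.fst ℂ ((Fin b ⊕ Fin c) ⊕ Fin e → Fin ν → ℂ) (Fin c → Fin b → ℂ)))

theorem PK_q {ν b c e : ℕ} (k : Fin b) (x : PT ν b c e) :
    PK (K := ℂ) fun q : WY ν c => ZG k x q := by
  refine ((PK.iInf fun i => ?_).inf (PK.iInf fun l => PK_const_ev _)).inf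
    ((PK.iInf fun l => ?_).inf (PK_const_ev _))
  · refine PK.one (φ := fun q : WY ν c => ev (ν + 1) 1 (q.2 i)) fun f => ?_
    simp only [ev_apply]
    exact (LP_eval (f : MvPolynomial (Fin (ν + 1)) ℂ)).comp_linear ((pt i).comp
      (LinearMap.snd ℂ (Fin c → Fin ν → ℂ) (Fin (ν + 1 - 2 * c) → Fin (ν + 1) → ℂ)))
  · exact PK_hp_ev ((pt l).comp
      (LinearMap.fst ℂ (Fin c → Fin ν → ℂ) (Fin (ν + 1 - 2 * c) → Fin (ν + 1) → ℂ)))

/-- the example -/
noncomputable def x0 (ν b c e : ℕ) (h : 2 * c ≤ ν) : PT ν b c e :=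
  (Sum.elim (Sum.elim (fun _ => 0) fun l => Pi.single ⟨(l : ℕ), by omega⟩ 1) fun _ => 0, 0)

/-- the example -/
noncomputable def q0 (ν c : ℕ) (h : 2 * c ≤ ν) : WY ν c :=
  (fun l => Pi.single ⟨c + (l : ℕ), by omega⟩ 1,
    fun i => Fin.cons 1 (if hi : (i : ℕ) = 0 then 0 else
      Pi.single ⟨2 * c + ((i : ℕ) - 1), by omega⟩ 1))

theorem hp_sum {n : ℕ} (a : Fin (n + 1) → ℂ) (z : Fin n → ℂ) :
    ∑ j, a j * hp z j = ∑ j, a j.succ * z j := by
  rw [Fin.sum_univ_succ]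
  simp

theorem single_sum {n : ℕ} (a : Fin n → ℂ) (i : Fin n) :
    ∑ j, a j * (Pi.single i 1 : Fin n → ℂ) j = a i := by
  rw [Finset.sum_eq_single i]
  · simp
  · intro j _ hj
    simp [hj]
  · intro h
    exact absurd (Finset.mem_univ i) h

theorem ZG_bot {ν b c e : ℕ} (h : 2 * c ≤ ν) (k : Fin b) :
    ZG k (x0 ν b c e h) (q0 ν c h) = ⊥ := by
  rw [Submodule.eq_bot_iff]
  intro g hg
  rw [mem_ZG] at hg
  obtain ⟨⟨h1, h2⟩, h3, h4⟩ := hg
  have hd : (g : MvPolynomial (Fin (ν + 1)) ℂ).totalDegree ≤ 1 := mem_Pol.1 g.2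
  set G : MvPolynomial (Fin (ν + 1)) ℂ := (g : MvPolynomial (Fin (ν + 1)) ℂ) with hG
  simp only [eval_affine G hd] at h1 h2 h3 h4
  set a : Fin (ν + 1) → ℂ := fun j => G.coeff (Finsupp.single j 1) with ha
  -- the constant term
  have e0 : G.coeff 0 = 0 := by
    have h5 : G.coeff 0 + ∑ j, a j * hp (0 : Fin ν → ℂ) j = 0 := h4
    rw [hp_sum] at h5
    simpa using h5
  have e1 : a 0 = 0 := by
    have h5 := h1 ⟨0, by omega⟩
    have h6 : G.coeff 0 + ∑ j, a j * (Fin.cons 1 (0 : Fin ν → ℂ) : Fin (ν + 1) → ℂ) j = 0 := by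
      have h7 : (q0 ν c h).2 ⟨0, by omega⟩ = (Fin.cons 1 (0 : Fin ν → ℂ) : Fin (ν + 1) → ℂ) := by
        simp [q0]
      rw [h7] at h5
      exact h5
    rw [Fin.sum_univ_succ] at h6
    simpa [e0] using h6
  have e2 : ∀ j : Fin ν, a j.succ = 0 := by
    intro j
    rcases lt_or_ge (j : ℕ) c with hj | hj
    · have h5 := h2 ⟨(j : ℕ), hj⟩
      have h6 : G.coeff 0 + ∑ i, a i * hp (Pi.single j 1 : Fin ν → ℂ) i = 0 := h5
      rw [hp_sum, single_sum (fun j => a j.succ), e0, zero_add] at h6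
      exact h6
    · rcases lt_or_ge (j : ℕ) (2 * c) with hj2 | hj2
      · have h5 := h3 ⟨(j : ℕ) - c, by omega⟩
        have h7 : (q0 ν c h).1 ⟨(j : ℕ) - c, by omega⟩ = (Pi.single j 1 : Fin ν → ℂ) := by
          have h8 : (⟨c + ((j : ℕ) - c), by omega⟩ : Fin ν) = j := Fin.ext (by simp; omega)
          simp only [q0]
          rw [h8]
        rw [h7] at h5
        have h6 : G.coeff 0 + ∑ i, a i * hp (Pi.single j 1 : Fin ν → ℂ) i = 0 := h5
        rw [hp_sum, single_sum (fun j => a j.succ), e0, zero_add] at h6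
        exact h6
      · have h5 := h1 ⟨(j : ℕ) - 2 * c + 1, by omega⟩
        have h7 : (q0 ν c h).2 ⟨(j : ℕ) - 2 * c + 1, by omega⟩ =
            (Fin.cons 1 (Pi.single j 1 : Fin ν → ℂ) : Fin (ν + 1) → ℂ) := by
          have h8 : (⟨2 * c + ((j : ℕ) - 2 * c + 1 - 1), by omega⟩ : Fin ν) = j :=
            Fin.ext (by simp; omega)
          simp only [q0]
          rw [dif_neg (by omega), h8]
        rw [h7] at h5
        have h6 : G.coeff 0 +
            ∑ i, a i * (Fin.cons 1 (Pi.single j 1 : Fin ν → ℂ) : Fin (ν + 1) → ℂ) i = 0 := h5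
        rw [Fin.sum_univ_succ] at h6
        simp only [Fin.cons_zero, Fin.cons_succ, e0, e1, zero_mul, zero_add] at h6
        rw [single_sum (fun j => a j.succ)] at h6
        exact h6
  have e3 : ∀ j : Fin (ν + 1), G.coeff (Finsupp.single j 1) = 0 := by
    intro j
    refine Fin.cases e1 (fun i => e2 i) j
  apply Subtype.ext
  change G = 0
  rw [repr_affine G hd, e0]
  simp [e3]

end GENaux

open GENaux in
theorem x_GEN : S_GEN := by
  intro ν b c e h
  have h1 : Gen ℂ fun x : PT ν b c e => ∀ k : Fin b, ZG k x (q0 ν c h) = ⊥ :=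
    Gen.forall fun k => (PK_x k (q0 ν c h)).gen_bot (ZG_bot h k)
  refine h1.mono fun x hx => ?_
  have h2 : Gen ℂ fun q : WY ν c => ∀ k : Fin b, ZG k x q = ⊥ :=
    Gen.forall fun k => (PK_q k x).gen_bot (hx k)
  have h3 : Gen ℂ fun q : WY ν c => ∀ i, q.2 i 0 ≠ 0 :=
    (gen_off (n := ν) (I := Fin (ν + 1 - 2 * c))).comp
      (LinearMap.snd ℂ (Fin c → Fin ν → ℂ) (Fin (ν + 1 - 2 * c) → Fin (ν + 1) → ℂ))
      LinearMap.snd_surjective
  exact (h3.and h2).mono fun q hq => GP_of hq.1 hq.2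

end Pool.Agent.WarC
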