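import Pool.Agent.WarC.Main3
import Pool.Agent.WarM.Many
import Pool.Agent.WarM.AH
import Pool.Agent.WarQ.Final
import Pool.Agent.War5.Few
import Pool.Agent.WarD.Main

/-!
# Simultaneous Waring decompositions (MP_db021c_ag): all degrees at least 3
-/

set_option autoImplicit false

open Pool.Agent.War Pool.Agent.WarS

namespace Pool.Agent.WarC

theorem W_ge_four (n d s h : ℕ) (hn : 2 ≤ n) (hd : 4 ≤ d) (hs : 2 ≤ s) :
    Waring.W d h n s ↔ min s ((n + d).choose n) ≤ h ∧ s * (n + d).choose n ≤ h * (n + s) := by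
  rcases Nat.lt_or_ge n s with h1 | h1
  · rcases Nat.lt_or_ge n 3 with h2 | h2
    · have hn2 : n = 2 := by omega
      subst hn2
      have := Waring.ternary d h s (by omega) (by omega)
      rw [Nat.add_comm d 2, Nat.add_comm s 2] at this
      exact this
    · exact WarM.W_many WarM.AH (WarQ.small WarM.AH) n d s h h2 hd h1
  · rcases Nat.lt_or_ge d 5 with h2 | h2
    · have hd4 : d = 4 := by omega
      subst hd4
      exact WarD.W_few4 n s h hn hs h1
    · exact War5.W_few n d s h hn hs h1 h2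

/-- all degrees `≥ 3` -/
theorem W_ge_three (n d s h : ℕ) (hn : 2 ≤ n) (hd : 3 ≤ d) (hs : 2 ≤ s) :
    Waring.W d h n s ↔ (min s ((n + d).choose n) ≤ h ∧ s * (n + d).choose n ≤ h * (n + s)) ∧
      ¬ (d = 3 ∧ n = 2 ∧ s = 2 ∧ h = 5) := by
  rcases Nat.lt_or_ge d 4 with h1 | h1
  · have hd3 : d = 3 := by omega
    subst hd3
    rw [W_cubic n s h hn hs]
    simp
  · rw [W_ge_four n d s h hn h1 hs]
    constructor
    · intro H
      exact ⟨H, by omega⟩
    · exact fun H => H.1

end Pool.Agent.WarC
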