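import Pool.Agent.WarC.Stmts4
import Pool.Agent.WarC.UK
import Pool.Agent.WarQ.LH
import Pool.Agent.War5.DR
import Pool.Agent.War.Hor

/-!
# MP_db021c_ag, WC_LIN3: one cubic, the functionals f(p), f(q), ec p q f   (helper42)
-/

set_option autoImplicit false

open Module MvPolynomial
open Pool.Agent.War Pool.Agent.WarS Pool.Agent.WarQ

namespace Pool.Agent.WarC

namespace LIN3aux

open UKaux

/-- a quadric double at 0 and at the basis vectors -/
theorem quad_zero {n : ℕ} (f : MvPolynomial (Fin n) ℂ) (hf : f.totalDegree ≤ 2)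
    (h0 : eval 0 f = 0) (h1 : ∀ k, eval 0 (pderiv k f) = 0)
    (h2 : ∀ i k, eval (Pi.single i 1) (pderiv k f) = 0) : f = 0 := by
  obtain ⟨c, a, b, hr⟩ := rp_of_deg f hf
  have hr' : f = pq c a b := hr
  rw [hr'] at h0 h1 h2 ⊢
  have hc : c = 0 := by
    rw [eval_pq] at h0
    simpa using h0
  have ha : ∀ k, a k = 0 := by
    intro k
    have := h1 k
    rw [eval_pderiv_pq] at this
    simpa using this
  have hb : ∀ k l, b k l + b l k = 0 := by
    intro k l
    have := h2 l k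
    rw [eval_pderiv_pq, ha] at this
    simpa [Pi.single_apply] using this
  refine MvPolynomial.funext fun x => ?_
  rw [eval_pq, hc, map_zero]
  simp only [ha, zero_mul, Finset.sum_const_zero, zero_add]
  have e : ∑ i, ∑ j, b i j * (x i * x j) = ∑ i, ∑ j, b j i * (x i * x j) := by
    rw [Finset.sum_comm]
    refine Finset.sum_congr rfl fun i _ => Finset.sum_congr rfl fun j _ => by ring
  have e2 : ∑ i, ∑ j, b i j * (x i * x j) + ∑ i, ∑ j, b j i * (x i * x j) = 0 := by
    rw [← Finset.sum_add_distrib]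
    refine Finset.sum_eq_zero fun i _ => ?_
    rw [← Finset.sum_add_distrib]
    refine Finset.sum_eq_zero fun j _ => ?_
    rw [← add_mul, hb, zero_mul]
  rw [← e] at e2
  linear_combination (1 / 2 : ℂ) * e2

theorem gen_quad {n u : ℕ} (hu : n ≤ u) :
    Gen ℂ fun Z : Fin (u + 1) → Fin n → ℂ => Dbl n 2 Finset.univ Z = ⊥ := by
  refine (PK_Dbl n 2 Finset.univ).gen_bot
    (x₀ := fun i : Fin (u + 1) => fun k : Fin n => if (k : ℕ) + 1 = (i : ℕ) then (1 : ℂ) else 0) ?_
  rw [eq_bot_iff]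
  rintro f ⟨h1, h2⟩
  rw [Submodule.mem_bot]
  have e0 : (fun k : Fin n => if (k : ℕ) + 1 = ((0 : Fin (u + 1)) : ℕ) then (1 : ℂ) else 0) = 0 := by
    funext k
    simp
  apply Subtype.ext
  refine quad_zero (f : MvPolynomial (Fin n) ℂ) (mem_Pol.1 f.2) ?_ (fun k => ?_) fun i k => ?_
  · have : eval (fun k : Fin n => if (k : ℕ) + 1 = ((0 : Fin (u + 1)) : ℕ) then (1 : ℂ) else 0)
        (f : MvPolynomial (Fin n) ℂ) = 0 := h1 0
    rwa [e0] at this
  · have : eval (fun k : Fin n => if (k : ℕ) + 1 = ((0 : Fin (u + 1)) : ℕ) then (1 : ℂ) else 0)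
        (pderiv k (f : MvPolynomial (Fin n) ℂ)) = 0 := h2 0 (Finset.mem_univ _) k
    rwa [e0] at this
  · have : eval (fun k : Fin n => if (k : ℕ) + 1 =
        ((⟨(i : ℕ) + 1, by omega⟩ : Fin (u + 1)) : ℕ) then (1 : ℂ) else 0)
        (pderiv k (f : MvPolynomial (Fin n) ℂ)) = 0 :=
      h2 ⟨(i : ℕ) + 1, by omega⟩ (Finset.mem_univ _) k
    have e1 : (fun k : Fin n => if (k : ℕ) + 1 =
        ((⟨(i : ℕ) + 1, by omega⟩ : Fin (u + 1)) : ℕ) then (1 : ℂ) else 0) = Pi.single i 1 := by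
      funext k
      rw [Pi.single_apply]
      by_cases hk : k = i
      · subst hk
        simp
      · rw [if_neg hk, if_neg]
        intro h
        apply hk
        apply Fin.ext
        simpa using h
    rwa [e1] at this

/-- translation -/
noncomputable def tr {n : ℕ} (p : Fin n → ℂ) :
    MvPolynomial (Fin n) ℂ →ₐ[ℂ] MvPolynomial (Fin n) ℂ := aeval fun k => X k + C (p k)

theorem tr_eval {n : ℕ} (p y : Fin n → ℂ) (f : MvPolynomial (Fin n) ℂ) :
    eval y (tr p f) = eval (y + p) f := by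
  induction f using MvPolynomial.induction_on with
  | C a => simp [tr]
  | add f g hf hg => simp only [map_add, hf, hg]
  | mul_X f k hf =>
    rw [map_mul, map_mul, map_mul, hf]
    simp [tr]

theorem tr_tr {n : ℕ} (p : Fin n → ℂ) (f : MvPolynomial (Fin n) ℂ) : tr (-p) (tr p f) = f := by
  refine MvPolynomial.funext fun y => ?_
  rw [tr_eval, tr_eval, neg_add_cancel_right]

theorem tr_deg {n : ℕ} (p : Fin n → ℂ) (f : MvPolynomial (Fin n) ℂ) :
    (tr p f).totalDegree ≤ f.totalDegree := by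
  have h1 : ∀ k : Fin n, (X k + C (p k) : MvPolynomial (Fin n) ℂ).totalDegree ≤ 1 := by
    intro k
    refine (totalDegree_add _ _).trans ?_
    rw [totalDegree_X, totalDegree_C]
    simp
  have e : tr p f = ∑ m ∈ f.support, C (f.coeff m) * ∏ i ∈ m.support, (X i + C (p i)) ^ m i := by
    conv_lhs => rw [f.as_sum]
    rw [map_sum]
    refine Finset.sum_congr rfl fun m _ => ?_
    rw [tr, aeval_monomial]
    rfl
  rw [e]
  refine totalDegree_finsetSum_le fun m hm => ?_
  refine le_trans ?_ (le_totalDegree hm)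
  refine (totalDegree_mul _ _).trans ?_
  rw [totalDegree_C, zero_add]
  refine (totalDegree_finsetProd _ _).trans ?_
  refine Finset.sum_le_sum fun i _ => ?_
  refine (totalDegree_pow _ _).trans ?_
  calc m i * (X i + C (p i) : MvPolynomial (Fin n) ℂ).totalDegree ≤ m i * 1 :=
        Nat.mul_le_mul_left _ (h1 i)
    _ = m i := mul_one _

theorem hom_eval {n m : ℕ} {f : MvPolynomial (Fin n) ℂ} (hf : f.IsHomogeneous m) (t : ℂ)
    (x : Fin n → ℂ) : eval (t • x) f = t ^ m * eval x f := by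
  rw [eval_eq', eval_eq', Finset.mul_sum]
  refine Finset.sum_congr rfl fun d hd => ?_
  have h1 : ∑ i, d i = m := by
    have h2 := hf (mem_support_iff.1 hd)
    rw [← h2, Finsupp.weight_apply, Finsupp.sum_fintype _ _ (fun _ => by simp)]
    simp
  simp only [Pi.smul_apply, smul_eq_mul, mul_pow, Finset.prod_mul_distrib,
    Finset.prod_pow_eq_pow_sum, h1]
  ring

/-- Taylor coefficients at `p` in the direction `d` -/
noncomputable def cc {n : ℕ} (i : ℕ) (p d : Fin n → ℂ) (f : MvPolynomial (Fin n) ℂ) : ℂ :=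
  eval d (homogeneousComponent i (tr p f))

theorem cc_smul {n : ℕ} (i : ℕ) (p d : Fin n → ℂ) (t : ℂ) (f : MvPolynomial (Fin n) ℂ) :
    cc i p (t • d) f = t ^ i * cc i p d f :=
  hom_eval (homogeneousComponent_isHomogeneous i _) t d

theorem decomp {n : ℕ} (g : MvPolynomial (Fin n) ℂ) (hg : g.totalDegree ≤ 3) :
    g = homogeneousComponent 0 g + homogeneousComponent 1 g + homogeneousComponent 2 g +
      homogeneousComponent 3 g := by
  have h1 := sum_homogeneousComponent g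
  have h2 : ∑ i ∈ Finset.range 4, homogeneousComponent i g = g := by
    conv_rhs => rw [← h1]
    symm
    refine Finset.sum_subset (Finset.range_subset_range.2 (by omega)) fun i _ hi => ?_
    exact homogeneousComponent_eq_zero _ _ (by simpa using hi)
  rw [Finset.sum_range_succ, Finset.sum_range_succ, Finset.sum_range_succ, Finset.sum_range_one]
    at h2
  exact h2.symm

theorem line {n : ℕ} (p d : Fin n → ℂ) (f : MvPolynomial (Fin n) ℂ) (hf : f.totalDegree ≤ 3)
    (t : ℂ) : eval (p + t • d) f =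
      cc 0 p d f + cc 1 p d f * t + cc 2 p d f * t ^ 2 + cc 3 p d f * t ^ 3 := by
  have h1 : eval (p + t • d) f = eval (t • d) (tr p f) := by
    rw [tr_eval, add_comm]
  rw [h1, decomp (tr p f) ((tr_deg p f).trans hf), map_add, map_add, map_add]
  have h2 : ∀ i, eval (t • d) (homogeneousComponent i (tr p f)) = t ^ i * cc i p d f := fun i =>
    cc_smul i p d t f
  rw [h2, h2, h2, h2]
  ring

theorem cc_zero {n : ℕ} (p d : Fin n → ℂ) (f : MvPolynomial (Fin n) ℂ) (hf : f.totalDegree ≤ 3) :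
    cc 0 p d f = eval p f := by
  have := line p d f hf 0
  simpa using this.symm

/-- the derivative along the line -/
theorem dline {n : ℕ} (p d : Fin n → ℂ) (f : MvPolynomial (Fin n) ℂ) (hf : f.totalDegree ≤ 3)
    (t : ℂ) : ∑ k, d k * eval (p + t • d) (pderiv k f) =
      cc 1 p d f + 2 * cc 2 p d f * t + 3 * cc 3 p d f * t ^ 2 := by
  have e0 : ∀ t : ℂ, (fun i => p i + d i * t) = p + t • d := by
    intro t
    funext i
    simp [mul_comm]
  have e1 : War5.DRaux.ln p d f = Polynomial.C (cc 0 p d f) +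
      Polynomial.C (cc 1 p d f) * Polynomial.X + Polynomial.C (cc 2 p d f) * Polynomial.X ^ 2 +
      Polynomial.C (cc 3 p d f) * Polynomial.X ^ 3 := by
    refine Polynomial.funext fun t => ?_
    rw [War5.DRaux.ln_eval, e0, line p d f hf]
    simp
  have e2 := congrArg (Polynomial.eval t) (War5.DRaux.ln_deriv p d f)
  rw [Polynomial.eval_finsetSum] at e2
  simp only [Polynomial.eval_mul, Polynomial.eval_C, War5.DRaux.ln_eval, e0] at e2
  rw [← e2, e1]
  simp
  ring

/-- the functionals at the pair -/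
theorem ec_line {n : ℕ} (p d : Fin n → ℂ) (f : Pol n 3) : ec n 3 p (p + d) f =
    2 * cc 1 p d (f : MvPolynomial (Fin n) ℂ) + 2 * cc 2 p d (f : MvPolynomial (Fin n) ℂ) +
      3 * cc 3 p d (f : MvPolynomial (Fin n) ℂ) := by
  have h0 := dline p d (f : MvPolynomial (Fin n) ℂ) (mem_Pol.1 f.2) 0
  have h1 := dline p d (f : MvPolynomial (Fin n) ℂ) (mem_Pol.1 f.2) 1
  rw [zero_smul, add_zero] at h0
  rw [one_smul] at h1
  rw [ec_apply]
  have e : ∑ k, ((p + d) k - p k) * (eval p (pderiv k (f : MvPolynomial (Fin n) ℂ)) +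
      eval (p + d) (pderiv k (f : MvPolynomial (Fin n) ℂ))) =
      ∑ k, d k * eval p (pderiv k (f : MvPolynomial (Fin n) ℂ)) +
        ∑ k, d k * eval (p + d) (pderiv k (f : MvPolynomial (Fin n) ℂ)) := by
    rw [← Finset.sum_add_distrib]
    refine Finset.sum_congr rfl fun k _ => ?_
    rw [Pi.add_apply]
    ring
  rw [e, h0, h1]
  ring

theorem ev_line {n : ℕ} (p d : Fin n → ℂ) (f : Pol n 3) : ev n 3 (p + d) f =
    cc 0 p d (f : MvPolynomial (Fin n) ℂ) + cc 1 p d (f : MvPolynomial (Fin n) ℂ) +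
      cc 2 p d (f : MvPolynomial (Fin n) ℂ) + cc 3 p d (f : MvPolynomial (Fin n) ℂ) := by
  have h1 := line p d (f : MvPolynomial (Fin n) ℂ) (mem_Pol.1 f.2) 1
  rw [one_smul] at h1
  rw [ev_apply, h1]
  ring

/-- polynomials without cubic part -/
theorem deg_two {n : ℕ} (p : Fin n → ℂ) (f : MvPolynomial (Fin n) ℂ) (hf : f.totalDegree ≤ 3)
    (h : ∀ d, cc 3 p d f = 0) : f.totalDegree ≤ 2 := by
  have h3 : homogeneousComponent 3 (tr p f) = 0 := by
    refine MvPolynomial.funext fun d => ?_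
    rw [map_zero]
    exact h d
  have h4 := decomp (tr p f) ((tr_deg p f).trans hf)
  rw [h3, add_zero] at h4
  have h5 : (tr p f).totalDegree ≤ 2 := by
    rw [h4]
    refine (totalDegree_add _ _).trans (max_le ((totalDegree_add _ _).trans (max_le ?_ ?_)) ?_)
    · exact (homogeneousComponent_isHomogeneous 0 _).totalDegree_le.trans (by omega)
    · exact (homogeneousComponent_isHomogeneous 1 _).totalDegree_le.trans (by omega)
    · exact (homogeneousComponent_isHomogeneous 2 _).totalDegree_le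
  rw [← tr_tr p f]
  exact (tr_deg _ _).trans h5

/-- values and gradients at the points -/
noncomputable def Ph (n d : ℕ) {I : Type} (z : I → Fin n → ℂ) :
    Pol n d →ₗ[ℂ] (I → ℂ × (Fin n → ℂ)) :=
  LinearMap.pi fun i => (ev n d (z i)).prod (LinearMap.pi fun k => dv n d k (z i))

theorem Ph_fst {n d : ℕ} {I : Type} (z : I → Fin n → ℂ) (f : Pol n d) (i : I) :
    (Ph n d z f i).1 = eval (z i) (f : MvPolynomial (Fin n) ℂ) := by
  rw [← ev_apply]
  rfl

theorem Ph_snd {n d : ℕ} {I : Type} (z : I → Fin n → ℂ) (f : Pol n d) (i : I) (k : Fin n) :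
    (Ph n d z f i).2 k = eval (z i) (pderiv k (f : MvPolynomial (Fin n) ℂ)) := by
  rw [← dv_apply]
  rfl

theorem ker_Ph {n d : ℕ} {I : Type} [Fintype I] (z : I → Fin n → ℂ) :
    LinearMap.ker (Ph n d z) = Dbl n d Finset.univ z := by
  ext f
  rw [LinearMap.mem_ker, mem_Dbl]
  constructor
  · intro h
    refine ⟨fun i => ?_, fun i _ k => ?_⟩
    · rw [← Ph_fst, h]
      rfl
    · rw [← Ph_snd, h]
      rfl
  · rintro ⟨h1, h2⟩
    funext i
    refine Prod.ext ?_ (funext fun k => ?_)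
    · rw [Ph_fst, h1]
      rfl
    · rw [Ph_snd, h2 i (Finset.mem_univ _)]
      rfl

theorem finrank_cod (n : ℕ) (I : Type) [Fintype I] :
    finrank ℂ (I → ℂ × (Fin n → ℂ)) = (n + 1) * Fintype.card I := by
  rw [Module.finrank_pi_fintype]
  simp only [Module.finrank_prod, Module.finrank_self, Module.finrank_fintype_fun_eq_card,
    Fintype.card_fin, Finset.sum_const, Finset.card_univ, smul_eq_mul]
  ring

/-- two linear equations -/
theorem sol (b c e₁ e₂ g₁ g₂ : ℂ) (hd : e₂ * g₁ - e₁ * g₂ ≠ 0) :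
    (c * e₂ - b * g₂) / (e₂ * g₁ - e₁ * g₂) * e₁ +
        (b * g₁ - c * e₁) / (e₂ * g₁ - e₁ * g₂) * e₂ = b ∧
      (c * e₂ - b * g₂) / (e₂ * g₁ - e₁ * g₂) * g₁ +
        (b * g₁ - c * e₁) / (e₂ * g₁ - e₁ * g₂) * g₂ = c := by
  constructor
  · rw [div_mul_eq_mul_div, div_mul_eq_mul_div, ← add_div, div_eq_iff hd]
    ring
  · rw [div_mul_eq_mul_div, div_mul_eq_mul_div, ← add_div, div_eq_iff hd]
    ring

end LIN3aux

open LIN3aux

theorem x_LIN3 : S_LIN3 := by
  intro n u hn hu hG hN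
  obtain ⟨Z, hZ1, hZ2⟩ := (hG.gen.and (gen_quad hu)).exists
  have hc := finrank_cod n (Fin (u + 1))
  rw [Fintype.card_fin] at hc
  have hrk := (Ph n 3 Z).finrank_range_add_finrank_ker
  have hk : finrank ℂ (LinearMap.ker (Ph n 3 Z)) ≤ NN n 3 - (n + 1) * (u + 1) := by
    rw [ker_Ph]
    exact hZ1
  have hge := LHaux.finrank_Pol_ge n 3
  have hle := finrank_Pol_le n 3
  have hr : finrank ℂ (LinearMap.range (Ph n 3 Z)) ≤ (n + 1) * (u + 1) := by
    rw [← hc]
    exact Submodule.finrank_le _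
  have hsurj : Function.Surjective (Ph n 3 Z) := by
    rw [← LinearMap.range_eq_top]
    apply Submodule.eq_top_of_finrank_eq
    rw [hc]
    omega
  -- an element double at all the points
  obtain ⟨f₁, hf₁, hf₁0⟩ : ∃ f ∈ LinearMap.ker (Ph n 3 Z), f ≠ 0 := by
    apply Submodule.exists_mem_ne_zero_of_ne_bot
    intro h
    rw [h, finrank_bot] at hrk
    omega
  have hD₁ := hf₁
  rw [ker_Ph, mem_Dbl] at hD₁
  set p : Fin n → ℂ := Z (Fin.last u) with hp
  have hd3 : ∃ d, cc 3 p d (f₁ : MvPolynomial (Fin n) ℂ) ≠ 0 := by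
    by_contra hcon
    push Not at hcon
    have h2 := deg_two p _ (mem_Pol.1 f₁.2) hcon
    have h3 : (⟨(f₁ : MvPolynomial (Fin n) ℂ), mem_Pol.2 h2⟩ : Pol n 2) ∈
        Dbl n 2 Finset.univ Z := ⟨hD₁.1, hD₁.2⟩
    rw [hZ2, Submodule.mem_bot] at h3
    have h4 : (f₁ : MvPolynomial (Fin n) ℂ) = 0 := congrArg Subtype.val h3
    exact hf₁0 (Subtype.ext h4)
  obtain ⟨d₀, hd₀⟩ := hd3
  obtain ⟨k, hk0⟩ : ∃ k, d₀ k ≠ 0 := by
    by_contra hcon
    push Not at hcon
    apply hd₀
    have e : d₀ = (0 : ℂ) • d₀ := by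
      rw [zero_smul]
      exact funext hcon
    rw [e, cc_smul]
    simp
  -- an element with a given gradient at `p`
  obtain ⟨f₂, hf₂⟩ := hsurj (Pi.single (Fin.last u) (0, Pi.single k 1))
  have v₂ : ∀ i : Fin u, Ph n 3 Z f₂ i.castSucc = 0 := by
    intro i
    rw [hf₂, Pi.single_eq_of_ne (Fin.castSucc_lt_last i).ne]
  have w₂ : Ph n 3 Z f₂ (Fin.last u) = (0, Pi.single k 1) := by
    rw [hf₂, Pi.single_eq_same]
  have a₁ : eval p (f₁ : MvPolynomial (Fin n) ℂ) = 0 := hD₁.1 _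
  have a₂ : eval p (f₂ : MvPolynomial (Fin n) ℂ) = 0 := by
    rw [hp, ← Ph_fst, w₂]
  have b₁ : ∀ d, cc 1 p d (f₁ : MvPolynomial (Fin n) ℂ) = 0 := by
    intro d
    have h := dline p d (f₁ : MvPolynomial (Fin n) ℂ) (mem_Pol.1 f₁.2) 0
    rw [zero_smul, add_zero] at h
    have h' : ∑ k, d k * eval p (pderiv k (f₁ : MvPolynomial (Fin n) ℂ)) = 0 := by
      refine Finset.sum_eq_zero fun k _ => ?_
      rw [hD₁.2 _ (Finset.mem_univ _) k, mul_zero]
    rw [h'] at h
    linear_combination -h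
  have b₂ : cc 1 p d₀ (f₂ : MvPolynomial (Fin n) ℂ) = d₀ k := by
    have h := dline p d₀ (f₂ : MvPolynomial (Fin n) ℂ) (mem_Pol.1 f₂.2) 0
    rw [zero_smul, add_zero] at h
    have h' : ∑ l, d₀ l * eval p (pderiv l (f₂ : MvPolynomial (Fin n) ℂ)) = d₀ k := by
      rw [Finset.sum_eq_single k]
      · rw [hp, ← Ph_snd, w₂]
        simp
      · intro l _ hl
        rw [hp, ← Ph_snd, w₂]
        simp [hl]
      · simp
    rw [h'] at h
    linear_combination -h
  -- the choice of the direction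
  obtain ⟨d, hd⟩ : ∃ d, ev n 3 (p + d) f₂ * ec n 3 p (p + d) f₁ -
      ev n 3 (p + d) f₁ * ec n 3 p (p + d) f₂ ≠ 0 := by
    by_contra hcon
    push Not at hcon
    have h1 := hcon d₀
    have h2 := hcon ((-1 : ℂ) • d₀)
    simp only [ev_line, ec_line, cc_smul, cc_zero p _ _ (mem_Pol.1 f₁.2),
      cc_zero p _ _ (mem_Pol.1 f₂.2), a₁, a₂, b₁, b₂] at h1 h2
    have h3 : cc 3 p d₀ (f₁ : MvPolynomial (Fin n) ℂ) * d₀ k = 0 := by
      linear_combination (1 / 2 : ℂ) * h1 + (1 / 2 : ℂ) * h2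
    exact mul_ne_zero hd₀ hk0 h3
  refine ⟨fun i => Z i.castSucc, p, p + d, ?_⟩
  -- the map
  let Ψ : Pol n 3 →ₗ[ℂ] (Fin u → ℂ × (Fin n → ℂ)) × (ℂ × (ℂ × ℂ)) :=
    (Ph n 3 fun i : Fin u => Z i.castSucc).prod
      ((ev n 3 p).prod ((ev n 3 (p + d)).prod (ec n 3 p (p + d))))
  have hΨ : Function.Surjective Ψ := by
    rintro ⟨w, a, b, c⟩
    obtain ⟨f₀, hf₀⟩ := hsurj (Fin.snoc (α := fun _ => ℂ × (Fin n → ℂ)) w (a, 0))
    set e₁ := ev n 3 (p + d) f₁
    set e₂ := ev n 3 (p + d) f₂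
    set g₁ := ec n 3 p (p + d) f₁
    set g₂ := ec n 3 p (p + d) f₂
    set b' := b - ev n 3 (p + d) f₀ with hb'
    set c' := c - ec n 3 p (p + d) f₀ with hc'
    refine ⟨f₀ + ((c' * e₂ - b' * g₂) / (e₂ * g₁ - e₁ * g₂)) • f₁ +
      ((b' * g₁ - c' * e₁) / (e₂ * g₁ - e₁ * g₂)) • f₂, ?_⟩
    refine Prod.ext (funext fun i => ?_) (Prod.ext ?_ (Prod.ext ?_ ?_))
    · have q0 : Ph n 3 (fun i : Fin u => Z i.castSucc) f₀ i = w i := by
        have : Ph n 3 Z f₀ i.castSucc = w i := by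
          rw [hf₀, Fin.snoc_castSucc]
        exact this
      have q1 : Ph n 3 (fun i : Fin u => Z i.castSucc) f₁ i = 0 := by
        have : Ph n 3 Z f₁ i.castSucc = 0 := by
          rw [LinearMap.mem_ker.1 hf₁]
          rfl
        exact this
      have q2 : Ph n 3 (fun i : Fin u => Z i.castSucc) f₂ i = 0 := v₂ i
      change Ph n 3 (fun i : Fin u => Z i.castSucc) (f₀ + _ • f₁ + _ • f₂) i = w i
      rw [map_add, map_add, map_smul, map_smul, Pi.add_apply, Pi.add_apply, Pi.smul_apply,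
        Pi.smul_apply, q0, q1, q2]
      simp
    · change ev n 3 p (f₀ + _ • f₁ + _ • f₂) = a
      have q0 : ev n 3 p f₀ = a := by
        rw [ev_apply, hp, ← Ph_fst, hf₀, Fin.snoc_last]
      have q1 : ev n 3 p f₁ = 0 := by rw [ev_apply, a₁]
      have q2 : ev n 3 p f₂ = 0 := by rw [ev_apply, a₂]
      rw [map_add, map_add, map_smul, map_smul, q0, q1, q2]
      simp
    · change ev n 3 (p + d) (f₀ + _ • f₁ + _ • f₂) = b
      rw [map_add, map_add, map_smul, map_smul]
      change ev n 3 (p + d) f₀ + _ * e₁ + _ * e₂ = b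
      have e0 : ev n 3 (p + d) f₀ = b - b' := by rw [hb']; ring
      rw [e0, add_assoc, (sol b' c' e₁ e₂ g₁ g₂ hd).1, sub_add_cancel]
    · change ec n 3 p (p + d) (f₀ + _ • f₁ + _ • f₂) = c
      rw [map_add, map_add, map_smul, map_smul]
      change ec n 3 p (p + d) f₀ + _ * g₁ + _ * g₂ = c
      have e0 : ec n 3 p (p + d) f₀ = c - c' := by rw [hc']; ring
      rw [e0, add_assoc, (sol b' c' e₁ e₂ g₁ g₂ hd).2, sub_add_cancel]
  have hcod : finrank ℂ ((Fin u → ℂ × (Fin n → ℂ)) × (ℂ × (ℂ × ℂ))) = (n + 1) * u + 3 := by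
    have h := finrank_cod n (Fin u)
    rw [Fintype.card_fin] at h
    rw [Module.finrank_prod, h]
    simp
  have hrk2 := Ψ.finrank_range_add_finrank_ker
  rw [LinearMap.range_eq_top.2 hΨ, finrank_top, hcod] at hrk2
  have hker : Dbl n 3 Finset.univ (fun i : Fin u => Z i.castSucc) ⊓ LinearMap.ker (ev n 3 p) ⊓
      LinearMap.ker (ev n 3 (p + d)) ⊓ LinearMap.ker (ec n 3 p (p + d)) ≤ LinearMap.ker Ψ := by
    intro f hf
    simp only [Submodule.mem_inf, LinearMap.mem_ker] at hf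
    obtain ⟨⟨⟨h1, h2⟩, h3⟩, h4⟩ := hf
    rw [LinearMap.mem_ker]
    rw [← ker_Ph, LinearMap.mem_ker] at h1
    exact Prod.ext h1 (Prod.ext h2 (Prod.ext h3 h4))
  have hfin := Submodule.finrank_mono hker
  omega

end Pool.Agent.WarC
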