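import Pool.Agent.WarC.Stmts
import Pool.Agent.WarQ.L

/-!
# Simultaneous Waring decompositions (MP_db021c_ag): small `b`, assembly of `S_LM`   (helper1)
-/

set_option autoImplicit false

open Module MvPolynomial
open Pool.Agent.War Pool.Agent.WarS Pool.Agent.WarQ

namespace Pool.Agent.WarC

namespace LMaux

/-- numbers: the sum -/
theorem arM {b c D k : ℕ} (hc : c ≤ D) (hb : b + D ≤ NN D 2) :
    (NN D 2 - D - b) + (eo D k - c) =
      NN (D + (k + 2)) 2 - (D + (k + 2) + D) - (b + c) := by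
  have h3 := Laux.two_NN D
  have h4 := Laux.two_NN (D + (k + 2))
  have h5 := Laux.two_eo D k
  have h6 : 2 * NN (D + (k + 2)) 2 = 2 * NN D 2 + 2 * eo D k + 2 * (D + (k + 2)) := by
    rw [h3, h4, h5]; ring
  have h8 : D ≤ eo D k := by
    unfold eo
    have : D * 1 ≤ D * (k + 1) := Nat.mul_le_mul_left _ (by omega)
    omega
  omega

/-- the renamed polynomial -/
noncomputable def rn {n D k : ℕ} (e : (Fin D ⊕ Fin k) ≃ Fin n) (f : MvPolynomial (Fin n) ℂ) :
    MvPolynomial (Fin D ⊕ Fin k) ℂ := rename e.symm f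

theorem rn_add {n D k : ℕ} (e : (Fin D ⊕ Fin k) ≃ Fin n) (f g : MvPolynomial (Fin n) ℂ) :
    rn e (f + g) = rn e f + rn e g := by
  unfold rn
  rw [map_add]

theorem rn_smul {n D k : ℕ} (e : (Fin D ⊕ Fin k) ≃ Fin n) (r : ℂ) (f : MvPolynomial (Fin n) ℂ) :
    rn e (r • f) = r • rn e f := by
  unfold rn
  rw [map_smul]

theorem rn_inj {n D k : ℕ} (e : (Fin D ⊕ Fin k) ≃ Fin n) {f g : MvPolynomial (Fin n) ℂ}
    (h : rn e f = rn e g) : f = g := rename_injective _ e.symm.injective h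

theorem rn_degree {n D k : ℕ} (e : (Fin D ⊕ Fin k) ≃ Fin n) (f : MvPolynomial (Fin n) ℂ) :
    (rn e f).totalDegree ≤ f.totalDegree := totalDegree_rename_le _ _

theorem eval_rn {n D k : ℕ} (e : (Fin D ⊕ Fin k) ≃ Fin n) (z : Fin D ⊕ Fin k → ℂ)
    (f : MvPolynomial (Fin n) ℂ) : eval z (rn e f) = eval (z ∘ e.symm) f := by
  unfold rn
  rw [eval_rename]

theorem eval_pderiv_rn {n D k : ℕ} (e : (Fin D ⊕ Fin k) ≃ Fin n) (z : Fin D ⊕ Fin k → ℂ)
    (s : Fin D ⊕ Fin k) (f : MvPolynomial (Fin n) ℂ) :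
    eval z (pderiv s (rn e f)) = eval (z ∘ e.symm) (pderiv (e s) f) := by
  have h := pderiv_rename (R := ℂ) (f := e.symm) e.symm.injective (e s) f
  rw [e.symm_apply_apply] at h
  unfold rn
  rw [h, eval_rename]

end LMaux

open LMaux Laux LSaux

theorem x_LM (hR : S_LRB) (hT : S_LT2) (hP : S_PUR) : S_LM := by
  intro n D b c hDn hD hb hcD hcb hbD
  obtain ⟨k, rfl⟩ : ∃ k, n = D + (k + 2) := ⟨n - D - 2, by omega⟩
  refine hP (D + (k + 2)) b c _ _ ?_
  -- generic choice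
  obtain ⟨q₀, hq₀⟩ := hR D k b c hb hcD
  have gS := (LSaux.pk (D := D) (k := k + 2) (b := b) (c := c) (e := eo D k - c)).gen_finrank hq₀
  have gT := hT D b hD hbD
  let XS := LSaux.QQ D (k + 2) b c (eo D k - c)
  let Y1 := Fin (NN D 2 - D - b) → Fin D → ℂ
  let LS : XS × Y1 →ₗ[ℂ] XS := LinearMap.fst ℂ XS Y1
  have hLS : Function.Surjective LS := fun q => ⟨(q, 0), rfl⟩
  let LT : XS × Y1 →ₗ[ℂ] (Fin b → Fin D → ℂ) × (Fin b → Fin b → ℂ) × Y1 :=
    { toFun := fun q => (q.1.1, fun i => q.1.2.1 (Sum.inl i), q.2)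
      map_add' := fun _ _ => rfl
      map_smul' := fun _ _ => rfl }
  have hLT : Function.Surjective LT := fun q =>
    ⟨((q.1, Sum.elim q.2.1 0, 0, 0), q.2.2), rfl⟩
  have g1 := gS.comp LS hLS
  have g2 := gT.comp LT hLT
  obtain ⟨⟨⟨x, a, w, p⟩, y1⟩, hq1, hq2⟩ := (g1.and g2).exists
  replace hq1 : finrank ℂ (LSaux.ZZ (x, a, w, p)) ≤ b * D - (D + (k + 2)) * c := hq1
  replace hq2 : ∀ f : Fin b → MvPolynomial (Fin D) ℂ, (∀ j, (f j).totalDegree ≤ 2) →
      (∀ i j, eval (x i) (f j) = 0) →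
      (∀ i v, ∑ j, a (Sum.inl i) j * eval (x i) (pderiv v (f j)) = 0) →
      (∀ t j, eval (y1 t) (f j) = 0) → ∀ j, f j = 0 := hq2
  -- the configuration
  have har := arM (k := k) hcD hbD
  let e : (Fin D ⊕ Fin (k + 2)) ≃ Fin (D + (k + 2)) := finSumFinEquiv
  let e' : (Fin (NN D 2 - D - b) ⊕ Fin (eo D k - c)) ≃
      Fin (NN (D + (k + 2)) 2 - (D + (k + 2) + D) - (b + c)) :=
    finSumFinEquiv.trans (finCongr har)
  let P : (Fin b ⊕ Fin c) ⊕ Fin (NN (D + (k + 2)) 2 - (D + (k + 2) + D) - (b + c)) →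
      (Fin D ⊕ Fin (k + 2) → ℂ) :=
    Sum.elim (Sum.elim (fun i => Sum.elim (x i) 0) w)
      (fun t => Sum.elim (fun t => Sum.elim (y1 t) 0) p (e'.symm t))
  let Z : ((Fin b ⊕ Fin c) ⊕ Fin (NN (D + (k + 2)) 2 - (D + (k + 2) + D) - (b + c)) →
      Fin (D + (k + 2)) → ℂ) × (Fin b ⊕ Fin c → Fin b → ℂ) := (fun i => P i ∘ e.symm, a)
  refine ⟨Z, ?_⟩
  -- the conditions for the renamed polynomials
  have c1 : ∀ f : TrC1 (D + (k + 2)) 2 Z, ∀ i j,
      eval (P i) (rn e ((f : Fin b → Pol (D + (k + 2)) 2) j :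
        MvPolynomial (Fin (D + (k + 2))) ℂ)) = 0 := by
    intro f i j
    rw [eval_rn]
    exact (mem_TrC1.1 f.2).1 i j
  have c2 : ∀ f : TrC1 (D + (k + 2)) 2 Z, ∀ i s,
      ∑ j, a i j * eval (P (Sum.inl i)) (pderiv s (rn e ((f : Fin b → Pol (D + (k + 2)) 2) j :
        MvPolynomial (Fin (D + (k + 2))) ℂ))) = 0 := by
    intro f i s
    simp only [eval_pderiv_rn]
    exact (mem_TrC1.1 f.2).2 i (e s)
  have cd : ∀ f : TrC1 (D + (k + 2)) 2 Z, ∀ j,
      (rn e ((f : Fin b → Pol (D + (k + 2)) 2) j :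
        MvPolynomial (Fin (D + (k + 2))) ℂ)).totalDegree ≤ 2 := fun f j =>
    (rn_degree e _).trans (mem_Pol.1 ((f : Fin b → Pol (D + (k + 2)) 2) j).2)
  have t1 : ∀ f : TrC1 (D + (k + 2)) 2 Z, ∀ j,
      rl D (k + 2) (rn e ((f : Fin b → Pol (D + (k + 2)) 2) j :
        MvPolynomial (Fin (D + (k + 2))) ℂ)) = 0 := by
    intro f
    refine hq2 (fun j => rl D (k + 2) (rn e ((f : Fin b → Pol (D + (k + 2)) 2) j :
        MvPolynomial (Fin (D + (k + 2))) ℂ))) (fun j => (rl_degree _).trans (cd f j))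
      (fun i j => ?_) (fun i v => ?_) (fun t j => ?_)
    · rw [eval_rl]
      exact c1 f (Sum.inl (Sum.inl i)) j
    · simp only [eval_rl_pderiv]
      exact c2 f (Sum.inl i) (Sum.inl v)
    · rw [eval_rl]
      have := c1 f (Sum.inr (e' (Sum.inl t))) j
      simp only [P, Sum.elim_inr, Equiv.symm_apply_apply, Sum.elim_inl] at this
      exact this
  have t2 : ∀ f : TrC1 (D + (k + 2)) 2 Z, ∀ j,
      rn e ((f : Fin b → Pol (D + (k + 2)) 2) j :
        MvPolynomial (Fin (D + (k + 2))) ℂ) ∈ LSaux.WW D (k + 2) := by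
    intro f j
    refine LSaux.mem_WW.2 ⟨cd f j, fun z => ?_⟩
    rw [← eval_rl, t1, map_zero]
  have t3 : ∀ f : TrC1 (D + (k + 2)) 2 Z,
      (fun j => (⟨rn e ((f : Fin b → Pol (D + (k + 2)) 2) j :
        MvPolynomial (Fin (D + (k + 2))) ℂ), t2 f j⟩ : LSaux.WW D (k + 2))) ∈
        LSaux.ZZ (x, a, w, p) := by
    intro f
    rw [LSaux.mem_ZZ]
    refine ⟨fun j z => (LSaux.mem_WW.1 (t2 f j)).2 z, fun i t => ?_, fun l j => ?_,
      fun l v => ?_, fun t j => ?_⟩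
    · exact c2 f (Sum.inl i) (Sum.inr t)
    · exact c1 f (Sum.inl (Sum.inr l)) j
    · exact c2 f (Sum.inr l) v
    · have := c1 f (Sum.inr (e' (Sum.inr t))) j
      simp only [P, Sum.elim_inr, Equiv.symm_apply_apply] at this
      exact this
  let Φ : TrC1 (D + (k + 2)) 2 Z →ₗ[ℂ] LSaux.ZZ (x, a, w, p) :=
    { toFun := fun f => ⟨fun j => ⟨rn e ((f : Fin b → Pol (D + (k + 2)) 2) j :
        MvPolynomial (Fin (D + (k + 2))) ℂ), t2 f j⟩, t3 f⟩
      map_add' := fun f g => by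
        refine Subtype.ext (funext fun j => Subtype.ext ?_)
        exact rn_add e _ _
      map_smul' := fun r f => by
        refine Subtype.ext (funext fun j => Subtype.ext ?_)
        exact rn_smul e _ _ }
  have hΦ : Function.Injective Φ := by
    intro f g hfg
    refine Subtype.ext (funext fun j => Subtype.ext ?_)
    have h1 := congrArg Subtype.val hfg
    have h2 := congrArg Subtype.val (congrFun h1 j)
    exact rn_inj e h2
  exact (LinearMap.finrank_le_finrank_of_injective hΦ).trans hq1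

end Pool.Agent.WarC
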