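import Pool.Agent.WarC.Stmts
import Pool.Agent.WarQ.LR

/-!
# Module LRB: the residual lemma for the linear space, with dimensions   (helper49)
-/

set_option autoImplicit false

open Module MvPolynomial
open Pool.Agent.War Pool.Agent.WarS Pool.Agent.WarQ

namespace Pool.Agent.WarC

namespace LRBaux

/-- the functional `γ ↦ ∑ t ^ j γ_j` -/
noncomputable def ph (b : ℕ) (t : ℂ) : (Fin b → ℂ) →ₗ[ℂ] ℂ :=
  ∑ j : Fin b, (t ^ (j : ℕ)) • LinearMap.proj j

theorem ph_apply {b : ℕ} (t : ℂ) (γ : Fin b → ℂ) :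
    ph b t γ = ∑ j : Fin b, t ^ (j : ℕ) * γ j := by
  simp [ph]

/-- the vectors orthogonal to the Vandermonde vectors with nodes in `T` -/
noncomputable def UU (b : ℕ) (T : Finset ℂ) : Submodule ℂ (Fin b → ℂ) :=
  ⨅ t ∈ T, LinearMap.ker (ph b t)

theorem mem_UU {b : ℕ} {T : Finset ℂ} {γ : Fin b → ℂ} :
    γ ∈ UU b T ↔ ∀ t ∈ T, ∑ j : Fin b, t ^ (j : ℕ) * γ j = 0 := by
  unfold UU
  simp only [Submodule.mem_iInf, LinearMap.mem_ker, ph_apply]

theorem finrank_UU (b : ℕ) (T : Finset ℂ) : finrank ℂ (UU b T) ≤ b - T.card := by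
  classical
  obtain ⟨T', hT', hc⟩ := Infinite.exists_superset_card_eq T (max b T.card) (le_max_right _ _)
  let E : Finset ℂ := T' \ T
  have hE : E.card ≤ b - T.card := by
    rw [Finset.card_sdiff_of_subset hT', hc]
    omega
  let L : UU b T →ₗ[ℂ] (E → ℂ) :=
    LinearMap.pi fun t => (ph b (t : ℂ)).comp (UU b T).subtype
  have hL : Function.Injective L := by
    rw [← LinearMap.ker_eq_bot, LinearMap.ker_eq_bot']
    intro γ hγ
    apply Subtype.ext
    refine LRaux.vdm (I := ℂ) id Function.injective_id (γ : Fin b → ℂ) T'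
      (by rw [hc]; exact le_max_left _ _) fun t ht => ?_
    by_cases h : t ∈ T
    · exact mem_UU.1 γ.2 t h
    · have h1 := congrFun hγ ⟨t, Finset.mem_sdiff.2 ⟨ht, h⟩⟩
      have h2 : ph b t (γ : Fin b → ℂ) = 0 := h1
      rwa [ph_apply] at h2
  have h1 := LinearMap.finrank_le_finrank_of_injective hL
  rw [Module.finrank_fintype_fun_eq_card, Fintype.card_coe] at h1
  exact h1.trans hE

/-- the combinations of the base quadrics -/
noncomputable def Ps (D k b : ℕ) : ((Fin D ⊕ Fin k) → Fin b → ℂ) →ₗ[ℂ]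
    (Fin b → MvPolynomial (Fin D ⊕ Fin k) ℂ) where
  toFun := fun Γ j => qq (fun t => Γ (Sum.inr t) j) (fun l => Γ (Sum.inl l) j)
  map_add' := fun Γ Δ => by
    funext j
    simp only [qq, Pi.add_apply, C_add, add_mul, Finset.sum_add_distrib]
    ring
  map_smul' := fun r Γ => by
    funext j
    simp only [qq, Pi.smul_apply, smul_eq_mul, C_mul, smul_add, smul_eq_C_mul,
      RingHom.id_apply]
    congr 1
    · rw [Finset.mul_sum]
      exact Finset.sum_congr rfl fun _ _ => by ring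
    · rw [Finset.mul_sum]
      exact Finset.sum_congr rfl fun _ _ => by ring

end LRBaux

open LRBaux LRaux LSaux in
theorem x_LRB (hN : WarQ.S_NOD) (hQ : WarQ.S_LQ) (hG : WarQ.S_LG) (hC : S_CY) : S_LRB := by
  classical
  intro D k b c _ hcD
  obtain ⟨S, hS1, hS2⟩ := hC (D + (k + 2)) b D (Nat.le_add_right _ _)
  let e : Fin D ⊕ Fin (k + 2) ≃ Fin (D + (k + 2)) := finSumFinEquiv
  let S₁ : Fin b → Finset (Fin (k + 2)) := fun i => Finset.univ.filter fun t => e (Sum.inr t) ∈ S i
  let S₂ : Fin b → Finset (Fin D) := fun i => Finset.univ.filter fun t => e (Sum.inl t) ∈ S i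
  have hcard : ∀ i, (S₁ i).card + (S₂ i).card = D := by
    intro i
    have h0 : ((S i).map e.symm.toEmbedding).card = D := by rw [Finset.card_map, hS1 i]
    have h1 : (S i).map e.symm.toEmbedding = (S₂ i).disjSum (S₁ i) := by
      ext q
      rw [Finset.mem_map_equiv, Equiv.symm_symm]
      rcases q with q | q
      · rw [Finset.inl_mem_disjSum, Finset.mem_filter]
        exact ⟨fun h => ⟨Finset.mem_univ _, h⟩, fun h => h.2⟩
      · rw [Finset.inr_mem_disjSum, Finset.mem_filter]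
        exact ⟨fun h => ⟨Finset.mem_univ _, h⟩, fun h => h.2⟩
    rw [h1, Finset.card_disjSum] at h0
    omega
  choose x hx0 hx1 hx2 using fun i => hN D (k + 2) (S₁ i) (S₂ i) (hcard i)
  let τ : Fin b ⊕ Fin c → ℂ := fun s => (((finSumFinEquiv s : Fin (b + c)) : ℕ) : ℂ)
  have hτ : Function.Injective τ := by
    intro s t hst
    exact finSumFinEquiv.injective (Fin.ext (Nat.cast_injective hst))
  let W : Fin c → (Fin D × Fin (k + 1)) ⊕ Sym2 (Fin (k + 2)) :=
    fun l => Sum.inl (Fin.castLE hcD l, 0)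
  have hW : Function.Injective W := by
    intro l l' h
    have h1 := congrArg Prod.fst (Sum.inl_injective h)
    exact Fin.castLE_injective hcD h1
  let R : Finset ((Fin D × Fin (k + 1)) ⊕ Sym2 (Fin (k + 2))) := (Finset.univ.image W)ᶜ
  have hR : R.card = eo D k - c := by
    rw [Finset.card_compl, Finset.card_image_of_injective _ hW, Finset.card_univ,
      Fintype.card_fin, Fintype.card_sum, Fintype.card_prod, Fintype.card_fin, Fintype.card_fin,
      Sym2.card, Fintype.card_fin]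
    rfl
  let E := R.equivFinOfCardEq hR
  -- the allowed nodes of an index
  let Al : Fin (D + (k + 2)) → Finset (Fin b ⊕ Fin c) := fun r =>
    Finset.univ.filter fun s : Fin b ⊕ Fin c => ∀ i, s = Sum.inl i → r ∉ S i
  have hAl : ∀ r, b - (Al r).card = (Finset.univ.filter fun i : Fin b => r ∈ S i).card - c := by
    intro r
    have h1 : Al r =
        (Finset.univ.filter fun i : Fin b => ¬ r ∈ S i).disjSum (Finset.univ : Finset (Fin c)) := by
      ext s
      rw [Finset.mem_filter]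
      rcases s with s | s
      · rw [Finset.inl_mem_disjSum, Finset.mem_filter]
        constructor
        · rintro ⟨-, h⟩
          exact ⟨Finset.mem_univ _, h s rfl⟩
        · rintro ⟨-, h⟩
          refine ⟨Finset.mem_univ _, fun i hi => ?_⟩
          rw [← Sum.inl_injective hi]
          exact h
      · rw [Finset.inr_mem_disjSum]
        exact ⟨fun _ => Finset.mem_univ _, fun _ => ⟨Finset.mem_univ _, fun i hi =>
          absurd hi (by simp)⟩⟩
    rw [h1, Finset.card_disjSum, Finset.card_univ, Fintype.card_fin]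
    have h3 := Finset.card_filter_add_card_filter_not (s := (Finset.univ : Finset (Fin b)))
      (fun i => r ∈ S i)
    rw [Finset.card_univ, Fintype.card_fin] at h3
    omega
  let U : Submodule ℂ ((Fin D ⊕ Fin (k + 2)) → Fin b → ℂ) :=
    Submodule.pi Set.univ fun r => UU b ((Al (e r)).image τ)
  have hU : finrank ℂ U ≤ b * D - (D + (k + 2)) * c := by
    refine (finrank_pi_leC1 _).trans ?_
    have h1 : ∀ r : Fin D ⊕ Fin (k + 2), finrank ℂ (UU b ((Al (e r)).image τ)) ≤
        (Finset.univ.filter fun i : Fin b => e r ∈ S i).card - c := by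
      intro r
      refine (finrank_UU b _).trans ?_
      rw [Finset.card_image_of_injective _ hτ, hAl]
    refine (Finset.sum_le_sum fun r _ => h1 r).trans ?_
    rw [Equiv.sum_comp e fun r => (Finset.univ.filter fun i : Fin b => r ∈ S i).card - c]
    exact hS2 c
  let q : QQ D (k + 2) b c (eo D k - c) := (x, fun s j => τ s ^ (j : ℕ), fun l => bp (W l),
    fun t => bp ((E.symm t : R) : (Fin D × Fin (k + 1)) ⊕ Sym2 (Fin (k + 2))))
  refine ⟨q, ?_⟩
  -- every tuple in the space is a combination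
  have key : ∀ g ∈ ZZ q, ∃ Γ ∈ U, Ps D (k + 2) b Γ = fun j =>
      (g j : MvPolynomial (Fin D ⊕ Fin (k + 2)) ℂ) := by
    intro g hgZ
    obtain ⟨r1, r2, r3, r4, r5⟩ := (mem_ZZ q g).1 hgZ
    have hg : ∀ j, ((g j : MvPolynomial (Fin D ⊕ Fin (k + 2)) ℂ)).totalDegree ≤ 2 :=
      fun j => (mem_WW.1 (g j).2).1
    have hall : ∀ q' j, eval (bp q') (g j : MvPolynomial (Fin D ⊕ Fin (k + 2)) ℂ) = 0 := by
      intro q' j
      by_cases hq : q' ∈ R
      · have h1 : eval (bp ((E.symm (E ⟨q', hq⟩) : R) :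
            (Fin D × Fin (k + 1)) ⊕ Sym2 (Fin (k + 2))))
              (g j : MvPolynomial (Fin D ⊕ Fin (k + 2)) ℂ) = 0 := r5 (E ⟨q', hq⟩) j
        rwa [Equiv.symm_apply_apply] at h1
      · rw [Finset.mem_compl, not_not, Finset.mem_image] at hq
        obtain ⟨l, -, rfl⟩ := hq
        exact r3 l j
    have hqq : ∀ j, ∃ γ₁ γ₂, (g j : MvPolynomial (Fin D ⊕ Fin (k + 2)) ℂ) = qq γ₁ γ₂ := by
      intro j
      refine hQ D k _ (hg j) (r1 j) (fun i l => ?_) fun j' i => ?_
      · rw [← bp_pa]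
        exact hall _ j
      · exact hall (Sum.inl (j', i)) j
    choose γ₁ γ₂ hγ using hqq
    have hsum : ∀ (a : Fin b → ℂ) (v : Fin D ⊕ Fin (k + 2)) (z : Fin D ⊕ Fin (k + 2) → ℂ),
        ∑ j, a j * eval z (pderiv v (g j : MvPolynomial (Fin D ⊕ Fin (k + 2)) ℂ)) =
          eval z (pderiv v (qq (fun t => ∑ j, a j * γ₁ j t) (fun l => ∑ j, a j * γ₂ j l))) := by
      intro a v z
      rw [← qq_sum, pderiv_sum]
      exact Finset.sum_congr rfl fun j _ => by rw [hγ j]
    -- full points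
    have hF : ∀ l : Fin c, (∀ t, ∑ j : Fin b, τ (Sum.inr l) ^ (j : ℕ) * γ₁ j t = 0) ∧
        ∀ m, ∑ j : Fin b, τ (Sum.inr l) ^ (j : ℕ) * γ₂ j m = 0 := by
      intro l
      have h := (hG D k (fun t => ∑ j : Fin b, τ (Sum.inr l) ^ (j : ℕ) * γ₁ j t)
        (fun m => ∑ j : Fin b, τ (Sum.inr l) ^ (j : ℕ) * γ₂ j m)).2.2 (Fin.castLE hcD l)
        (fun v => by
          rw [← hsum]
          exact r4 l v)
      exact ⟨fun t => congrFun h.1 t, fun m => congrFun h.2 m⟩
    -- points of the linear space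
    have hL : ∀ i : Fin b,
        (∀ t, t ∉ S₁ i → ∑ j : Fin b, τ (Sum.inl i) ^ (j : ℕ) * γ₁ j t = 0) ∧
        ∀ m, m ∉ S₂ i → ∑ j : Fin b, τ (Sum.inl i) ^ (j : ℕ) * γ₂ j m = 0 := by
      intro i
      set Γ₁ : Fin (k + 2) → ℂ := fun t => ∑ j : Fin b, τ (Sum.inl i) ^ (j : ℕ) * γ₁ j t with hΓ₁
      set Γ₂ : Fin D → ℂ := fun m => ∑ j : Fin b, τ (Sum.inl i) ^ (j : ℕ) * γ₂ j m with hΓ₂
      have h1 : ∀ t : Fin (k + 2), Γ₁ t * (1 - ∑ j : Fin D, hh t j * x i j) +
          ∑ j : Fin D, hh t j * (Γ₂ j * x i j) = 0 := by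
        intro t
        rw [← (hG D k Γ₁ Γ₂).2.1 (x i) t, hΓ₁, hΓ₂, ← hsum]
        exact r2 i t
      have h2 := hx2 i (fun t => Γ₁ t * (1 - ∑ j : Fin D, hh t j * x i j))
        (fun j => Γ₂ j * x i j) (fun t ht => by
          show Γ₁ t * (1 - ∑ j : Fin D, hh t j * x i j) = 0
          rw [(hx1 i t).2 ht, sub_self, mul_zero])
        (fun j hj => by
          show Γ₂ j * x i j = 0
          rw [(hx0 i j).2 hj, mul_zero]) h1
      refine ⟨fun t ht => ?_, fun m hm => ?_⟩
      · have h3 : Γ₁ t * (1 - ∑ j : Fin D, hh t j * x i j) = 0 := congrFun h2.1 t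
        refine (mul_eq_zero.1 h3).resolve_right fun h4 => ht ((hx1 i t).1 ?_)
        exact (sub_eq_zero.1 h4).symm
      · have h3 : Γ₂ m * x i m = 0 := congrFun h2.2 m
        exact (mul_eq_zero.1 h3).resolve_right fun h4 => hm ((hx0 i m).1 h4)
    refine ⟨fun r j => Sum.elim (γ₂ j) (γ₁ j) r, ?_, ?_⟩
    · intro r _
      refine mem_UU.2 fun t ht => ?_
      obtain ⟨s, hs, rfl⟩ := Finset.mem_image.1 ht
      have hs' := (Finset.mem_filter.1 hs).2
      rcases r with m | t
      · show ∑ j : Fin b, τ s ^ (j : ℕ) * γ₂ j m = 0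
        rcases s with i | l
        · refine (hL i).2 m fun ht => hs' i rfl (Finset.mem_filter.1 ht).2
        · exact (hF l).2 m
      · show ∑ j : Fin b, τ s ^ (j : ℕ) * γ₁ j t = 0
        rcases s with i | l
        · refine (hL i).1 t fun ht => hs' i rfl (Finset.mem_filter.1 ht).2
        · exact (hF l).1 t
    · funext j
      rw [hγ j]
      rfl
  let ι : (Fin b → WW D (k + 2)) →ₗ[ℂ] (Fin b → MvPolynomial (Fin D ⊕ Fin (k + 2)) ℂ) :=
    LinearMap.pi fun j => (WW D (k + 2)).subtype.comp (LinearMap.proj j)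
  have hι : Function.Injective ι := by
    intro g g' h
    funext j
    exact Subtype.ext (congrFun h j)
  have h1 : (ZZ q).map ι ≤ U.map (Ps D (k + 2) b) := by
    rintro _ ⟨g, hg, rfl⟩
    obtain ⟨Γ, hΓ, h⟩ := key g hg
    exact ⟨Γ, hΓ, h⟩
  calc finrank ℂ (ZZ q) = finrank ℂ ((ZZ q).map ι) :=
        LinearEquiv.finrank_eq (Submodule.equivMapOfInjective ι hι (ZZ q))
    _ ≤ finrank ℂ (U.map (Ps D (k + 2) b)) := Submodule.finrank_mono h1
    _ ≤ finrank ℂ U := Submodule.finrank_map_le _ _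
    _ ≤ _ := hU

end Pool.Agent.WarC
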