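import Pool.Agent.WarC.Stmts
import Pool.Agent.WarS.SG
import Pool.Agent.WarQ.LT

/-!
# Simultaneous Waring decompositions (MP_db021c_ag), cubics: trace on the linear space, degree 2
(helper26, after `WarQ/LT.lean`)
-/

set_option autoImplicit false

open Module MvPolynomial
open Pool.Agent.War Pool.Agent.WarS Pool.Agent.WarQ

namespace Pool.Agent.WarC

namespace LT2aux

theorem trace (hSG : S_SG) (D b e : ℕ) (hD : 1 ≤ D) (he : NN D 2 ≤ D + (b + e)) :
    Gen ℂ fun x : (Fin b ⊕ Fin e → Fin D → ℂ) × (Fin b → Fin b → ℂ) => TrC1 D 2 x = ⊥ := by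
  classical
  obtain ⟨z0, hz0⟩ := (Gen.forall fun j : Fin b =>
    hSG D 2 (Fin b ⊕ Fin e) {Sum.inl j} hD (by
      rw [Finset.card_singleton]
      exact LTaux.GG_one_point D 2 (by norm_num))).exists
  have hbot : ∀ j, Dbl D 2 {Sum.inl j} z0 = ⊥ := fun j =>
    Dbl_eq_botC1 (hz0 j) (by
      rw [Finset.card_singleton, Fintype.card_sum, Fintype.card_fin, Fintype.card_fin]
      omega)
  refine (PK_TrC1 D 2).gen_bot
    (x₀ := (z0, fun q => (Pi.single q 1 : Fin b → ℂ))) ?_
  rw [eq_bot_iff]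
  intro f hf
  obtain ⟨k1, k2⟩ := mem_TrC1.1 hf
  rw [Submodule.mem_bot]
  funext j
  have : f j ∈ Dbl D 2 {Sum.inl j} z0 := by
    refine mem_Dbl.2 ⟨fun i => k1 i j, fun i hi k => ?_⟩
    rw [Finset.mem_singleton] at hi
    subst hi
    have := k2 j k
    change eval (z0 (Sum.inl j)) (pderiv k (f j : MvPolynomial (Fin D) ℂ)) = 0
    simpa [Pi.single_apply] using this
  rw [hbot, Submodule.mem_bot] at this
  rw [this]
  rfl

end LT2aux

open LTaux in
theorem x_LT2 : S_LT2 := by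
  intro D b hD hbD
  refine ((LT2aux.trace SG D b (NN D 2 - D - b) hD (by omega)).comp (LL D b (NN D 2 - D - b))
    (LL_surj _ _ _)).mono ?_
  intro q hq f hf h1 h2 h3 j
  have hmem : (fun j => (⟨f j, mem_Pol.2 (hf j)⟩ : Pol D 2)) ∈
      TrC1 D 2 (LL D b (NN D 2 - D - b) q) := by
    refine mem_TrC1.2 ⟨?_, fun i k => h2 i k⟩
    rintro (i | i) j
    · exact h1 i j
    · exact h3 i j
  rw [hq, Submodule.mem_bot] at hmem
  exact congrArg Subtype.val (congrFun hmem j)

end Pool.Agent.WarC
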