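import Pool.Agent.WarC.Stmts
import Pool.Agent.WarS.SG
import Pool.Agent.WarM.ONE

/-!
# Simultaneous Waring decompositions (MP_db021c_ag), cubics: no mixed points   (helper59)

Form `k` is double at the point `k` and vanishes at all the other points: dimension at most `D` for every form.
-/

set_option autoImplicit false

open Module MvPolynomial
open Pool.Agent.War Pool.Agent.WarS Pool.Agent.WarQ

namespace Pool.Agent.WarC

theorem x_MR0 : S_MR0 := by
  classical
  intro n D b hn hle
  unfold MR
  set e : ℕ := NN n 2 - (n + D) - (b + 0) with he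
  have hcard : Fintype.card ((Fin b ⊕ Fin 0) ⊕ Fin e) = b + e := by
    simp
  have hG : Gen ℂ fun z : (Fin b ⊕ Fin 0) ⊕ Fin e → Fin n → ℂ => ∀ k : Fin b,
      finrank ℂ (Dbl n 2 {Sum.inl (Sum.inl k)} z) ≤ D := by
    refine Gen.forall fun k => ?_
    have h1 := Pool.Agent.WarS.SG n 2 ((Fin b ⊕ Fin 0) ⊕ Fin e) {Sum.inl (Sum.inl k)} hn (by
      rw [Finset.card_singleton]
      exact Pool.Agent.WarM.ONE n 2 (by norm_num))
    refine h1.mono fun z hz => hz.trans ?_
    rw [Finset.card_singleton, hcard]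
    omega
  obtain ⟨z, hz⟩ := hG.exists
  refine ⟨(z, fun l => l.elim0), ?_⟩
  have hsub : MZ n ((z, fun l => l.elim0) : PT n b 0 e) ≤
      Submodule.pi Set.univ (fun k : Fin b => Dbl n 2 {Sum.inl (Sum.inl k)} z) := by
    intro f hf
    rw [mem_MZ] at hf
    obtain ⟨f1, f2, -⟩ := hf
    rw [Submodule.mem_pi]
    intro k _
    rw [mem_Dbl]
    refine ⟨fun i => f1 i k, fun i hi v => ?_⟩
    rw [Finset.mem_singleton] at hi
    subst hi
    exact f2 k v
  refine (Submodule.finrank_mono hsub).trans ((finrank_pi_leC1 _).trans ?_)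
  refine (Finset.sum_le_sum fun k _ => hz k).trans ?_
  simp

end Pool.Agent.WarC
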