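import Pool.Agent.WarC.Stmts

/-!
# MRA: all quadrics
-/

set_option autoImplicit false

open Pool.Agent.War Pool.Agent.WarS Pool.Agent.WarQ

namespace Pool.Agent.WarC

namespace MRAaux

theorem two_NN (n : ℕ) : 2 * NN n 2 = (n + 2) * (n + 1) := by
  induction n with
  | zero => simp
  | succ n ih =>
    rw [NN_succ, NN_right_one]
    linarith

end MRAaux

open MRAaux

/-- MODULE MRA -/
theorem x_MRA (hL : S_LM) (h0 : S_MR0) (hS : S_STEP) (hB : S_B4) : S_MRA := by
  intro n
  induction n with
  | zero => intro D b c h4; omega
  | succ ν ih =>
    intro D b c h4 hD hDn hb hbn hcb hcD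
    have hN := two_NN (ν + 1)
    have hN' := two_NN ν
    have hND := two_NN D
    rcases Nat.eq_zero_or_pos c with rfl | hc
    · refine h0 (ν + 1) D b (by omega) ?_
      nlinarith
    · by_cases hbD : b + D ≤ NN D 2
      · exact hL (ν + 1) D b c hDn hD hb hcD hcb hbD
      · rw [not_le] at hbD
        have h1 : D ^ 2 + D + 4 ≤ 2 * b := by nlinarith
        rcases Nat.lt_or_ge ν 4 with h5 | h5
        · have hν : ν = 3 := by omega
          subst hν
          have hD2 : D = 1 := by
            have : D ≤ 2 := by omega
            interval_cases D
            · rfl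
            · omega
          subst hD2
          have hc1 : c = 1 := by omega
          subst hc1
          have hb3 : b = 3 ∨ b = 4 := by omega
          rcases hb3 with rfl | rfl
          · exact hB.1
          · exact hB.2
        · have h2 : 2 * D + 1 ≤ b := by
            have : 0 ≤ ((D : ℤ) - 1) * (D - 2) := by
              rcases Nat.lt_or_ge D 2 with h | h
              · have : D = 1 := by omega
                subst this
                norm_num
              · have h6 : (2 : ℤ) ≤ D := by exact_mod_cast h
                exact mul_nonneg (by linarith) (by linarith)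
            have h7 : ((D : ℤ)) ^ 2 + D + 4 ≤ 2 * b := by exact_mod_cast h1
            have h8 : (2 * (D : ℤ) + 1) ≤ b := by nlinarith
            exact_mod_cast h8
          have h3 : D + 2 ≤ ν := by
            rcases Nat.lt_or_ge D 2 with h | h
            · omega
            · have h9 : 2 * D ≤ D ^ 2 := by nlinarith
              omega
          refine hS ν D b c hD (by omega) hc hcb hcD hbn (by omega) ?_ ?_
          · have h6 : 2 * (ν + D + (b + c)) ≤ (ν + 2) * (ν + 1) := by
              have h7 : 2 * D ≤ D ^ 2 + 1 := by
                obtain ⟨k, rfl⟩ : ∃ k, D = k + 1 := ⟨D - 1, by omega⟩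
                nlinarith
              have h8 : 3 * D ≤ 2 * ν := by omega
              have h9 : 4 * ν ≤ ν * ν := Nat.mul_le_mul_right ν h5
              nlinarith
            omega
          · intro b' c' hb' hb'ν hc' hc'c
            exact ih D b' c' h5 hD h3 hb' hb'ν hc' (by omega)

end Pool.Agent.WarC
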