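import Pool.Agent.WarC.Stmts2
import Pool.Agent.WarM.Num

/-!
# The choice of the numbers in the block lemma for cubics   (helper97)
-/

set_option autoImplicit false

open Module MvPolynomial
open Pool.Agent.War Pool.Agent.WarS Pool.Agent.WarQ

namespace Pool.Agent.WarC

namespace NUMCaux

/-- the conclusion -/
def Goal (n b q D c N1 N2 : ℕ) : Prop :=
  ∃ u r e : ℕ, u + r = q ∧ n ≤ u + D ∧ (n - 1 + b) * u ≤ N1 ∧ 9 * u ≤ (n + 2) ^ 2 ∧
    2 * (r + 1) ≤ n + 1 ∧ (b * r + c) + e + (n * r + D + u) = N2 ∧ n + 1 ≤ (b * r + c) + e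

/-- bound of `Q` -/
theorem nineQ {n Q N1 : ℕ} (hn : 3 ≤ n) (h1 : 6 * N1 = n * (n + 1) * (n + 2))
    (hQ : (2 * n - 1) * Q ≤ N1) : 9 * Q ≤ (n + 2) ^ 2 := by
  obtain ⟨m, rfl⟩ : ∃ m, n = m + 3 := ⟨n - 3, by omega⟩
  have e : 2 * (m + 3) - 1 = 2 * m + 5 := by omega
  rw [e] at hQ
  by_contra hc
  push Not at hc
  have h2 : (2 * m + 5) * ((m + 3 + 2) ^ 2 + 1) ≤ (2 * m + 5) * (9 * Q) :=
    Nat.mul_le_mul_left _ hc
  nlinarith [Nat.zero_le (m ^ 2), Nat.zero_le (m ^ 3)]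

/-- the case `q ≤ Q` -/
theorem small {n b q D c N1 N2 Q : ℕ} (hn : 3 ≤ n) (hbn : b ≤ n)
    (hDn : D < n) (hqD : n ≤ q + D) (hc2 : n * c < b * D + n)
    (h1 : 6 * N1 = n * (n + 1) * (n + 2)) (h2 : 2 * N2 = (n + 1) * (n + 2))
    (hQ : (2 * n - 1) * Q ≤ N1) (hq : q ≤ Q) : Goal n b q D c N1 N2 := by
  have h9 := nineQ hn h1 hQ
  have hc : c ≤ D := by
    by_contra hcD
    push Not at hcD
    have h3 : n * (D + 1) ≤ n * c := Nat.mul_le_mul_left _ hcD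
    have h4 : b * D ≤ n * D := Nat.mul_le_mul_right _ hbn
    nlinarith
  have h5 : 2 * n + Q ≤ N2 := by nlinarith
  refine ⟨q, 0, N2 - (c + D + q), by omega, hqD, ?_, by omega, by omega, ?_, ?_⟩
  · have h6 : (n - 1 + b) * q ≤ (2 * n - 1) * Q := Nat.mul_le_mul (by omega) hq
    omega
  · simp only [Nat.mul_zero]
    omega
  · simp only [Nat.mul_zero]
    omega

/-- the case `n ≥ 18` -/
theorem big {n b q D c N1 N2 N3 Q : ℕ} (hn : 18 ≤ n) (hbn : b ≤ n)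
    (hD1 : 1 ≤ D) (hc2 : n * c < b * D + n)
    (h1 : 6 * N1 = n * (n + 1) * (n + 2)) (h2 : 2 * N2 = (n + 1) * (n + 2))
    (h3 : N3 = N1 + N2) (hμ : (2 * n + 1) * (n * q + D) ≤ n * N3)
    (hQ : (2 * n - 1) * Q ≤ N1) (hQ2 : N1 < (2 * n - 1) * (Q + 1)) (hq : Q < q) :
    Goal n b q D c N1 N2 := by
  have h9 := nineQ (by omega) h1 hQ
  obtain ⟨r, rfl⟩ : ∃ r, q = Q + r := ⟨q - Q, by omega⟩
  have hfin : (n - 1 + b) * Q ≤ (2 * n - 1) * Q := Nat.mul_le_mul_right _ (by omega)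
  have e : 2 * n - 1 + 1 = 2 * n := by omega
  generalize 2 * n - 1 = k at e hQ hQ2 hfin
  have hQ' : 2 * n * Q ≤ N1 + Q := by
    have : 2 * n * Q = k * Q + Q := by rw [← e]; ring
    omega
  have hQ2' : N1 + Q + 2 ≤ 2 * n * Q + 2 * n := by
    have : 2 * n * (Q + 1) = k * (Q + 1) + (Q + 1) := by
      rw [← e]
      ring
    nlinarith
  -- `N3 ≥ 4 n² - 1`
  have h4 : 4 * n * n ≤ N3 + 1 := by
    obtain ⟨m, rfl⟩ : ∃ m, n = m + 18 := ⟨n - 18, by omega⟩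
    nlinarith [Nat.zero_le (m ^ 2), Nat.zero_le (m ^ 3)]
  -- the main inequality
  have hK : 2 * (n * r + D) + Q + 1 ≤ N2 := by
    have h5 : 2 * (n * (Q + r) + D) + 2 * n ≤ N3 + 1 := by
      by_contra hc
      push Not at hc
      have h6 : (2 * n + 1) * (N3 + 2) ≤ (2 * n + 1) * (2 * (n * (Q + r) + D) + 2 * n) :=
        Nat.mul_le_mul_left _ hc
      nlinarith
    nlinarith
  have hQu : n ≤ Q + D := by
    by_contra hc
    push Not at hc
    have h6 : Q + 2 ≤ n := by omega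
    have h7 : N1 + Q + 2 ≤ 2 * n * (Q + 1) := by nlinarith
    have h8 : 2 * n * (Q + 1) + 2 * n ≤ 2 * n * n := by nlinarith
    have h10 : N1 ≤ 2 * n * n := by omega
    obtain ⟨m, rfl⟩ : ∃ m, n = m + 18 := ⟨n - 18, by omega⟩
    nlinarith [Nat.zero_le (m ^ 2), Nat.zero_le (m ^ 3)]
  have hle : (b * r + c) + (n * r + D + Q) ≤ N2 := by
    by_contra hc
    push Not at hc
    have h6 : n * (N2 + 1) ≤ n * ((b * r + c) + (n * r + D + Q)) := Nat.mul_le_mul_left _ hc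
    have h7 : b * (n * r + D) ≤ n * (n * r + D) := Nat.mul_le_mul_right _ hbn
    have h8 : n * (2 * (n * r + D) + Q + 1) ≤ n * N2 := Nat.mul_le_mul_left _ hK
    nlinarith
  refine ⟨Q, r, N2 - ((b * r + c) + (n * r + D + Q)), rfl, hQu, ?_, h9, ?_, by omega, ?_⟩
  · exact hfin.trans hQ
  · by_contra hc
    push Not at hc
    have h6 : n ≤ 2 * r := by omega
    have h7 : n * n ≤ n * (2 * r) := Nat.mul_le_mul_left _ h6
    nlinarith
  · have h6 : 2 * (n * r + D) + 2 * Q + 2 * n + 2 ≤ 2 * N2 := by nlinarith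
    omega

/-- the case `6 ≤ n ≤ 17` -/
theorem mid {n b q D c N1 N2 N3 Q : ℕ} (hn : 6 ≤ n) (hn2 : n ≤ 17) (hbn : b ≤ n)
    (hD1 : 1 ≤ D) (hDn : D < n) (hc2 : n * c < b * D + n)
    (h1 : 6 * N1 = n * (n + 1) * (n + 2)) (h2 : 2 * N2 = (n + 1) * (n + 2))
    (h3 : N3 = N1 + N2) (hμ : (2 * n + 1) * (n * q + D) ≤ n * N3)
    (hQ : (2 * n - 1) * Q ≤ N1) (hQ2 : N1 < (2 * n - 1) * (Q + 1)) (hq : Q < q) :
    Goal n b q D c N1 N2 := by
  have h9 := nineQ (by omega) h1 hQ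
  obtain ⟨r, rfl⟩ : ∃ r, q = Q + r := ⟨q - Q, by omega⟩
  have hle : (b * r + c) + (n * r + D + Q) ≤ N2 := by
    interval_cases n <;> (have hr : r ≤ 3 := by omega) <;> interval_cases D <;>
      interval_cases r <;> omega
  have hfin : (n - 1 + b) * Q ≤ (2 * n - 1) * Q := Nat.mul_le_mul_right _ (by omega)
  refine ⟨Q, r, N2 - ((b * r + c) + (n * r + D + Q)), rfl, ?_, hfin.trans hQ, h9, ?_, by omega,
    ?_⟩
  · interval_cases n <;> omega
  · interval_cases n <;> omega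
  · have h6 : n + 1 + (n * r + D + Q) ≤ N2 := by interval_cases n <;> omega
    omega

/-- the case `n = 3` -/
theorem three {b q D c N1 N2 N3 Q : ℕ} (hD1 : 1 ≤ D) (h1 : 6 * N1 = 3 * (3 + 1) * (3 + 2))
    (h2 : 2 * N2 = (3 + 1) * (3 + 2))
    (h3 : N3 = N1 + N2) (hμ : (2 * 3 + 1) * (3 * q + D) ≤ 3 * N3)
    (hQ2 : N1 < (2 * 3 - 1) * (Q + 1)) (hq : Q < q) : Goal 3 b q D c N1 N2 := by
  exfalso
  omega

/-- the case `n = 4` -/
theorem four {b q D c N1 N2 N3 Q : ℕ} (hbn : b ≤ 4) (hb2 : 2 ≤ b)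
    (hD1 : 1 ≤ D) (hDn : D < 4) (hc2 : 4 * c < b * D + 4)
    (h1 : 6 * N1 = 4 * (4 + 1) * (4 + 2)) (h2 : 2 * N2 = (4 + 1) * (4 + 2))
    (h3 : N3 = N1 + N2) (hμ : (2 * 4 + 1) * (4 * q + D) ≤ 4 * N3)
    (hQ : (2 * 4 - 1) * Q ≤ N1) (hQ2 : N1 < (2 * 4 - 1) * (Q + 1)) (hq : Q < q)
    (hX : ¬ XB 4 b (4 * q + D)) : Goal 4 b q D c N1 N2 := by
  obtain rfl : N1 = 20 := by omega
  obtain rfl : N2 = 15 := by omega
  obtain rfl : q = 3 := by omega
  unfold XB at hX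
  interval_cases D
  · refine ⟨3, 0, 11 - c, by omega, by omega, by omega, by omega, by omega, by omega, by omega⟩
  · refine ⟨2, 1, 7 - b - c, by omega, by omega, by omega, by omega, by omega, by omega, by omega⟩
  · refine ⟨2, 1, 6 - b - c, by omega, by omega, by omega, by omega, by omega, by omega, by omega⟩

/-- the case `n = 5` -/
theorem five {b q D c N1 N2 N3 Q : ℕ} (hbn : b ≤ 5) (hb2 : 2 ≤ b)
    (hD1 : 1 ≤ D) (hDn : D < 5) (hc2 : 5 * c < b * D + 5)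
    (h1 : 6 * N1 = 5 * (5 + 1) * (5 + 2)) (h2 : 2 * N2 = (5 + 1) * (5 + 2))
    (h3 : N3 = N1 + N2) (hμ : (2 * 5 + 1) * (5 * q + D) ≤ 5 * N3)
    (hQ : (2 * 5 - 1) * Q ≤ N1) (hQ2 : N1 < (2 * 5 - 1) * (Q + 1)) (hq : Q < q)
    (hX : ¬ XB 5 b (5 * q + D)) : Goal 5 b q D c N1 N2 := by
  obtain rfl : N1 = 35 := by omega
  obtain rfl : N2 = 21 := by omega
  obtain rfl : Q = 3 := by omega
  obtain ⟨r, rfl⟩ : ∃ r, q = 3 + r := ⟨q - 3, by omega⟩
  have hr : r ≤ 2 := by omega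
  unfold XB at hX
  interval_cases D <;> interval_cases r
  · omega
  · refine ⟨4, 0, 16 - c, by omega, by omega, by omega, by omega, by omega, by omega, by omega⟩
  · omega
  · omega
  · refine ⟨3, 1, 11 - b - c, by omega, by omega, by omega, by omega, by omega, by omega, by omega⟩
  · omega
  · omega
  · refine ⟨3, 1, 10 - b - c, by omega, by omega, by omega, by omega, by omega, by omega, by omega⟩
  · omega
  · omega
  · refine ⟨3, 1, 9 - b - c, by omega, by omega, by omega, by omega, by omega, by omega, by omega⟩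
  · omega

end NUMCaux

theorem x_NUMC : S_NUMC := by
  intro n b q D c hn hb2 hbn hD1 hDn hqD hc1 hc2 hμ hX
  have hN3 := WarM.NN_three n
  have hN2 := WarM.NN_two n
  have hN1 : 6 * NN (n - 1) 3 = n * (n + 1) * (n + 2) := by
    have h := WarM.NN_three (n - 1)
    have e : n - 1 + 1 = n := by omega
    have e2 : n - 1 + 2 = n + 1 := by omega
    have e3 : n - 1 + 3 = n + 2 := by omega
    rw [e, e2, e3] at h
    exact h
  have h3 : NN n 3 = NN (n - 1) 3 + NN n 2 := by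
    nlinarith
  set N1 := NN (n - 1) 3
  set N2 := NN n 2
  set N3 := NN n 3
  have hpos : 0 < 2 * n - 1 := by omega
  have hQ : (2 * n - 1) * (N1 / (2 * n - 1)) ≤ N1 := Nat.mul_div_le _ _
  have hQ2 : N1 < (2 * n - 1) * (N1 / (2 * n - 1) + 1) := Nat.lt_mul_div_succ _ hpos
  generalize N1 / (2 * n - 1) = Q at hQ hQ2
  show NUMCaux.Goal n b q D c N1 N2
  rcases Nat.lt_or_ge Q q with hq | hq
  · rcases Nat.lt_or_ge n 18 with h18 | h18
    · rcases Nat.lt_or_ge n 6 with h6 | h6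
      · obtain h | h | h : n = 3 ∨ n = 4 ∨ n = 5 := by omega
        · clear_value N1 N2 N3
          subst h
          exact NUMCaux.three hD1 hN1 hN2 h3 hμ hQ2 hq
        · clear_value N1 N2 N3
          subst h
          exact NUMCaux.four hbn hb2 hD1 hDn hc2 hN1 hN2 h3 hμ hQ hQ2 hq hX
        · clear_value N1 N2 N3
          subst h
          exact NUMCaux.five hbn hb2 hD1 hDn hc2 hN1 hN2 h3 hμ hQ hQ2 hq hX
      · exact NUMCaux.mid h6 (by omega) hbn hD1 hDn hc2 hN1 hN2 h3 hμ hQ hQ2 hq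
    · exact NUMCaux.big h18 hbn hD1 hc2 hN1 hN2 h3 hμ hQ hQ2 hq
  · exact NUMCaux.small hn hbn hDn hqD hc2 hN1 hN2 hQ hq

end Pool.Agent.WarC
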