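import Pool.Agent.WarC.Stmts

/-!
# MP_db021c_ag, WC_PUR: change of basis among the forms   (helper76)
-/

set_option autoImplicit false

open Module MvPolynomial
open Pool.Agent.War Pool.Agent.WarS Pool.Agent.WarQ

namespace Pool.Agent.WarC

namespace PURaux

/-- the linear map of a matrix on tuples of polynomials -/
noncomputable def mul {n b : ℕ} (B : Matrix (Fin b) (Fin b) ℂ) :
    (Fin b → Pol n 2) →ₗ[ℂ] (Fin b → Pol n 2) :=
  LinearMap.pi fun j => ∑ k, B j k • LinearMap.proj k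

theorem mul_apply {n b : ℕ} (B : Matrix (Fin b) (Fin b) ℂ) (g : Fin b → Pol n 2) (j : Fin b) :
    mul B g j = ∑ k, B j k • g k := by
  unfold mul
  rw [LinearMap.pi_apply, LinearMap.sum_apply]
  rfl

theorem mul_coe {n b : ℕ} (B : Matrix (Fin b) (Fin b) ℂ) (g : Fin b → Pol n 2) (j : Fin b) :
    ((mul B g j : Pol n 2) : MvPolynomial (Fin n) ℂ) =
      ∑ k, C (B j k) * (g k : MvPolynomial (Fin n) ℂ) := by
  rw [mul_apply, Submodule.coe_sum]
  refine Finset.sum_congr rfl fun k _ => ?_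
  rw [Submodule.coe_smul, smul_eq_C_mul]

theorem eval_mul {n b : ℕ} (B : Matrix (Fin b) (Fin b) ℂ) (g : Fin b → Pol n 2) (j : Fin b)
    (p : Fin n → ℂ) : eval p ((mul B g j : Pol n 2) : MvPolynomial (Fin n) ℂ) =
      ∑ k, B j k * eval p (g k : MvPolynomial (Fin n) ℂ) := by
  rw [mul_coe, map_sum]
  simp

theorem pder_mul {n b : ℕ} (B : Matrix (Fin b) (Fin b) ℂ) (g : Fin b → Pol n 2) (j : Fin b)
    (p : Fin n → ℂ) (v : Fin n) :
    eval p (pderiv v ((mul B g j : Pol n 2) : MvPolynomial (Fin n) ℂ)) =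
      ∑ k, B j k * eval p (pderiv v (g k : MvPolynomial (Fin n) ℂ)) := by
  rw [mul_coe, map_sum, map_sum]
  refine Finset.sum_congr rfl fun k _ => ?_
  rw [pderiv_C_mul, map_mul, eval_C]

theorem mul_mul {n b : ℕ} (A B : Matrix (Fin b) (Fin b) ℂ) (h : A * B = 1)
    (g : Fin b → Pol n 2) : mul A (mul B g) = g := by
  funext j
  rw [mul_apply]
  have h1 : ∀ k, A j k • mul B g k = ∑ l, (A j k * B k l) • g l := by
    intro k
    rw [mul_apply, Finset.smul_sum]
    refine Finset.sum_congr rfl fun l _ => ?_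
    rw [smul_smul]
  rw [Finset.sum_congr rfl fun k _ => h1 k, Finset.sum_comm]
  have h2 : ∀ l, ∑ k, (A j k * B k l) • g l = (A * B) j l • g l := by
    intro l
    rw [← Finset.sum_smul, Matrix.mul_apply]
  rw [Finset.sum_congr rfl fun l _ => h2 l, h]
  simp [Matrix.one_apply]

/-- contraction of a vector with the transformed tuple -/
theorem contr {b : ℕ} (B : Matrix (Fin b) (Fin b) ℂ) (a : Fin b → ℂ) (e : Fin b → ℂ) :
    ∑ j, a j * ∑ k, B j k * e k = ∑ k, (Matrix.vecMul a B k) * e k := by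
  simp only [Matrix.vecMul, dotProduct, Finset.mul_sum, Finset.sum_mul]
  rw [Finset.sum_comm]
  refine Finset.sum_congr rfl fun k _ => Finset.sum_congr rfl fun j _ => ?_
  ring

end PURaux

open PURaux in
theorem x_PUR : S_PUR := by
  classical
  rintro n b c e r ⟨x₀, hx₀⟩
  have h1 := (PK_TrC1 n 2 (α := Fin b ⊕ Fin c) (β := Fin e) (γ := Fin b)).gen_finrank hx₀
  have h2 : Gen ℂ fun x : ((Fin b ⊕ Fin c) ⊕ Fin e → Fin n → ℂ) × (Fin b ⊕ Fin c → Fin b → ℂ) =>
      (Matrix.of fun i j : Fin b => x.2 (Sum.inl i) j).det ≠ 0 := by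
    refine Gen.ne (LP.det fun i j => ?_)
      ((0 : (Fin b ⊕ Fin c) ⊕ Fin e → Fin n → ℂ), Sum.elim (fun k => Pi.single k 1) 0) ?_
    · exact LP_sndC1 (Sum.inl i) j
    · have : (Matrix.of fun i j : Fin b => (Sum.elim (fun k => (Pi.single k 1 : Fin b → ℂ))
          (0 : Fin c → Fin b → ℂ)) (Sum.inl i) j) = 1 := by
        ext i j
        simp [Matrix.one_apply, Pi.single_apply, eq_comm]
      change (Matrix.of fun i j : Fin b => (Sum.elim (fun k => (Pi.single k 1 : Fin b → ℂ))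
          (0 : Fin c → Fin b → ℂ)) (Sum.inl i) j).det ≠ 0
      rw [this, Matrix.det_one]
      exact one_ne_zero
  obtain ⟨x, hx, hdet⟩ := (h1.and h2).exists
  set A : Matrix (Fin b) (Fin b) ℂ := Matrix.of fun i j : Fin b => x.2 (Sum.inl i) j with hA
  have hAB : A * A⁻¹ = 1 := Matrix.mul_nonsing_inv _ (isUnit_iff_ne_zero.2 hdet)
  refine ⟨(x.1, fun l => Matrix.vecMul (x.2 (Sum.inr l)) A⁻¹), le_trans ?_ hx⟩
  set T : (Fin b → Pol n 2) →ₗ[ℂ] (Fin b → Pol n 2) := mul A⁻¹ with hT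
  have hinj : Function.Injective T := by
    intro g g' hg
    have := congrArg (mul A) hg
    rwa [hT, mul_mul _ _ hAB, mul_mul _ _ hAB] at this
  rw [(Submodule.equivMapOfInjective T hinj _).finrank_eq]
  refine Submodule.finrank_mono ?_
  rintro f ⟨g, hg, rfl⟩
  obtain ⟨g1, g2, g3⟩ := mem_MZ.1 hg
  refine mem_TrC1.2 ⟨fun i j => ?_, ?_⟩
  · rw [hT, eval_mul]
    exact Finset.sum_eq_zero fun k _ => by rw [g1 i k, mul_zero]
  · rintro (k | l) v
    · simp only [hT, pder_mul]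
      rw [contr]
      have h3 : Matrix.vecMul (x.2 (Sum.inl k)) A⁻¹ = Pi.single k 1 := by
        have h4 : x.2 (Sum.inl k) = Matrix.vecMul (Pi.single k 1) A := by
          rw [Matrix.single_one_vecMul]
          rfl
        rw [h4, Matrix.vecMul_vecMul, hAB, Matrix.vecMul_one]
      rw [h3]
      simp only [Pi.single_apply, ite_mul, one_mul, zero_mul, Finset.sum_ite_eq', Finset.mem_univ,
        if_true]
      exact g2 k v
    · simp only [hT, pder_mul]
      rw [contr]
      exact g3 l v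

end Pool.Agent.WarC
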