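import Pool.Agent.WarC.Stmts

/-!
# A lemma of Rado type   (helper97)
-/

set_option autoImplicit false

open Module MvPolynomial
open Pool.Agent.War Pool.Agent.WarS Pool.Agent.WarQ

namespace Pool.Agent.WarC

namespace RADOaux

variable {V : Type} [AddCommGroup V] [Module ℂ V] [FiniteDimensional ℂ V]
  {Y : Type} [AddCommGroup Y] [Module ℂ Y]

/-- the common zeros of all `θ l y`, `l ∈ L` -/
def VL {c : ℕ} (W : Submodule ℂ V) (θ : Fin c → Y → V →ₗ[ℂ] ℂ) (L : Finset (Fin c)) :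
    Submodule ℂ V := W ⊓ ⨅ l ∈ L, ⨅ y, LinearMap.ker (θ l y)

omit [FiniteDimensional ℂ V] [AddCommGroup Y] [Module ℂ Y] in
theorem mem_VL {c : ℕ} {W : Submodule ℂ V} {θ : Fin c → Y → V →ₗ[ℂ] ℂ} {L : Finset (Fin c)}
    {v : V} : v ∈ VL W θ L ↔ v ∈ W ∧ ∀ l ∈ L, ∀ y, θ l y v = 0 := by
  simp [VL, Submodule.mem_iInf]

theorem step {c : ℕ} (ρ : ℕ) (W : Submodule ℂ V) (θ : Fin (c + 1) → Y → V →ₗ[ℂ] ℂ)
    (hLP : ∀ l v, LP (K := ℂ) fun y => θ l y v)
    (h : ∀ L, finrank ℂ (VL W θ L) ≤ (c + 1 - L.card) + ρ) :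
    ∃ y₀ : Y, ∀ L : Finset (Fin c),
      finrank ℂ (VL (W ⊓ LinearMap.ker (θ 0 y₀)) (fun l => θ l.succ) L) ≤ (c - L.card) + ρ := by
  classical
  set θ' : Fin c → Y → V →ₗ[ℂ] ℂ := fun l => θ l.succ with hθ'
  have hgen : ∀ L : Finset (Fin c), Gen ℂ fun y : Y =>
      (∃ y', ∃ v ∈ VL W θ' L, θ 0 y' v ≠ 0) → ∃ v ∈ VL W θ' L, θ 0 y v ≠ 0 := by
    intro L
    by_cases hL : ∃ y', ∃ v ∈ VL W θ' L, θ 0 y' v ≠ 0
    · obtain ⟨y', v, hv, hy'⟩ := hL
      exact (Gen.ne (hLP 0 v) y' hy').mono fun y hy _ => ⟨v, hv, hy⟩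
    · exact Gen.of_forall fun y hy => absurd hy hL
  obtain ⟨y₀, hy₀⟩ := (Gen.forall hgen).exists
  refine ⟨y₀, fun L => ?_⟩
  have hcard : L.card ≤ c := by
    have := Finset.card_le_univ L
    simpa using this
  by_cases hL : ∃ y', ∃ v ∈ VL W θ' L, θ 0 y' v ≠ 0
  · obtain ⟨v, hv, hv0⟩ := hy₀ L hL
    have hlt : VL (W ⊓ LinearMap.ker (θ 0 y₀)) θ' L < VL W θ' L := by
      refine lt_of_le_of_ne ?_ ?_
      · intro u hu
        rw [mem_VL] at hu ⊢
        exact ⟨hu.1.1, hu.2⟩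
      · intro he
        rw [← he, mem_VL] at hv
        exact hv0 hv.1.2
    have h1 := Submodule.finrank_lt_finrank_of_lt hlt
    have h2 := h (L.map (Fin.succEmb c))
    rw [Finset.card_map] at h2
    have h3 : VL W θ' L ≤ VL W θ (L.map (Fin.succEmb c)) := by
      intro u hu
      rw [mem_VL] at hu ⊢
      refine ⟨hu.1, fun l hl y => ?_⟩
      obtain ⟨l', hl', rfl⟩ := Finset.mem_map.1 hl
      exact hu.2 l' hl' y
    have h4 := Submodule.finrank_mono h3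
    omega
  · have h2 := h (insert 0 (L.map (Fin.succEmb c)))
    have hn : (0 : Fin (c + 1)) ∉ L.map (Fin.succEmb c) := by
      intro h0
      obtain ⟨l', _, hl'⟩ := Finset.mem_map.1 h0
      exact (Fin.succ_ne_zero l') hl'
    rw [Finset.card_insert_of_notMem hn, Finset.card_map] at h2
    have h3 : VL (W ⊓ LinearMap.ker (θ 0 y₀)) θ' L ≤
        VL W θ (insert 0 (L.map (Fin.succEmb c))) := by
      intro u hu
      have hu' : u ∈ VL W θ' L := by
        rw [mem_VL] at hu ⊢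
        exact ⟨hu.1.1, hu.2⟩
      rw [mem_VL] at hu ⊢
      refine ⟨hu.1.1, fun l hl y => ?_⟩
      rcases Finset.mem_insert.1 hl with rfl | hl
      · by_contra hne
        exact hL ⟨y, u, hu', hne⟩
      · obtain ⟨l', hl', rfl⟩ := Finset.mem_map.1 hl
        exact hu.2 l' hl' y
    have h4 := Submodule.finrank_mono h3
    omega

theorem main (ρ : ℕ) : ∀ (c : ℕ) (W : Submodule ℂ V) (θ : Fin c → Y → V →ₗ[ℂ] ℂ),
    (∀ l v, LP (K := ℂ) fun y => θ l y v) →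
    (∀ L, finrank ℂ (VL W θ L) ≤ (c - L.card) + ρ) →
    ∃ y : Fin c → Y, finrank ℂ ↥(W ⊓ ⨅ l, LinearMap.ker (θ l (y l))) ≤ ρ := by
  intro c
  induction c with
  | zero =>
    intro W θ _ h
    refine ⟨fun i => i.elim0, ?_⟩
    have h1 := h ∅
    simp only [Finset.card_empty, Nat.sub_self, zero_add] at h1
    refine (Submodule.finrank_mono ?_).trans h1
    intro u hu
    rw [mem_VL]
    exact ⟨hu.1, by simp⟩
  | succ c ih =>
    intro W θ hLP h
    obtain ⟨y₀, hy₀⟩ := step ρ W θ hLP h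
    obtain ⟨y, hy⟩ := ih (W ⊓ LinearMap.ker (θ 0 y₀)) (fun l => θ l.succ)
      (fun l v => hLP l.succ v) hy₀
    refine ⟨Fin.cons y₀ y, (Submodule.finrank_mono ?_).trans hy⟩
    intro u hu
    obtain ⟨hu1, hu2⟩ := Submodule.mem_inf.1 hu
    rw [Submodule.mem_iInf] at hu2
    refine Submodule.mem_inf.2 ⟨Submodule.mem_inf.2 ⟨hu1, ?_⟩, ?_⟩
    · have := hu2 0
      simpa using this
    · rw [Submodule.mem_iInf]
      intro l
      have := hu2 l.succ
      simpa using this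

end RADOaux

theorem x_RADO : S_RADO := by
  intro V _ _ _ Y _ _ c ρ θ hLP h
  obtain ⟨y, hy⟩ := RADOaux.main (V := V) (Y := Y) ρ c ⊤ θ hLP (fun L => by
    refine (Submodule.finrank_mono ?_).trans (h L)
    exact inf_le_right)
  have hPK : PK (K := ℂ) fun y : Fin c → Y => ⨅ l, LinearMap.ker (θ l (y l)) :=
    PK.iInf fun l => (PK.one (hLP l)).comp (LinearMap.proj l : (Fin c → Y) →ₗ[ℂ] Y)
  refine hPK.gen_finrank (x₀ := y) ?_
  rwa [top_inf_eq] at hy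

end Pool.Agent.WarC
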