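import Pool.Agent.WarC.Stmts
import Pool.Agent.WarM.AH
import Pool.Agent.WarQ.UP
import Pool.Agent.WarQ.Main

/-!
# Module SM3: cubics, small q
-/

set_option autoImplicit false

open Module MvPolynomial
open Pool.Agent.War Pool.Agent.WarS Pool.Agent.WarQ

namespace Pool.Agent.WarC

namespace SM3aux

/-- `MR` with `b D ≤ n c` is `QB` in degree two -/
theorem QB_of_MR {n D b c : ℕ} (h : b * D ≤ n * c) (hM : MR n D b c) : QB n 2 b c D := by
  obtain ⟨x, hx⟩ := hM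
  have h0 : finrank ℂ (MZ n x) = 0 := by omega
  have h1 : TrC1 n 2 (x.1, vec x.2) = ⊥ := Submodule.finrank_eq_zero.1 h0
  have h2 := (UPaux.kill_iff n 2 (x.1, vec x.2)).2 h1
  exact ⟨_, _, _, h2.reindexC1 finSumFinEquiv.symm (Equiv.refl _)⟩

theorem num1 {ν q : ℕ} (hq : q + 2 ≤ ν) : (2 * ν + 1) * q ≤ NN ν 3 := by
  have h := SMALLaux.NN_three ν
  obtain ⟨m, rfl⟩ : ∃ m, ν = m + 2 := ⟨ν - 2, by omega⟩
  have h1 : (2 * (m + 2) + 1) * q ≤ (2 * (m + 2) + 1) * m := Nat.mul_le_mul_left _ (by omega)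
  have h2 : 6 * ((2 * (m + 2) + 1) * m) ≤ (m + 2 + 1) * (m + 2 + 2) * (m + 2 + 3) := by
    have e1 : (m + 2 + 1) * (m + 2 + 2) * (m + 2 + 3) = m ^ 3 + 12 * m ^ 2 + 47 * m + 60 := by ring
    have e2 : 6 * ((2 * (m + 2) + 1) * m) = 12 * m ^ 2 + 30 * m := by ring
    rw [e1, e2]
    have : 0 ≤ m ^ 3 := Nat.zero_le _
    omega
  omega

theorem NN_two' (n : ℕ) : 2 * NN n 2 = (n + 1) * (n + 2) := by
  induction n with
  | zero => simp [NN]
  | succ m ihm =>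
    have h3 : NN (m + 1) 2 = NN m 2 + NN (m + 1) 1 := NN_succ m 1
    rw [NN_right_one] at h3
    rw [h3, Nat.mul_add, ihm]
    ring

theorem num2 (ν : ℕ) : 4 * ν + 1 ≤ NN (ν + 1) 2 := by
  have h := NN_two' (ν + 1)
  have e : (ν + 1 + 1) * (ν + 1 + 2) = ν ^ 2 + 5 * ν + 6 := by ring
  rw [e] at h
  have : 3 * ν ≤ ν ^ 2 + 4 := by nlinarith [sq_nonneg ((ν : ℤ) - 2)]
  omega

theorem num3 (ν : ℕ) : 2 * ν ≤ NN ν 2 := by
  have h := NN_two' ν
  have e : (ν + 1) * (ν + 2) = ν ^ 2 + 3 * ν + 2 := by ring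
  rw [e] at h
  have : ν ≤ ν ^ 2 := by nlinarith
  omega

end SM3aux

open SM3aux SMALLaux

theorem x_SM3 (h3 : WarQ.S_Q3) (hSB : WarQ.S_SB) (hM : S_MRA) : S_SM3 := by
  intro n b c D q hc hcb hbn h1 h2 hD hq hqD
  have hm := ceil_eq (q := q) (by omega : 0 < n) hc hbn h1 h2
  obtain ⟨q', rfl⟩ : ∃ q', q = q' + 1 := ⟨q - 1, by omega⟩
  obtain ⟨ν, rfl⟩ : ∃ ν, n = ν + 1 := ⟨n - 1, by omega⟩
  by_cases hq0 : q' = 0
  · subst hq0
    obtain ⟨z, a, y, hK⟩ := h3 (ν + 1) b c D hc hcb hbn h1 h2 (by omega)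
    refine ⟨_, _, _, hK.reindexC1 (finCongr ?_) (finCongr ?_)⟩
    · rw [hm]; omega
    · rw [hm]
      have e : (ν + 1) * (0 + 1) + D = ν + 1 + D := by ring
      have e' : b * (0 + 1) + c = b + c := by ring
      rw [e, e']
  · have hcD : c ≤ D := by
      have h5 : (ν + 1) * c < (ν + 1) * (D + 1) :=
        lt_of_lt_of_le h2 (Nat.mul_le_mul_right _ hbn)
      have := lt_of_mul_lt_mul_left h5 (Nat.zero_le _)
      omega
    have hQB : QB (ν + 1) 2 b c D := QB_of_MR h1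
      (hM (ν + 1) D b c (by omega) hD (by omega) (by omega) hbn hcb.le hcD)
    have h11 := num1 (ν := ν) (q := q') (by omega)
    have h12 := num2 ν
    have h13 := num3 ν
    have hGG : GG ν (2 + 1) q' := WarM.AH ν 3 q' (by omega) le_rfl h11
    obtain ⟨z, a, y, hK⟩ := hSB ν 2 b c D q' (by omega) (by omega) (by omega) hGG
      ((Nat.mul_le_mul_right q' (by omega : ν + b ≤ 2 * ν + 1)).trans h11)
      (by omega) (by omega) hQB
    refine ⟨_, _, _, hK.reindexC1 (finCongr ?_) (finCongr ?_)⟩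
    · rw [hm]
    · rw [hm]

end Pool.Agent.WarC
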