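import Pool.Agent.WarC.Stmts

/-!
# Simultaneous Waring decompositions, cubics: the induction step
-/

set_option autoImplicit false

open Module MvPolynomial
open Pool.Agent.War Pool.Agent.WarS Pool.Agent.WarQ

namespace Pool.Agent.WarC

namespace STEPaux

/-- the functionals of the trade lemma, on the space `MZ` -/
noncomputable def tht {ν b c e : ℕ} (x : PT ν b c e) (l : Fin c) (y : Fin ν → ℂ) :
    ↥(MZ ν x) →ₗ[ℂ] ℂ :=
  ((ev ν 2 y).comp (th (x.2 l))).comp (MZ ν x).subtype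

theorem tht_apply {ν b c e : ℕ} (x : PT ν b c e) (l : Fin c) (y : Fin ν → ℂ) (v : ↥(MZ ν x)) :
    tht x l y v = eval y ((th (x.2 l) (v : Fin b → Pol ν 2) : Pol ν 2) :
      MvPolynomial (Fin ν) ℂ) := by
  unfold tht
  rw [LinearMap.comp_apply, LinearMap.comp_apply, Submodule.subtype_apply, ev_apply]

theorem tht_LP {ν b c e : ℕ} (x : PT ν b c e) (l : Fin c) (v : ↥(MZ ν x)) :
    LP (K := ℂ) fun y => tht x l y v := by
  simp only [tht_apply]
  exact LP_eval _

theorem map_le {ν b c e : ℕ} (x : PT ν b c e) (L : Finset (Fin c)) :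
    (⨅ l ∈ L, ⨅ y, LinearMap.ker (tht x l y)).map (MZ ν x).subtype ≤ TL x L := by
  rintro _ ⟨v, hv, rfl⟩
  rw [TL, Submodule.mem_inf]
  refine ⟨v.2, ?_⟩
  rw [Submodule.mem_iInf]
  intro l
  rw [Submodule.mem_iInf]
  intro hl
  rw [LinearMap.mem_ker]
  apply Subtype.ext
  refine MvPolynomial.funext fun y => ?_
  have h1 := (Submodule.mem_iInf _).1 ((Submodule.mem_iInf _).1 hv l) hl
  have h2 := (Submodule.mem_iInf _).1 h1 y
  rw [LinearMap.mem_ker, tht_apply] at h2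
  rw [Submodule.subtype_apply, h2]
  simp

theorem map_eq {ν b c e : ℕ} (x : PT ν b c e) (y : Fin c → Fin ν → ℂ) :
    (⨅ l, LinearMap.ker (tht x l (y l))).map (MZ ν x).subtype =
      MZ ν x ⊓ ⨅ l, LinearMap.ker ((ev ν 2 (y l)).comp (th (x.2 l))) := by
  rw [← Submodule.map_comap_subtype]
  congr 1
  ext v
  simp only [Submodule.mem_iInf, Submodule.mem_comap, LinearMap.mem_ker]
  rfl

theorem finrank_map_sub {V : Type*} [AddCommGroup V] [Module ℂ V] (p : Submodule ℂ V)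
    (U : Submodule ℂ ↥p) : finrank ℂ ↥(U.map p.subtype) = finrank ℂ U :=
  (LinearEquiv.finrank_eq
    (Submodule.equivMapOfInjective p.subtype (Submodule.injective_subtype p) U)).symm

end STEPaux

open STEPaux in
theorem x_STEP (hR : S_RADO) (hG : S_GEN) (hT : S_TRD) (h1 : S_TL1) (h0 : S_TL0) : S_STEP := by
  intro ν D b c hD hDν hc hcb hcD hbν hcν hN hMR
  have g0 := h0 ν D b c hD hDν hc hcb hcD hbν hN hMR
  have g1 : ∀ L : Finset (Fin c), Gen ℂ fun x : PT ν b c (NN ν 2 - (ν + D) - (b + c)) =>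
      L.Nonempty → finrank ℂ (TL x L) ≤ (c - L.card) + (b * D - (ν + 1) * c) := by
    intro L
    by_cases hL : L.Nonempty
    · exact (h1 ν D b c hD hDν hc hcb hbν hN hMR L hL).mono fun x hx _ => hx
    · exact Gen.of_forall fun x h => absurd h hL
  obtain ⟨x, hx0, hx1, hx2⟩ :=
    (g0.and ((Gen.forall g1).and (hG ν b c (NN ν 2 - (ν + D) - (b + c)) hcν))).exists
  have hrado := hR ↥(MZ ν x) (Fin ν → ℂ) c (b * D - (ν + 1) * c) (tht x) (tht_LP x) (by
    intro L
    rcases L.eq_empty_or_nonempty with hL | hL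
    · rw [hL, Finset.card_empty, Nat.sub_zero]
      exact (Submodule.finrank_le _).trans hx0
    · rw [← finrank_map_sub]
      exact (Submodule.finrank_mono (map_le x L)).trans (hx1 L hL))
  have hfst : Function.Surjective (LinearMap.fst ℂ (Fin c → Fin ν → ℂ)
      (Fin (ν + 1 - 2 * c) → Fin (ν + 1) → ℂ)) := fun y => ⟨(y, 0), rfl⟩
  obtain ⟨q, hq1, hq2⟩ := ((hrado.comp _ hfst).and hx2).exists
  have hfin : finrank ℂ ↥(MZ ν x ⊓
      ⨅ l, LinearMap.ker ((ev ν 2 (q.1 l)).comp (th (x.2 l)))) ≤ b * D - (ν + 1) * c := by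
    rw [← map_eq, finrank_map_sub]
    exact hq1
  obtain ⟨x', hx'⟩ := hT ν b c _ _ hcν x q hq2 hfin
  have he : NN (ν + 1) 2 - (ν + 1 + D) - (b + c) = NN ν 2 - (ν + D) - (b + c) + (ν + 1) := by
    have e1 : NN (ν + 1) 2 = NN ν 2 + NN (ν + 1) 1 := NN_succ ν 1
    have e2 := NN_right_one (ν + 1)
    omega
  unfold MR
  rw [he]
  exact ⟨x', hx'⟩

end Pool.Agent.WarC
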