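import Pool.Agent.WarC.Stmts
import Pool.Agent.WarS.SG
import Pool.Agent.WarM.ONE

/-!
# Simultaneous Waring decompositions (MP_db021c_ag): module TL0   (helper46)

Dimension of `MZ` on the hyperplane.
-/

set_option autoImplicit false

open Module MvPolynomial
open Pool.Agent.War Pool.Agent.WarS Pool.Agent.WarQ

namespace Pool.Agent.WarC

namespace TL0aux

/-- index map: the last pure point becomes the first simple point -/
def phi {ν c e : ℕ} : (Fin ν ⊕ Fin c) ⊕ Fin (e + 1) → (Fin (ν + 1) ⊕ Fin c) ⊕ Fin e :=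
  Sum.elim (Sum.elim (fun k => Sum.inl (Sum.inl k.castSucc)) fun l => Sum.inl (Sum.inr l))
    (Fin.cases (Sum.inl (Sum.inl (Fin.last ν))) fun i => Sum.inr i)

def psi {ν c e : ℕ} : (Fin (ν + 1) ⊕ Fin c) ⊕ Fin e → (Fin ν ⊕ Fin c) ⊕ Fin (e + 1) :=
  Sum.elim (Sum.elim (Fin.lastCases (Sum.inr 0) fun k => Sum.inl (Sum.inl k))
    fun l => Sum.inl (Sum.inr l)) fun i => Sum.inr i.succ

theorem psi_phi {ν c e : ℕ} (i : (Fin ν ⊕ Fin c) ⊕ Fin (e + 1)) : psi (phi i) = i := by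
  rcases i with (k | l) | i
  · simp [phi, psi]
  · simp [phi, psi]
  · refine Fin.cases ?_ (fun i => ?_) i
    · simp [phi, psi]
    · simp [phi, psi]

/-- truncation of the configuration -/
noncomputable def trc (ν c e : ℕ) : PT ν (ν + 1) c e →ₗ[ℂ] PT ν ν c (e + 1) where
  toFun x := (fun i => x.1 (phi i), fun l k => x.2 l k.castSucc)
  map_add' _ _ := rfl
  map_smul' _ _ := rfl

theorem trc_surj (ν c e : ℕ) : Function.Surjective (trc ν c e) := by
  intro x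
  refine ⟨(fun i => x.1 (psi i), fun l => Fin.snoc (x.2 l) 0), ?_⟩
  refine Prod.ext ?_ ?_
  · funext i
    change x.1 (psi (phi i)) = x.1 i
    rw [psi_phi]
  · funext l k
    change (Fin.snoc (x.2 l) 0 : Fin (ν + 1) → ℂ) k.castSucc = x.2 l k
    exact Fin.snoc_castSucc _ _ _

/-- restriction of the tuples to the first coordinates -/
noncomputable def rst (ν : ℕ) : (Fin (ν + 1) → Pol ν 2) →ₗ[ℂ] (Fin ν → Pol ν 2) :=
  LinearMap.pi fun k => LinearMap.proj k.castSucc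

theorem main (ν c e D r : ℕ) (hν : 1 ≤ ν)
    (hD : NN ν 2 - (ν * 1 + ((ν + 1 + c) + e)) ≤ D)
    (hx : ∃ x : PT ν ν c (e + 1), finrank ℂ (MZ ν x) ≤ r) :
    ∃ x : PT ν (ν + 1) c e, finrank ℂ (MZ ν x) ≤ D + r := by
  classical
  obtain ⟨x₀, hx₀⟩ := hx
  have hA := ((PK_MZ ν).gen_finrank (x₀ := x₀) hx₀).comp (trc ν c e) (trc_surj ν c e)
  have hB0 := SG ν 2 ((Fin (ν + 1) ⊕ Fin c) ⊕ Fin e)
    {Sum.inl (Sum.inl (Fin.last ν))} hν (by
      rw [Finset.card_singleton]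
      exact WarM.ONE ν 2 (by norm_num))
  have hB := hB0.comp (LinearMap.fst ℂ ((Fin (ν + 1) ⊕ Fin c) ⊕ Fin e → Fin ν → ℂ)
    (Fin c → Fin (ν + 1) → ℂ)) LinearMap.fst_surjective
  obtain ⟨x, hxA, hxB⟩ := (hA.and hB).exists
  refine ⟨x, ?_⟩
  have hxB' : finrank ℂ (Dbl ν 2 {Sum.inl (Sum.inl (Fin.last ν))} x.1) ≤ D := by
    refine le_trans hxB ?_
    rw [Finset.card_singleton]
    simpa using hD
  set ρ : (Fin (ν + 1) → Pol ν 2) →ₗ[ℂ] Pol ν 2 := LinearMap.proj (Fin.last ν) with hρ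
  have h1 := finrank_le_map_add_ker ρ (MZ ν x)
  have h2 : (MZ ν x).map ρ ≤ Dbl ν 2 {Sum.inl (Sum.inl (Fin.last ν))} x.1 := by
    rintro _ ⟨f, hf, rfl⟩
    rw [SetLike.mem_coe, mem_MZ] at hf
    rw [mem_Dbl]
    refine ⟨fun i => hf.1 i _, fun i hi k => ?_⟩
    rw [Finset.mem_singleton] at hi
    subst hi
    exact hf.2.1 _ k
  have h3 := (Submodule.finrank_mono h2).trans hxB'
  set W : Submodule ℂ (Fin (ν + 1) → Pol ν 2) := MZ ν x ⊓ LinearMap.ker ρ with hW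
  have h4 := finrank_le_map_add_ker (rst ν) W
  have h5 : W ⊓ LinearMap.ker (rst ν) = ⊥ := by
    rw [eq_bot_iff]
    rintro f ⟨hf1, hf2⟩
    rw [Submodule.mem_bot]
    have e1 : f (Fin.last ν) = 0 := hf1.2
    rw [SetLike.mem_coe, LinearMap.mem_ker] at hf2
    funext k
    refine Fin.lastCases e1 (fun k => ?_) k
    exact congrFun hf2 k
  have h6 : W.map (rst ν) ≤ MZ ν (trc ν c e x) := by
    rintro _ ⟨f, hf, rfl⟩
    obtain ⟨hf1, hf2⟩ := hf
    have e1 : f (Fin.last ν) = 0 := hf2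
    rw [SetLike.mem_coe, mem_MZ] at hf1
    rw [mem_MZ]
    refine ⟨fun i j => hf1.1 _ _, fun k v => hf1.2.1 _ v, fun l v => ?_⟩
    have e2 := hf1.2.2 l v
    rw [Fin.sum_univ_castSucc, e1] at e2
    have e3 : ∑ i : Fin ν, x.2 l i.castSucc * eval (x.1 (Sum.inl (Sum.inr l)))
        (pderiv v (f i.castSucc : MvPolynomial (Fin ν) ℂ)) = 0 := by simpa using e2
    exact e3
  have h7 := (Submodule.finrank_mono h6).trans hxA
  rw [h5, finrank_bot] at h4
  omega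

end TL0aux

theorem x_TL0 : S_TL0 := by
  intro ν D b c hD hDν hc hcb hcD hb hN hMR
  rcases Nat.lt_or_ge b (ν + 1) with hb' | hb'
  · obtain ⟨x, hx⟩ := hMR b c (by omega) (by omega) hcb le_rfl
    refine (PK_MZ ν).gen_finrank (x₀ := x) (hx.trans ?_)
    have : (ν + 1) * c = ν * c + c := by ring
    omega
  · obtain rfl : b = ν + 1 := le_antisymm hb hb'
    have h := hMR ν c (by omega) le_rfl (by omega) le_rfl
    unfold MR at h
    have he : NN ν 2 - (ν + D) - (ν + c) = (NN ν 2 - (ν + D) - (ν + 1 + c)) + 1 := by omega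
    rw [he] at h
    obtain ⟨x, hx⟩ := TL0aux.main ν c (NN ν 2 - (ν + D) - (ν + 1 + c)) D (ν * D - ν * c)
      (by omega) (by omega) h
    refine (PK_MZ ν).gen_finrank (x₀ := x) (hx.trans ?_)
    obtain ⟨k, rfl⟩ : ∃ k, D = c + k := ⟨D - c, by omega⟩
    have e1 : ν * (c + k) = ν * c + ν * k := by ring
    have e2 : (ν + 1) * (c + k) = (ν + 1) * c + (ν * k + k) := by ring
    rw [e1, e2]
    omega

end Pool.Agent.WarC
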