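import Pool.Agent.WarC.Stmts

/-!
# Simultaneous Waring decompositions (MP_db021c_ag): dimension of `TL`   (helper15)
-/

set_option autoImplicit false

open Module MvPolynomial
open Pool.Agent.War Pool.Agent.WarS Pool.Agent.WarQ

namespace Pool.Agent.WarC

namespace TL1aux

/-- `TL` is cut out by functionals depending polynomially on the parameter -/
theorem PK_TL (ν : ℕ) {b c e : ℕ} (L : Finset (Fin c)) :
    PK (K := ℂ) fun x : PT ν b c e => TL x L := by
  classical
  unfold TL
  refine (PK_MZ ν).inf ?_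
  have h1 : PK (K := ℂ) fun x : PT ν b c e =>
      ⨅ l : {l : Fin c // l ∈ L}, LinearMap.ker (th (ν := ν) (x.2 l.1)) := by
    refine PK.iInf fun l => ?_
    let B := Module.finBasis ℂ (Pol ν 2)
    refine ⟨Fin (finrank ℂ (Pol ν 2)), inferInstance,
      fun i x => (B.coord i).comp (th (x.2 l.1)), fun i v => ?_, fun x v => ?_⟩
    · have e1 : ∀ x : PT ν b c e, (B.coord i).comp (th (x.2 l.1)) v =
          ∑ k, x.2 l.1 k * B.coord i (v k) := by
        intro x
        unfold th
        rw [LinearMap.comp_apply, LinearMap.sum_apply, map_sum]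
        refine Finset.sum_congr rfl fun k _ => ?_
        rw [LinearMap.smul_apply, LinearMap.proj_apply, map_smul, smul_eq_mul]
      simp only [e1]
      refine LP.sum _ fun k _ => ?_
      refine LP.mul ?_ (LP.const _)
      exact LP.linear ((LinearMap.proj k : (Fin b → ℂ) →ₗ[ℂ] ℂ).comp
        ((LinearMap.proj l.1 : (Fin c → Fin b → ℂ) →ₗ[ℂ] (Fin b → ℂ)).comp
          (LinearMap.snd ℂ ((Fin b ⊕ Fin c) ⊕ Fin e → Fin ν → ℂ) (Fin c → Fin b → ℂ))))
    · rw [LinearMap.mem_ker]
      constructor
      · intro h i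
        rw [LinearMap.comp_apply, h, map_zero]
      · intro h
        refine B.ext_elem fun i => ?_
        rw [map_zero, Finsupp.zero_apply]
        exact h i
  refine h1.congr fun x => ?_
  rw [iInf_subtype]

theorem mem_TL {ν b c e : ℕ} {x : PT ν b c e} {L : Finset (Fin c)} {t : Fin b → Pol ν 2} :
    t ∈ TL x L ↔ t ∈ MZ ν x ∧ ∀ l ∈ L, th (x.2 l) t = 0 := by
  unfold TL
  simp only [Submodule.mem_inf, Submodule.mem_iInf, LinearMap.mem_ker]

/-- trivial case without forms -/
theorem MZ_zero (ν : ℕ) {c e : ℕ} (x : PT ν 0 c e) : finrank ℂ (MZ ν x) ≤ 0 := by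
  have : finrank ℂ (Fin 0 → Pol ν 2) = 0 := by
    rw [Module.finrank_pi_fintype]
    simp
  exact (Submodule.finrank_le _).trans this.le

theorem th_append {ν r j : ℕ} (α : Fin r → ℂ) (β : Fin j → ℂ) (t : Fin (r + j) → Pol ν 2) :
    th (Fin.append α β) t =
      ∑ k, α k • t (Fin.castAdd j k) + ∑ k, β k • t (Fin.natAdd r k) := by
  unfold th
  rw [LinearMap.sum_apply, Fin.sum_univ_add]
  congr 1
  · refine Finset.sum_congr rfl fun k _ => ?_
    rw [LinearMap.smul_apply, LinearMap.proj_apply, Fin.append_left]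
  · refine Finset.sum_congr rfl fun k _ => ?_
    rw [LinearMap.smul_apply, LinearMap.proj_apply, Fin.append_right]

/-- one configuration -/
theorem exists_TL (ν r c c' e e' : ℕ) (L : Finset (Fin c)) (hc' : c' ≤ c)
    (hcard : (r + L.card + c) + e = (r + c') + e') (x' : PT ν r c' e') :
    ∃ x : PT ν (r + L.card) c e, finrank ℂ (TL x L) ≤ finrank ℂ (MZ ν x') := by
  classical
  set j := L.card with hj
  have hjc : j ≤ c := by
    have := Finset.card_le_univ L
    rwa [Fintype.card_fin] at this
  -- the set of the mixed conditions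
  let M := Fin j ⊕ {l : Fin c // l ∉ L}
  have hM : Fintype.card M = c := by
    simp only [M, Fintype.card_sum, Fintype.card_fin]
    have : Fintype.card {l : Fin c // l ∉ L} = c - j := by
      rw [Fintype.card_subtype_compl, Fintype.card_fin]
      simp [hj]
    omega
  obtain ⟨ι⟩ : Nonempty (Fin c' ↪ M) := by
    apply Function.Embedding.nonempty_of_card_le
    rw [hM, Fintype.card_fin]
    exact hc'
  let σ : {l // l ∈ L} ≃ Fin j := L.equivFin
  let pt' : M → (Fin (r + j) ⊕ Fin c) ⊕ Fin e :=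
    Sum.elim (fun s => Sum.inl (Sum.inl (Fin.natAdd r s))) (fun l => Sum.inl (Sum.inr l.1))
  have hpt' : Function.Injective pt' := by
    rintro (s | l) (s' | l') h
    · simp only [pt', Sum.elim_inl, Sum.inl.injEq] at h
      exact congrArg Sum.inl (Fin.natAdd_injective _ _ h)
    · simp [pt'] at h
    · simp [pt'] at h
    · simp only [pt', Sum.elim_inr, Sum.inl.injEq, Sum.inr.injEq] at h
      exact congrArg Sum.inr (Subtype.ext h)
  have hpt'c : ∀ (m : M) (k : Fin r), pt' m ≠ Sum.inl (Sum.inl (Fin.castAdd j k)) := by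
    rintro (s | l) k h
    · simp only [pt', Sum.elim_inl, Sum.inl.injEq] at h
      have := congrArg Fin.val h
      simp only [Fin.val_natAdd, Fin.val_castAdd] at this
      omega
    · simp [pt'] at h
  -- the matching of the points
  let g : (Fin r ⊕ Fin c') ⊕ Fin e' → (Fin (r + j) ⊕ Fin c) ⊕ Fin e :=
    Sum.elim (Sum.elim (fun k => Sum.inl (Sum.inl (Fin.castAdd j k))) (fun i => pt' (ι i)))
      (fun _ => if h : 0 < r + j then Sum.inl (Sum.inl ⟨0, h⟩) else
        if h' : 0 < c then Sum.inl (Sum.inr ⟨0, h'⟩) else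
        if h'' : 0 < e then Sum.inr ⟨0, h''⟩ else by
          exfalso
          have : 0 < e' := Fin.pos ‹_›
          omega)
  have hginj : Set.InjOn g ((Finset.univ.filter fun i => i.isLeft = true :
      Finset ((Fin r ⊕ Fin c') ⊕ Fin e'))) := by
    rintro ((k | i) | u) hu ((k' | i') | u') hu' h
    · simp only [g, Sum.elim_inl, Sum.inl.injEq] at h
      rw [Fin.castAdd_injective _ _ h]
    · simp only [g, Sum.elim_inl, Sum.elim_inr] at h
      exact absurd h.symm (hpt'c _ _)
    · simp at hu'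
    · simp only [g, Sum.elim_inl, Sum.elim_inr] at h
      exact absurd h (hpt'c _ _)
    · simp only [g, Sum.elim_inl, Sum.elim_inr] at h
      rw [ι.injective (hpt' h)]
    · simp at hu'
    · simp at hu
    · simp at hu
    · simp at hu
  have hcd : Fintype.card ((Fin r ⊕ Fin c') ⊕ Fin e') =
      (Finset.univ : Finset ((Fin (r + j) ⊕ Fin c) ⊕ Fin e)).card := by
    rw [Finset.card_univ]
    simp only [Fintype.card_sum, Fintype.card_fin]
    omega
  obtain ⟨E0, hE0⟩ := Finset.exists_equiv_extend_of_card_eq hcd (Finset.subset_univ _) hginj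
  let E : (Fin r ⊕ Fin c') ⊕ Fin e' ≃ (Fin (r + j) ⊕ Fin c) ⊕ Fin e :=
    E0.trans (Equiv.subtypeUnivEquiv fun _ => Finset.mem_univ _)
  have hE1 : ∀ k : Fin r, E (Sum.inl (Sum.inl k)) = Sum.inl (Sum.inl (Fin.castAdd j k)) :=
    fun k => hE0 (Sum.inl (Sum.inl k)) (by simp)
  have hE2 : ∀ i : Fin c', E (Sum.inl (Sum.inr i)) = pt' (ι i) :=
    fun i => hE0 (Sum.inl (Sum.inr i)) (by simp)
  let α : M → Fin r → ℂ := Function.extend ι x'.2 0
  have hα : ∀ i, α (ι i) = x'.2 i := fun i => ι.injective.extend_apply _ _ _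
  let a : Fin c → Fin (r + j) → ℂ := fun l =>
    if h : l ∈ L then Fin.append (α (Sum.inl (σ ⟨l, h⟩))) (Pi.single (σ ⟨l, h⟩) 1)
      else Fin.append (α (Sum.inr ⟨l, h⟩)) 0
  have ha1 : ∀ s : Fin j, a (σ.symm s).1 = Fin.append (α (Sum.inl s)) (Pi.single s 1) := by
    intro s
    simp only [a]
    rw [dif_pos (σ.symm s).2]
    simp
  have ha2 : ∀ l : {l : Fin c // l ∉ L}, a l.1 = Fin.append (α (Sum.inr l)) 0 := by
    intro l
    simp only [a]
    rw [dif_neg l.2]
  refine ⟨(fun i => x'.1 (E.symm i), a), ?_⟩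
  set x : PT ν (r + j) c e := (fun i => x'.1 (E.symm i), a) with hx
  have hx1 : ∀ i', x.1 (E i') = x'.1 i' := fun i' => by simp [hx]
  have hx2 : ∀ l, x.2 l = a l := fun _ => rfl
  -- relation for the last forms
  have hrel : ∀ t ∈ TL x L, ∀ s : Fin j,
      ∑ k, α (Sum.inl s) k • t (Fin.castAdd j k) + t (Fin.natAdd r s) = 0 := by
    intro t ht s
    have h1 := (mem_TL.1 ht).2 (σ.symm s).1 (σ.symm s).2
    rw [hx2, ha1, th_append] at h1
    have h2 : ∑ k, (Pi.single s (1 : ℂ) : Fin j → ℂ) k • t (Fin.natAdd r k) =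
        t (Fin.natAdd r s) := by
      rw [Finset.sum_eq_single s]
      · rw [Pi.single_eq_same, one_smul]
      · intro k _ hk
        rw [Pi.single_eq_of_ne hk, zero_smul]
      · intro h
        exact absurd (Finset.mem_univ _) h
    rw [h2] at h1
    exact h1
  let R : (Fin (r + j) → Pol ν 2) →ₗ[ℂ] (Fin r → Pol ν 2) :=
    LinearMap.funLeft ℂ (Pol ν 2) (Fin.castAdd j)
  have hR : ∀ t k, R t k = t (Fin.castAdd j k) := fun _ _ => rfl
  have hmap : ∀ t ∈ TL x L, R t ∈ MZ ν x' := by
    intro t ht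
    obtain ⟨h1, h2, h3⟩ := mem_MZ.1 (mem_TL.1 ht).1
    refine mem_MZ.2 ⟨fun i' k => ?_, fun k v => ?_, fun i v => ?_⟩
    · have := h1 (E i') (Fin.castAdd j k)
      rwa [hx1] at this
    · have := h2 (Fin.castAdd j k) v
      rwa [← hE1, hx1] at this
    · rcases hm : ι i with s | l
      · have hE : E (Sum.inl (Sum.inr i)) = Sum.inl (Sum.inl (Fin.natAdd r s)) := by
          rw [hE2, hm]; rfl
        have k1 := h2 (Fin.natAdd r s) v
        rw [← hE, hx1] at k1
        have k2 := hrel t ht s
        rw [← hm, hα] at k2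
        have k3 : (∑ k, C (x'.2 i k) * (t (Fin.castAdd j k) : MvPolynomial (Fin ν) ℂ)) +
            (t (Fin.natAdd r s) : MvPolynomial (Fin ν) ℂ) = 0 := by
          have := congrArg Subtype.val k2
          rw [Submodule.coe_add, Submodule.coe_sum] at this
          simpa [smul_eq_C_mul] using this
        have k4 := congrArg (fun f => eval (x'.1 (Sum.inl (Sum.inr i))) (pderiv v f)) k3
        simp only [map_add, map_sum, map_zero, k1, add_zero, pderiv_C_mul, map_mul, eval_C]
          at k4
        simpa [hR] using k4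
      · have hE : E (Sum.inl (Sum.inr i)) = Sum.inl (Sum.inr l.1) := by
          rw [hE2, hm]; rfl
        have k1 := h3 l.1 v
        rw [← hE, hx1, hx2, ha2, Fin.sum_univ_add] at k1
        simp only [Fin.append_left, Fin.append_right, Pi.zero_apply, zero_mul,
          Finset.sum_const_zero, add_zero] at k1
        rw [← hm, hα] at k1
        simpa [hR] using k1
  have hinj : ∀ t ∈ TL x L, R t = 0 → t = 0 := by
    intro t ht h0
    have h1 : ∀ k, t (Fin.castAdd j k) = 0 := fun k => congrFun h0 k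
    funext m
    refine Fin.addCases (fun k => h1 k) (fun s => ?_) m
    have := hrel t ht s
    simpa [h1] using this
  let F : TL x L →ₗ[ℂ] MZ ν x' := (R.comp (TL x L).subtype).codRestrict (MZ ν x')
    fun t => hmap t.1 t.2
  refine LinearMap.finrank_le_finrank_of_injective (f := F) ?_
  intro t t' h
  have h1 : R t.1 = R t'.1 := congrArg Subtype.val h
  have h2 := hinj (t.1 - t'.1) (Submodule.sub_mem _ t.2 t'.2) (by rw [map_sub, h1, sub_self])
  exact Subtype.ext (sub_eq_zero.1 h2)

end TL1aux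

open TL1aux

theorem x_TL1 : S_TL1 := by
  intro ν D b c hD hDν hc hcb hbν hN hMR L hL
  have hj1 : 1 ≤ L.card := hL.card_pos
  have hjc : L.card ≤ c := by
    have := Finset.card_le_univ L
    rwa [Fintype.card_fin] at this
  obtain ⟨r, rfl⟩ : ∃ r, b = r + L.card := ⟨b - L.card, by omega⟩
  have hr : r ≤ ν := by omega
  obtain ⟨x', hx'⟩ : ∃ x' : PT ν r (min c r) (NN ν 2 - (ν + D) - (r + min c r)),
      finrank ℂ (MZ ν x') ≤ r * D - ν * min c r := by
    rcases Nat.eq_zero_or_pos r with h0 | h0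
    · subst h0
      exact ⟨0, (MZ_zero ν _).trans (Nat.zero_le _)⟩
    · exact hMR r (min c r) h0 hr (min_le_right _ _) (min_le_left _ _)
  obtain ⟨x, hx⟩ := exists_TL ν r c (min c r) (NN ν 2 - (ν + D) - (r + L.card + c))
    (NN ν 2 - (ν + D) - (r + min c r)) L (min_le_left _ _) (by
      have : min c r ≤ c := min_le_left _ _
      omega) x'
  refine (PK_TL ν L).gen_finrank (x₀ := x) ((hx.trans hx').trans ?_)
  rcases le_total c r with h | h
  · rw [min_eq_left h]
    have e1 : (r + L.card) * D = r * D + L.card * D := by ring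
    have e2 : (ν + 1) * c = ν * c + c := by ring
    have e3 : L.card ≤ L.card * D := Nat.le_mul_of_pos_right _ hD
    omega
  · rw [min_eq_right h]
    have e1 : r * D ≤ ν * r := by
      rw [mul_comm ν r]
      exact Nat.mul_le_mul_left _ hDν
    omega

end Pool.Agent.WarC
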