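import Pool.Agent.WarC.Stmts
import Pool.Agent.War.Hor

/-!
# Simultaneous Waring decompositions (MP_db021c_ag): the trade lemma   (helper50)
-/

set_option autoImplicit false

open Module MvPolynomial
open Pool.Agent.War Pool.Agent.WarS Pool.Agent.WarQ

namespace Pool.Agent.WarC

namespace TRDaux

/-- polynomials of degree `≤ 1` are affine -/
theorem eval_aff {σ : Type} [Fintype σ] (g : MvPolynomial σ ℂ) (hg : g.totalDegree ≤ 1)
    (u v w : σ → ℂ) : eval (u + (v - w)) g = eval u g + eval v g - eval w g := by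
  classical
  have key : ∀ m ∈ g.support, ∏ i, ((u + (v - w)) i) ^ m i =
      ∏ i, u i ^ m i + ∏ i, v i ^ m i - ∏ i, w i ^ m i := by
    intro m hm
    have h1 : (m.sum fun _ e => e) ≤ 1 := (le_totalDegree hm).trans hg
    rcases Nat.lt_or_ge (m.sum fun _ e => e) 1 with h | h
    · have h0 : m = 0 := by
        ext i
        by_contra hi
        have hi0 : m i ≠ 0 := hi
        have hi' : i ∈ m.support := Finsupp.mem_support_iff.2 hi0
        have h2 := Finset.single_le_sum (f := fun i => m i) (fun _ _ => Nat.zero_le _) hi'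
        have h3 : (m.sum fun _ e => e) = ∑ x ∈ m.support, m x := rfl
        omega
      simp [h0]
    · obtain ⟨a, rfl⟩ := (Finsupp.sum_eq_one_iff m).1 (le_antisymm h1 h)
      have h2 : ∀ z : σ → ℂ, ∏ i, z i ^ (Finsupp.single a 1 : σ →₀ ℕ) i = z a := by
        intro z
        rw [Finset.prod_eq_single a]
        · simp
        · intro c _ hc
          simp [hc.symm]
        · simp
      rw [h2, h2, h2, h2]
      simp only [Pi.add_apply, Pi.sub_apply]
      ring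
  rw [eval_eq', eval_eq', eval_eq', eval_eq', ← Finset.sum_add_distrib,
    ← Finset.sum_sub_distrib]
  refine Finset.sum_congr rfl fun m hm => ?_
  rw [key m hm]
  ring

/-- extension by `0` of the dependence on `x_0` -/
noncomputable def lift (ν : ℕ) : Pol ν 2 →ₗ[ℂ] Pol (ν + 1) 2 :=
  (rename Fin.succ : MvPolynomial (Fin ν) ℂ →ₐ[ℂ] MvPolynomial (Fin (ν + 1)) ℂ).toLinearMap.restrict
    fun _ hf => mem_Pol.2 ((totalDegree_rename_le _ _).trans (mem_Pol.1 hf))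

theorem lift_coe (ν : ℕ) (f : Pol ν 2) : ((lift ν f : Pol (ν + 1) 2) :
    MvPolynomial (Fin (ν + 1)) ℂ) = rename Fin.succ (f : MvPolynomial (Fin ν) ℂ) := rfl

theorem eval_lift (ν : ℕ) (f : Pol ν 2) (P : Fin (ν + 1) → ℂ) :
    eval P (lift ν f : MvPolynomial (Fin (ν + 1)) ℂ) =
      eval (fun i => P i.succ) (f : MvPolynomial (Fin ν) ℂ) := by
  rw [lift_coe, eval_rename]
  rfl

theorem res_lift (ν : ℕ) (f : Pol ν 2) :
    res ν (lift ν f : MvPolynomial (Fin (ν + 1)) ℂ) = f := by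
  rw [lift_coe, res, aeval_rename]
  have e : ((Fin.cons 0 X : Fin (ν + 1) → MvPolynomial (Fin ν) ℂ) ∘ Fin.succ) = X := by
    funext i
    simp
  rw [e, aeval_X_left, AlgHom.id_apply]

theorem pderiv_zero_rename {ν : ℕ} (f : MvPolynomial (Fin ν) ℂ) :
    pderiv 0 (rename Fin.succ f : MvPolynomial (Fin (ν + 1)) ℂ) = 0 := by
  induction f using MvPolynomial.induction_on with
  | C a => simp
  | add p q hp hq => rw [map_add, map_add, hp, hq, add_zero]
  | mul_X p k hp =>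
    rw [map_mul, rename_X, Derivation.leibniz, hp, pderiv_X_of_ne (Fin.succ_ne_zero k)]
    simp

section

variable {ν b c e : ℕ}

/-- the space of the pairs `(t, g)` -/
abbrev VV (ν b : ℕ) : Type := (Fin b → Pol ν 2) × (Fin b → Pol (ν + 1) 1)

noncomputable def E0 (k : Fin b) (p : Fin ν → ℂ) : VV ν b →ₗ[ℂ] ℂ :=
  (ev ν 2 p).comp ((LinearMap.proj k).comp (LinearMap.fst ℂ _ _))

noncomputable def E1 (k : Fin b) (p : Fin (ν + 1) → ℂ) : VV ν b →ₗ[ℂ] ℂ :=
  (ev (ν + 1) 1 p).comp ((LinearMap.proj k).comp (LinearMap.snd ℂ _ _))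

theorem E0_apply (k : Fin b) (p : Fin ν → ℂ) (v : VV ν b) :
    E0 k p v = eval p (v.1 k : MvPolynomial (Fin ν) ℂ) := ev_apply _ _

theorem E1_apply (k : Fin b) (p : Fin (ν + 1) → ℂ) (v : VV ν b) :
    E1 k p v = eval p (v.2 k : MvPolynomial (Fin (ν + 1)) ℂ) := ev_apply _ _

/-- the index `0` of the points `w` -/
def i0 (h : 2 * c ≤ ν) : Fin (ν + 1 - 2 * c) := ⟨0, by omega⟩

/-- the points `w_i` and `w_0 + hp (Q_l - y_l)` -/
def pw (h : 2 * c ≤ ν) (x : PT ν b c e) (q : WY ν c) :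
    Fin (ν + 1 - 2 * c) ⊕ Fin c → Fin (ν + 1) → ℂ :=
  Sum.elim q.2 fun l => q.2 (i0 h) + (hp (x.1 (Sum.inl (Sum.inr l))) - hp (q.1 l))

/-- the conditions (1), (2), (3) -/
noncomputable def ph (h : 2 * c ≤ ν) (x : PT ν b c e) (q : WY ν c) :
    (Fin b ⊕ Fin c) ⊕ (((Fin (ν + 1 - 2 * c) ⊕ Fin c) × Fin b) ⊕ (Fin c × Fin b)) → ℂ →
      VV ν b →ₗ[ℂ] ℂ :=
  Sum.elim
    (Sum.elim (fun k _ => E1 k (hp (x.1 (Sum.inl (Sum.inl k)))))
      (fun l _ => ∑ k, x.2 l k • E1 k (hp (x.1 (Sum.inl (Sum.inr l))))))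
    (Sum.elim
      (fun p ε => ε • E0 p.2 (fun i => pw h x q p.1 i.succ) + pw h x q p.1 0 • E1 p.2 (pw h x q p.1))
      (fun p ε => E0 p.2 (q.1 p.1) + E1 p.2 (Fin.cons ε (q.1 p.1))))

/-- the space of the pairs with the conditions -/
noncomputable def ZZ (h : 2 * c ≤ ν) (x : PT ν b c e) (q : WY ν c) (ε : ℂ) :
    Submodule ℂ (VV ν b) :=
  (MZ ν x).comap (LinearMap.fst ℂ (Fin b → Pol ν 2) (Fin b → Pol (ν + 1) 1)) ⊓
    ⨅ i, LinearMap.ker (ph h x q i ε)

theorem LP_id : LP (K := ℂ) fun ε : ℂ => ε := by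
  have := LP.linear (K := ℂ) (X := ℂ) LinearMap.id
  exact this

theorem pk (h : 2 * c ≤ ν) (x : PT ν b c e) (q : WY ν c) :
    PK (K := ℂ) fun ε : ℂ => ZZ h x q ε := by
  refine PK.inf ?_ (PK.iInf fun i => PK.one fun v => ?_)
  · have h1 : PK (K := ℂ) fun _ : ℂ => MZ ν x := by
      refine ((PK_MZ ν (b := b) (c := c) (e := e)).comp_affine (0 : ℂ →ₗ[ℂ] PT ν b c e) x).congr
        fun ε => ?_
      rw [LinearMap.zero_apply, zero_add]
    exact h1.comap _
  · rcases i with (k | l) | (p | p)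
    · exact LP.const (K := ℂ) (X := ℂ) (E1 k (hp (x.1 (Sum.inl (Sum.inl k)))) v)
    · exact LP.const (K := ℂ) (X := ℂ)
        ((∑ k, x.2 l k • E1 k (hp (x.1 (Sum.inl (Sum.inr l))))) v)
    · have e1 : ∀ ε : ℂ, ph h x q (Sum.inr (Sum.inl p)) ε v =
          ε * E0 p.2 (fun i => pw h x q p.1 i.succ) v +
            pw h x q p.1 0 * E1 p.2 (pw h x q p.1) v := fun ε => rfl
      simp only [e1]
      exact (LP_id.mul (LP.const _)).add (LP.const _)
    · have e1 : ∀ ε : ℂ, ph h x q (Sum.inr (Sum.inr p)) ε v =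
          E0 p.2 (q.1 p.1) v + eval (fun k => (Fin.cons ε (q.1 p.1) : Fin (ν + 1) → ℂ) k)
            (v.2 p.2 : MvPolynomial (Fin (ν + 1)) ℂ) := fun ε => by
        rw [← E1_apply]
        rfl
      simp only [e1]
      refine (LP.const _).add (LP.eval _ fun k => ?_)
      refine Fin.cases ?_ (fun j => ?_) k
      · simpa using LP_id
      · simpa using LP.const _

theorem mem_ZZ {h : 2 * c ≤ ν} {x : PT ν b c e} {q : WY ν c} {ε : ℂ} {v : VV ν b} :
    v ∈ ZZ h x q ε ↔ v.1 ∈ MZ ν x ∧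
      (∀ k, eval (hp (x.1 (Sum.inl (Sum.inl k)))) (v.2 k : MvPolynomial (Fin (ν + 1)) ℂ) = 0) ∧
      (∀ l, ∑ k, x.2 l k * eval (hp (x.1 (Sum.inl (Sum.inr l))))
        (v.2 k : MvPolynomial (Fin (ν + 1)) ℂ) = 0) ∧
      (∀ p k, ε * eval (fun i => pw h x q p i.succ) (v.1 k : MvPolynomial (Fin ν) ℂ) +
        pw h x q p 0 * eval (pw h x q p) (v.2 k : MvPolynomial (Fin (ν + 1)) ℂ) = 0) ∧
      ∀ l k, eval (q.1 l) (v.1 k : MvPolynomial (Fin ν) ℂ) +
        eval (Fin.cons ε (q.1 l)) (v.2 k : MvPolynomial (Fin (ν + 1)) ℂ) = 0 := by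
  unfold ZZ
  rw [Submodule.mem_inf, Submodule.mem_comap, Submodule.mem_iInf]
  have a1 : ∀ k, ph h x q (Sum.inl (Sum.inl k)) ε v =
      eval (hp (x.1 (Sum.inl (Sum.inl k)))) (v.2 k : MvPolynomial (Fin (ν + 1)) ℂ) := fun k =>
    E1_apply _ _ _
  have a2 : ∀ l, ph h x q (Sum.inl (Sum.inr l)) ε v = ∑ k, x.2 l k *
      eval (hp (x.1 (Sum.inl (Sum.inr l)))) (v.2 k : MvPolynomial (Fin (ν + 1)) ℂ) := fun l => by
    change (∑ k, x.2 l k • E1 k (hp (x.1 (Sum.inl (Sum.inr l))))) v = _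
    simp only [LinearMap.sum_apply, LinearMap.smul_apply, E1_apply, smul_eq_mul]
  have a3 : ∀ p k, ph h x q (Sum.inr (Sum.inl (p, k))) ε v =
      ε * eval (fun i => pw h x q p i.succ) (v.1 k : MvPolynomial (Fin ν) ℂ) +
        pw h x q p 0 * eval (pw h x q p) (v.2 k : MvPolynomial (Fin (ν + 1)) ℂ) := fun p k => by
    rw [← E0_apply, ← E1_apply]
    rfl
  have a4 : ∀ l k, ph h x q (Sum.inr (Sum.inr (l, k))) ε v =
      eval (q.1 l) (v.1 k : MvPolynomial (Fin ν) ℂ) +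
        eval (Fin.cons ε (q.1 l)) (v.2 k : MvPolynomial (Fin (ν + 1)) ℂ) := fun l k => by
    rw [← E0_apply, ← E1_apply]
    rfl
  constructor
  · rintro ⟨h1, h2⟩
    refine ⟨h1, fun k => ?_, fun l => ?_, fun p k => ?_, fun l k => ?_⟩
    · rw [← a1]; exact h2 (Sum.inl (Sum.inl k))
    · rw [← a2]; exact h2 (Sum.inl (Sum.inr l))
    · rw [← a3]; exact h2 (Sum.inr (Sum.inl (p, k)))
    · rw [← a4]; exact h2 (Sum.inr (Sum.inr (l, k)))
  · rintro ⟨h1, h2, h3, h4, h5⟩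
    refine ⟨h1, ?_⟩
    rintro ((k | l) | (p | p)) <;> rw [LinearMap.mem_ker]
    · rw [a1]; exact h2 k
    · rw [a2]; exact h3 l
    · rw [a3]; exact h4 p.1 p.2
    · rw [a4]; exact h5 p.1 p.2

theorem zero_le (h : 2 * c ≤ ν) (x : PT ν b c e) (q : WY ν c) (hG : GP x q) (ρ : ℕ)
    (hρ : finrank ℂ ↥(MZ ν x ⊓ ⨅ l, LinearMap.ker ((ev ν 2 (q.1 l)).comp (th (x.2 l)))) ≤ ρ) :
    finrank ℂ (ZZ h x q 0) ≤ ρ := by
  -- facts on the elements
  have fact : ∀ v ∈ ZZ h x q 0, (∀ l k, eval (hp (x.1 (Sum.inl (Sum.inr l))))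
      (v.2 k : MvPolynomial (Fin (ν + 1)) ℂ) = eval (hp (q.1 l)) (v.2 k : MvPolynomial _ ℂ)) ∧
      (∀ l k, eval (hp (q.1 l)) (v.2 k : MvPolynomial (Fin (ν + 1)) ℂ) =
        - eval (q.1 l) (v.1 k : MvPolynomial (Fin ν) ℂ)) ∧
      ∀ i k, eval (q.2 i) (v.2 k : MvPolynomial (Fin (ν + 1)) ℂ) = 0 := by
    intro v hv
    obtain ⟨h1, h2, h3, h4, h5⟩ := mem_ZZ.1 hv
    have k1 : ∀ i k, eval (q.2 i) (v.2 k : MvPolynomial (Fin (ν + 1)) ℂ) = 0 := by
      intro i k
      have := h4 (Sum.inl i) k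
      rw [zero_mul, zero_add] at this
      exact (mul_eq_zero.1 this).resolve_left (hG.1 i)
    refine ⟨fun l k => ?_, fun l k => ?_, k1⟩
    · have h6 := h4 (Sum.inr l) k
      rw [zero_mul, zero_add] at h6
      have h7 : pw h x q (Sum.inr l) 0 = q.2 (i0 h) 0 := by
        simp [pw]
      rw [h7] at h6
      have h8 := (mul_eq_zero.1 h6).resolve_left (hG.1 _)
      have h9 : pw h x q (Sum.inr l) =
        q.2 (i0 h) + (hp (x.1 (Sum.inl (Sum.inr l))) - hp (q.1 l)) := rfl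
      rw [h9, eval_aff _ (mem_Pol.1 (v.2 k).2), k1, zero_add] at h8
      exact sub_eq_zero.1 h8
    · have h6 := h5 l k
      have h7 : (Fin.cons (0 : ℂ) (q.1 l) : Fin (ν + 1) → ℂ) = hp (q.1 l) := rfl
      rw [h7] at h6
      exact eq_neg_of_add_eq_zero_right h6
  have h1 := finrank_le_map_add_ker
    (LinearMap.fst ℂ (Fin b → Pol ν 2) (Fin b → Pol (ν + 1) 1)) (ZZ h x q 0)
  have h2 : (ZZ h x q 0).map (LinearMap.fst ℂ (Fin b → Pol ν 2) (Fin b → Pol (ν + 1) 1)) ≤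
      MZ ν x ⊓ ⨅ l, LinearMap.ker ((ev ν 2 (q.1 l)).comp (th (x.2 l))) := by
    rintro _ ⟨v, hv, rfl⟩
    obtain ⟨k1, k2, k3, k4, k5⟩ := mem_ZZ.1 hv
    obtain ⟨f1, f2, f3⟩ := fact v hv
    refine ⟨k1, (Submodule.mem_iInf _).2 fun l => ?_⟩
    rw [LinearMap.mem_ker, LinearMap.comp_apply, ev_apply, th_apply, map_sum]
    have h3 := k3 l
    have h4 : ∀ k, x.2 l k * eval (hp (x.1 (Sum.inl (Sum.inr l))))
        (v.2 k : MvPolynomial (Fin (ν + 1)) ℂ) =
        - (x.2 l k * eval (q.1 l) (v.1 k : MvPolynomial (Fin ν) ℂ)) := fun k => by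
      rw [f1, f2]
      ring
    simp only [h4, Finset.sum_neg_distrib, neg_eq_zero] at h3
    simpa using h3
  have h3 : ZZ h x q 0 ⊓ LinearMap.ker
      (LinearMap.fst ℂ (Fin b → Pol ν 2) (Fin b → Pol (ν + 1) 1)) = ⊥ := by
    rw [eq_bot_iff]
    rintro v ⟨hv, hv0⟩
    obtain ⟨k1, k2, k3, k4, k5⟩ := mem_ZZ.1 hv
    obtain ⟨f1, f2, f3⟩ := fact v hv
    have hv1 : v.1 = 0 := hv0
    rw [Submodule.mem_bot]
    refine Prod.ext hv1 (funext fun k => Subtype.ext ?_)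
    have g1 : ∀ l, eval (hp (q.1 l)) (v.2 k : MvPolynomial (Fin (ν + 1)) ℂ) = 0 := fun l => by
      rw [f2, hv1]
      simp
    exact hG.2 k _ (mem_Pol.1 (v.2 k).2) (fun i => f3 i k) (fun l => (f1 l k).trans (g1 l)) g1
      (k2 k)
  rw [h3, finrank_bot, add_zero] at h1
  exact h1.trans ((Submodule.finrank_mono h2).trans hρ)

/-- the tuple of a pair -/
noncomputable def Ph (ν b : ℕ) (ε : ℂ) : VV ν b →ₗ[ℂ] (Fin b → Pol (ν + 1) 2) :=
  LinearMap.pi fun k =>
    (lift ν).comp ((LinearMap.proj k).comp (LinearMap.fst ℂ _ _)) +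
      ε⁻¹ • (mulX ν 1).comp ((LinearMap.proj k).comp (LinearMap.snd ℂ _ _))

theorem Ph_apply (ε : ℂ) (v : VV ν b) (k : Fin b) :
    Ph ν b ε v k = lift ν (v.1 k) + ε⁻¹ • mulX ν 1 (v.2 k) := rfl

end

end TRDaux

open TRDaux

theorem x_TRD : S_TRD := by
  intro ν b c e ρ h x q hG hρ
  obtain ⟨ε, hε, hε0⟩ := ((pk h x q).gen_finrank (zero_le h x q hG ρ hρ)).and
    (Gen.ne (K := ℂ) LP_id 1 one_ne_zero) |>.exists
  have hcard : Fintype.card ((Fin (ν + 1 - 2 * c) ⊕ Fin c) ⊕ Fin c) = ν + 1 := by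
    simp only [Fintype.card_sum, Fintype.card_fin]
    omega
  let κ : ((Fin (ν + 1 - 2 * c) ⊕ Fin c) ⊕ Fin c) ≃ Fin (ν + 1) := Fintype.equivFinOfCardEq hcard
  let sp : (Fin (ν + 1 - 2 * c) ⊕ Fin c) ⊕ Fin c → Fin (ν + 1) → ℂ :=
    Sum.elim (pw h x q) fun l => Fin.cons ε (q.1 l)
  let x' : PT (ν + 1) b c (e + (ν + 1)) :=
    (Sum.elim (fun i => hp (x.1 (Sum.inl i)))
      (Fin.append (fun i => hp (x.1 (Sum.inr i))) fun i => sp (κ.symm i)), x.2)
  refine ⟨x', ?_⟩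
  suffices hle : MZ (ν + 1) x' ≤ (ZZ h x q ε).map (Ph ν b ε) from
    (Submodule.finrank_mono hle).trans ((Submodule.finrank_map_le _ _).trans hε)
  intro F hF
  obtain ⟨m1, m2, m3⟩ := mem_MZ.1 hF
  -- decomposition
  have hdec : ∀ k, ∃ g : Pol (ν + 1) 1, F k - lift ν (resL ν 2 (F k)) = mulX ν 1 g := by
    intro k
    refine exists_mulXC1 ?_
    rw [Submodule.coe_sub, map_sub, res_lift]
    exact sub_self _
  choose g hg using hdec
  have hF' : ∀ k, F k = lift ν (resL ν 2 (F k)) + mulX ν 1 (g k) := fun k => by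
    rw [← hg k]
    abel
  have hev : ∀ k (P : Fin (ν + 1) → ℂ), eval P (F k : MvPolynomial (Fin (ν + 1)) ℂ) =
      eval (fun i => P i.succ) (resL ν 2 (F k) : MvPolynomial (Fin ν) ℂ) +
        P 0 * eval P (g k : MvPolynomial (Fin (ν + 1)) ℂ) := by
    intro k P
    rw [← eval_lift, ← eval_mulX, ← map_add, ← Submodule.coe_add, ← hF' k]
  have hd0 : ∀ k (z : Fin ν → ℂ),
      eval (hp z) (pderiv 0 (F k : MvPolynomial (Fin (ν + 1)) ℂ)) =
        eval (hp z) (g k : MvPolynomial (Fin (ν + 1)) ℂ) := by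
    intro k z
    have e1 : (F k : MvPolynomial (Fin (ν + 1)) ℂ) =
        (lift ν (resL ν 2 (F k)) : MvPolynomial (Fin (ν + 1)) ℂ) +
          (mulX ν 1 (g k) : MvPolynomial (Fin (ν + 1)) ℂ) := by
      rw [← Submodule.coe_add, ← hF' k]
    rw [e1, map_add, map_add, lift_coe, pderiv_zero_rename, map_zero, zero_add,
      eval_pderiv_mulX_zero, hp_zero, zero_mul, zero_add]
  have hoff : ∀ s k, eval (sp s) (F k : MvPolynomial (Fin (ν + 1)) ℂ) = 0 := by
    intro s k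
    have h1 := m1 (Sum.inr (Fin.natAdd e (κ s))) k
    have h2 : x'.1 (Sum.inr (Fin.natAdd e (κ s))) = sp s := by
      change Fin.append (fun i => hp (x.1 (Sum.inr i))) (fun i => sp (κ.symm i))
        (Fin.natAdd e (κ s)) = sp s
      rw [Fin.append_right, Equiv.symm_apply_apply]
    rwa [h2] at h1
  have hfull : ∀ i k, eval (hp (x.1 (Sum.inl i))) (F k : MvPolynomial (Fin (ν + 1)) ℂ) = 0 :=
    fun i k => m1 (Sum.inl i) k
  have hsimp : ∀ i k, eval (hp (x.1 (Sum.inr i))) (F k : MvPolynomial (Fin (ν + 1)) ℂ) = 0 := by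
    intro i k
    have h1 := m1 (Sum.inr (Fin.castAdd (ν + 1) i)) k
    have h2 : x'.1 (Sum.inr (Fin.castAdd (ν + 1) i)) = hp (x.1 (Sum.inr i)) := by
      change Fin.append (fun i => hp (x.1 (Sum.inr i))) (fun i => sp (κ.symm i))
        (Fin.castAdd (ν + 1) i) = _
      rw [Fin.append_left]
    rwa [h2] at h1
  refine ⟨(fun k => resL ν 2 (F k), fun k => ε • g k), ?_, ?_⟩
  · refine mem_ZZ.2 ⟨?_, fun k => ?_, fun l => ?_, fun p k => ?_, fun l k => ?_⟩
    · refine mem_MZ.2 ⟨?_, fun k v => ?_, fun l v => ?_⟩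
      · rintro (i | i) k
        · have := hfull i k
          rw [eval_hp] at this
          exact this
        · have := hsimp i k
          rw [eval_hp] at this
          exact this
      · have := m2 k v.succ
        change eval (hp (x.1 (Sum.inl (Sum.inl k)))) _ = 0 at this
        rw [eval_hp_pderiv] at this
        exact this
      · have := m3 l v.succ
        change ∑ j, x.2 l j * eval (hp (x.1 (Sum.inl (Sum.inr l)))) _ = 0 at this
        simp only [eval_hp_pderiv] at this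
        exact this
    · have := m2 k 0
      change eval (hp (x.1 (Sum.inl (Sum.inl k)))) _ = 0 at this
      rw [hd0] at this
      rw [Submodule.coe_smul, smul_eval, this, mul_zero]
    · have := m3 l 0
      change ∑ j, x.2 l j * eval (hp (x.1 (Sum.inl (Sum.inr l)))) _ = 0 at this
      simp only [hd0] at this
      have e1 : ∀ k, x.2 l k * eval (hp (x.1 (Sum.inl (Sum.inr l))))
          ((ε • g k : Pol (ν + 1) 1) : MvPolynomial (Fin (ν + 1)) ℂ) =
          ε * (x.2 l k * eval (hp (x.1 (Sum.inl (Sum.inr l)))) (g k : MvPolynomial _ ℂ)) :=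
        fun k => by
          rw [Submodule.coe_smul, smul_eval]
          ring
      simp only [e1, ← Finset.mul_sum, this, mul_zero]
    · have h1 := hoff (Sum.inl p) k
      change eval (pw h x q p) _ = 0 at h1
      rw [hev] at h1
      rw [Submodule.coe_smul, smul_eval]
      calc ε * eval (fun i => pw h x q p i.succ) (resL ν 2 (F k) : MvPolynomial (Fin ν) ℂ) +
            pw h x q p 0 * (ε * eval (pw h x q p) (g k : MvPolynomial (Fin (ν + 1)) ℂ))
          = ε * (eval (fun i => pw h x q p i.succ) (resL ν 2 (F k) : MvPolynomial (Fin ν) ℂ) +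
            pw h x q p 0 * eval (pw h x q p) (g k : MvPolynomial (Fin (ν + 1)) ℂ)) := by ring
        _ = 0 := by rw [h1, mul_zero]
    · have h1 := hoff (Sum.inr l) k
      change eval (Fin.cons ε (q.1 l)) _ = 0 at h1
      rw [hev] at h1
      rw [Submodule.coe_smul, smul_eval]
      simpa using h1
  · funext k
    rw [Ph_apply]
    change lift ν (resL ν 2 (F k)) + ε⁻¹ • mulX ν 1 (ε • g k) = F k
    rw [map_smul, smul_smul, inv_mul_cancel₀ hε0, one_smul, ← hF' k]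

end Pool.Agent.WarC
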