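import Pool.Agent.WarC.TOPC
import Pool.Agent.WarC.BLKC
import Pool.Agent.WarC.SM3
import Pool.Agent.WarC.MRA
import Pool.Agent.WarC.LM
import Pool.Agent.WarC.LRB
import Pool.Agent.WarC.LT2
import Pool.Agent.WarC.PUR
import Pool.Agent.WarC.MR0
import Pool.Agent.WarC.CY
import Pool.Agent.WarC.STEP
import Pool.Agent.WarC.RADO
import Pool.Agent.WarC.GEN
import Pool.Agent.WarC.TRD
import Pool.Agent.WarC.TL1
import Pool.Agent.WarC.TL0
import Pool.Agent.WarC.B4
import Pool.Agent.WarC.UK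
import Pool.Agent.WarC.PERT
import Pool.Agent.WarC.COR3
import Pool.Agent.WarC.NUMC
import Pool.Agent.WarQ.Final
import Pool.Agent.WarM.Many

/-!
# Simultaneous Waring decompositions (MP_db021c_ag): at least `n + 1` forms, degree 3   (helper25)

Modules by helper7, 18, 21, 26, 33, 41, 49, 50, 51, 59, 63, 69, 74, 75, 76, 83 and others.
-/

set_option autoImplicit false

open Module MvPolynomial
open Pool.Agent.War Pool.Agent.WarS

namespace Pool.Agent.WarC

theorem f_MRA : S_MRA :=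
  x_MRA (x_LM (x_LRB WarQ.x_NOD WarQ.x_LQ WarQ.x_LG x_CY) x_LT2 x_PUR) x_MR0
    (x_STEP x_RADO x_GEN x_TRD x_TL1 x_TL0) x_B4

theorem f_SM3 : S_SM3 := x_SM3 (WarQ.x_Q3 WarQ.f_T WarQ.f_L) (WarQ.x_SB SG) f_MRA

theorem f_BLKC : S_BLKC := x_BLKC f_SM3 (x_PERT x_UK) x_COR3 x_NUMC

/-- at least `n + 1` cubic forms: no exceptions -/
theorem W_many3 (n s h : ℕ) (hn : 3 ≤ n) (hs : n + 1 ≤ s) :
    Waring.W 3 h n s ↔ min s ((n + 3).choose n) ≤ h ∧ s * (n + 3).choose n ≤ h * (n + s) := by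
  refine ⟨fun H => ⟨H.bound2, H.bound1 (by omega)⟩, fun H => ?_⟩
  by_cases hN : (n + 3).choose n ≤ h
  · exact (WarM.W_top s (by omega : 1 ≤ n)).mono hN
  · have hsN : ¬ (n + 3).choose n ≤ s := fun hle => hN (by
      rw [min_eq_right hle] at H; exact H.1)
    have hsh : s ≤ h := by
      rw [min_eq_left (by omega)] at H; exact H.1
    obtain ⟨z, a, y, hK⟩ := x_TOPC f_BLKC n s h hn hs hsh (by unfold NN; omega) H.2
    exact Waring.W_of_dual z a fun g hg h1 h2 => hK g hg h1 h2 fun i => i.elim0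

end Pool.Agent.WarC
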