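import Pool.Agent.WarC.Stmts3
import Pool.Agent.WarC.NUMC

/-!
# The choice of the numbers for the base of cubics   (helper85)
-/

set_option autoImplicit false

open Module MvPolynomial
open Pool.Agent.War Pool.Agent.WarS Pool.Agent.WarQ

namespace Pool.Agent.WarC

namespace NUMBaux

/-- the conclusion -/
def Goal (n q D N1 N2 : ℕ) : Prop :=
  ∃ u r e : ℕ, u + r = q ∧ n ≤ u + D ∧ (2 * n - 1) * u ≤ N1 ∧ 9 * u ≤ (n + 2) ^ 2 ∧
    2 * (r + 1) ≤ n + 1 ∧ (n * r + D) + e + (n * r + D + u) = N2 ∧ n + 1 ≤ (n * r + D) + e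

/-- the case `n ≥ 18` -/
theorem big {n q D N1 N2 N3 Q : ℕ} (hn : 18 ≤ n) (hD1 : 1 ≤ D) (hDn : D < n)
    (h1 : 6 * N1 = n * (n + 1) * (n + 2)) (h2 : 2 * N2 = (n + 1) * (n + 2))
    (h3 : N3 = N1 + N2) (hμ1 : n * N3 < (2 * n + 1) * (n * q + D))
    (hμ2 : (2 * n + 1) * (n * q + D) < n * N3 + (2 * n + 1))
    (hQ : (2 * n - 1) * Q ≤ N1) (hQ2 : N1 < (2 * n - 1) * (Q + 1)) :
    Goal n q D N1 N2 := by
  have h9 := NUMCaux.nineQ (by omega) h1 hQ
  have hfin : (2 * n - 1) * Q ≤ N1 := hQ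
  have e : 2 * n - 1 + 1 = 2 * n := by omega
  have hQ' : 2 * n * Q ≤ N1 + Q := by
    have : 2 * n * Q = (2 * n - 1) * Q + Q := by
      conv_lhs => rw [← e]
      ring
    omega
  have hQ2' : N1 + Q + 2 ≤ 2 * n * Q + 2 * n := by
    have : 2 * n * (Q + 1) = (2 * n - 1) * (Q + 1) + (Q + 1) := by
      conv_lhs => rw [← e]
      ring
    nlinarith
  have hnN2 : n * N2 = 3 * N1 := by nlinarith
  -- `Q < q`
  have hq : Q < q := by
    by_contra hc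
    push Not at hc
    have h4 : n * q + D ≤ n * Q + n := by
      have := Nat.mul_le_mul_left n hc
      omega
    have h5 : (2 * n + 1) * (n * q + D) ≤ (2 * n + 1) * (n * Q + n) := Nat.mul_le_mul_left _ h4
    have h6 : n * N1 + n * N2 < (2 * n + 1) * (n * Q + n) := by
      rw [h3] at hμ1
      nlinarith
    have h7 : n * (2 * n * Q) ≤ n * (N1 + Q) := Nat.mul_le_mul_left _ hQ'
    have h8 : 2 * N1 < Q + 2 * n * n + n := by nlinarith
    obtain ⟨m, rfl⟩ : ∃ m, n = m + 18 := ⟨n - 18, by omega⟩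
    nlinarith [Nat.zero_le (m ^ 2), Nat.zero_le (m ^ 3)]
  obtain ⟨r, rfl⟩ : ∃ r, q = Q + r := ⟨q - Q, by omega⟩
  -- `N3 ≥ 4 n² - 1`
  have h4 : 4 * n * n ≤ N3 + 1 := by
    obtain ⟨m, rfl⟩ : ∃ m, n = m + 18 := ⟨n - 18, by omega⟩
    nlinarith [Nat.zero_le (m ^ 2), Nat.zero_le (m ^ 3)]
  -- the main inequality
  have hK : 2 * (n * r + D) + Q ≤ N2 := by
    have h5 : 2 * (n * (Q + r) + D) + 2 * n ≤ N3 + 2 := by
      by_contra hc
      push Not at hc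
      have h6 : (2 * n + 1) * (N3 + 3) ≤ (2 * n + 1) * (2 * (n * (Q + r) + D) + 2 * n) :=
        Nat.mul_le_mul_left _ hc
      nlinarith
    nlinarith
  have hQu : n ≤ Q + D := by
    by_contra hc
    push Not at hc
    have h6 : Q + 2 ≤ n := by omega
    have h7 : N1 + Q + 2 ≤ 2 * n * (Q + 1) := by nlinarith
    have h8 : 2 * n * (Q + 1) + 2 * n ≤ 2 * n * n := by nlinarith
    have h10 : N1 ≤ 2 * n * n := by omega
    obtain ⟨m, rfl⟩ : ∃ m, n = m + 18 := ⟨n - 18, by omega⟩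
    nlinarith [Nat.zero_le (m ^ 2), Nat.zero_le (m ^ 3)]
  refine ⟨Q, r, N2 - ((n * r + D) + (n * r + D + Q)), rfl, hQu, hfin, h9, ?_, by omega, ?_⟩
  · by_contra hc
    push Not at hc
    have h6 : n ≤ 2 * r := by omega
    have h7 : n * n ≤ n * (2 * r) := Nat.mul_le_mul_left _ h6
    nlinarith
  · have h6 : Q + 2 * n + 2 ≤ N2 := by nlinarith
    omega

/-- the case `n ≤ 17` -/
theorem mid {n q D N1 N2 N3 Q : ℕ} (hn : 3 ≤ n) (hn2 : n ≤ 17) (h5 : n ≠ 5) (h9 : n ≠ 9)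
    (h12 : n ≠ 12) (hD1 : 1 ≤ D) (hDn : D < n)
    (h1 : 6 * N1 = n * (n + 1) * (n + 2)) (h2 : 2 * N2 = (n + 1) * (n + 2))
    (h3 : N3 = N1 + N2) (hμ1 : n * N3 < (2 * n + 1) * (n * q + D))
    (hμ2 : (2 * n + 1) * (n * q + D) < n * N3 + (2 * n + 1))
    (hQ : (2 * n - 1) * Q ≤ N1) (hQ2 : N1 < (2 * n - 1) * (Q + 1)) :
    Goal n q D N1 N2 := by
  have hn9 := NUMCaux.nineQ hn h1 hQ
  have hq : Q ≤ q := by interval_cases n <;> omega
  obtain ⟨r, rfl⟩ : ∃ r, q = Q + r := ⟨q - Q, by omega⟩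
  have hle : (n * r + D) + (n * r + D + Q) ≤ N2 := by interval_cases n <;> omega
  refine ⟨Q, r, N2 - ((n * r + D) + (n * r + D + Q)), rfl, ?_, hQ, hn9, ?_, by omega, ?_⟩
  · interval_cases n <;> omega
  · interval_cases n <;> omega
  · have h6 : n + 1 + (n * r + D + Q) ≤ N2 := by interval_cases n <;> omega
    omega

end NUMBaux

theorem x_NUMB : S_NUMB := by
  intro n q D hn hD1 hDn hμ1 hμ2 h5 h9 h12
  have hN3 := WarM.NN_three n
  have hN2 := WarM.NN_two n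
  have hN1 : 6 * NN (n - 1) 3 = n * (n + 1) * (n + 2) := by
    have h := WarM.NN_three (n - 1)
    have e : n - 1 + 1 = n := by omega
    have e2 : n - 1 + 2 = n + 1 := by omega
    have e3 : n - 1 + 3 = n + 2 := by omega
    rw [e, e2, e3] at h
    exact h
  have h3 : NN n 3 = NN (n - 1) 3 + NN n 2 := by
    nlinarith
  set N1 := NN (n - 1) 3
  set N2 := NN n 2
  set N3 := NN n 3
  have hpos : 0 < 2 * n - 1 := by omega
  have hQ : (2 * n - 1) * (N1 / (2 * n - 1)) ≤ N1 := Nat.mul_div_le _ _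
  have hQ2 : N1 < (2 * n - 1) * (N1 / (2 * n - 1) + 1) := Nat.lt_mul_div_succ _ hpos
  generalize N1 / (2 * n - 1) = Q at hQ hQ2
  show NUMBaux.Goal n q D N1 N2
  clear_value N1 N2 N3
  rcases Nat.lt_or_ge n 18 with h18 | h18
  · exact NUMBaux.mid hn (by omega) h5 h9 h12 hD1 hDn hN1 hN2 h3 hμ1 hμ2 hQ hQ2
  · exact NUMBaux.big h18 hD1 hDn hN1 hN2 h3 hμ1 hμ2 hQ hQ2

end Pool.Agent.WarC
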