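import Pool.Agent.WarC.Stmts3
import Pool.Agent.WarM.Num

/-!
# Simultaneous Waring decompositions (MP_db021c_ag), cubics: the numbers of the step, small `m`   (helper59)
-/

set_option autoImplicit false

open Pool.Agent.War

namespace Pool.Agent.WarC.NUMFaaux

/-- Boolean version of `NC`, `N = (m+1)(m+2)/2`, `T = P + Y` -/
def ncT (m s Y N T t c : ℕ) : Bool :=
  Nat.ble T N &&
  ((Nat.ble (Y % s) c && Nat.ble (Y / s + 1) t) || Nat.ble (Y / s + 2) t) &&
  ((c == 0 && Nat.ble (2 * t) (m + 1)) || ((c == 1 && Nat.ble (2 * t) m) ||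
    Nat.ble (2 * t + 1) m)) &&
  ((c == 0 && Nat.ble (m * t + T) N) ||
    ((c == 1 && (Nat.ble (m * (t + 1) + T) (N + t) && Nat.ble ((m + 1) * t + T) N)) ||
    (Nat.ble (m * (t + 1) + T) N && Nat.ble ((m + 1) * t + T) N)))

theorem ncT_NC {m s P Y : ℕ} (h : ncT m s Y ((m + 1) * (m + 2) / 2) (P + Y) ((P + Y) / s)
    ((P + Y) % s) = true) : NC m s P Y := by
  simp only [ncT, Bool.and_eq_true, Bool.or_eq_true, Nat.ble_eq, beq_iff_eq] at h
  obtain ⟨⟨⟨h1, h2⟩, h3⟩, h4⟩ := h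
  exact ⟨h1, h2, h3, h4⟩

/-- one case -/
def ok (m s h U Y : ℕ) : Bool :=
  Nat.ble (U + Y) h &&
    ncT m s Y ((m + 1) * (m + 2) / 2) (h - U - Y + Y) ((h - U - Y + Y) / s) ((h - U - Y + Y) % s)

/-- the exceptional cases -/
def xfB (m s h : ℕ) : Bool :=
  s == 4 && ((m == 4 && h == 17) || (m == 5 && h == 24) || (m == 6 && h == 33) ||
    (m == 6 && h == 34))

theorem xfB_XF {m s h : ℕ} (k : xfB m s h = true) : XF m s h := by
  simp only [xfB, Bool.and_eq_true, Bool.or_eq_true, beq_iff_eq] at k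
  unfold XF
  omega

/-- both values of `h` -/
def both (m s M N : ℕ) : Bool :=
  let U := s * M / (m - 1 + s)
  let Y := s * M % (m - 1 + s)
  (xfB m s (s * N / (m + s)) || ok m s (s * N / (m + s)) U Y) &&
  (xfB m s ((s * N + (m + s - 1)) / (m + s)) || ok m s ((s * N + (m + s - 1)) / (m + s)) U Y)

theorem check : ((List.range 45).all fun m => (List.range (m + 1)).all fun s =>
    Nat.ble s 2 || both m s (m * (m + 1) * (m + 2) / 6) ((m + 1) * (m + 2) * (m + 3) / 6)) =
    true := by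
  decide +kernel

theorem ok_NF {m s h : ℕ}
    (k : ok m s h (s * NN (m - 1) 3 / (m - 1 + s)) (s * NN (m - 1) 3 % (m - 1 + s)) = true) :
    NF m s h := by
  rw [ok, Bool.and_eq_true, Nat.ble_eq] at k
  refine ⟨_, _, h - s * NN (m - 1) 3 / (m - 1 + s) - s * NN (m - 1) 3 % (m - 1 + s),
    Nat.div_add_mod (s * NN (m - 1) 3) (m - 1 + s), ?_, ncT_NC k.2⟩
  omega

end Pool.Agent.WarC.NUMFaaux

namespace Pool.Agent.WarC

open NUMFaaux

theorem x_NUMFa : S_NUMFa := by
  intro m s h hs hsm hm hh hX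
  have e1 : NN m 3 = (m + 1) * (m + 2) * (m + 3) / 6 := by
    have := WarM.NN_three m
    omega
  have e2 : NN (m - 1) 3 = m * (m + 1) * (m + 2) / 6 := by
    obtain ⟨m', rfl⟩ : ∃ m', m = m' + 1 := ⟨m - 1, by omega⟩
    have := WarM.NN_three m'
    have e : (m' + 1) * (m' + 1 + 1) * (m' + 1 + 2) = (m' + 1) * (m' + 2) * (m' + 3) := rfl
    rw [show m' + 1 - 1 = m' by omega, e]
    omega
  have hc := check
  rw [List.all_eq_true] at hc
  have h1 := hc m (List.mem_range.2 hm)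
  rw [List.all_eq_true] at h1
  have h2 := h1 s (List.mem_range.2 (by omega))
  rw [Bool.or_eq_true, Nat.ble_eq] at h2
  rcases h2 with h2 | h2
  · omega
  rw [← e1, ← e2, both, Bool.and_eq_true, Bool.or_eq_true, Bool.or_eq_true] at h2
  rcases hh with rfl | rfl
  · rcases h2.1 with h3 | h3
    · exact absurd (xfB_XF h3) hX
    · exact ok_NF h3
  · rcases h2.2 with h3 | h3
    · exact absurd (xfB_XF h3) hX
    · exact ok_NF h3

end Pool.Agent.WarC
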