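import Pool.Agent.WarC.Stmts3
import Pool.Agent.WarM.Num

/-!
# The numbers of the Horace step, large `m`   (helper55)
-/

set_option autoImplicit false

open Module MvPolynomial
open Pool.Agent.War Pool.Agent.WarS Pool.Agent.WarQ

namespace Pool.Agent.WarC

namespace NUMFbaux

/-- the first inequality -/
theorem polA {m s : ℤ} (hs : 4 ≤ s) (hsm : s ≤ m) (hm : 45 ≤ m) :
    6 * ((m + s - 1) ^ 2 + (m + s) * (m + s - 2) ^ 2 + (m + s) * (m + s - 1) * (2 * s - 1) + 1) ≤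
      s * ((m + 1) * (m + 2) * (2 * m + 3 * s - 3)) := by
  obtain ⟨b, rfl⟩ : ∃ b, s = 4 + b := ⟨s - 4, by ring⟩
  have hb : 0 ≤ b := by linarith
  have hbm : b ≤ m - 4 := by linarith
  obtain ⟨a, rfl⟩ : ∃ a, m = 45 + a := ⟨m - 45, by ring⟩
  have ha : 0 ≤ a := by linarith
  have h1 : 0 ≤ b * b * (a + 41 - b) := by
    have : 0 ≤ a + 41 - b := by linarith
    positivity
  nlinarith [mul_nonneg ha hb, mul_nonneg (mul_nonneg ha ha) hb, mul_nonneg (mul_nonneg ha hb) hb,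
    mul_nonneg (mul_nonneg (mul_nonneg ha ha) ha) hb, mul_nonneg (mul_nonneg ha hb) (mul_nonneg ha hb),
    mul_nonneg ha ha, mul_nonneg hb hb, mul_nonneg (mul_nonneg ha ha) ha]

/-- the second inequality -/
theorem polB {m s : ℤ} (hs : 4 ≤ s) (hsm : s ≤ m) (hm : 45 ≤ m) :
    s * ((m + 1) * (m + 2) * (2 * m + 3 * s - 3)) + 6 * (m + s - 1) ^ 2 +
      6 * ((m + s) * (m + s - 2)) ≤ 3 * ((m + s) * (m + s - 1)) * (s * (m - 1)) := by
  obtain ⟨b, rfl⟩ : ∃ b, s = 4 + b := ⟨s - 4, by ring⟩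
  have hb : 0 ≤ b := by linarith
  have hbm : b ≤ m - 4 := by linarith
  obtain ⟨a, rfl⟩ : ∃ a, m = 45 + a := ⟨m - 45, by ring⟩
  have ha : 0 ≤ a := by linarith
  have h1 : 0 ≤ b * b * (a + 41 - b) := by
    have : 0 ≤ a + 41 - b := by linarith
    positivity
  nlinarith [mul_nonneg ha hb, mul_nonneg (mul_nonneg ha ha) hb, mul_nonneg (mul_nonneg ha hb) hb,
    mul_nonneg (mul_nonneg (mul_nonneg ha ha) ha) hb, mul_nonneg (mul_nonneg ha hb) (mul_nonneg ha hb),
    mul_nonneg ha ha, mul_nonneg hb hb, mul_nonneg (mul_nonneg ha ha) ha,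
    mul_nonneg (mul_nonneg hb hb) hb, mul_nonneg (mul_nonneg (mul_nonneg hb hb) hb) ha]

/-- the third inequality -/
theorem polC {m s : ℤ} (hs : 4 ≤ s) (hsm : s ≤ m) (hm : 45 ≤ m) :
    6 * (m + s - 1) ^ 2 + 6 * ((m + s) * (m + s - 2)) + 6 * ((m + s - 1) * (m * s)) ≤
      s * (m * (m + 1) * (m + 2)) := by
  have h1 : (m + s) * (m + s - 2) ≤ (m + s - 1) ^ 2 := by nlinarith
  have h2 : m + s - 1 ≤ 2 * m := by linarith
  have h3 : (m + s - 1) ^ 2 ≤ (2 * m) ^ 2 := pow_le_pow_left₀ (by linarith) h2 2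
  have h4 : (m + s - 1) * (m * s) ≤ 2 * m * (m * s) :=
    mul_le_mul_of_nonneg_right h2 (by positivity)
  have h5 : 0 ≤ s * (m * m) := by positivity
  have h6 : 45 * (s * (m * m)) ≤ m * (s * (m * m)) := mul_le_mul_of_nonneg_right hm h5
  have h7 : 4 * (m * m) ≤ s * (m * m) := mul_le_mul_of_nonneg_right hs (by positivity)
  nlinarith

end NUMFbaux

open NUMFbaux in
theorem x_NUMFb : S_NUMFb := by
  intro m s h hs hsm hm hh
  have hN3 := WarM.NN_three m
  have hM3 : 6 * NN (m - 1) 3 = m * (m + 1) * (m + 2) := by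
    have h := WarM.NN_three (m - 1)
    have e : m - 1 + 1 = m := by omega
    have e2 : m - 1 + 2 = m + 1 := by omega
    have e3 : m - 1 + 3 = m + 2 := by omega
    rw [e, e2, e3] at h
    exact h
  unfold NF
  generalize NN m 3 = N at hN3 hh
  generalize NN (m - 1) 3 = M at hM3
  obtain ⟨Q, hQ⟩ : ∃ Q, Q = (m + 1) * (m + 2) / 2 := ⟨_, rfl⟩
  have hQ2 : 2 * Q = (m + 1) * (m + 2) := by
    rw [hQ]
    have : 2 ∣ (m + 1) * (m + 2) := (Nat.even_mul_succ_self (m + 1)).two_dvd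
    omega
  have hNM : N = M + Q := by
    have : 6 * N = 6 * (M + Q) := by
      rw [hN3]
      have e : 6 * (M + Q) = 6 * M + 3 * (2 * Q) := by ring
      rw [e, hM3, hQ2]
      ring
    omega
  obtain ⟨k, hk⟩ : ∃ k, k + 1 = m + s := ⟨m + s - 1, by omega⟩
  have ek : m - 1 + s = k := by omega
  rw [ek]
  -- bounds for `h`
  have hh1 : (m + s) * h + 0 ≤ s * N + (m + s - 1) ∧ s * N ≤ (m + s) * h + (m + s - 1) := by
    have hpos : 0 < m + s := by omega
    rcases hh with rfl | rfl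
    · have h1 := Nat.div_add_mod (s * N) (m + s)
      have h2 := Nat.mod_lt (s * N) hpos
      constructor <;> omega
    · have h1 := Nat.div_add_mod (s * N + (m + s - 1)) (m + s)
      have h2 := Nat.mod_lt (s * N + (m + s - 1)) hpos
      constructor <;> omega
  obtain ⟨U, hU⟩ : ∃ U, U = s * M / k := ⟨_, rfl⟩
  obtain ⟨Y, hY⟩ : ∃ Y, Y = s * M % k := ⟨_, rfl⟩
  have hUY : k * U + Y = s * M := by rw [hU, hY]; exact Nat.div_add_mod _ _
  have hYk : Y < k := by rw [hY]; exact Nat.mod_lt _ (by omega)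
  rw [← hk] at hh1
  have hk' : k + 1 - 1 = k := by omega
  rw [hk'] at hh1
  obtain ⟨hh1, hh2⟩ := hh1
  -- integers
  have hsZ : (4 : ℤ) ≤ s := by exact_mod_cast hs
  have hsmZ : (s : ℤ) ≤ m := by exact_mod_cast hsm
  have hmZ : (45 : ℤ) ≤ m := by exact_mod_cast hm
  have hA := polA hsZ hsmZ hmZ
  have hB := polB hsZ hsmZ hmZ
  have hC := polC hsZ hsmZ hmZ
  have hkZ : (k : ℤ) = m + s - 1 := by
    have : (k : ℤ) + 1 = m + s := by exact_mod_cast hk
    linarith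
  have hk1 : (m : ℤ) + s = k + 1 := by linarith
  have hMZ : (6 : ℤ) * M = m * (m + 1) * (m + 2) := by exact_mod_cast hM3
  have hQZ : (2 : ℤ) * Q = (m + 1) * (m + 2) := by exact_mod_cast hQ2
  have hNZ : (N : ℤ) = M + Q := by exact_mod_cast hNM
  have hh1Z : ((k : ℤ) + 1) * h ≤ s * N + k := by exact_mod_cast hh1
  have hh2Z : (s : ℤ) * N ≤ (k + 1) * h + k := by exact_mod_cast hh2
  have hUZ : (k : ℤ) * U + Y = s * M := by exact_mod_cast hUY
  have hYZ : (Y : ℤ) + 1 ≤ k := by exact_mod_cast hYk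
  have hY0 : (0 : ℤ) ≤ Y := by positivity
  have hk0 : (0 : ℤ) < k := by linarith
  obtain ⟨S, hS⟩ : ∃ S : ℤ, S = s * (k * Q - M) := ⟨_, rfl⟩
  have hS6 : 6 * S = s * ((m + 1) * (m + 2) * (2 * m + 3 * s - 3)) := by
    have e : 6 * S = s * (3 * k * (2 * Q) - 6 * M) := by rw [hS]; ring
    rw [e, hQZ, hMZ, hkZ]
    ring
  -- `(k+1) k (h - U)`
  have hT1 : ((k : ℤ) + 1) * k * (h - U) ≤ S + k ^ 2 + (k + 1) * Y := by
    have h1 : (k : ℤ) * ((k + 1) * h) ≤ k * (s * N + k) := mul_le_mul_of_nonneg_left hh1Z hk0.le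
    have e : ((k : ℤ) + 1) * k * (h - U) = k * ((k + 1) * h) - (k + 1) * (k * U) := by ring
    have e2 : (k : ℤ) * U = s * M - Y := by linarith
    rw [e, e2, hS]
    rw [hNZ] at h1
    linarith
  have hT2 : S - k ^ 2 + (k + 1) * Y ≤ ((k : ℤ) + 1) * k * (h - U) := by
    have h1 : (k : ℤ) * (s * N - k) ≤ k * ((k + 1) * h) :=
      mul_le_mul_of_nonneg_left (by linarith) hk0.le
    have e : ((k : ℤ) + 1) * k * (h - U) = k * ((k + 1) * h) - (k + 1) * (k * U) := by ring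
    have e2 : (k : ℤ) * U = s * M - Y := by linarith
    rw [e, e2, hS]
    rw [hNZ] at h1
    linarith
  have hkk : (0 : ℤ) < (k + 1) * k := by positivity
  -- `2 s ≤ P`
  have hP : (2 * s : ℤ) ≤ h - U - Y := by
    by_contra hcon
    push Not at hcon
    have h1 : (h : ℤ) - U - Y ≤ 2 * s - 1 := by linarith
    have h2 := mul_le_mul_of_nonneg_left h1 hkk.le
    have h3 : ((k : ℤ) + 1) * (k - 1) * Y ≤ (k + 1) * (k - 1) * (k - 1) :=
      mul_le_mul_of_nonneg_left (by linarith) (by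
        have : (0 : ℤ) ≤ k - 1 := by linarith
        positivity)
    rw [hk1] at hA
    rw [← hS6] at hA
    linarith
  have hPN : U + Y + 2 * s ≤ h := by
    have : (U : ℤ) + Y + 2 * s ≤ h := by linarith
    exact_mod_cast this
  obtain ⟨P, hPe⟩ : ∃ P, h = U + Y + P := ⟨h - U - Y, by omega⟩
  have hPs : 2 * s ≤ P := by omega
  obtain ⟨T, hTe⟩ : ∃ T, T = P + Y := ⟨_, rfl⟩
  have hTZ : (h : ℤ) - U = T := by
    rw [hPe, hTe]
    push_cast
    ring
  rw [hTZ] at hT1 hT2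
  have hT3 : ((k : ℤ) + 1) * k * T ≤ S + k ^ 2 + (k + 1) * (k - 1) := by
    have : ((k : ℤ) + 1) * Y ≤ (k + 1) * (k - 1) :=
      mul_le_mul_of_nonneg_left (by linarith) (by positivity)
    linarith
  -- `2 T ≤ s (m - 1)`
  have hTB : 2 * (T : ℤ) ≤ s * (m - 1) := by
    by_contra hcon
    push Not at hcon
    have h1 : ((k : ℤ) + 1) * k * (s * (m - 1)) < (k + 1) * k * (2 * T) :=
      mul_lt_mul_of_pos_left hcon hkk
    rw [hk1, ← hS6] at hB
    linarith
  have hTC : ((k : ℤ) + 1) * T + m * s ≤ s * Q := by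
    by_contra hcon
    push Not at hcon
    have h1 : (k : ℤ) * (s * Q) < k * ((k + 1) * T + m * s) := mul_lt_mul_of_pos_left hcon hk0
    rw [hk1, ← hMZ] at hC
    linarith
  -- the quotient
  obtain ⟨t, ht⟩ : ∃ t, t = T / s := ⟨_, rfl⟩
  have hs0 : 0 < s := by omega
  have hts : s * t ≤ T := by rw [ht]; exact Nat.mul_div_le _ _
  have hTBN : 2 * T + s ≤ s * m := by
    have : 2 * (T : ℤ) + s ≤ s * m := by linarith
    exact_mod_cast this
  have hTCN : (m + s) * T + m * s ≤ s * Q := by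
    rw [← hk]
    exact_mod_cast hTC
  have ht1 : 2 * t + 1 ≤ m := by
    by_contra hcon
    push Not at hcon
    have h1 : s * m ≤ s * (2 * t) := Nat.mul_le_mul_left _ (by omega)
    linarith
  have ht2 : m * (t + 1) + T ≤ Q := by
    have h1 : s * (m * (t + 1) + T) ≤ s * Q := by
      have e : s * (m * (t + 1) + T) = m * (s * t) + m * s + s * T := by ring
      have h2 : m * (s * t) ≤ m * T := Nat.mul_le_mul_left _ hts
      linarith
    exact Nat.le_of_mul_le_mul_left h1 hs0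
  refine ⟨U, Y, P, hUY, by omega, ?_⟩
  unfold NC
  rw [← hTe, ← hQ, ← ht]
  refine ⟨by omega, Or.inr ?_, Or.inr (Or.inr ht1), Or.inr (Or.inr ⟨ht2, ?_⟩)⟩
  · rw [ht, hTe]
    have h1 : Y + 2 * s ≤ P + Y := by omega
    have h2 : (Y + 2 * s) / s ≤ (P + Y) / s := Nat.div_le_div_right h1
    have h3 : (Y + 2 * s) / s = Y / s + 2 := by
      rw [Nat.add_mul_div_right _ _ hs0]
    omega
  · linarith

end Pool.Agent.WarC
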