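import Pool.Agent.WarC.Stmts3

/-!
# Simultaneous Waring decompositions (MP_db021c_ag), cubics: module NUMFc

The numbers of the Horace step for `s = 3`.
-/

set_option autoImplicit false

open Pool.Agent.War

namespace Pool.Agent.WarC

namespace NUMFcaux

theorem two_mul_NN (n : ℕ) : 2 * NN n 2 = (n + 1) * (n + 2) := by
  induction n with
  | zero => simp [NN]
  | succ k ih =>
    have h := NN_succ k 1
    have h1 := NN_right_one (k + 1)
    have h2 : NN (k + 1) 2 = NN k 2 + NN (k + 1) 1 := h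
    nlinarith

theorem six_mul_NN (n : ℕ) : 6 * NN n 3 = (n + 1) * (n + 2) * (n + 3) := by
  induction n with
  | zero => simp [NN]
  | succ k ih =>
    have h2 : NN (k + 1) 3 = NN k 3 + NN (k + 1) 2 := NN_succ k 2
    have h1 := two_mul_NN (k + 1)
    nlinarith

/-- `binom(m+2, 2)` is an integer -/
theorem even_prod (m : ℕ) : 2 * ((m + 1) * (m + 2) / 2) = (m + 1) * (m + 2) := by
  rw [← two_mul_NN m]
  omega

/-- `3 N(m,3) = (m+3) binom(m+2,2)` -/
theorem three_mul_NN (m : ℕ) : 3 * NN m 3 = (m + 3) * ((m + 1) * (m + 2) / 2) := by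
  have h1 := six_mul_NN m
  have h2 := even_prod m
  have h3 : 2 * (3 * NN m 3) = 2 * ((m + 3) * ((m + 1) * (m + 2) / 2)) := by
    calc 2 * (3 * NN m 3) = 6 * NN m 3 := by ring
      _ = (m + 3) * ((m + 1) * (m + 2)) := by rw [h1]; ring
      _ = (m + 3) * (2 * ((m + 1) * (m + 2) / 2)) := by rw [h2]
      _ = 2 * ((m + 3) * ((m + 1) * (m + 2) / 2)) := by ring
  omega

end NUMFcaux

open NUMFcaux in
theorem x_NUMFc : S_NUMFc := by
  intro m h hm hh
  obtain ⟨k, rfl⟩ : ∃ k, m = k + 1 := ⟨m - 1, by omega⟩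
  set A : ℕ := (k + 1 + 1) * (k + 1 + 2) / 2 with hA
  have hA2 : 2 * A = (k + 1 + 1) * (k + 1 + 2) := even_prod (k + 1)
  have hN : 3 * NN (k + 1) 3 = (k + 1 + 3) * A := three_mul_NN (k + 1)
  set B : ℕ := (k + 1) * (k + 2) / 2 with hB
  have hB2 : 2 * B = (k + 1) * (k + 2) := even_prod k
  have hM : 3 * NN k 3 = (k + 3) * B := three_mul_NN k
  have hhA : h = A := by
    rcases hh with hh | hh
    · rw [hh, hN, Nat.mul_div_cancel_left _ (by omega)]
    · rw [hh, hN, Nat.mul_add_div (by omega), Nat.div_eq_of_lt (by omega), add_zero]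
  have hAB : k + 1 + 1 + B = A := by
    nlinarith
  refine ⟨B, 0, k + 1 + 1, ?_, ?_, ?_⟩
  · rw [show k + 1 - 1 = k by omega, hM, add_zero]
  · rw [hhA]
    omega
  · unfold NC
    rw [add_zero, ← hA]
    obtain ⟨t, ht⟩ : ∃ t, t = (k + 1 + 1) / 3 := ⟨_, rfl⟩
    have ht' : (k + 1 + 1) % 3 + 3 * t = k + 1 + 1 := by
      rw [ht]
      exact Nat.mod_add_div _ _
    have hlt : (k + 1 + 1) % 3 < 3 := Nat.mod_lt _ (by norm_num)
    rw [← ht]
    generalize (k + 1 + 1) % 3 = c at ht' hlt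
    have ht1 : 1 ≤ t := by omega
    refine ⟨by omega, Or.inl ⟨by omega, by omega⟩, ?_, ?_⟩
    · rcases (show c = 0 ∨ c = 1 ∨ c = 2 by omega) with hc | hc | hc
      · exact Or.inl ⟨hc, by omega⟩
      · exact Or.inr (Or.inl ⟨hc, by omega⟩)
      · exact Or.inr (Or.inr (by omega))
    · rcases (show c = 0 ∨ c = 1 ∨ c = 2 by omega) with hc | hc | hc
      · refine Or.inl ⟨hc, ?_⟩
        have hk : k + 2 = 3 * t := by omega
        nlinarith
      · refine Or.inr (Or.inl ⟨hc, ?_, ?_⟩)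
        · have hk : k + 1 = 3 * t := by omega
          nlinarith
        · have hk : k + 1 = 3 * t := by omega
          nlinarith
      · have hk : k = 3 * t := by omega
        refine Or.inr (Or.inr ⟨?_, ?_⟩)
        · subst hk
          nlinarith
        · subst hk
          nlinarith

end Pool.Agent.WarC
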