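import Pool.Agent.WarC.Stmts3
import Pool.Agent.WarC.PERT

/-!
# MP_db021c_ag, WC_PERTH: the perturbation lemma for quadrics with points on the hyperplane
-/

set_option autoImplicit false

open Module MvPolynomial
open Pool.Agent.War Pool.Agent.WarS Pool.Agent.WarQ

namespace Pool.Agent.WarC

namespace PERTHaux

/-- the space of quadrics attached to one form -/
noncomputable def VH (n : ℕ) {T : Type} (P Q : Finset T) (z : T → Fin n → ℂ) :
    Submodule ℂ (Pol n 2) :=
  Dbl n 2 P z ⊓ ⨅ q : {q : T × T // q.1 ∈ Q ∧ q.2 ∈ Q},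
    LinearMap.ker (ev n 2 (mid (z q.1.1) (z q.1.2)))

theorem sum_fib {T : Type} [Fintype T] {s : ℕ} (κ : T → Fin s) :
    ∑ k, fib κ k = Fintype.card T := by
  unfold fib
  rw [← Finset.card_univ]
  exact (Finset.card_eq_sum_card_fiberwise (f := κ) (s := Finset.univ) (t := Finset.univ)
    fun _ _ => Finset.mem_coe.2 (Finset.mem_univ _)).symm

theorem card_right {I Y : Type} [Fintype I] [Fintype Y] {s : ℕ} (κ : I ⊕ Y → Fin s) (k : Fin s) :
    ((Finset.univ.filter fun i => κ i = k).filter fun i => i.isRight = true).card =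
      fib (fun i : Y => κ (Sum.inr i)) k := by
  classical
  unfold fib
  rw [← Finset.card_map (⟨Sum.inr, Sum.inr_injective⟩ : Y ↪ I ⊕ Y)]
  congr 1
  ext x
  simp only [Finset.mem_filter, Finset.mem_univ, true_and, Finset.mem_map,
    Function.Embedding.coeFn_mk]
  constructor
  · rintro ⟨h1, h2⟩
    rcases x with i | y
    · simp at h2
    · exact ⟨y, h1, rfl⟩
  · rintro ⟨y, h1, rfl⟩
    exact ⟨h1, rfl⟩

end PERTHaux

open PERTHaux PERTaux in
theorem x_PERTH (hU : S_UKH) : S_PERTH := by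
  classical
  intro n s w I Y _ _ κ σ hσ hr hrY hex hw hineq
  -- the points
  have hgen : Gen ℂ fun x : (I → Fin (n + 1) → ℂ) × (Y → Fin n → ℂ) =>
      ∀ k : Fin s, finrank ℂ (VH (n + 1) (Finset.univ.filter fun i => κ i = σ k)
        (Finset.univ.filter fun i => κ i = k) (jn x.1 x.2)) ≤ w + (fib κ (σ k)).choose 2 -
        ((n + 1) * fib κ (σ k) + (fib κ k).choose 2) := by
    refine Gen.forall fun k => ?_
    have hd : Disjoint (Finset.univ.filter fun i => κ i = σ k)
        (Finset.univ.filter fun i => κ i = k) := by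
      rw [Finset.disjoint_left]
      intro i h1 h2
      rw [Finset.mem_filter] at h1 h2
      exact hσ k (h1.2.symm.trans h2.2)
    have hc : (Finset.univ.filter fun i => κ i = σ k).card +
        (Finset.univ.filter fun i => κ i = k).card ≤ n + 2 := by
      have := hr k
      unfold fib at this
      omega
    have hcY : ((Finset.univ.filter fun i => κ i = σ k).filter fun i => i.isRight = true).card +
        ((Finset.univ.filter fun i => κ i = k).filter fun i => i.isRight = true).card ≤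
        n + 1 := by
      rw [card_right, card_right]
      have := hrY k
      omega
    have he : ∃ i, Sum.inl i ∈ (Finset.univ.filter fun i => κ i = σ k) := by
      obtain ⟨i, hi⟩ := hex (σ k)
      exact ⟨i, Finset.mem_filter.2 ⟨Finset.mem_univ _, hi⟩⟩
    refine (hU n I Y _ _ hd hc hcY he).mono fun x hx => hx.trans ?_
    change NN (n + 1) 2 + (fib κ (σ k)).choose 2 - ((n + 1) * fib κ (σ k) +
      (Fintype.card I + Fintype.card Y) + (fib κ k).choose 2) ≤ _
    omega
  obtain ⟨x, hx⟩ := hgen.exists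
  obtain ⟨z, y⟩ := x
  dsimp only at hx
  obtain ⟨zz, hzz⟩ : ∃ zz : I ⊕ Y → Fin (n + 1) → ℂ, zz = jn z y := ⟨_, rfl⟩
  rw [← hzz] at hx
  -- the vectors
  let τ : I ⊕ Y → ℂ := fun i => ((Fintype.equivFin (I ⊕ Y) i : ℕ) : ℂ)
  have hτ : ∀ i i', τ i = τ i' → i = i' := by
    intro i i' h
    have h1 : ((Fintype.equivFin (I ⊕ Y) i : ℕ) : ℂ) = ((Fintype.equivFin (I ⊕ Y) i' : ℕ) : ℂ) := h
    exact (Fintype.equivFin (I ⊕ Y)).injective (Fin.ext (by exact_mod_cast h1))
  let A0 : I ⊕ Y → Fin s → ℂ := fun i => Pi.single (κ i) 1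
  let A1 : I ⊕ Y → Fin s → ℂ := fun i => τ i • Pi.single (σ (κ i)) 1
  let L : ℂ →ₗ[ℂ] (I ⊕ Y → Fin (n + 1) → ℂ) × (I ⊕ Y → Fin s → ℂ) :=
    LinearMap.toSpanSingleton ℂ _ (0, A1)
  have hLε : ∀ ε : ℂ, L ε + (zz, A0) = (zz, fun i j => (Pi.single (κ i) 1 : Fin s → ℂ) j +
      (ε * τ i) * (Pi.single (σ (κ i)) 1 : Fin s → ℂ) j) := by
    intro ε
    refine Prod.ext ?_ ?_
    · change ε • (0 : I ⊕ Y → Fin (n + 1) → ℂ) + zz = zz
      rw [smul_zero, zero_add]
    · funext i j
      change ε * (τ i * (Pi.single (σ (κ i)) 1 : Fin s → ℂ) j) +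
        (Pi.single (κ i) 1 : Fin s → ℂ) j = _
      ring
  let Z : ℂ → Submodule ℂ (Fin s → Pol (n + 1) 2) := fun ε =>
    FK (n + 1) 2 (L ε + (zz, A0)).1 (L ε + (zz, A0)).2 ⊓
    ⨅ q : {q : (I ⊕ Y) × (I ⊕ Y) // κ q.1 = κ q.2}, LinearMap.ker
      ((ev (n + 1) 2 (mid (zz q.1.1) (zz q.1.2))).comp
        (LinearMap.proj (σ (κ q.1.1)) : (Fin s → Pol (n + 1) 2) →ₗ[ℂ] Pol (n + 1) 2))
  have hPK : PK Z := by
    refine ((PK_FK (n + 1) 2).comp_affine L (zz, A0)).inf (PK.iInf fun q => ?_)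
    refine PK.one (φ := fun _ : ℂ =>
      ((ev (n + 1) 2 (mid (zz q.1.1) (zz q.1.2))).comp
        (LinearMap.proj (σ (κ q.1.1)) : (Fin s → Pol (n + 1) 2) →ₗ[ℂ] Pol (n + 1) 2)))
      fun v => LP.const _
  have hmem : ∀ (ε : ℂ) (f : Fin s → Pol (n + 1) 2),
      f ∈ FK (n + 1) 2 (L ε + (zz, A0)).1 (L ε + (zz, A0)).2 ↔
      (∀ i j, eval (zz i) (f j : MvPolynomial (Fin (n + 1)) ℂ) = 0) ∧
      ∀ (i : I ⊕ Y) (v : Fin (n + 1)),
        eval (zz i) (pderiv v (f (κ i) : MvPolynomial (Fin (n + 1)) ℂ)) + (ε * τ i) *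
          eval (zz i) (pderiv v (f (σ (κ i)) : MvPolynomial (Fin (n + 1)) ℂ)) = 0 := by
    intro ε f
    rw [hLε, mem_FK]
    refine and_congr_right fun _ => ⟨fun h i v => ?_, fun h i v => ?_⟩
    · have := h i v
      rw [sum_two] at this
      exact this
    · rw [sum_two]
      exact h i v
  have hZ : ∀ (ε : ℂ) (f : Fin s → Pol (n + 1) 2), f ∈ Z ε ↔
      f ∈ FK (n + 1) 2 (L ε + (zz, A0)).1 (L ε + (zz, A0)).2 ∧
      ∀ i i' : I ⊕ Y, κ i = κ i' → eval (mid (zz i) (zz i'))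
        (f (σ (κ i)) : MvPolynomial (Fin (n + 1)) ℂ) = 0 := by
    intro ε f
    rw [Submodule.mem_inf, Submodule.mem_iInf]
    refine and_congr_right fun _ => ⟨fun h i i' hii => ?_, fun h q => ?_⟩
    · have := h ⟨(i, i'), hii⟩
      rw [LinearMap.mem_ker, LinearMap.comp_apply, ev_apply] at this
      exact this
    · rw [LinearMap.mem_ker, LinearMap.comp_apply, ev_apply]
      exact h q.1.1 q.1.2 q.2
  -- the dimension for `ε = 0`
  have h0 : finrank ℂ (Z 0) ≤ s * w - (n + 1) * (Fintype.card I + Fintype.card Y) := by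
    have h1 : Z 0 ≤ Submodule.pi Set.univ fun m =>
        VH (n + 1) (Finset.univ.filter fun i => κ i = σ (σ.symm m))
          (Finset.univ.filter fun i => κ i = σ.symm m) zz := by
      intro f hf
      obtain ⟨hf1, hf2⟩ := (hZ 0 f).1 hf
      obtain ⟨hf3, hf4⟩ := (hmem 0 f).1 hf1
      refine Submodule.mem_pi.2 fun m _ => ?_
      obtain ⟨k, rfl⟩ := σ.surjective m
      rw [Equiv.symm_apply_apply]
      refine Submodule.mem_inf.2 ⟨mem_Dbl.2 ⟨fun i => hf3 i _, fun i hi v => ?_⟩, ?_⟩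
      · rw [Finset.mem_filter] at hi
        have := hf4 i v
        rw [zero_mul, zero_mul, add_zero, hi.2] at this
        exact this
      · refine (Submodule.mem_iInf _).2 fun q => ?_
        rw [LinearMap.mem_ker, ev_apply]
        have q1 := (Finset.mem_filter.1 q.2.1).2
        have q2 := (Finset.mem_filter.1 q.2.2).2
        have := hf2 q.1.1 q.1.2 (q1.trans q2.symm)
        rwa [q1] at this
    refine (Submodule.finrank_mono h1).trans ((finrank_pi_leC1 _).trans ?_)
    refine (Finset.sum_le_sum fun m _ => hx (σ.symm m)).trans ?_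
    rw [Equiv.sum_comp σ.symm fun k => w + (fib κ (σ k)).choose 2 -
      ((n + 1) * fib κ (σ k) + (fib κ k).choose 2)]
    have h2 : ∑ k, (w + (fib κ (σ k)).choose 2 -
          ((n + 1) * fib κ (σ k) + (fib κ k).choose 2)) +
        ∑ k, ((n + 1) * fib κ (σ k) + (fib κ k).choose 2) =
        ∑ k, (w + (fib κ (σ k)).choose 2) := by
      rw [← Finset.sum_add_distrib]
      exact Finset.sum_congr rfl fun k _ => Nat.sub_add_cancel (hineq k)
    rw [Finset.sum_add_distrib, Finset.sum_add_distrib,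
      Equiv.sum_comp σ fun k => (fib κ k).choose 2,
      Equiv.sum_comp σ fun k => (n + 1) * fib κ k, ← Finset.mul_sum, Finset.sum_const,
      Finset.card_univ, Fintype.card_fin, smul_eq_mul, sum_fib, Fintype.card_sum] at h2
    omega
  obtain ⟨ε, hε1, hε2⟩ := ((hPK.gen_finrank h0).and
    (Gen.ne (LP.linear (K := ℂ) LinearMap.id) 1 (by simp))).exists
  have hε : ε ≠ 0 := hε2
  refine ⟨z, y, (L ε + (zz, A0)).2, ?_⟩
  rw [← hzz]
  have hfst : (L ε + (zz, A0)).1 = zz := by rw [hLε]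
  refine (Submodule.finrank_mono ?_).trans hε1
  intro f hf
  have hf' : f ∈ FK (n + 1) 2 (L ε + (zz, A0)).1 (L ε + (zz, A0)).2 := by
    rw [hfst]
    exact hf
  obtain ⟨hf1, hf2⟩ := (hmem ε f).1 hf'
  refine (hZ ε f).2 ⟨hf', fun i i' hk => ?_⟩
  by_cases hii : i = i'
  · subst hii
    have : mid (zz i) (zz i) = zz i := by
      funext v
      simp only [mid]
      ring
    rw [this]
    exact hf1 _ _
  · obtain ⟨a1, a2⟩ := two_points (f (σ (κ i)) : MvPolynomial (Fin (n + 1)) ℂ)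
      (mem_Pol.1 (f (σ (κ i))).2) (zz i) (zz i') (hf1 _ _) (hf1 _ _)
    obtain ⟨-, b2⟩ := two_points (f (κ i) : MvPolynomial (Fin (n + 1)) ℂ)
      (mem_Pol.1 (f (κ i)).2) (zz i) (zz i') (hf1 _ _) (hf1 _ _)
    have s1 : ∑ v, eval (zz i) (pderiv v (f (κ i) : MvPolynomial (Fin (n + 1)) ℂ)) *
        (zz i' v - zz i v) + (ε * τ i) *
        ∑ v, eval (zz i) (pderiv v (f (σ (κ i)) : MvPolynomial (Fin (n + 1)) ℂ)) *
        (zz i' v - zz i v) = 0 := by
      rw [Finset.mul_sum, ← Finset.sum_add_distrib]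
      refine Finset.sum_eq_zero fun v _ => ?_
      linear_combination (zz i' v - zz i v) * hf2 i v
    have s2 : ∑ v, eval (zz i') (pderiv v (f (κ i) : MvPolynomial (Fin (n + 1)) ℂ)) *
        (zz i' v - zz i v) + (ε * τ i') *
        ∑ v, eval (zz i') (pderiv v (f (σ (κ i)) : MvPolynomial (Fin (n + 1)) ℂ)) *
        (zz i' v - zz i v) = 0 := by
      rw [Finset.mul_sum, ← Finset.sum_add_distrib]
      refine Finset.sum_eq_zero fun v _ => ?_
      have := hf2 i' v
      rw [← hk] at this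
      linear_combination (zz i' v - zz i v) * this
    rw [a2, b2] at s2
    have hne : ε * (τ i - τ i') ≠ 0 :=
      mul_ne_zero hε (sub_ne_zero.2 fun h => hii (hτ i i' h))
    have s3 : (ε * (τ i - τ i')) *
        ∑ v, eval (zz i) (pderiv v (f (σ (κ i)) : MvPolynomial (Fin (n + 1)) ℂ)) *
        (zz i' v - zz i v) = 0 := by
      linear_combination s1 + s2
    rw [a1, (mul_eq_zero.1 s3).resolve_left hne, zero_div]

end Pool.Agent.WarC
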