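import Pool.Agent.WarC.Stmts4
import Pool.Agent.WarC.PERTH

/-!
# MP_db021c_ag, WC_PERTH2: the perturbation lemma for quadrics with points on the hyperplane, where two
points of the same type get the same vector
-/

set_option autoImplicit false

open Module MvPolynomial
open Pool.Agent.War Pool.Agent.WarS Pool.Agent.WarQ

namespace Pool.Agent.WarC

namespace PERTH2aux

theorem mid_comm {n : ℕ} (z z' : Fin n → ℂ) : mid z z' = mid z' z := by
  funext v
  simp only [mid]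
  ring

theorem elim_two {Y A : Type} (y : Y ⊕ Fin 2 → A) :
    Sum.elim (fun i => y (Sum.inl i)) (two (y (Sum.inr 0)) (y (Sum.inr 1))) = y := by
  funext i
  rcases i with i | i
  · rfl
  · fin_cases i <;> rfl

/-- one functional lowers the dimension by at most one -/
theorem finrank_le_one {V : Type} [AddCommGroup V] [Module ℂ V] [FiniteDimensional ℂ V]
    (φ : V →ₗ[ℂ] ℂ) (Z : Submodule ℂ V) :
    finrank ℂ Z ≤ finrank ℂ ↥(Z ⊓ LinearMap.ker φ) + 1 := by
  have h := finrank_le_map_add_ker φ Z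
  have h1 : finrank ℂ (Z.map φ) ≤ 1 := by
    have := Submodule.finrank_le (Z.map φ)
    rwa [Module.finrank_self] at this
  omega

end PERTH2aux

open PERTH2aux PERTHaux PERTaux in
theorem x_PERTH2 (hU : S_UKH) : S_PERTH2 := by
  classical
  intro n s w I Y _ _ κ σ hσ hκ01 hr hrY hex hw hineq
  have hcardY : Fintype.card (Y ⊕ Fin 2) = Fintype.card Y + 2 := by
    rw [Fintype.card_sum, Fintype.card_fin]
  -- the points
  have hgen : Gen ℂ fun x : (I → Fin (n + 1) → ℂ) × ((Y ⊕ Fin 2) → Fin n → ℂ) =>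
      ∀ k : Fin s, finrank ℂ (VH (n + 1) (Finset.univ.filter fun i => κ i = σ k)
        (Finset.univ.filter fun i => κ i = k) (jn x.1 x.2)) ≤ w + (fib κ (σ k)).choose 2 -
        ((n + 1) * fib κ (σ k) + (fib κ k).choose 2) := by
    refine Gen.forall fun k => ?_
    have hd : Disjoint (Finset.univ.filter fun i => κ i = σ k)
        (Finset.univ.filter fun i => κ i = k) := by
      rw [Finset.disjoint_left]
      intro i h1 h2
      rw [Finset.mem_filter] at h1 h2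
      exact hσ k (h1.2.symm.trans h2.2)
    have hc : (Finset.univ.filter fun i => κ i = σ k).card +
        (Finset.univ.filter fun i => κ i = k).card ≤ n + 2 := by
      have := hr k
      unfold fib at this
      omega
    have hcY : ((Finset.univ.filter fun i => κ i = σ k).filter fun i => i.isRight = true).card +
        ((Finset.univ.filter fun i => κ i = k).filter fun i => i.isRight = true).card ≤
        n + 1 := by
      rw [card_right, card_right]
      have := hrY k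
      omega
    have he : ∃ i, Sum.inl i ∈ (Finset.univ.filter fun i => κ i = σ k) := by
      obtain ⟨i, hi⟩ := hex (σ k)
      exact ⟨i, Finset.mem_filter.2 ⟨Finset.mem_univ _, hi⟩⟩
    refine (hU n I (Y ⊕ Fin 2) _ _ hd hc hcY he).mono fun x hx => hx.trans ?_
    change NN (n + 1) 2 + (fib κ (σ k)).choose 2 - ((n + 1) * fib κ (σ k) +
      (Fintype.card I + Fintype.card (Y ⊕ Fin 2)) + (fib κ k).choose 2) ≤ _
    omega
  obtain ⟨x, hx⟩ := hgen.exists
  obtain ⟨z, y⟩ := x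
  dsimp only at hx
  obtain ⟨zz, hzz⟩ : ∃ zz : I ⊕ (Y ⊕ Fin 2) → Fin (n + 1) → ℂ, zz = jn z y := ⟨_, rfl⟩
  rw [← hzz] at hx
  -- the vectors
  obtain ⟨t0, ht0⟩ : ∃ t : I ⊕ (Y ⊕ Fin 2), t = Sum.inr (Sum.inr 0) := ⟨_, rfl⟩
  obtain ⟨t1, ht1⟩ : ∃ t : I ⊕ (Y ⊕ Fin 2), t = Sum.inr (Sum.inr 1) := ⟨_, rfl⟩
  rw [← ht0, ← ht1] at hκ01
  let τ0 : I ⊕ (Y ⊕ Fin 2) → ℂ := fun i => ((Fintype.equivFin (I ⊕ (Y ⊕ Fin 2)) i : ℕ) : ℂ)
  have hτ0 : ∀ i i', τ0 i = τ0 i' → i = i' := by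
    intro i i' h
    have h1 : ((Fintype.equivFin (I ⊕ (Y ⊕ Fin 2)) i : ℕ) : ℂ) =
      ((Fintype.equivFin (I ⊕ (Y ⊕ Fin 2)) i' : ℕ) : ℂ) := h
    exact (Fintype.equivFin (I ⊕ (Y ⊕ Fin 2))).injective (Fin.ext (by exact_mod_cast h1))
  obtain ⟨τ, hτd⟩ : ∃ τ : I ⊕ (Y ⊕ Fin 2) → ℂ, τ = fun i => if i = t1 then τ0 t0 else τ0 i :=
    ⟨_, rfl⟩
  have hτ01 : τ t1 = τ t0 := by
    rw [hτd]
    simp
  have hτ : ∀ i i', τ i = τ i' → i = i' ∨ (i = t0 ∧ i' = t1) ∨ (i = t1 ∧ i' = t0) := by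
    intro i i' h
    rw [hτd] at h
    dsimp only at h
    by_cases h1 : i = t1
    · by_cases h2 : i' = t1
      · exact Or.inl (h1.trans h2.symm)
      · rw [if_pos h1, if_neg h2] at h
        exact Or.inr (Or.inr ⟨h1, (hτ0 _ _ h).symm⟩)
    · by_cases h2 : i' = t1
      · rw [if_neg h1, if_pos h2] at h
        exact Or.inr (Or.inl ⟨hτ0 _ _ h, h2⟩)
      · rw [if_neg h1, if_neg h2] at h
        exact Or.inl (hτ0 _ _ h)
  let A0 : I ⊕ (Y ⊕ Fin 2) → Fin s → ℂ := fun i => Pi.single (κ i) 1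
  let A1 : I ⊕ (Y ⊕ Fin 2) → Fin s → ℂ := fun i => τ i • Pi.single (σ (κ i)) 1
  let L : ℂ →ₗ[ℂ] (I ⊕ (Y ⊕ Fin 2) → Fin (n + 1) → ℂ) × (I ⊕ (Y ⊕ Fin 2) → Fin s → ℂ) :=
    LinearMap.toSpanSingleton ℂ _ (0, A1)
  have hLε : ∀ ε : ℂ, L ε + (zz, A0) = (zz, fun i j => (Pi.single (κ i) 1 : Fin s → ℂ) j +
      (ε * τ i) * (Pi.single (σ (κ i)) 1 : Fin s → ℂ) j) := by
    intro ε
    refine Prod.ext ?_ ?_
    · change ε • (0 : I ⊕ (Y ⊕ Fin 2) → Fin (n + 1) → ℂ) + zz = zz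
      rw [smul_zero, zero_add]
    · funext i j
      change ε * (τ i * (Pi.single (σ (κ i)) 1 : Fin s → ℂ) j) +
        (Pi.single (κ i) 1 : Fin s → ℂ) j = _
      ring
  let Z : ℂ → Submodule ℂ (Fin s → Pol (n + 1) 2) := fun ε =>
    FK (n + 1) 2 (L ε + (zz, A0)).1 (L ε + (zz, A0)).2 ⊓
    ⨅ q : {q : (I ⊕ (Y ⊕ Fin 2)) × (I ⊕ (Y ⊕ Fin 2)) // κ q.1 = κ q.2 ∧
      ¬(q.1 = t0 ∧ q.2 = t1) ∧ ¬(q.1 = t1 ∧ q.2 = t0)}, LinearMap.ker
      ((ev (n + 1) 2 (mid (zz q.1.1) (zz q.1.2))).comp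
        (LinearMap.proj (σ (κ q.1.1)) : (Fin s → Pol (n + 1) 2) →ₗ[ℂ] Pol (n + 1) 2))
  have hPK : PK Z := by
    refine ((PK_FK (n + 1) 2).comp_affine L (zz, A0)).inf (PK.iInf fun q => ?_)
    refine PK.one (φ := fun _ : ℂ =>
      ((ev (n + 1) 2 (mid (zz q.1.1) (zz q.1.2))).comp
        (LinearMap.proj (σ (κ q.1.1)) : (Fin s → Pol (n + 1) 2) →ₗ[ℂ] Pol (n + 1) 2)))
      fun v => LP.const _
  have hmem : ∀ (ε : ℂ) (f : Fin s → Pol (n + 1) 2),
      f ∈ FK (n + 1) 2 (L ε + (zz, A0)).1 (L ε + (zz, A0)).2 ↔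
      (∀ i j, eval (zz i) (f j : MvPolynomial (Fin (n + 1)) ℂ) = 0) ∧
      ∀ (i : I ⊕ (Y ⊕ Fin 2)) (v : Fin (n + 1)),
        eval (zz i) (pderiv v (f (κ i) : MvPolynomial (Fin (n + 1)) ℂ)) + (ε * τ i) *
          eval (zz i) (pderiv v (f (σ (κ i)) : MvPolynomial (Fin (n + 1)) ℂ)) = 0 := by
    intro ε f
    rw [hLε, mem_FK]
    refine and_congr_right fun _ => ⟨fun h i v => ?_, fun h i v => ?_⟩
    · have := h i v
      rw [sum_two] at this
      exact this
    · rw [sum_two]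
      exact h i v
  have hZ : ∀ (ε : ℂ) (f : Fin s → Pol (n + 1) 2), f ∈ Z ε ↔
      f ∈ FK (n + 1) 2 (L ε + (zz, A0)).1 (L ε + (zz, A0)).2 ∧
      ∀ i i' : I ⊕ (Y ⊕ Fin 2), κ i = κ i' → ¬(i = t0 ∧ i' = t1) → ¬(i = t1 ∧ i' = t0) →
        eval (mid (zz i) (zz i'))
        (f (σ (κ i)) : MvPolynomial (Fin (n + 1)) ℂ) = 0 := by
    intro ε f
    rw [Submodule.mem_inf, Submodule.mem_iInf]
    refine and_congr_right fun _ => ⟨fun h i i' hii hn1 hn2 => ?_, fun h q => ?_⟩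
    · have := h ⟨(i, i'), hii, hn1, hn2⟩
      rw [LinearMap.mem_ker, LinearMap.comp_apply, ev_apply] at this
      exact this
    · rw [LinearMap.mem_ker, LinearMap.comp_apply, ev_apply]
      exact h q.1.1 q.1.2 q.2.1 q.2.2.1 q.2.2.2
  -- the dimension for `ε = 0`
  obtain ⟨φ, hφ⟩ : ∃ φ : (Fin s → Pol (n + 1) 2) →ₗ[ℂ] ℂ, φ =
      (ev (n + 1) 2 (mid (zz t0) (zz t1))).comp
        (LinearMap.proj (σ (κ t0)) : (Fin s → Pol (n + 1) 2) →ₗ[ℂ] Pol (n + 1) 2) := ⟨_, rfl⟩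
  have h0 : finrank ℂ (Z 0) ≤
      s * w - (n + 1) * (Fintype.card I + (Fintype.card Y + 2)) + 1 := by
    refine (finrank_le_one φ (Z 0)).trans (Nat.add_le_add_right ?_ 1)
    have h1 : Z 0 ⊓ LinearMap.ker φ ≤ Submodule.pi Set.univ fun m =>
        VH (n + 1) (Finset.univ.filter fun i => κ i = σ (σ.symm m))
          (Finset.univ.filter fun i => κ i = σ.symm m) zz := by
      intro f hf
      obtain ⟨hf1, hf2⟩ := (hZ 0 f).1 (Submodule.mem_inf.1 hf).1
      have hf5 : eval (mid (zz t0) (zz t1))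
          (f (σ (κ t0)) : MvPolynomial (Fin (n + 1)) ℂ) = 0 := by
        have := LinearMap.mem_ker.1 (Submodule.mem_inf.1 hf).2
        rwa [hφ, LinearMap.comp_apply, ev_apply] at this
      obtain ⟨hf3, hf4⟩ := (hmem 0 f).1 hf1
      refine Submodule.mem_pi.2 fun m _ => ?_
      obtain ⟨k, rfl⟩ := σ.surjective m
      rw [Equiv.symm_apply_apply]
      refine Submodule.mem_inf.2 ⟨mem_Dbl.2 ⟨fun i => hf3 i _, fun i hi v => ?_⟩, ?_⟩
      · rw [Finset.mem_filter] at hi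
        have := hf4 i v
        rw [zero_mul, zero_mul, add_zero, hi.2] at this
        exact this
      · refine (Submodule.mem_iInf _).2 fun q => ?_
        rw [LinearMap.mem_ker, ev_apply]
        have q1 := (Finset.mem_filter.1 q.2.1).2
        have q2 := (Finset.mem_filter.1 q.2.2).2
        by_cases hn1 : q.1.1 = t0 ∧ q.1.2 = t1
        · have h6 : κ t0 = k := hn1.1 ▸ q1
          rw [hn1.1, hn1.2, ← h6]
          exact hf5
        by_cases hn2 : q.1.1 = t1 ∧ q.1.2 = t0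
        · have h6 : κ t0 = k := hn2.2 ▸ q2
          rw [hn2.1, hn2.2, mid_comm, ← h6]
          exact hf5
        have := hf2 q.1.1 q.1.2 (q1.trans q2.symm) hn1 hn2
        rwa [q1] at this
    refine (Submodule.finrank_mono h1).trans ((finrank_pi_leC1 _).trans ?_)
    refine (Finset.sum_le_sum fun m _ => hx (σ.symm m)).trans ?_
    rw [Equiv.sum_comp σ.symm fun k => w + (fib κ (σ k)).choose 2 -
      ((n + 1) * fib κ (σ k) + (fib κ k).choose 2)]
    have h2 : ∑ k, (w + (fib κ (σ k)).choose 2 -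
          ((n + 1) * fib κ (σ k) + (fib κ k).choose 2)) +
        ∑ k, ((n + 1) * fib κ (σ k) + (fib κ k).choose 2) =
        ∑ k, (w + (fib κ (σ k)).choose 2) := by
      rw [← Finset.sum_add_distrib]
      exact Finset.sum_congr rfl fun k _ => Nat.sub_add_cancel (hineq k)
    rw [Finset.sum_add_distrib, Finset.sum_add_distrib,
      Equiv.sum_comp σ fun k => (fib κ k).choose 2,
      Equiv.sum_comp σ fun k => (n + 1) * fib κ k, ← Finset.mul_sum, Finset.sum_const,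
      Finset.card_univ, Fintype.card_fin, smul_eq_mul, sum_fib, Fintype.card_sum, hcardY] at h2
    omega
  obtain ⟨ε, hε1, hε2⟩ := ((hPK.gen_finrank h0).and
    (Gen.ne (LP.linear (K := ℂ) LinearMap.id) 1 (by simp))).exists
  have hε : ε ≠ 0 := hε2
  refine ⟨z, fun i => y (Sum.inl i), y (Sum.inr 0), y (Sum.inr 1),
    fun i => (L ε + (zz, A0)).2 (Sum.inl i), fun i => (L ε + (zz, A0)).2 (Sum.inr (Sum.inl i)),
    (L ε + (zz, A0)).2 t0, ?_⟩
  have hvec : Sum.elim (fun i => (L ε + (zz, A0)).2 (Sum.inl i))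
      (Sum.elim (fun i => (L ε + (zz, A0)).2 (Sum.inr (Sum.inl i)))
        fun _ : Fin 2 => (L ε + (zz, A0)).2 t0) = (L ε + (zz, A0)).2 := by
    funext i
    rcases i with i | i | i
    · rfl
    · rfl
    · change (L ε + (zz, A0)).2 t0 = (L ε + (zz, A0)).2 (Sum.inr (Sum.inr i))
      fin_cases i
      · rw [ht0]
        rfl
      · change (L ε + (zz, A0)).2 t0 = (L ε + (zz, A0)).2 (Sum.inr (Sum.inr 1))
        rw [← ht1, hLε]
        dsimp only
        rw [hκ01, hτ01]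
  rw [elim_two, hvec, ← hzz]
  have hfst : (L ε + (zz, A0)).1 = zz := by rw [hLε]
  refine (Submodule.finrank_mono ?_).trans hε1
  intro f hf
  have hf' : f ∈ FK (n + 1) 2 (L ε + (zz, A0)).1 (L ε + (zz, A0)).2 := by
    rw [hfst]
    exact hf
  obtain ⟨hf1, hf2⟩ := (hmem ε f).1 hf'
  refine (hZ ε f).2 ⟨hf', fun i i' hk hn1 hn2 => ?_⟩
  by_cases hii : i = i'
  · subst hii
    have : mid (zz i) (zz i) = zz i := by
      funext v
      simp only [mid]
      ring
    rw [this]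
    exact hf1 _ _
  · obtain ⟨a1, a2⟩ := two_points (f (σ (κ i)) : MvPolynomial (Fin (n + 1)) ℂ)
      (mem_Pol.1 (f (σ (κ i))).2) (zz i) (zz i') (hf1 _ _) (hf1 _ _)
    obtain ⟨-, b2⟩ := two_points (f (κ i) : MvPolynomial (Fin (n + 1)) ℂ)
      (mem_Pol.1 (f (κ i)).2) (zz i) (zz i') (hf1 _ _) (hf1 _ _)
    have s1 : ∑ v, eval (zz i) (pderiv v (f (κ i) : MvPolynomial (Fin (n + 1)) ℂ)) *
        (zz i' v - zz i v) + (ε * τ i) *
        ∑ v, eval (zz i) (pderiv v (f (σ (κ i)) : MvPolynomial (Fin (n + 1)) ℂ)) *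
        (zz i' v - zz i v) = 0 := by
      rw [Finset.mul_sum, ← Finset.sum_add_distrib]
      refine Finset.sum_eq_zero fun v _ => ?_
      linear_combination (zz i' v - zz i v) * hf2 i v
    have s2 : ∑ v, eval (zz i') (pderiv v (f (κ i) : MvPolynomial (Fin (n + 1)) ℂ)) *
        (zz i' v - zz i v) + (ε * τ i') *
        ∑ v, eval (zz i') (pderiv v (f (σ (κ i)) : MvPolynomial (Fin (n + 1)) ℂ)) *
        (zz i' v - zz i v) = 0 := by
      rw [Finset.mul_sum, ← Finset.sum_add_distrib]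
      refine Finset.sum_eq_zero fun v _ => ?_
      have := hf2 i' v
      rw [← hk] at this
      linear_combination (zz i' v - zz i v) * this
    rw [a2, b2] at s2
    have hne : ε * (τ i - τ i') ≠ 0 :=
      mul_ne_zero hε (sub_ne_zero.2 fun h => by
        rcases hτ i i' h with h | h | h
        · exact hii h
        · exact hn1 h
        · exact hn2 h)
    have s3 : (ε * (τ i - τ i')) *
        ∑ v, eval (zz i) (pderiv v (f (σ (κ i)) : MvPolynomial (Fin (n + 1)) ℂ)) *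
        (zz i' v - zz i v) = 0 := by
      linear_combination s1 + s2
    rw [a1, (mul_eq_zero.1 s3).resolve_left hne, zero_div]

end Pool.Agent.WarC
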