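import Pool.Agent.WarC.Stmts3
import Pool.Agent.War5.QD

/-!
# Simultaneous Waring decompositions (MP_db021c_ag), cubics: the residual space (`S_RESC`)   (helper75)
-/

set_option autoImplicit false

open Module MvPolynomial
open Pool.Agent.War Pool.Agent.WarS Pool.Agent.WarQ

namespace Pool.Agent.WarC

namespace RESCaux

/-- a finite number of functionals lowers the dimension by at most their number -/
theorem finrank_le_add {V : Type} [AddCommGroup V] [Module ℂ V] [FiniteDimensional ℂ V] {Y : Type}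
    [Fintype Y] (φ : Y → V →ₗ[ℂ] ℂ) (W : Submodule ℂ V) :
    finrank ℂ W ≤ finrank ℂ ↥(W ⊓ ⨅ i, LinearMap.ker (φ i)) + Fintype.card Y := by
  have h1 := finrank_le_map_add_ker (LinearMap.pi φ) W
  have h2 : finrank ℂ (W.map (LinearMap.pi φ)) ≤ Fintype.card Y := by
    refine (Submodule.finrank_le _).trans ?_
    rw [Module.finrank_fintype_fun_eq_card]
  have h3 : LinearMap.ker (LinearMap.pi φ) = ⨅ i, LinearMap.ker (φ i) := LinearMap.ker_pi φ
  rw [h3] at h1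
  omega

/-- degree one: a double point kills everything -/
theorem lin_zero' {n : ℕ} {g : MvPolynomial (Fin n) ℂ} (hg : g.totalDegree ≤ 1)
    {z : Fin n → ℂ} (h0 : eval z g = 0) (h1 : ∀ k, eval z (pderiv k g) = 0) : g = 0 := by
  have h2 : g - C (eval 0 g) = 0 := by
    refine War5.QDaux.lin_zero (z := z) ?_ ?_ fun k => ?_
    · refine (totalDegree_sub _ _).trans (max_le hg ?_)
      simp
    · simp
    · rw [map_sub, pderiv_C, sub_zero]
      exact h1 k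
  have h3 : g = C (eval 0 g) := sub_eq_zero.1 h2
  rw [h3, eval_C] at h0
  rw [h3, h0, C_0]

variable {n s : ℕ} {I U Y : Type}

/-- the parameters -/
abbrev AX (n s : ℕ) (I Y : Type) : Type :=
  ((I → Fin (n + 1) → ℂ) × (I → Fin s → ℂ)) × ((Y → Fin n → ℂ) × (Y → Fin s → ℂ))

theorem LP_pt (i : Y) (f : MvPolynomial (Fin (n + 1)) ℂ) :
    LP (K := ℂ) (X := (Y → Fin n → ℂ) × (Y → Fin s → ℂ)) fun x => eval (hp (x.1 i)) f :=
  (((LP_eval f).comp_linear (hpL n)).comp_linear (pt i)).comp_linear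
    (LinearMap.fst ℂ (Y → Fin n → ℂ) (Y → Fin s → ℂ))

theorem LP_vec (i : Y) (j : Fin s) :
    LP (K := ℂ) (X := (Y → Fin n → ℂ) × (Y → Fin s → ℂ)) fun x => x.2 i j :=
  LP.linear ((LinearMap.proj j : (Fin s → ℂ) →ₗ[ℂ] ℂ).comp
    ((LinearMap.proj i : (Y → Fin s → ℂ) →ₗ[ℂ] (Fin s → ℂ)).comp
      (LinearMap.snd ℂ (Y → Fin n → ℂ) (Y → Fin s → ℂ))))

theorem PK_RV [Fintype I] [Fintype Y] :
    PK (K := ℂ) fun x : AX n s I Y => RV n x.1.1 x.1.2 x.2.1 x.2.2 := by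
  refine PK.inf (PK.inf ?_ ?_) ?_
  · exact (PK_FK (n + 1) 2 (s := s) (I := I)).comp
      (LinearMap.fst ℂ ((I → Fin (n + 1) → ℂ) × (I → Fin s → ℂ))
        ((Y → Fin n → ℂ) × (Y → Fin s → ℂ)))
  · refine PK.iInf fun q => PK.one (φ := fun x : AX n s I Y => (ev (n + 1) 2 (hp (x.2.1 q.1))).comp
      (LinearMap.proj q.2 : (Fin s → Pol (n + 1) 2) →ₗ[ℂ] Pol (n + 1) 2)) fun g => ?_
    simp only [LinearMap.comp_apply, LinearMap.proj_apply, ev_apply]
    exact (LP_pt (s := s) q.1 _).comp_linear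
      (LinearMap.snd ℂ ((I → Fin (n + 1) → ℂ) × (I → Fin s → ℂ))
        ((Y → Fin n → ℂ) × (Y → Fin s → ℂ)))
  · refine PK.iInf fun q => PK.one
      (φ := fun x : AX n s I Y => gr (n + 1) 2 q.2.succ (hp (x.2.1 q.1)) (x.2.2 q.1)) fun g => ?_
    simp only [gr_apply]
    exact (LP.sum _ fun j _ => (LP_vec (n := n) q.1 j).mul (LP_pt (s := s) q.1 _)).comp_linear
      (LinearMap.snd ℂ ((I → Fin (n + 1) → ℂ) × (I → Fin s → ℂ))
        ((Y → Fin n → ℂ) × (Y → Fin s → ℂ)))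

/-- the conditions missing for full points -/
theorem RV_inf_le [Fintype Y] (w : I → Fin (n + 1) → ℂ) (y : Y → Fin n → ℂ)
    (a : I ⊕ Y → Fin s → ℂ) :
    (RV n w (fun i => a (Sum.inl i)) y (fun i => a (Sum.inr i)) ⊓
      ⨅ i, LinearMap.ker (gr (n + 1) 2 0 (hp (y i)) (a (Sum.inr i)))) ≤
    FK (n + 1) 2 (jn w y) a := by
  rintro g ⟨h1, h2⟩
  obtain ⟨h3, h4, h5⟩ := mem_RV.1 h1
  obtain ⟨h6, h7⟩ := mem_FK.1 h3
  refine mem_FK.2 ⟨?_, ?_⟩
  · rintro (i | i) j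
    · exact h6 i j
    · exact h4 i j
  · rintro (i | i) k
    · exact h7 i k
    · refine Fin.cases ?_ (fun k => ?_) k
      · have h8 := (Submodule.mem_iInf _).1 h2 i
        rw [LinearMap.mem_ker, gr_apply] at h8
        exact h8
      · exact h5 i k

/-- multiplication by `x₀` on tuples -/
noncomputable def mX (n s : ℕ) : (Fin s → Pol (n + 1) 1) →ₗ[ℂ] (Fin s → Pol (n + 1) 2) :=
  LinearMap.pi fun j => (mulX n 1).comp (LinearMap.proj j)

theorem mX_apply (l : Fin s → Pol (n + 1) 1) (j : Fin s) :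
    ((mX n s l j : Pol (n + 1) 2) : MvPolynomial (Fin (n + 1)) ℂ) =
      X 0 * (l j : MvPolynomial (Fin (n + 1)) ℂ) := rfl

theorem gen_nd [Fintype I] [Fintype Y] (hs : 1 ≤ s) (hI : s ≤ Fintype.card I) :
    Gen ℂ fun x : AX n s I Y => (RV n x.1.1 x.1.2 x.2.1 x.2.2).comap (mX n s) = ⊥ := by
  classical
  obtain ⟨κ, hκ⟩ : ∃ κ : I → Fin s, Function.Surjective κ := by
    have : Nonempty (Fin s ↪ I) :=
      Function.Embedding.nonempty_of_card_le (by rw [Fintype.card_fin]; exact hI)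
    obtain ⟨e⟩ := this
    have : Nonempty (Fin s) := ⟨⟨0, hs⟩⟩
    exact ⟨Function.invFun e, Function.invFun_surjective e.injective⟩
  refine (PK_RV.comap (mX n s)).gen_bot
    (x₀ := ((fun _ => Pi.single 0 1, fun i => Pi.single (κ i) 1), (0, 0))) ?_
  rw [eq_bot_iff]
  intro l hl
  rw [Submodule.mem_comap] at hl
  change mX n s l ∈ RV n (fun _ : I => (Pi.single 0 1 : Fin (n + 1) → ℂ))
    (fun i => (Pi.single (κ i) 1 : Fin s → ℂ)) 0 0 at hl
  obtain ⟨h1, -, -⟩ := mem_RV.1 hl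
  obtain ⟨h2, h3⟩ := mem_FK.1 h1
  rw [Submodule.mem_bot]
  funext j
  obtain ⟨i, rfl⟩ := hκ j
  apply Subtype.ext
  have e0 : eval (Pi.single 0 1 : Fin (n + 1) → ℂ)
      (l (κ i) : MvPolynomial (Fin (n + 1)) ℂ) = 0 := by
    have h := h2 i (κ i)
    rw [mX_apply, eval_X_mulC1, Pi.single_eq_same, one_mul] at h
    exact h
  refine lin_zero' (z := Pi.single 0 1) (mem_Pol.1 (l (κ i)).2) e0 fun k => ?_
  have h := h3 i k
  simp only [mX_apply, eval_pderiv_X_mulC1] at h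
  rw [Finset.sum_eq_single (κ i)] at h
  · rw [Pi.single_eq_same, one_mul, e0, mul_zero, add_zero, Pi.single_eq_same, one_mul] at h
    exact h
  · intro j _ hj
    rw [Pi.single_eq_of_ne hj, zero_mul]
  · intro hj
    exact absurd (Finset.mem_univ _) hj

theorem PK_RS [Fintype I] [Fintype U] [Fintype Y] :
    PK (K := ℂ) fun x : ((I → Fin (n + 1) → ℂ) × (I → Fin s → ℂ)) ×
      ((U → Fin n → ℂ) × (U → Fin s → ℂ)) × ((Y → Fin n → ℂ) × (Y → Fin s → ℂ)) =>
      RS n x.1.1 x.1.2 x.2.1.1 x.2.1.2 x.2.2.1 x.2.2.2 := by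
  refine PK.inf ?_ ?_
  · let L : ((I → Fin (n + 1) → ℂ) × (I → Fin s → ℂ)) ×
        ((U → Fin n → ℂ) × (U → Fin s → ℂ)) × ((Y → Fin n → ℂ) × (Y → Fin s → ℂ)) →ₗ[ℂ]
        AX n s I Y := LinearMap.prodMap LinearMap.id (LinearMap.snd ℂ _ _)
    exact PK_RV.comp L
  · refine PK.iInf fun i => PK.one
      (φ := fun x : ((I → Fin (n + 1) → ℂ) × (I → Fin s → ℂ)) ×
        ((U → Fin n → ℂ) × (U → Fin s → ℂ)) × ((Y → Fin n → ℂ) × (Y → Fin s → ℂ)) =>
        om (n + 1) 2 (hp (x.2.1.1 i)) (x.2.1.2 i)) fun g => ?_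
    simp only [om_apply]
    exact (LP.sum _ fun j _ => (LP_vec (n := n) i j).mul (LP_pt (s := s) i _)).comp_linear
      ((LinearMap.fst ℂ ((U → Fin n → ℂ) × (U → Fin s → ℂ))
        ((Y → Fin n → ℂ) × (Y → Fin s → ℂ))).comp
        (LinearMap.snd ℂ ((I → Fin (n + 1) → ℂ) × (I → Fin s → ℂ)) _))

end RESCaux

open RESCaux in
theorem x_RESC : S_RESC := by
  classical
  intro n s B I U Y _ _ _ hs hI hx
  obtain ⟨z₀, y₀, a₀, h₀⟩ := hx
  have gA : Gen ℂ fun x : AX n s I Y =>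
      finrank ℂ (RV n x.1.1 x.1.2 x.2.1 x.2.2) ≤ B + Fintype.card Y := by
    refine PK_RV.gen_finrank
      (x₀ := ((z₀, fun i => a₀ (Sum.inl i)), (y₀, fun i => a₀ (Sum.inr i)))) ?_
    refine (finrank_le_add
      (fun i : Y => gr (n + 1) 2 0 (hp (y₀ i)) (a₀ (Sum.inr i))) _).trans ?_
    exact Nat.add_le_add_right ((Submodule.finrank_mono (RV_inf_le z₀ y₀ a₀)).trans h₀) _
  obtain ⟨x, hx1, hx2⟩ := (gA.and (gen_nd hs hI)).exists
  have hred : ∀ g ∈ RV n x.1.1 x.1.2 x.2.1 x.2.2,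
      g ∉ (⊥ : Submodule ℂ (Fin s → Pol (n + 1) 2)) →
      ∃ p : (Fin n → ℂ) × (Fin s → ℂ), om (n + 1) 2 (hp p.1) p.2 g ≠ 0 := by
    intro g hg hg0
    by_contra hcon
    push Not at hcon
    apply hg0
    have t2 : ∀ j, ∃ l : Pol (n + 1) 1, g j = mulX n 1 l := fun j => by
      refine exists_mulXC1 (MvPolynomial.funext fun p => ?_)
      rw [map_zero]
      have h := hcon (p, Pi.single j 1)
      rw [om_apply] at h
      simpa [Pi.single_apply, eval_hp] using h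
    choose l hl using t2
    have e1 : mX n s l = g := by
      funext j
      exact (hl j).symm
    have e2 : l ∈ (RV n x.1.1 x.1.2 x.2.1 x.2.2).comap (mX n s) := by
      rw [Submodule.mem_comap, e1]
      exact hg
    rw [hx2, Submodule.mem_bot] at e2
    rw [Submodule.mem_bot, ← e1, e2, map_zero]
  obtain ⟨yy, hyy⟩ := red (fun p : (Fin n → ℂ) × (Fin s → ℂ) => om (n + 1) 2 (hp p.1) p.2)
    _ ⊥ hred (Fintype.card U)
  rw [finrank_bot] at hyy
  refine PK_RS.gen_finrank (x₀ := (x.1, ((fun i => (yy (Fintype.equivFin U i)).1,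
    fun i => (yy (Fintype.equivFin U i)).2), x.2))) ?_
  refine le_trans (Submodule.finrank_mono ?_) (hyy.trans ?_)
  · rintro g ⟨h1, h2⟩
    refine ⟨h1, (Submodule.mem_iInf _).2 fun i => ?_⟩
    have h3 := (Submodule.mem_iInf _).1 h2 ((Fintype.equivFin U).symm i)
    simp only [Equiv.apply_symm_apply] at h3
    exact h3
  · exact max_le (Nat.sub_le_sub_right hx1 _) (Nat.zero_le _)

end Pool.Agent.WarC
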