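import Pool.Agent.WarC.Stmts4
import Pool.Agent.WarC.RESC

/-!
# Simultaneous Waring decompositions (MP_db021c_ag), cubics: the residual space for a linear family of
near points and vectors (`S_RESCL`)   (helper23, after `RESC.lean` of helper75)
-/

set_option autoImplicit false

open Module MvPolynomial
open Pool.Agent.War Pool.Agent.WarS Pool.Agent.WarQ

namespace Pool.Agent.WarC

namespace RESCLaux

open RESCaux

variable {n s : ℕ} {I U Y : Type}

theorem nd_at (κ : I → Fin s) (hκ : Function.Surjective κ) (y : Y → Fin n → ℂ)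
    (α : Y → Fin s → ℂ) :
    (RV n (fun _ : I => (Pi.single 0 1 : Fin (n + 1) → ℂ))
      (fun i => (Pi.single (κ i) 1 : Fin s → ℂ)) y α).comap (mX n s) = ⊥ := by
  rw [eq_bot_iff]
  intro l hl
  rw [Submodule.mem_comap] at hl
  obtain ⟨h1, -, -⟩ := mem_RV.1 hl
  obtain ⟨h2, h3⟩ := mem_FK.1 h1
  rw [Submodule.mem_bot]
  funext j
  obtain ⟨i, rfl⟩ := hκ j
  apply Subtype.ext
  have e0 : eval (Pi.single 0 1 : Fin (n + 1) → ℂ)
      (l (κ i) : MvPolynomial (Fin (n + 1)) ℂ) = 0 := by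
    have h := h2 i (κ i)
    rw [mX_apply, eval_X_mulC1, Pi.single_eq_same, one_mul] at h
    exact h
  refine lin_zero' (z := Pi.single 0 1) (mem_Pol.1 (l (κ i)).2) e0 fun k => ?_
  have h := h3 i k
  simp only [mX_apply, eval_pderiv_X_mulC1] at h
  rw [Finset.sum_eq_single (κ i)] at h
  · rw [Pi.single_eq_same, one_mul, e0, mul_zero, add_zero, Pi.single_eq_same, one_mul] at h
    exact h
  · intro j _ hj
    rw [Pi.single_eq_of_ne hj, zero_mul]
  · intro hj
    exact absurd (Finset.mem_univ _) hj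

end RESCLaux

open RESCaux RESCLaux in
theorem x_RESCL : S_RESCL := by
  classical
  intro n s B I U Y _ _ _ X _ _ L hs hI hx
  obtain ⟨z₀, b₀, x₀, h₀⟩ := hx
  have pA : PK (K := ℂ) fun x : ((I → Fin (n + 1) → ℂ) × (I → Fin s → ℂ)) × X =>
      RV n x.1.1 x.1.2 (L x.2).1 (L x.2).2 := PK_RV.comp (LinearMap.prodMap LinearMap.id L)
  have gA : Gen ℂ fun x : ((I → Fin (n + 1) → ℂ) × (I → Fin s → ℂ)) × X =>
      finrank ℂ (RV n x.1.1 x.1.2 (L x.2).1 (L x.2).2) ≤ B + Fintype.card Y := by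
    refine pA.gen_finrank (x₀ := ((z₀, b₀), x₀)) ?_
    refine (finrank_le_add
      (fun i : Y => gr (n + 1) 2 0 (hp ((L x₀).1 i)) ((L x₀).2 i)) _).trans ?_
    exact Nat.add_le_add_right ((Submodule.finrank_mono
      (RV_inf_le z₀ (L x₀).1 (Sum.elim b₀ (L x₀).2))).trans h₀) _
  have gN : Gen ℂ fun x : ((I → Fin (n + 1) → ℂ) × (I → Fin s → ℂ)) × X =>
      (RV n x.1.1 x.1.2 (L x.2).1 (L x.2).2).comap (mX n s) = ⊥ := by
    obtain ⟨κ, hκ⟩ : ∃ κ : I → Fin s, Function.Surjective κ := by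
      have : Nonempty (Fin s ↪ I) :=
        Function.Embedding.nonempty_of_card_le (by rw [Fintype.card_fin]; exact hI)
      obtain ⟨e⟩ := this
      have : Nonempty (Fin s) := ⟨⟨0, hs⟩⟩
      exact ⟨Function.invFun e, Function.invFun_surjective e.injective⟩
    exact (pA.comap (mX n s)).gen_bot
      (x₀ := ((fun _ => Pi.single 0 1, fun i => Pi.single (κ i) 1), 0))
      (nd_at κ hκ (L 0).1 (L 0).2)
  obtain ⟨x, hx1, hx2⟩ := (gA.and gN).exists
  have hred : ∀ g ∈ RV n x.1.1 x.1.2 (L x.2).1 (L x.2).2,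
      g ∉ (⊥ : Submodule ℂ (Fin s → Pol (n + 1) 2)) →
      ∃ p : (Fin n → ℂ) × (Fin s → ℂ), om (n + 1) 2 (hp p.1) p.2 g ≠ 0 := by
    intro g hg hg0
    by_contra hcon
    push Not at hcon
    apply hg0
    have t2 : ∀ j, ∃ l : Pol (n + 1) 1, g j = mulX n 1 l := fun j => by
      refine exists_mulXC1 (MvPolynomial.funext fun p => ?_)
      rw [map_zero]
      have h := hcon (p, Pi.single j 1)
      rw [om_apply] at h
      simpa [Pi.single_apply, eval_hp] using h
    choose l hl using t2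
    have e1 : mX n s l = g := by
      funext j
      exact (hl j).symm
    have e2 : l ∈ (RV n x.1.1 x.1.2 (L x.2).1 (L x.2).2).comap (mX n s) := by
      rw [Submodule.mem_comap, e1]
      exact hg
    rw [hx2, Submodule.mem_bot] at e2
    rw [Submodule.mem_bot, ← e1, e2, map_zero]
  obtain ⟨yy, hyy⟩ := red (fun p : (Fin n → ℂ) × (Fin s → ℂ) => om (n + 1) 2 (hp p.1) p.2)
    _ ⊥ hred (Fintype.card U)
  rw [finrank_bot] at hyy
  have pS : PK (K := ℂ) fun x : ((I → Fin (n + 1) → ℂ) × (I → Fin s → ℂ)) ×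
      ((U → Fin n → ℂ) × (U → Fin s → ℂ)) × X =>
      RS n x.1.1 x.1.2 x.2.1.1 x.2.1.2 (L x.2.2).1 (L x.2.2).2 :=
    PK_RS.comp (LinearMap.prodMap LinearMap.id (LinearMap.prodMap LinearMap.id L))
  refine pS.gen_finrank (x₀ := (x.1, ((fun i => (yy (Fintype.equivFin U i)).1,
    fun i => (yy (Fintype.equivFin U i)).2), x.2))) ?_
  refine le_trans (Submodule.finrank_mono ?_) (hyy.trans ?_)
  · rintro g ⟨h1, h2⟩
    refine ⟨h1, (Submodule.mem_iInf _).2 fun i => ?_⟩
    have h3 := (Submodule.mem_iInf _).1 h2 ((Fintype.equivFin U).symm i)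
    simp only [Equiv.apply_symm_apply] at h3
    exact h3
  · exact max_le (Nat.sub_le_sub_right hx1 _) (Nat.zero_le _)

end Pool.Agent.WarC
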