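import Pool.Agent.WarC.Stmts3

/-!
# MP_db021c_ag, cubics: the trace space is zero for general points (`S_TRC`)   (helper50)
-/

set_option autoImplicit false

open Module MvPolynomial
open Pool.Agent.War Pool.Agent.WarS Pool.Agent.WarQ

namespace Pool.Agent.WarC

namespace TRCaux

/-- the values of the functionals `om` are polynomial along lines -/
theorem LP_om (n d : ℕ) {s : ℕ} {V : Type} (i : V) (f : Fin s → Pol n d) :
    LP (K := ℂ) fun x : (V → Fin n → ℂ) × (V → Fin s → ℂ) => om n d (x.1 i) (x.2 i) f := by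
  simp only [om_apply]
  refine LP.sum _ fun j _ => LP.mul ?_ ?_
  · exact ((LP_coord (n := s) j).comp_linear (pt (I := V) i)).comp_linear
      (LinearMap.snd ℂ (V → Fin n → ℂ) (V → Fin s → ℂ))
  · exact ((LP_eval (f j : MvPolynomial (Fin n) ℂ)).comp_linear (pt (I := V) i)).comp_linear
      (LinearMap.fst ℂ (V → Fin n → ℂ) (V → Fin s → ℂ))

theorem PK_TS (n : ℕ) {s : ℕ} {U V : Type} [Fintype U] [Fintype V] :
    PK (K := ℂ) fun x : ((U → Fin n → ℂ) × (U → Fin s → ℂ)) ×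
      ((V → Fin n → ℂ) × (V → Fin s → ℂ)) => TS n x.1.1 x.1.2 x.2.1 x.2.2 := by
  refine PK.inf ((PK_FK n 3 (s := s) (I := U)).comp (LinearMap.fst ℂ
    ((U → Fin n → ℂ) × (U → Fin s → ℂ)) ((V → Fin n → ℂ) × (V → Fin s → ℂ))))
    (PK.iInf fun i => PK.one (φ := fun x : ((U → Fin n → ℂ) × (U → Fin s → ℂ)) ×
      ((V → Fin n → ℂ) × (V → Fin s → ℂ)) => om n 3 (x.2.1 i) (x.2.2 i)) fun f => ?_)
  exact (LP_om n 3 i f).comp_linear (LinearMap.snd ℂ
    ((U → Fin n → ℂ) × (U → Fin s → ℂ)) ((V → Fin n → ℂ) × (V → Fin s → ℂ)))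

theorem exists_om {n d s : ℕ} {w : Fin s → Pol n d} (hw : w ≠ 0) :
    ∃ y : (Fin n → ℂ) × (Fin s → ℂ), om n d y.1 y.2 w ≠ 0 := by
  by_contra hcon
  push Not at hcon
  apply hw
  funext j
  apply Subtype.ext
  refine MvPolynomial.funext fun p => ?_
  have h := hcon (p, Pi.single j 1)
  rw [om_apply] at h
  simpa [Pi.single_apply] using h

end TRCaux

open TRCaux

theorem x_TRC : S_TRC := by
  intro n s u v _ hF hnum
  obtain ⟨z, a, hza⟩ := hF
  obtain ⟨y, hy⟩ := red (fun y : (Fin n → ℂ) × (Fin s → ℂ) => om n 3 y.1 y.2) (FK n 3 z a) ⊥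
    (fun w _ hw => exists_om fun h => hw (by rw [h]; exact Submodule.zero_mem _)) v
  have h0 : finrank ℂ (⊥ : Submodule ℂ (Fin s → Pol n 3)) = 0 := finrank_bot _ _
  refine (PK_TS n).gen_bot (x₀ := ((z, a), (fun i => (y i).1, fun i => (y i).2))) ?_
  apply Submodule.finrank_eq_zero.1
  refine Nat.le_zero.1 (hy.trans ?_)
  rw [h0, Nat.max_zero]
  omega

end Pool.Agent.WarC
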