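import Pool.Agent.WarC.Stmts4
import Pool.Agent.WarC.TRC
import Pool.Agent.WarS.SG

/-!
# MP_db021c_ag, cubics, `s = 2`: the trace space with the pair is zero (`S_TRC2`)   (helper91)
-/

set_option autoImplicit false

open Module MvPolynomial
open Pool.Agent.War Pool.Agent.WarS Pool.Agent.WarQ

namespace Pool.Agent.WarC

namespace TRC2aux

/-- one functional for each index lowers the dimension by at most the number of the indices -/
theorem finrank_le_inf {V : Type} [AddCommGroup V] [Module ℂ V] [FiniteDimensional ℂ V]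
    {ι : Type} [Fintype ι] (φ : ι → V →ₗ[ℂ] ℂ) (Z : Submodule ℂ V) :
    finrank ℂ Z ≤ finrank ℂ ↥(Z ⊓ ⨅ i, LinearMap.ker (φ i)) + Fintype.card ι := by
  have h1 := finrank_le_map_add_ker (LinearMap.pi φ) Z
  have h2 : finrank ℂ (Z.map (LinearMap.pi φ)) ≤ Fintype.card ι := by
    refine (Submodule.finrank_le _).trans ?_
    rw [Module.finrank_fintype_fun_eq_card]
  rw [LinearMap.ker_pi] at h1
  omega

theorem GG.pred {n d p : ℕ} (h : GG n d (p + 1)) : GG n d p := by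
  obtain ⟨z, hz⟩ := h
  refine ⟨fun i => z i.castSucc, ?_⟩
  have h1 := finrank_le_inf (fun k : Option (Fin n) =>
    (k.elim (ev n d (z (Fin.last p))) fun k => dv n d k (z (Fin.last p)) : Pol n d →ₗ[ℂ] ℂ))
    (Dbl n d Finset.univ fun i : Fin p => z i.castSucc)
  have h2 : Dbl n d Finset.univ (fun i : Fin p => z i.castSucc) ⊓
      (⨅ k : Option (Fin n), LinearMap.ker
        (k.elim (ev n d (z (Fin.last p))) fun k => dv n d k (z (Fin.last p)) :
          Pol n d →ₗ[ℂ] ℂ)) ≤ Dbl n d Finset.univ z := by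
    rintro f ⟨hf1, hf2⟩
    obtain ⟨f1, f2⟩ := mem_Dbl.1 hf1
    have g := (Submodule.mem_iInf _).1 hf2
    rw [mem_Dbl]
    refine ⟨fun i => ?_, fun i _ k => ?_⟩
    · refine Fin.lastCases ?_ (fun j => ?_) i
      · have := g none
        rw [LinearMap.mem_ker] at this
        exact (ev_apply _ _).symm.trans this
      · exact f1 j
    · refine Fin.lastCases ?_ (fun j => ?_) i
      · have := g (some k)
        rw [LinearMap.mem_ker] at this
        exact (dv_apply _ _ _).symm.trans this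
      · exact f2 j (Finset.mem_univ _) k
  have h3 := Submodule.finrank_mono h2
  have h4 : Fintype.card (Option (Fin n)) = n + 1 := by simp
  rw [h4] at h1
  have e : (n + 1) * (p + 1) = (n + 1) * p + (n + 1) := by ring
  omega

theorem LP_ec {X : Type} [AddCommGroup X] [Module ℂ X] (n d : ℕ) (A B : X →ₗ[ℂ] (Fin n → ℂ))
    (f : Pol n d) : LP (K := ℂ) fun x : X => ec n d (A x) (B x) f := by
  simp only [ec_apply]
  refine LP.sum _ fun k _ => LP.mul ?_ (LP.add ?_ ?_)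
  · have h := LP.linear (K := ℂ) (X := X)
      ((LinearMap.proj k : (Fin n → ℂ) →ₗ[ℂ] ℂ).comp (B - A))
    exact h
  · exact (LP_eval (pderiv k (f : MvPolynomial (Fin n) ℂ))).comp_linear A
  · exact (LP_eval (pderiv k (f : MvPolynomial (Fin n) ℂ))).comp_linear B

/-- the conditions on the first form -/
noncomputable def V0 (n u : ℕ)
    (x : (Fin u ⊕ Fin u → Fin n → ℂ) × ((Fin n → ℂ) × (Fin n → ℂ))) :
    Submodule ℂ (Pol n 3) :=
  Dbl n 3 (Finset.univ.map Function.Embedding.inl) x.1 ⊓ LinearMap.ker (ev n 3 x.2.1) ⊓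
    LinearMap.ker (ev n 3 x.2.2) ⊓ LinearMap.ker (ec n 3 x.2.1 x.2.2)

theorem PK_V0 (n u : ℕ) : PK (V0 n u) := by
  let A := Fin u ⊕ Fin u → Fin n → ℂ
  let B := Fin n → ℂ
  let Lp : A × (B × B) →ₗ[ℂ] (Fin n → ℂ) := (LinearMap.fst ℂ B B).comp (LinearMap.snd ℂ A (B × B))
  let Lq : A × (B × B) →ₗ[ℂ] (Fin n → ℂ) := (LinearMap.snd ℂ B B).comp (LinearMap.snd ℂ A (B × B))
  unfold V0
  refine PK.inf (PK.inf (PK.inf ?_ ?_) ?_) ?_
  · exact (PK_Dbl n 3 (Finset.univ.map Function.Embedding.inl)).comp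
      (LinearMap.fst ℂ A (B × B))
  · refine PK.one (φ := fun x : A × (B × B) => ev n 3 (Lp x)) fun f => ?_
    simp only [ev_apply]
    exact (LP_eval (f : MvPolynomial (Fin n) ℂ)).comp_linear Lp
  · refine PK.one (φ := fun x : A × (B × B) => ev n 3 (Lq x)) fun f => ?_
    simp only [ev_apply]
    exact (LP_eval (f : MvPolynomial (Fin n) ℂ)).comp_linear Lq
  · refine PK.one (φ := fun x : A × (B × B) => ec n 3 (Lp x) (Lq x)) fun f => ?_
    exact LP_ec n 3 Lp Lq f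

theorem gen_V0 {n u : ℕ} (hL : S_LIN3) (h1 : 1 ≤ n) (h2 : n ≤ u) (h3 : GG n 3 (u + 1))
    (h4 : (n + 1) * (u + 1) < NN n 3) :
    Gen ℂ fun x => finrank ℂ (V0 n u x) ≤ NN n 3 - ((n + 2) * u + 3) := by
  obtain ⟨z, p, q, hz⟩ := hL n u h1 h2 h3 h4
  obtain ⟨y, hy⟩ := red (Y := Fin n → ℂ) (fun y => ev n 3 y)
    (Dbl n 3 Finset.univ z ⊓ LinearMap.ker (ev n 3 p) ⊓ LinearMap.ker (ev n 3 q) ⊓
      LinearMap.ker (ec n 3 p q)) ⊥ (by
    intro w _ hw
    by_contra hc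
    push Not at hc
    apply hw
    rw [Submodule.mem_bot]
    apply Subtype.ext
    apply MvPolynomial.funext
    intro x
    have := hc x
    rw [ev_apply] at this
    rw [this]
    simp) u
  have hle : V0 n u (Sum.elim z y, (p, q)) ≤
      (Dbl n 3 Finset.univ z ⊓ LinearMap.ker (ev n 3 p) ⊓ LinearMap.ker (ev n 3 q) ⊓
      LinearMap.ker (ec n 3 p q)) ⊓ ⨅ i, LinearMap.ker (ev n 3 (y i)) := by
    rintro f ⟨⟨⟨hf1, hf2⟩, hf3⟩, hf4⟩
    obtain ⟨f1, f2⟩ := mem_Dbl.1 hf1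
    refine ⟨⟨⟨⟨mem_Dbl.2 ⟨fun i => f1 (Sum.inl i), fun i _ k => f2 (Sum.inl i) (by simp) k⟩,
      hf2⟩, hf3⟩, hf4⟩, ?_⟩
    rw [SetLike.mem_coe, Submodule.mem_iInf]
    intro i
    rw [LinearMap.mem_ker, ev_apply]
    exact f1 (Sum.inr i)
  refine (PK_V0 n u).gen_finrank (x₀ := (Sum.elim z y, (p, q)))
    ((Submodule.finrank_mono hle).trans (hy.trans ?_))
  rw [finrank_bot]
  refine max_le ?_ (Nat.zero_le _)
  have e : (n + 2) * u = (n + 1) * u + u := by ring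
  omega

theorem PK_TS2 (n u v : ℕ) :
    PK (K := ℂ) fun x : ((Fin (2 * u) → Fin n → ℂ) × (Fin (2 * u) → Fin 2 → ℂ)) ×
      ((Fin v → Fin n → ℂ) × (Fin v → Fin 2 → ℂ)) ×
      ((Fin n → ℂ) × (Fin n → ℂ) × (Fin 2 → ℂ)) =>
    TS2 n x.1.1 x.1.2 x.2.1.1 x.2.1.2 x.2.2.1 x.2.2.2.1 x.2.2.2.2 := by
  let A := (Fin (2 * u) → Fin n → ℂ) × (Fin (2 * u) → Fin 2 → ℂ)
  let B := (Fin v → Fin n → ℂ) × (Fin v → Fin 2 → ℂ)
  let C := (Fin n → ℂ) × (Fin n → ℂ) × (Fin 2 → ℂ)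
  let LC : A × B × C →ₗ[ℂ] C := (LinearMap.snd ℂ B C).comp (LinearMap.snd ℂ A (B × C))
  let Lp : A × B × C →ₗ[ℂ] (Fin n → ℂ) :=
    (LinearMap.fst ℂ (Fin n → ℂ) ((Fin n → ℂ) × (Fin 2 → ℂ))).comp LC
  let Lq : A × B × C →ₗ[ℂ] (Fin n → ℂ) :=
    (LinearMap.fst ℂ (Fin n → ℂ) (Fin 2 → ℂ)).comp
      ((LinearMap.snd ℂ (Fin n → ℂ) ((Fin n → ℂ) × (Fin 2 → ℂ))).comp LC)
  let Lb : A × B × C →ₗ[ℂ] (Fin 2 → ℂ) :=
    (LinearMap.snd ℂ (Fin n → ℂ) (Fin 2 → ℂ)).comp
      ((LinearMap.snd ℂ (Fin n → ℂ) ((Fin n → ℂ) × (Fin 2 → ℂ))).comp LC)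
  have hb : ∀ j : Fin 2, LP (K := ℂ) fun x : A × B × C => Lb x j := fun j =>
    (LP_coord (n := 2) j).comp_linear Lb
  unfold TS2
  refine PK.inf (PK.inf (PK.inf ?_ ?_) ?_) ?_
  · exact (TRCaux.PK_TS n (s := 2) (U := Fin (2 * u)) (V := Fin v)).comp
      (LinearMap.prod (LinearMap.fst ℂ A (B × C))
        ((LinearMap.fst ℂ B C).comp (LinearMap.snd ℂ A (B × C))))
  · refine PK.one (φ := fun x : A × B × C => om n 3 (Lp x) (Lb x)) fun f => ?_
    simp only [om_apply]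
    exact LP.sum _ fun j _ => LP.mul (hb j)
      ((LP_eval (f j : MvPolynomial (Fin n) ℂ)).comp_linear Lp)
  · refine PK.one (φ := fun x : A × B × C => om n 3 (Lq x) (Lb x)) fun f => ?_
    simp only [om_apply]
    exact LP.sum _ fun j _ => LP.mul (hb j)
      ((LP_eval (f j : MvPolynomial (Fin n) ℂ)).comp_linear Lq)
  · refine PK.one (φ := fun x : A × B × C => ecs n 3 (Lp x) (Lq x) (Lb x)) fun f => ?_
    simp only [ecs_apply]
    exact LP.sum _ fun j _ => LP.mul (hb j) (LP_ec n 3 Lp Lq (f j))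

end TRC2aux

open TRC2aux

theorem x_TRC2 (h : S_LIN3) : S_TRC2 := by
  intro n u v h1 h2 h3 h4 h5 h6
  have hG : GG n 3 u := GG.pred h3
  have g0 := gen_V0 h h1 h2 h3 h4
  have hS := SG n 3 (Fin u ⊕ Fin u) (Finset.univ.map Function.Embedding.inr) h1
    (by simpa using hG)
  have g1 := hS.comp (LinearMap.fst ℂ (Fin u ⊕ Fin u → Fin n → ℂ) ((Fin n → ℂ) × (Fin n → ℂ)))
    LinearMap.fst_surjective
  obtain ⟨⟨z, p, q⟩, hx0, hx1⟩ := (g0.and g1).exists
  have e0 : (Fin (2 * u)) ≃ Fin u ⊕ Fin u := (finCongr (two_mul u)).trans finSumFinEquiv.symm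
  set a : Fin u ⊕ Fin u → Fin 2 → ℂ :=
    Sum.elim (fun _ => Pi.single 0 1) (fun _ => Pi.single 1 1) with ha
  set β : Fin 2 → ℂ := Pi.single 0 1 with hβ
  set W : Submodule ℂ (Fin 2 → Pol n 3) :=
    FK n 3 (fun i : Fin (2 * u) => z (e0 i)) (fun i => a (e0 i)) ⊓ LinearMap.ker (om n 3 p β) ⊓
      LinearMap.ker (om n 3 q β) ⊓ LinearMap.ker (ecs n 3 p q β) with hW
  set V1 : Submodule ℂ (Pol n 3) := Dbl n 3 (Finset.univ.map Function.Embedding.inr) z with hV1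
  have hWle : W ≤ Submodule.pi Set.univ ![V0 n u (z, p, q), V1] := by
    rintro f ⟨⟨⟨hf1, hf2⟩, hf3⟩, hf4⟩
    obtain ⟨f1, f2⟩ := mem_FK.1 hf1
    have f1' : ∀ i j, eval (z i) (f j : MvPolynomial (Fin n) ℂ) = 0 := by
      intro i j
      have := f1 (e0.symm i) j
      simpa using this
    have f2' : ∀ i k, ∑ j, a i j * eval (z i) (pderiv k (f j : MvPolynomial (Fin n) ℂ)) = 0 := by
      intro i k
      have := f2 (e0.symm i) k
      simpa using this
    have hp : eval p (f 0 : MvPolynomial (Fin n) ℂ) = 0 := by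
      have : om n 3 p β f = 0 := hf2
      rw [om_apply] at this
      simpa [hβ, Fin.sum_univ_two] using this
    have hq : eval q (f 0 : MvPolynomial (Fin n) ℂ) = 0 := by
      have : om n 3 q β f = 0 := hf3
      rw [om_apply] at this
      simpa [hβ, Fin.sum_univ_two] using this
    have hec : ec n 3 p q (f 0) = 0 := by
      have : ecs n 3 p q β f = 0 := hf4
      rw [ecs_apply] at this
      simpa [hβ, Fin.sum_univ_two] using this
    rw [Submodule.mem_pi]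
    intro j _
    fin_cases j
    · change f 0 ∈ V0 n u (z, p, q)
      refine ⟨⟨⟨mem_Dbl.2 ⟨fun i => f1' i 0, fun i hi k => ?_⟩, ?_⟩, ?_⟩, hec⟩
      · rcases i with i | i
        · have := f2' (Sum.inl i) k
          simpa [ha, hβ, Fin.sum_univ_two] using this
        · simp at hi
      · exact (ev_apply _ _).trans hp
      · exact (ev_apply _ _).trans hq
    · change f 1 ∈ V1
      rw [hV1]
      refine mem_Dbl.2 ⟨fun i => f1' i 1, fun i hi k => ?_⟩
      rcases i with i | i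
      · simp at hi
      · have := f2' (Sum.inr i) k
        simpa [ha, hβ, Fin.sum_univ_two] using this
  have hfr : finrank ℂ W ≤ v := by
    refine (Submodule.finrank_mono hWle).trans ((finrank_pi_leC1 _).trans ?_)
    rw [Fin.sum_univ_two]
    change finrank ℂ (V0 n u (z, p, q)) + finrank ℂ V1 ≤ v
    have hx1' : finrank ℂ V1 ≤ NN n 3 - (n * (Finset.univ.map
        (Function.Embedding.inr : Fin u ↪ Fin u ⊕ Fin u)).card + Fintype.card (Fin u ⊕ Fin u)) :=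
      hx1
    rw [Finset.card_map, Finset.card_univ, Fintype.card_sum, Fintype.card_fin] at hx1'
    have e1 : (n + 2) * u = n * u + (u + u) := by ring
    have e2 : (n + 2) * (2 * u) = (n + 2) * u + (n + 2) * u := by ring
    rw [e2] at h6
    omega
  obtain ⟨y, hy⟩ := red (fun y : (Fin n → ℂ) × (Fin 2 → ℂ) => om n 3 y.1 y.2) W ⊥
    (fun w _ hw => TRCaux.exists_om fun h => hw (by rw [h]; exact Submodule.zero_mem _)) v
  refine (PK_TS2 n u v).gen_bot (x₀ := ((fun i => z (e0 i), fun i => a (e0 i)),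
    (fun i => (y i).1, fun i => (y i).2), (p, q, β))) ?_
  apply Submodule.finrank_eq_zero.1
  have hle : TS2 n (fun i => z (e0 i)) (fun i => a (e0 i)) (fun i => (y i).1) (fun i => (y i).2)
      p q β ≤ W ⊓ ⨅ i, LinearMap.ker (om n 3 (y i).1 (y i).2) := by
    rintro f ⟨⟨⟨⟨hf0, hf1⟩, hf2⟩, hf3⟩, hf4⟩
    exact ⟨⟨⟨⟨hf0, hf2⟩, hf3⟩, hf4⟩, hf1⟩
  refine Nat.le_zero.1 ((Submodule.finrank_mono hle).trans (hy.trans ?_))
  rw [finrank_bot, Nat.max_zero]
  omega

end Pool.Agent.WarC
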