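import Pool.Agent.WarC.Two3
import Pool.Agent.WarS.SG
import Pool.Agent.War.Main

/-!
# Simultaneous Waring decompositions (MP_db021c_ag), cubics, `s = 2`   (helper25)
-/

set_option autoImplicit false

open Module MvPolynomial
open Pool.Agent.War Pool.Agent.WarS Pool.Agent.WarQ

namespace Pool.Agent.WarC

/-- pure vectors -/
theorem Full.pure {n s q : ℕ} (hn : 1 ≤ n) (hG : GG n 3 q) : Full n s (s * q) := by
  classical
  have hcard : Fintype.card (Fin s × Fin q) = s * q := by simp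
  refine Full.of_type (I := Fin s × Fin q) hcard ?_
  let P : Fin s → Finset (Fin s × Fin q) := fun j => Finset.univ.filter fun i => i.1 = j
  have hP : ∀ j, (P j).card = q := by
    intro j
    have : P j = Finset.univ.map ⟨fun i : Fin q => (j, i), fun i i' h => by simpa using h⟩ := by
      ext i
      simp only [P, Finset.mem_filter, Finset.mem_univ, true_and, Finset.mem_map,
        Function.Embedding.coeFn_mk]
      constructor
      · rintro rfl
        exact ⟨i.2, rfl⟩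
      · rintro ⟨i', rfl⟩
        rfl
    rw [this]
    simp
  obtain ⟨z, hz⟩ := (Gen.forall fun j : Fin s =>
    SG n 3 (Fin s × Fin q) (P j) hn (by rw [hP]; exact hG)).exists
  refine ⟨z, fun i => Pi.single i.1 1, ?_⟩
  have h1 : FK n 3 z (fun i => (Pi.single i.1 1 : Fin s → ℂ)) ≤
      Submodule.pi Set.univ fun j => Dbl n 3 (P j) z := by
    intro f hf
    obtain ⟨k1, k2⟩ := mem_FK.1 hf
    rw [Submodule.mem_pi]
    intro j _
    refine mem_Dbl.2 ⟨fun i => k1 i j, fun i hi k => ?_⟩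
    have hij : i.1 = j := (Finset.mem_filter.1 hi).2
    have := k2 i k
    rw [hij] at this
    simpa [Pi.single_apply] using this
  refine ((Submodule.finrank_mono h1).trans (finrank_pi_leC1 _)).trans ?_
  refine (Finset.sum_le_sum fun j _ => hz j).trans ?_
  simp only [hP, hcard, Finset.sum_const, Finset.card_univ, Fintype.card_fin, smul_eq_mul]
  rw [Nat.mul_sub]
  have e : s * (n * q + s * q) = (n + s) * (s * q) := by ring
  rw [e]

/-- the step for `s = 2` -/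
theorem step2 (hT : S_TRC) (hR : S_RESC) (hD : S_DHC) (hA : S_ARR) (hP : S_PERTH)
    {n h U P : ℕ} (hn : 1 ≤ n) (hF : Full n 2 U) (hU : (n + 2) * U = 2 * NN n 3)
    (hh : P + U = h) (hNC : NC (n + 1) 2 P 0) : Full (n + 1) 2 h :=
  stepC (Y := 0) hT hR hD hA hP hn le_rfl hF (by omega) (by omega) hNC

/-- the killing statement -/
theorem W_of_Full {n s h : ℕ} (hF : Full n s h) (hh : s * NN n 3 ≤ (n + s) * h) :
    Waring.W 3 h n s := by
  obtain ⟨z, a, hza⟩ := hF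
  rw [Nat.sub_eq_zero_of_le hh] at hza
  have hbot : FK n 3 z a = ⊥ := Submodule.finrank_eq_zero.1 (Nat.le_zero.1 hza)
  refine Waring.W_of_dual z a fun g hg h1 h2 j => ?_
  have hmem : (fun j => (⟨g j, mem_Pol.2 (hg j)⟩ : Pol n 3)) ∈ FK n 3 z a :=
    mem_FK.2 ⟨fun i j => h1 i j, fun i k => h2 i k⟩
  rw [hbot, Submodule.mem_bot] at hmem
  exact congrArg Subtype.val (congrFun hmem j)

theorem full_3 (j : ℕ) : Full (6 * j + 3) 2 (2 * ((2 * j + 2) * (3 * j + 2))) := by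
  refine Full.pure (by omega) (WarM.CUBIC _ _ (Or.inl ?_))
  have h := WarM.NN_three (6 * j + 3)
  nlinarith

theorem full_5 (j : ℕ) : Full (6 * j + 5) 2 (2 * ((2 * j + 2) * (3 * j + 4))) := by
  refine Full.pure (by omega) (WarM.CUBIC _ _ (Or.inl ?_))
  have h := WarM.NN_three (6 * j + 5)
  nlinarith

theorem NC_mk {m P t : ℕ} (ht : 1 ≤ t) (hP : P = 2 * t) (h1 : 2 * t ≤ m + 1)
    (h2 : 2 * (m * t + P) ≤ (m + 1) * (m + 2)) : NC m 2 P 0 := by
  subst hP
  have e1 : (2 * t + 0) % 2 = 0 := by omega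
  have e2 : (2 * t + 0) / 2 = t := by omega
  have e3 : m * t + 2 * t ≤ (m + 1) * (m + 2) / 2 := by
    rw [Nat.le_div_iff_mul_le (by norm_num)]
    linarith
  unfold NC
  rw [e1, e2]
  refine ⟨?_, Or.inl ⟨le_rfl, by simpa using ht⟩, Or.inl ⟨rfl, h1⟩, Or.inl ⟨rfl, ?_⟩⟩
  · exact le_trans (by omega) e3
  · exact e3

theorem NC_mk' {m P t : ℕ} (ht : 1 ≤ t) (hP : P = 2 * t + 1) (h1 : 2 * t ≤ m)
    (h2 : 2 * (m * (t + 1) + P) ≤ (m + 1) * (m + 2) + 2 * t)
    (h3 : 2 * ((m + 1) * t + P) ≤ (m + 1) * (m + 2)) : NC m 2 P 0 := by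
  subst hP
  have e1 : (2 * t + 1 + 0) % 2 = 1 := by omega
  have e2 : (2 * t + 1 + 0) / 2 = t := by omega
  have e0 : 2 * ((m + 1) * (m + 2) / 2) = (m + 1) * (m + 2) := by
    have : 2 ∣ (m + 1) * (m + 2) := (Nat.even_mul_succ_self (m + 1)).two_dvd
    omega
  unfold NC
  rw [e1, e2]
  refine ⟨?_, Or.inl ⟨by omega, by simpa using ht⟩, Or.inr (Or.inl ⟨rfl, h1⟩),
    Or.inr (Or.inl ⟨rfl, ?_, ?_⟩)⟩
  · have : 0 ≤ (m + 1) * t := Nat.zero_le _
    omega
  · omega
  · omega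

theorem two_all (hT : S_TRC) (hR : S_RESC) (hD : S_DHC) (hA : S_ARR) (hP : S_PERTH)
    (hT2 : S_TRC2) (hR2 : S_RESCL) (hD2 : S_DHC2) (hP2 : S_PERTH2) {n : ℕ} (hn : 3 ≤ n) :
    ∃ h, Full n 2 h ∧ 2 * NN n 3 ≤ (n + 2) * h ∧ (n + 2) * h < 2 * NN n 3 + (n + 2) := by
  have hN := WarM.NN_three n
  obtain ⟨j, hj⟩ : ∃ j, n = 6 * j + 3 ∨ n = 6 * j + 4 ∨ n = 6 * j + 5 ∨ n = 6 * j + 6 ∨
      n = 6 * j + 7 ∨ n = 6 * j + 8 := ⟨(n - 3) / 6, by omega⟩
  rcases hj with rfl | rfl | rfl | rfl | rfl | rfl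
  · refine ⟨_, full_3 j, ?_, ?_⟩ <;> nlinarith
  · have h3 := WarM.NN_three (6 * j + 3)
    refine ⟨12 * j ^ 2 + 24 * j + 12, step2 (n := 6 * j + 3) (U := 2 * ((2 * j + 2) * (3 * j + 2)))
      (P := 4 * j + 4) hT hR hD hA hP (by omega) (full_3 j) ?_ ?_
      (NC_mk (t := 2 * j + 2) (by omega) (by omega) (by omega) (by nlinarith)), ?_, ?_⟩
    · nlinarith
    · ring
    · nlinarith
    · nlinarith
  · refine ⟨_, full_5 j, ?_, ?_⟩ <;> nlinarith
  · have h3 := WarM.NN_three (6 * j + 5)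
    refine ⟨12 * j ^ 2 + 32 * j + 21, step2 (n := 6 * j + 5) (U := 2 * ((2 * j + 2) * (3 * j + 4)))
      (P := 4 * j + 5) hT hR hD hA hP (by omega) (full_5 j) ?_ ?_
      (NC_mk' (t := 2 * j + 2) (by omega) (by omega) (by omega) (by nlinarith) (by nlinarith)),
      ?_, ?_⟩
    · nlinarith
    · ring
    · nlinarith
    · nlinarith
  · have h3 := WarM.NN_three (6 * j + 5)
    have h4 := WarM.NN_three (6 * j + 6)
    have h6 : Full (6 * j + 6) 2 (12 * j ^ 2 + 32 * j + 21) :=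
      step2 (n := 6 * j + 5) (U := 2 * ((2 * j + 2) * (3 * j + 4)))
      (P := 4 * j + 5) hT hR hD hA hP (by omega) (full_5 j) (by nlinarith) (by ring)
      (NC_mk' (t := 2 * j + 2) (by omega) (by omega) (by omega) (by nlinarith) (by nlinarith))
    refine ⟨12 * j ^ 2 + 36 * j + 27, step2 (n := 6 * j + 6) (U := 12 * j ^ 2 + 32 * j + 21)
      (P := 4 * j + 6) hT hR hD hA hP (by omega) h6 ?_ ?_
      (NC_mk (t := 2 * j + 3) (by omega) (by omega) (by omega) (by nlinarith)), ?_, ?_⟩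
    · nlinarith
    · ring
    · nlinarith
    · nlinarith
  · refine ⟨12 * (j + 1) ^ 2 + 16 * (j + 1) + 5, stepK hT2 hR2 hD2 hP2 (k := j + 1) (by omega),
      ?_, ?_⟩
    · nlinarith
    · nlinarith

end Pool.Agent.WarC
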