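import Pool.Agent.WarC.Stmts3
import Pool.Agent.WarC.UK

/-!
# MP_db021c_ag, cubics: quadrics with double points and midpoints, some points on the hyperplane
(`S_UKH`)
-/

set_option autoImplicit false

open Module MvPolynomial
open Pool.Agent.War Pool.Agent.WarS Pool.Agent.WarQ

namespace Pool.Agent.WarC

namespace UKHaux

open UKaux

theorem mid_comm {n : ℕ} (u v : Fin n → ℂ) : mid u v = mid v u := by
  funext i
  simp only [mid]
  rw [add_comm]

theorem mid_self {n : ℕ} (u : Fin n → ℂ) : mid u u = u := by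
  funext i
  simp only [mid]
  ring

/-- the nodes of the simplex -/
noncomputable def nd (n : ℕ) : Sym2 (Fin (n + 1)) → (Fin n → ℂ) :=
  Sym2.lift ⟨fun j k => mid (V n j) (V n k), fun _ _ => mid_comm _ _⟩

/-- quadrics which are double at the vertices in `P` and vanish at the vertices in `Q` and at their
midpoints -/
noncomputable def W0 (n : ℕ) (P Q : Finset (Fin (n + 1))) : Submodule ℂ (Pol n 2) :=
  (⨅ i : {i // i ∈ P}, LinearMap.ker (ev n 2 (V n (i : Fin (n + 1))))) ⊓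
    (⨅ i : {i // i ∈ P} × Fin n, LinearMap.ker (dv n 2 i.2 (V n (i.1 : Fin (n + 1))))) ⊓
    ⨅ s : {i // i ∈ Q} × {i // i ∈ Q},
      LinearMap.ker (ev n 2 (mid (V n (s.1 : Fin (n + 1))) (V n (s.2 : Fin (n + 1)))))

theorem mem_W0 {n : ℕ} {P Q : Finset (Fin (n + 1))} {f : Pol n 2} : f ∈ W0 n P Q ↔
    (∀ j ∈ P, eval (V n (j : Fin (n + 1))) (f : MvPolynomial (Fin n) ℂ) = 0) ∧
    (∀ j ∈ P, ∀ k, eval (V n (j : Fin (n + 1))) (pderiv k (f : MvPolynomial (Fin n) ℂ)) = 0) ∧
    ∀ j ∈ Q, ∀ k ∈ Q,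
      eval (mid (V n (j : Fin (n + 1))) (V n (k : Fin (n + 1)))) (f : MvPolynomial (Fin n) ℂ) = 0 := by
  unfold W0
  simp only [Submodule.mem_inf, Submodule.mem_iInf, LinearMap.mem_ker, ev_apply, dv_apply,
    Prod.forall, Subtype.forall]
  constructor
  · rintro ⟨⟨h1, h2⟩, h3⟩
    exact ⟨h1, h2, fun j hj k hk => h3 j hj k hk⟩
  · rintro ⟨h1, h2, h3⟩
    exact ⟨⟨h1, h2⟩, fun j hj k hk => h3 j hj k hk⟩

theorem finrank_W0 {n : ℕ} {P Q : Finset (Fin (n + 1))} (hd : Disjoint P Q) :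
    finrank ℂ ↥(W0 n P Q) ≤
      NN n 2 + P.card.choose 2 - ((n + 1) * P.card + Q.card + Q.card.choose 2) := by
  classical
  set S : Finset (Sym2 (Fin (n + 1))) := (Pᶜ).sym2 \ Q.sym2 with hS
  let Φ : Pol n 2 →ₗ[ℂ] ({s // s ∈ S} → ℂ) := LinearMap.pi fun s => ev n 2 (nd n s)
  have hinj : ∀ f ∈ W0 n P Q, Φ f = 0 → f = 0 := by
    intro f hf hΦ
    obtain ⟨h1, h2, h3⟩ := mem_W0.1 hf
    have hdeg : (f : MvPolynomial (Fin n) ℂ).totalDegree ≤ 2 := mem_Pol.1 f.2
    apply Subtype.ext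
    have hΦ' : ∀ j k : Fin (n + 1), j ∉ P → k ∉ P → ¬ (j ∈ Q ∧ k ∈ Q) →
        eval (mid (V n j) (V n k)) (f : MvPolynomial (Fin n) ℂ) = 0 := by
      intro j k hj hk hjk
      have hs : s(j, k) ∈ S := by
        rw [hS, Finset.mem_sdiff, Finset.mk_mem_sym2_iff, Finset.mk_mem_sym2_iff,
          Finset.mem_compl, Finset.mem_compl]
        exact ⟨⟨hj, hk⟩, hjk⟩
      have h4 := congrFun hΦ ⟨s(j, k), hs⟩
      change ev n 2 (mid (V n j) (V n k)) f = 0 at h4
      rwa [ev_apply] at h4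
    have hV : ∀ j : Fin (n + 1), eval (V n j) (f : MvPolynomial (Fin n) ℂ) = 0 := by
      intro j
      by_cases hj : j ∈ P
      · exact h1 j hj
      · by_cases hq : j ∈ Q
        · have h4 := h3 j hq j hq
          rwa [mid_self] at h4
        · have h4 := hΦ' j j hj hj (fun h => hq h.1)
          rwa [mid_self] at h4
    have key : ∀ j k : Fin (n + 1),
        eval (mid (V n j) (V n k)) (f : MvPolynomial (Fin n) ℂ) = 0 := by
      intro j k
      by_cases hj : j ∈ P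
      · rw [eval_mid_of_double _ hdeg _ _ (h1 j hj) (h2 j hj), hV, zero_div]
      · by_cases hk : k ∈ P
        · rw [mid_comm, eval_mid_of_double _ hdeg _ _ (h1 k hk) (h2 k hk), hV, zero_div]
        · by_cases hjk : j ∈ Q ∧ k ∈ Q
          · exact h3 j hjk.1 k hjk.2
          · exact hΦ' j k hj hk hjk
    exact eq_zero_of_nodes _ hdeg fun j k _ hk => key ⟨j, by omega⟩ ⟨k, by omega⟩
  have hle : finrank ℂ ↥(W0 n P Q) ≤ finrank ℂ ({s // s ∈ S} → ℂ) := by
    refine LinearMap.finrank_le_finrank_of_injective (f := Φ.domRestrict _) ?_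
    intro f g hfg
    have h0 : Φ ((f : Pol n 2) - (g : Pol n 2)) = 0 := by
      rw [map_sub, sub_eq_zero]
      exact hfg
    exact Subtype.ext (sub_eq_zero.1 (hinj _ (Submodule.sub_mem _ f.2 g.2) h0))
  have hsub : Q.sym2 ⊆ (Pᶜ).sym2 := Finset.sym2_mono fun x hx => by
    rw [Finset.mem_compl]
    exact fun h => Finset.disjoint_left.1 hd h hx
  have hc : (Pᶜ).card = n + 1 - P.card := by
    rw [Finset.card_compl, Fintype.card_fin]
  have hP : P.card ≤ n + 1 := by
    have := Finset.card_le_univ P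
    rwa [Fintype.card_fin] at this
  have hq : (Q.card + 1).choose 2 = Q.card + Q.card.choose 2 := by
    rw [Nat.choose_succ_succ' Q.card 1, Nat.choose_one_right]
  have e2 := count2 (n := n) (p := P.card) hP
  rw [Module.finrank_fintype_fun_eq_card, Fintype.card_coe, hS,
    Finset.card_sdiff_of_subset hsub, Finset.card_sym2, Finset.card_sym2, hc, hq,
    show n + 1 - P.card + 1 = n + 2 - P.card by omega] at hle
  omega

theorem card_bd {I Y : Type} [Fintype I] [Fintype Y] (R : Finset (I ⊕ Y))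
    [Fintype {i : I // (Sum.inl i : I ⊕ Y) ∉ R}] [Fintype {y : Y // (Sum.inr y : I ⊕ Y) ∉ R}] :
    Fintype.card I + Fintype.card Y ≤ R.card +
      (Fintype.card {i : I // (Sum.inl i : I ⊕ Y) ∉ R} +
        Fintype.card {y : Y // (Sum.inr y : I ⊕ Y) ∉ R}) := by
  have h := Fintype.card_le_of_surjective
    (α := {q // q ∈ R} ⊕ ({i : I // (Sum.inl i : I ⊕ Y) ∉ R} ⊕ {y : Y // (Sum.inr y : I ⊕ Y) ∉ R}))
    (β := I ⊕ Y)
    (Sum.elim (fun r => r.1) (Sum.elim (fun i => Sum.inl i.1) fun y => Sum.inr y.1)) (by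
      intro q
      by_cases hq : q ∈ R
      · exact ⟨Sum.inl ⟨q, hq⟩, rfl⟩
      · rcases q with i | y
        · exact ⟨Sum.inr (Sum.inl ⟨i, hq⟩), rfl⟩
        · exact ⟨Sum.inr (Sum.inr ⟨y, hq⟩), rfl⟩)
  simpa [Fintype.card_sum, Fintype.card_coe] using h

/-- the assignment of the vertices -/
theorem exists_vert {A : Type} (R : Finset A) (n : ℕ) (hR : R.card ≤ n + 2) (q₀ : A)
    (hq₀ : q₀ ∈ R) : ∃ σ : A → Fin (n + 1 + 1), Set.InjOn σ R ∧ σ q₀ = 1 := by
  classical
  obtain ⟨f⟩ := Function.Embedding.nonempty_of_card_le (α := {q // q ∈ R})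
    (β := Fin (n + 1 + 1)) (by rw [Fintype.card_coe, Fintype.card_fin]; exact hR)
  refine ⟨fun q => if h : q ∈ R then Equiv.swap (f ⟨q₀, hq₀⟩) 1 (f ⟨q, h⟩) else 1, ?_, ?_⟩
  · intro a ha b hb hab
    have ha' : a ∈ R := ha
    have hb' : b ∈ R := hb
    simp only [dif_pos ha', dif_pos hb'] at hab
    have h1 := f.injective ((Equiv.swap (f ⟨q₀, hq₀⟩) 1).injective hab)
    exact congrArg Subtype.val h1
  · simp only [dif_pos hq₀]
    exact Equiv.swap_apply_left _ _

/-- the points as a linear function of the parameters -/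
noncomputable def J (I Y : Type) (n : ℕ) :
    (I → Fin (n + 1) → ℂ) × (Y → Fin n → ℂ) →ₗ[ℂ] (I ⊕ Y → Fin (n + 1) → ℂ) where
  toFun x := jn x.1 x.2
  map_add' x y := by
    funext q k
    rcases q with i | i
    · rfl
    · refine Fin.cases ?_ (fun k => ?_) k
      · change (0 : ℂ) = 0 + 0
        rw [add_zero]
      · rfl
  map_smul' r x := by
    funext q k
    rcases q with i | i
    · rfl
    · refine Fin.cases ?_ (fun k => ?_) k
      · change (0 : ℂ) = r • (0 : ℂ)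
        rw [smul_zero]
      · rfl

theorem PK_sp {A : Type} [Finite A] (N : ℕ) (P Q : Finset A) : PK (K := ℂ)
    fun z : A → Fin N → ℂ => Dbl N 2 P z ⊓
      ⨅ q : {q : A × A // q.1 ∈ Q ∧ q.2 ∈ Q}, LinearMap.ker (ev N 2 (mid (z q.1.1) (z q.1.2))) := by
  refine (PK_Dbl N 2 P).inf (PK.iInf fun q => ?_)
  have hev : ∀ L : (A → Fin N → ℂ) →ₗ[ℂ] (Fin N → ℂ),
      PK fun z : A → Fin N → ℂ => LinearMap.ker (ev N 2 (L z)) := by
    intro L
    refine PK.one (φ := fun z : A → Fin N → ℂ => ev N 2 (L z)) fun f => ?_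
    simp only [ev_apply]
    exact (LP_eval _).comp_linear L
  refine (hev ((1 / 2 : ℂ) • (pt q.1.1 + pt q.1.2))).congr fun z => ?_
  congr 2
  funext i
  change (1 / 2 : ℂ) * (z q.1.1 i + z q.1.2 i) = (z q.1.1 i + z q.1.2 i) / 2
  ring

/-- a quadric which vanishes on the hyperplane and is double at the vertex outside is zero -/
theorem eq_zero_of_hp {n : ℕ} (f : MvPolynomial (Fin (n + 1)) ℂ) (hf : f.totalDegree ≤ 2)
    (h0 : eval (V (n + 1) 1) f = 0) (h1 : ∀ k, eval (V (n + 1) 1) (pderiv k f) = 0)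
    (h2 : ∀ y : Fin n → ℂ, eval (hp y) f = 0) : f = 0 := by
  have hV : ∀ j : ℕ, j ≠ 1 → V (n + 1) j = hp fun k => V (n + 1) j k.succ := by
    intro j hj
    funext k
    refine Fin.cases ?_ (fun k => ?_) k
    · simp [V, hj]
    · rfl
  have hz : ∀ j : ℕ, eval (V (n + 1) j) f = 0 := by
    intro j
    by_cases hj : j = 1
    · rw [hj]
      exact h0
    · rw [hV j hj]
      exact h2 _
  refine eq_zero_of_nodes f hf fun j k _ _ => ?_
  by_cases hj : j = 1
  · subst hj
    rw [eval_mid_of_double f hf _ _ h0 h1, hz, zero_div]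
  · by_cases hk : k = 1
    · subst hk
      rw [mid_comm, eval_mid_of_double f hf _ _ h0 h1, hz, zero_div]
    · have e : mid (V (n + 1) j) (V (n + 1) k) =
          hp (mid (fun i => V (n + 1) j i.succ) fun i => V (n + 1) k i.succ) := by
        rw [hV j hj, hV k hk]
        funext i
        refine Fin.cases ?_ (fun i => ?_) i
        · simp [mid]
        · rfl
      rw [e]
      exact h2 _

end UKHaux

open UKHaux UKaux in
theorem x_UKH : S_UKH := by
  classical
  intro n I Y _ _ P Q hPQ hcard _ hi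
  obtain ⟨i₀, hi₀⟩ := hi
  set R : Finset (I ⊕ Y) := P ∪ Q with hR
  have hRc : R.card = P.card + Q.card := Finset.card_union_of_disjoint hPQ
  have hq₀ : (Sum.inl i₀ : I ⊕ Y) ∈ R := Finset.mem_union_left _ hi₀
  obtain ⟨σ, hσ, hσ₀⟩ := exists_vert R n (by omega) _ hq₀
  have hPR : ∀ q ∈ P, q ∈ R := fun q hq => Finset.mem_union_left _ hq
  have hQR : ∀ q ∈ Q, q ∈ R := fun q hq => Finset.mem_union_right _ hq
  set P' := P.image σ with hP'
  set Q' := Q.image σ with hQ'
  have hcP : P'.card = P.card := Finset.card_image_of_injOn fun a ha b hb => hσ (hPR a ha) (hPR b hb)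
  have hcQ : Q'.card = Q.card := Finset.card_image_of_injOn fun a ha b hb => hσ (hQR a ha) (hQR b hb)
  have hd' : Disjoint P' Q' := by
    rw [Finset.disjoint_left]
    intro j hj hj'
    obtain ⟨a, ha, rfl⟩ := Finset.mem_image.1 hj
    obtain ⟨b, hb, hab⟩ := Finset.mem_image.1 hj'
    have h1 := hσ (hQR b hb) (hPR a ha) hab
    subst h1
    exact Finset.disjoint_left.1 hPQ ha hb
  have hW := finrank_W0 hd'
  rw [hcP, hcQ] at hW
  -- the other points off the hyperplane
  set k1 := Fintype.card {i : I // (Sum.inl i : I ⊕ Y) ∉ R} with hk1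
  set k2 := Fintype.card {y : Y // (Sum.inr y : I ⊕ Y) ∉ R} with hk2
  obtain ⟨s1, hs1⟩ := red (fun z : Fin (n + 1) → ℂ => ev (n + 1) 2 z) (W0 (n + 1) P' Q') ⊥ (by
      intro f hf hf0
      by_contra hcon
      push Not at hcon
      apply hf0
      rw [Submodule.mem_bot]
      apply Subtype.ext
      refine MvPolynomial.funext fun z => ?_
      have := hcon z
      rw [ev_apply] at this
      rw [this]
      simp) k1
  rw [finrank_bot] at hs1
  set W1 := W0 (n + 1) P' Q' ⊓ ⨅ i, LinearMap.ker (ev (n + 1) 2 (s1 i)) with hW1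
  have h1P : (1 : Fin (n + 1 + 1)) ∈ P' := by
    rw [← hσ₀]
    exact Finset.mem_image_of_mem _ hi₀
  obtain ⟨s2, hs2⟩ := red (fun z : Fin n → ℂ => ev (n + 1) 2 (hp z)) W1 ⊥ (by
      intro f hf hf0
      by_contra hcon
      push Not at hcon
      apply hf0
      rw [Submodule.mem_bot]
      apply Subtype.ext
      obtain ⟨h1, h2, -⟩ := mem_W0.1 (Submodule.mem_inf.1 hf).1
      have e1 : ((1 : Fin (n + 1 + 1)) : ℕ) = 1 := rfl
      have h3 := h1 1 h1P
      have h4 := h2 1 h1P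
      rw [e1] at h3 h4
      refine eq_zero_of_hp _ (mem_Pol.1 f.2) h3 h4 fun y => ?_
      have := hcon y
      rwa [ev_apply] at this) k2
  rw [finrank_bot] at hs2
  -- the configuration
  let e1 := Fintype.equivFin {i : I // (Sum.inl i : I ⊕ Y) ∉ R}
  let e2 := Fintype.equivFin {y : Y // (Sum.inr y : I ⊕ Y) ∉ R}
  let x1 : I → Fin (n + 1) → ℂ := fun i =>
    if h : (Sum.inl i : I ⊕ Y) ∉ R then s1 (e1 ⟨i, h⟩) else V (n + 1) (σ (Sum.inl i))
  let x2 : Y → Fin n → ℂ := fun y =>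
    if h : (Sum.inr y : I ⊕ Y) ∉ R then s2 (e2 ⟨y, h⟩) else
      fun k => V (n + 1) (σ (Sum.inr y)) k.succ
  have hx : ∀ q ∈ R, jn x1 x2 q = V (n + 1) (σ q) := by
    intro q hq
    rcases q with i | y
    · change x1 i = _
      simp only [x1]
      rw [dif_neg (not_not.2 hq)]
    · change hp (x2 y) = _
      simp only [x2]
      rw [dif_neg (not_not.2 hq)]
      have hne : σ (Sum.inr y) ≠ 1 := by
        intro h
        have := hσ hq hq₀ (h.trans hσ₀.symm)
        exact absurd this (by simp)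
      have hne' : ((σ (Sum.inr y) : Fin (n + 1 + 1)) : ℕ) ≠ 1 := fun h => hne (Fin.ext h)
      funext k
      refine Fin.cases ?_ (fun k => ?_) k
      · simp [V, hne']
      · rfl
  have hle : Dbl (n + 1) 2 P (jn x1 x2) ⊓
      (⨅ q : {q : (I ⊕ Y) × (I ⊕ Y) // q.1 ∈ Q ∧ q.2 ∈ Q},
        LinearMap.ker (ev (n + 1) 2 (mid (jn x1 x2 q.1.1) (jn x1 x2 q.1.2)))) ≤
      W1 ⊓ ⨅ i, LinearMap.ker (ev (n + 1) 2 (hp (s2 i))) := by
    intro f hf
    obtain ⟨hf1, hf2⟩ := Submodule.mem_inf.1 hf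
    obtain ⟨g1, g2⟩ := mem_Dbl.1 hf1
    have g3 : ∀ a ∈ Q, ∀ b ∈ Q,
        eval (mid (jn x1 x2 a) (jn x1 x2 b)) (f : MvPolynomial (Fin (n + 1)) ℂ) = 0 := by
      intro a ha b hb
      have := (Submodule.mem_iInf _).1 hf2 ⟨(a, b), ha, hb⟩
      rw [LinearMap.mem_ker, ev_apply] at this
      exact this
    refine Submodule.mem_inf.2 ⟨Submodule.mem_inf.2 ⟨mem_W0.2 ⟨?_, ?_, ?_⟩, ?_⟩, ?_⟩
    · intro j hj
      obtain ⟨a, ha, rfl⟩ := Finset.mem_image.1 hj
      rw [← hx a (hPR a ha)]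
      exact g1 a
    · intro j hj k
      obtain ⟨a, ha, rfl⟩ := Finset.mem_image.1 hj
      rw [← hx a (hPR a ha)]
      exact g2 a ha k
    · intro j hj k hk
      obtain ⟨a, ha, rfl⟩ := Finset.mem_image.1 hj
      obtain ⟨b, hb, rfl⟩ := Finset.mem_image.1 hk
      rw [← hx a (hQR a ha), ← hx b (hQR b hb)]
      exact g3 a ha b hb
    · refine (Submodule.mem_iInf _).2 fun i => ?_
      rw [LinearMap.mem_ker, ev_apply]
      have h5 := g1 (Sum.inl (e1.symm i).1)
      have h6 : jn x1 x2 (Sum.inl (e1.symm i).1) = s1 i := by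
        change x1 (e1.symm i).1 = _
        simp only [x1]
        rw [dif_pos (e1.symm i).2]
        exact congrArg s1 (e1.apply_symm_apply i)
      rwa [h6] at h5
    · refine (Submodule.mem_iInf _).2 fun i => ?_
      rw [LinearMap.mem_ker, ev_apply]
      have h5 := g1 (Sum.inr (e2.symm i).1)
      have h6 : jn x1 x2 (Sum.inr (e2.symm i).1) = hp (s2 i) := by
        change hp (x2 (e2.symm i).1) = _
        simp only [x2]
        rw [dif_pos (e2.symm i).2]
        exact congrArg (fun t => hp (s2 t)) (e2.apply_symm_apply i)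
      rwa [h6] at h5
  have hfin := Submodule.finrank_mono hle
  have hbd := card_bd R
  rw [← hk1, ← hk2] at hbd
  have hfinal : finrank ℂ ↥(Dbl (n + 1) 2 P (jn x1 x2) ⊓
      (⨅ q : {q : (I ⊕ Y) × (I ⊕ Y) // q.1 ∈ Q ∧ q.2 ∈ Q},
        LinearMap.ker (ev (n + 1) 2 (mid (jn x1 x2 q.1.1) (jn x1 x2 q.1.2))))) ≤
      NN (n + 1) 2 + P.card.choose 2 -
        ((n + 1) * P.card + (Fintype.card I + Fintype.card Y) + Q.card.choose 2) := by
    have e3 : (n + 1 + 1) * P.card = (n + 1) * P.card + P.card := by ring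
    rw [e3] at hW
    have a1 := hs1
    have a2 := hs2
    rw [max_eq_left (Nat.zero_le _)] at a1 a2
    omega
  exact ((PK_sp (n + 1) P Q).comp (J I Y n)).gen_finrank (x₀ := (x1, x2)) hfinal

end Pool.Agent.WarC
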