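import Pool.Agent.WarC.Main
import Pool.Agent.WarC.Two3b
import Pool.Agent.WarC.UKH
import Pool.Agent.WarC.PERTH
import Pool.Agent.WarC.ARR
import Pool.Agent.WarC.RESC
import Pool.Agent.WarC.TRC
import Pool.Agent.WarC.DHC
import Pool.Agent.WarC.NUMFa
import Pool.Agent.WarC.NUMFb
import Pool.Agent.WarC.NUMFc
import Pool.Agent.WarC.NUMB
import Pool.Agent.WarC.AAH
import Pool.Agent.WarC.BLKM
import Pool.Agent.WarC.BASE
import Pool.Agent.WarC.EXF
import Pool.Agent.WarC.AA13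
import Pool.Agent.WarC.LIN3
import Pool.Agent.WarC.TRC2
import Pool.Agent.WarC.DHC2
import Pool.Agent.WarC.PERTH2
import Pool.Agent.WarC.RESCL
import Pool.Agent.WarN.Exc1
import Pool.Agent.Lib_helper88.Waring.Tern

/-!
# Simultaneous Waring decompositions (MP_db021c_ag): degree 3, complete   (helper25)

Modules by helper7, 18, 21, 23, 26, 33, 37, 41, 42, 44, 45, 46, 49, 50, 51, 55, 59, 63, 67, 69, 71,
74, 75, 76, 79, 80, 83, 85, 91, 94, 96, 97 and others.
-/

set_option autoImplicit false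

open Module MvPolynomial
open Pool.Agent.War Pool.Agent.WarS

namespace Pool.Agent.WarC

theorem f_BASE : S_BASE := x_BASE (x_BLKM x_NUMB (x_PERT x_UK) x_COR3) (x_TOPC f_BLKC) x_AAH

/-- at least three cubic forms: the dimension is the expected one for every number of points -/
theorem AA_all {n s : ℕ} (hs : 3 ≤ s) (hsn : s ≤ n + 1) : AA n s :=
  AA_few x_TRC x_RESC x_DHC x_ARR (x_PERTH x_UKH) x_AAH x_NUMFa x_NUMFb x_NUMFc x_EXF x_AA13
    f_BASE hs n hsn

theorem W_few3 (n s h : ℕ) (hs : 3 ≤ s) (hsn : s ≤ n) :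
    Waring.W 3 h n s ↔ min s ((n + 3).choose n) ≤ h ∧ s * (n + 3).choose n ≤ h * (n + s) := by
  refine ⟨fun H => ⟨H.bound2, H.bound1 (by omega)⟩, fun H => ?_⟩
  exact W_of_Full (AA_all hs (by omega) h) (by rw [Nat.mul_comm (n + s)]; exact H.2)

theorem W_two3 (n h : ℕ) (hn : 3 ≤ n) :
    Waring.W 3 h n 2 ↔ min 2 ((n + 3).choose n) ≤ h ∧ 2 * (n + 3).choose n ≤ h * (n + 2) := by
  refine ⟨fun H => ⟨H.bound2, H.bound1 (by omega)⟩, fun H => ?_⟩
  obtain ⟨h₀, h1, h2, h3⟩ := two_all x_TRC x_RESC x_DHC x_ARR (x_PERTH x_UKH) (x_TRC2 x_LIN3)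
    x_RESCL x_DHC2 (x_PERTH2 x_UKH) hn
  refine (W_of_Full h1 h2).mono ?_
  have h4 := H.2
  change 2 * NN n 3 ≤ h * (n + 2) at h4
  have h5 : (n + 2) * h₀ < (n + 2) * (h + 1) := by
    rw [Nat.mul_add, Nat.mul_comm (n + 2) h]
    omega
  exact Nat.lt_succ_iff.1 (Nat.lt_of_mul_lt_mul_left h5)

theorem W_3_6_2_2 : Waring.W 3 6 2 2 := by
  have hG : GG 2 3 3 := WarM.CUBIC 2 3 (Or.inr ⟨by norm_num, by decide⟩)
  exact W_of_Full (h := 6) (Full.pure (s := 2) (by norm_num) hG) (by decide)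

/-- **Degree 3.** -/
theorem W_cubic (n s h : ℕ) (hn : 2 ≤ n) (hs : 2 ≤ s) :
    Waring.W 3 h n s ↔ (min s ((n + 3).choose n) ≤ h ∧ s * (n + 3).choose n ≤ h * (n + s)) ∧
      ¬ (n = 2 ∧ s = 2 ∧ h = 5) := by
  by_cases h22 : n = 2 ∧ s = 2
  · obtain ⟨rfl, rfl⟩ := h22
    constructor
    · intro H
      refine ⟨⟨H.bound2, H.bound1 (by omega)⟩, ?_⟩
      rintro ⟨-, -, rfl⟩
      exact WarN.not_W_3522 H
    · rintro ⟨⟨-, h2⟩, h3⟩
      have e : (2 + 3).choose 2 = 10 := by decide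
      rw [e] at h2
      exact W_3_6_2_2.mono (by omega)
  · have key : Waring.W 3 h n s ↔
        min s ((n + 3).choose n) ≤ h ∧ s * (n + 3).choose n ≤ h * (n + s) := by
      rcases Nat.lt_or_ge n s with h1 | h1
      · rcases Nat.lt_or_ge n 3 with h2 | h2
        · have hn2 : n = 2 := by omega
          subst hn2
          have := Waring.ternary 3 h s (by omega) (by omega)
          rw [Nat.add_comm 3 2, Nat.add_comm s 2] at this
          exact this
        · exact W_many3 n s h h2 h1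
      · rcases Nat.lt_or_ge s 3 with h2 | h2
        · have hs2 : s = 2 := by omega
          subst hs2
          exact W_two3 n h (by omega)
        · exact W_few3 n s h h2 h1
    rw [key]
    refine ⟨fun H => ⟨H, fun h3 => h22 ⟨h3.1, h3.2.1⟩⟩, fun H => H.1⟩

end Pool.Agent.WarC
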