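import Pool.Agent.WarC.Few3
import Pool.Agent.WarS.SG
import Pool.Agent.WarM.CubAH
import Pool.Agent.WarC.BASE
import Pool.Agent.War.Main

/-!
# Simultaneous Waring decompositions (MP_db021c_ag), pairs of cubics: the easy residues of `n`   (helper27)

`n = 3, 4, 5` modulo `6`: pure vectors and the Alexander-Hirschowitz theorem for cubics. `n = 0, 1` modulo `6`:
one step from a perfect case on the hyperplane. `n = 2`: `h ≥ 6`.
-/

set_option autoImplicit false

open Module MvPolynomial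
open Pool.Agent.War Pool.Agent.WarS Pool.Agent.WarQ

namespace Pool.Agent.WarC

namespace S2aux

theorem six_NN (m : ℕ) : 6 * NN m 3 = (m + 1) * (m + 2) * (m + 3) := BASEaux.six_NN m

/-- pure vectors -/
theorem pure2 {n p : ℕ} (hn : 1 ≤ n) (hG : GG n 3 p) : Full n 2 (2 * p) := by
  classical
  let P : Fin 2 → Finset (Fin 2 × Fin p) := fun j => Finset.univ.filter fun q => q.1 = j
  have hP : ∀ j, (P j).card = p := by
    intro j
    have : P j = Finset.univ.image fun k : Fin p => (j, k) := by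
      ext ⟨i, k⟩
      simp only [P, Finset.mem_filter, Finset.mem_univ, true_and, Finset.mem_image, Prod.mk.injEq]
      constructor
      · rintro rfl
        exact ⟨k, rfl, rfl⟩
      · rintro ⟨_, h, _⟩
        exact h.symm
    rw [this, Finset.card_image_of_injective _ (fun a b h => (Prod.mk.inj h).2), Finset.card_univ,
      Fintype.card_fin]
  obtain ⟨z, hz⟩ := (Gen.forall fun j : Fin 2 =>
    SG n 3 (Fin 2 × Fin p) (P j) hn (by rw [hP]; exact hG)).exists
  refine Full.of_type (I := Fin 2 × Fin p) (by simp)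
    ⟨z, fun i => (Pi.single i.1 1 : Fin 2 → ℂ), ?_⟩
  have hle : FK n 3 z (fun i => (Pi.single i.1 1 : Fin 2 → ℂ)) ≤
      Submodule.pi Set.univ fun j => Dbl n 3 (P j) z := by
    intro f hf
    obtain ⟨h1, h2⟩ := mem_FK.1 hf
    rw [Submodule.mem_pi]
    intro j _
    refine mem_Dbl.2 ⟨fun i => h1 i j, fun i hi k => ?_⟩
    have hij : i.1 = j := (Finset.mem_filter.1 hi).2
    have := h2 i k
    simpa [Pi.single_apply, hij] using this
  refine (Submodule.finrank_mono hle).trans ((finrank_pi_leC1 _).trans ?_)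
  have h3 : ∀ j ∈ (Finset.univ : Finset (Fin 2)), finrank ℂ (Dbl n 3 (P j) z) ≤
      NN n 3 - (n * p + 2 * p) := by
    intro j _
    have := hz j
    rw [hP] at this
    simpa using this
  refine (Finset.sum_le_sum h3).trans ?_
  rw [Finset.sum_const, Finset.card_univ, Fintype.card_fin, smul_eq_mul, Nat.mul_sub]
  refine Nat.sub_le_sub_left ?_ _
  exact le_of_eq (by ring)

theorem GG_of {n p : ℕ} (h : 6 * (p + 1) ≤ (n + 2) * (n + 3)) : GG n 3 p := by
  refine WarM.CUBIC n p (Or.inl ?_)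
  have h6 := six_NN n
  refine Nat.le_of_mul_le_mul_left (c := 6) ?_ (by norm_num)
  calc 6 * ((n + 1) * (p + 1)) = (n + 1) * (6 * (p + 1)) := by ring
    _ ≤ (n + 1) * ((n + 2) * (n + 3)) := Nat.mul_le_mul_left _ h
    _ = 6 * NN n 3 := by rw [h6]; ring

/-- `n = 6 k + 3` -/
theorem full3 (k : ℕ) : Full (6 * k + 3) 2 (12 * k ^ 2 + 20 * k + 8) := by
  have := pure2 (n := 6 * k + 3) (p := 6 * k ^ 2 + 10 * k + 4) (by omega) (GG_of (by nlinarith))
  rwa [show 2 * (6 * k ^ 2 + 10 * k + 4) = 12 * k ^ 2 + 20 * k + 8 by ring] at this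

/-- `n = 6 k + 5` -/
theorem full5 (k : ℕ) : Full (6 * k + 5) 2 (12 * k ^ 2 + 28 * k + 16) := by
  have := pure2 (n := 6 * k + 5) (p := 6 * k ^ 2 + 14 * k + 8) (by omega) (GG_of (by nlinarith))
  rwa [show 2 * (6 * k ^ 2 + 14 * k + 8) = 12 * k ^ 2 + 28 * k + 16 by ring] at this

/-- `n = 6 k + 4` -/
theorem full4 (k : ℕ) : Full (6 * k + 4) 2 (12 * k ^ 2 + 24 * k + 12) := by
  have := pure2 (n := 6 * k + 4) (p := 6 * k ^ 2 + 12 * k + 6) (by omega) (GG_of (by nlinarith))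
  rwa [show 2 * (6 * k ^ 2 + 12 * k + 6) = 12 * k ^ 2 + 24 * k + 12 by ring] at this

/-- `n = 6 k`, `k ≥ 1` -/
theorem full0 (hT : S_TRC) (hR : S_RESC) (hD : S_DHC) (hA : S_ARR) (hP : S_PERTH) (k : ℕ) :
    Full (6 * k + 6) 2 (12 * k ^ 2 + 32 * k + 21) := by
  refine stepC (n := 6 * k + 5) (U := 12 * k ^ 2 + 28 * k + 16) (Y := 0) (P := 4 * k + 5)
    hT hR hD hA hP (by omega) le_rfl (full5 k) ?_ (by ring) ?_
  · have h6 := six_NN (6 * k + 5)
    nlinarith
  · unfold NC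
    rw [add_zero]
    have e1 : (4 * k + 5) % 2 = 1 := by omega
    have e2 : (4 * k + 5) / 2 = 2 * k + 2 := by omega
    have e3 : (6 * k + 5 + 1 + 1) * (6 * k + 5 + 1 + 2) / 2 = 18 * k ^ 2 + 45 * k + 28 := by
      have : (6 * k + 5 + 1 + 1) * (6 * k + 5 + 1 + 2) = 2 * (18 * k ^ 2 + 45 * k + 28) := by ring
      omega
    rw [e1, e2, e3]
    refine ⟨by nlinarith, Or.inl ⟨by omega, by omega⟩, Or.inr (Or.inl ⟨rfl, by omega⟩),
      Or.inr (Or.inl ⟨rfl, by nlinarith, by nlinarith⟩)⟩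

/-- `n = 6 k + 1`, `k ≥ 1` -/
theorem full1 (hT : S_TRC) (hR : S_RESC) (hD : S_DHC) (hA : S_ARR) (hP : S_PERTH) (k : ℕ) :
    Full (6 * k + 7) 2 (12 * k ^ 2 + 36 * k + 27) := by
  refine stepC (n := 6 * k + 6) (U := 12 * k ^ 2 + 32 * k + 21) (Y := 0) (P := 4 * k + 6)
    hT hR hD hA hP (by omega) le_rfl (full0 hT hR hD hA hP k) ?_ (by ring) ?_
  · have h6 := six_NN (6 * k + 6)
    nlinarith
  · unfold NC
    rw [add_zero]
    have e1 : (4 * k + 6) % 2 = 0 := by omega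
    have e2 : (4 * k + 6) / 2 = 2 * k + 3 := by omega
    have e3 : (6 * k + 6 + 1 + 1) * (6 * k + 6 + 1 + 2) / 2 = 18 * k ^ 2 + 51 * k + 36 := by
      have : (6 * k + 6 + 1 + 1) * (6 * k + 6 + 1 + 2) = 2 * (18 * k ^ 2 + 51 * k + 36) := by ring
      omega
    rw [e1, e2, e3]
    refine ⟨by nlinarith, Or.inl ⟨by omega, by omega⟩, Or.inl ⟨rfl, by omega⟩,
      Or.inl ⟨rfl, by nlinarith⟩⟩

/-- `n = 2`: six points -/
theorem full22 : Full 2 2 6 := by
  have h : GG 2 3 3 := WarM.CUBIC 2 3 (Or.inr ⟨by norm_num, by decide⟩)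
  exact pure2 (n := 2) (p := 3) (by norm_num) h

/-- from the space to property `W` -/
theorem W_of_full {n s h h0 : ℕ} (hF : Full n s h0) (h1 : s * NN n 3 ≤ (n + s) * h0)
    (h2 : h0 ≤ h) : Waring.W 3 h n s := by
  obtain ⟨z, a, hza⟩ := hF
  rw [Nat.sub_eq_zero_of_le h1] at hza
  have h0' : FK n 3 z a = ⊥ := Submodule.finrank_eq_zero.mp (Nat.le_zero.1 hza)
  have hW : Waring.W 3 h0 n s := by
    refine Waring.W_of_dual z a fun g hg e1 e2 => ?_
    have hmem : (fun j => (⟨g j, mem_Pol.2 (hg j)⟩ : Pol n 3)) ∈ FK n 3 z a :=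
      mem_FK.2 ⟨fun i j => e1 i j, fun i k => e2 i k⟩
    rw [h0', Submodule.mem_bot] at hmem
    intro j
    exact congrArg Subtype.val (congrFun hmem j)
  exact hW.mono h2

end S2aux

open S2aux in
/-- pairs of cubics, `n ≥ 3`, `n` not `2` modulo `6` -/
theorem W_pairs (hT : S_TRC) (hR : S_RESC) (hD : S_DHC) (hA : S_ARR) (hP : S_PERTH) (n h : ℕ)
    (hn : 3 ≤ n) (hn2 : n % 6 ≠ 2) (hh : 2 * NN n 3 ≤ (n + 2) * h) : Waring.W 3 h n 2 := by
  have h6 := six_NN n
  -- the critical value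
  have key : (n + 1) * (n + 3) ≤ 3 * h := by
    refine Nat.le_of_mul_le_mul_left (c := n + 2) ?_ (by omega)
    nlinarith
  have fin : ∀ h0, Full n 2 h0 → (n + 1) * (n + 3) ≤ 3 * h0 → h0 ≤ h → Waring.W 3 h n 2 := by
    intro h0 hF h1 h2
    refine W_of_full hF ?_ h2
    refine Nat.le_of_mul_le_mul_left (c := 3) ?_ (by norm_num)
    nlinarith
  obtain ⟨k, hk⟩ : ∃ k, n = 6 * k + n % 6 := ⟨n / 6, by omega⟩
  have hlt : n % 6 < 6 := Nat.mod_lt _ (by norm_num)
  interval_cases hr : n % 6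
  · obtain ⟨k', rfl⟩ : ∃ k', k = k' + 1 := ⟨k - 1, by omega⟩
    have e : n = 6 * k' + 6 := by omega
    subst e
    exact fin _ (full0 hT hR hD hA hP k') (by nlinarith) (by nlinarith)
  · obtain ⟨k', rfl⟩ : ∃ k', k = k' + 1 := ⟨k - 1, by omega⟩
    have e : n = 6 * k' + 7 := by omega
    subst e
    exact fin _ (full1 hT hR hD hA hP k') (by nlinarith) (by nlinarith)
  · exact absurd rfl hn2
  · subst hk
    exact fin _ (full3 k) (by nlinarith) (by nlinarith)
  · subst hk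
    exact fin _ (full4 k) (by nlinarith) (by nlinarith)
  · subst hk
    exact fin _ (full5 k) (by nlinarith) (by nlinarith)

open S2aux in
/-- pairs of ternary cubics, `h ≥ 6` -/
theorem W_pairs2 (h : ℕ) (hh : 6 ≤ h) : Waring.W 3 h 2 2 :=
  W_of_full full22 (by decide) hh

end Pool.Agent.WarC
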