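import Pool.Agent.WarC.S2
import Pool.Agent.WarC.TRC
import Pool.Agent.WarC.RESC
import Pool.Agent.WarC.DHC
import Pool.Agent.WarC.ARR
import Pool.Agent.WarC.PERTH
import Pool.Agent.WarC.UKH

/-!
# Simultaneous Waring decompositions (MP_db021c_ag), pairs of cubics: the easy residues of `n`   (helper27)
-/

set_option autoImplicit false

open Pool.Agent.War

namespace Pool.Agent.WarC

/-- pairs of cubics, `n ≥ 3`, `n` not `2` modulo `6` -/
theorem W_pairs' (n h : ℕ) (hn : 3 ≤ n) (hn2 : n % 6 ≠ 2) (hh : 2 * NN n 3 ≤ (n + 2) * h) :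
    Waring.W 3 h n 2 :=
  W_pairs x_TRC x_RESC x_DHC x_ARR (x_PERTH x_UKH) n h hn hn2 hh

end Pool.Agent.WarC
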