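import Pool.Agent.WarQ.LS
import Pool.Agent.War.C1

/-!
# Simultaneous Waring decompositions (MP_db021c_ag), cubics, at least `n + 5` forms   (helper25)

`W(3, h, n, s)` for `s ≥ n + 5`. The block lemma of `War/Stmts.lean` in degree 3 for all `μ` with
`(2 n + 5) μ ≤ n N`. Write `μ = n q + D`. The difficult case is `q + D < n`, `q ≥ 2`; by `WarQ.S_SB` (with
`d = 2`) it follows from a statement on quadrics, `QB n 2 b c D`, which is proved here for all
`n ≥ 4`, `D + 2 ≤ n` (it is false for `n = b = 3`, `c = D = 1`): `S_MRA`.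

`MR n D b c`: `b` quadrics, `b` full points with pure vectors (form `k` is double at the point `k`), `c` full
points with arbitrary vectors, and `N(n,2) - (n + D) - (b + c)` simple points: the kernel has dimension at
most `b D - n c` (truncated subtraction). All these statements were checked by computer
(`n ≤ 9`). Small `b` (`b + D ≤ N(D,2)`): the model with a linear space of `WarQ`. Large `b`: induction on `n` by
the trade lemma `S_TRD`. A statement `S_X` is proved by a theorem `x_X : S_X`, or `x_X (h : S_Y) ... : S_X`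
if it uses others. All dimensions are over `ℂ`; conditions `finrank ≤ k` are generic as soon as they hold
at one point (`PK.gen_finrank`, `PK_MZ`).
-/

set_option autoImplicit false

open Module MvPolynomial
open Pool.Agent.War Pool.Agent.WarS Pool.Agent.WarQ

namespace Pool.Agent.WarC

/-! ## 0. Definitions -/

/-- the vectors of the full points: pure for the first `b`, arbitrary for the last `c` -/
def vec {b c : ℕ} (a : Fin c → Fin b → ℂ) : Fin b ⊕ Fin c → Fin b → ℂ :=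
  Sum.elim (fun k => Pi.single k 1) a

/-- parameters: `b` points (pure), `c` points (mixed), `e` simple points, `c` vectors -/
abbrev PT (n b c e : ℕ) : Type :=
  ((Fin b ⊕ Fin c) ⊕ Fin e → Fin n → ℂ) × (Fin c → Fin b → ℂ)

/-- the `b`-tuples of polynomials of degree `≤ 2` with the conditions -/
def MZ (n : ℕ) {b c e : ℕ} (x : PT n b c e) : Submodule ℂ (Fin b → Pol n 2) :=
  TrC1 n 2 (x.1, vec x.2)

theorem mem_MZ {n b c e : ℕ} {x : PT n b c e} {f : Fin b → Pol n 2} : f ∈ MZ n x ↔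
    (∀ i j, eval (x.1 i) (f j : MvPolynomial (Fin n) ℂ) = 0) ∧
    (∀ k v, eval (x.1 (Sum.inl (Sum.inl k))) (pderiv v (f k : MvPolynomial (Fin n) ℂ)) = 0) ∧
    ∀ l v, ∑ j, x.2 l j *
      eval (x.1 (Sum.inl (Sum.inr l))) (pderiv v (f j : MvPolynomial (Fin n) ℂ)) = 0 := by
  unfold MZ
  rw [mem_TrC1]
  refine and_congr_right fun _ => ⟨fun h => ⟨fun k v => ?_, fun l v => h (Sum.inr l) v⟩,
    fun h => ?_⟩
  · have := h (Sum.inl k) v
    simpa [vec, Pi.single_apply] using this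
  · rintro (k | l) v
    · simpa [vec, Pi.single_apply] using h.1 k v
    · exact h.2 l v

theorem PK_MZ (n : ℕ) {b c e : ℕ} : PK (K := ℂ) fun x : PT n b c e => MZ n x := by
  let L : PT n b c e →ₗ[ℂ]
      ((Fin b ⊕ Fin c) ⊕ Fin e → Fin n → ℂ) × (Fin b ⊕ Fin c → Fin b → ℂ) :=
    { toFun := fun x => (x.1, Sum.elim 0 x.2)
      map_add' := fun x y => by
        refine Prod.ext rfl ?_
        funext i
        rcases i with i | i
        · exact (add_zero (0 : Fin b → ℂ)).symm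
        · rfl
      map_smul' := fun r x => by
        refine Prod.ext rfl ?_
        funext i
        rcases i with i | i
        · exact (smul_zero (M := ℂ) (A := Fin b → ℂ) r).symm
        · rfl }
  have hL : ∀ x : PT n b c e,
      L x + (0, Sum.elim (fun k => Pi.single k 1) 0) = (x.1, vec x.2) := by
    intro x
    refine Prod.ext (add_zero x.1) ?_
    funext i
    rcases i with i | i
    · exact zero_add (Pi.single i (1 : ℂ) : Fin b → ℂ)
    · exact add_zero (x.2 i)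
  refine ((PK_TrC1 n 2).comp_affine L (0, Sum.elim (fun k => Pi.single k 1) 0)).congr fun x => ?_
  rw [hL]
  rfl

/-- the statement on quadrics -/
def MR (n D b c : ℕ) : Prop :=
  ∃ x : PT n b c (NN n 2 - (n + D) - (b + c)), finrank ℂ (MZ n x) ≤ b * D - n * c

/-- the combination of the forms with the coefficients `v` -/
noncomputable def th {ν b : ℕ} (v : Fin b → ℂ) : (Fin b → Pol ν 2) →ₗ[ℂ] Pol ν 2 :=
  ∑ k, v k • LinearMap.proj k

theorem th_apply {ν b : ℕ} (v : Fin b → ℂ) (t : Fin b → Pol ν 2) :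
    ((th v t : Pol ν 2) : MvPolynomial (Fin ν) ℂ) =
      ∑ k, C (v k) * (t k : MvPolynomial (Fin ν) ℂ) := by
  unfold th
  rw [LinearMap.sum_apply, Submodule.coe_sum]
  refine Finset.sum_congr rfl fun k _ => ?_
  rw [LinearMap.smul_apply, LinearMap.proj_apply, Submodule.coe_smul, smul_eq_C_mul]

/-- the elements of `MZ` for which the combinations with the vectors `l ∈ L` vanish -/
noncomputable def TL {ν b c e : ℕ} (x : PT ν b c e) (L : Finset (Fin c)) :
    Submodule ℂ (Fin b → Pol ν 2) :=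
  MZ ν x ⊓ ⨅ l ∈ L, LinearMap.ker (th (x.2 l))

/-- parameters of the trade lemma: `y : Fin c → ℂ^ν`, and `ν + 1 - 2 c` points of `ℂ^(ν+1)` -/
abbrev WY (ν c : ℕ) : Type := (Fin c → Fin ν → ℂ) × (Fin (ν + 1 - 2 * c) → Fin (ν + 1) → ℂ)

/-- general position in the trade lemma -/
def GP {ν b c e : ℕ} (x : PT ν b c e) (q : WY ν c) : Prop :=
  (∀ i, q.2 i 0 ≠ 0) ∧ ∀ (k : Fin b) (g : MvPolynomial (Fin (ν + 1)) ℂ), g.totalDegree ≤ 1 →
    (∀ i, eval (q.2 i) g = 0) → (∀ l, eval (hp (x.1 (Sum.inl (Sum.inr l)))) g = 0) →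
    (∀ l, eval (hp (q.1 l)) g = 0) → eval (hp (x.1 (Sum.inl (Sum.inl k)))) g = 0 → g = 0

/-! ## 1. Small `b`: the model with a linear space -/

/-- Change of basis in the space of the forms. The configuration may be taken general (`PK_TrC1`,
`PK.gen_finrank`), so the first `b` vectors are linearly independent (nonzero determinant: `Gen.ne`, `LP.det`),
`A = (a (inl i) j)`. The map `f ↦ A f`, `g_i = ∑_j a (inl i) j f_j`, is an automorphism of the space of `b`-tuples;
the conditions for `g` are pure at the first `b` points and have the vectors `a (inr l) A⁻¹` at the others. -/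
def S_PUR : Prop := ∀ n b c e r : ℕ,
  (∃ x : ((Fin b ⊕ Fin c) ⊕ Fin e → Fin n → ℂ) × (Fin b ⊕ Fin c → Fin b → ℂ),
    finrank ℂ (TrC1 n 2 x) ≤ r) → ∃ x : PT n b c e, finrank ℂ (MZ n x) ≤ r

/-- No mixed points. `MZ ≤ ∏_k Dbl` (form `k` is double at the point `k`, simple at all the others; total number of
the points `N(n,2) - (n + D)`), dimension `≤ D` for each by `WarS.SG` and `GG n 2 1` (`WarM.ONE`);
`finrank_pi_leC1`. -/
def S_MR0 : Prop := ∀ n D b : ℕ, 1 ≤ n → (n + D) + b ≤ NN n 2 → MR n D b 0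

/-- Cyclic intervals `S i = {i D, ..., i D + D - 1} mod n` (as in `WarQ.S_CYC`). The element `r` lies in `k_r` of them,
`k_r` = number of integers `≡ r mod n` in `[0, b D)`, so `|k_r - k_s| ≤ 1`, and `∑ k_r = b D`. If all `k_r ≤ c` the sum is
`0`; otherwise all `k_r ≥ c` and the sum is `b D - n c`. -/
def S_CY : Prop := ∀ n b D : ℕ, D ≤ n → ∃ S : Fin b → Finset (Fin n), (∀ i, (S i).card = D) ∧
  ∀ c : ℕ, ∑ r, ((Finset.univ.filter fun i => r ∈ S i).card - c) ≤ b * D - n * c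

/-- The residual lemma `WarQ.S_LR` with dimensions. Same configuration and same proof as in
`WarQ/LR.lean` (with `S_CY` in place of `S_CYC`; the vectors are `τ^j`): for `g` in the space, `g j = qq (γ₁ j) (γ₂ j)`, and each of the
`n = D + k + 2` vectors `γ_r ∈ ℂ^b` is orthogonal to the `c` vectors of the full points `w` and to the vectors of
the points `x i` with `r ∉ S i`, i.e. to `b - k_r + c` vectors `τ^j`; these span a space of dimension
`min(b, b - k_r + c)` (Vandermonde), so `γ_r` lies in a space of dimension `≤ k_r - c`. `g ↦ (γ_r)` is injective and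
linear (or: extend by more functionals), so the dimension is at most `∑_r (k_r - c) ≤ b D - n c`. -/
def S_LRB : Prop := ∀ D k b c : ℕ, 1 ≤ b → c ≤ D →
  ∃ q : LSaux.QQ D (k + 2) b c (eo D k - c),
    finrank ℂ (LSaux.ZZ q) ≤ b * D - (D + (k + 2)) * c

/-- Trace on the linear space, degree 2 (`WarQ.S_LT` with `2` in place of `3`, same proof). -/
def S_LT2 : Prop := ∀ D b : ℕ, 1 ≤ D → b + D ≤ NN D 2 →
  Gen ℂ fun q : (Fin b → Fin D → ℂ) × (Fin b → Fin b → ℂ) × (Fin (NN D 2 - D - b) → Fin D → ℂ) =>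
    ∀ f : Fin b → MvPolynomial (Fin D) ℂ, (∀ j, (f j).totalDegree ≤ 2) →
      (∀ i j, eval (q.1 i) (f j) = 0) →
      (∀ i v, ∑ j, q.2.1 i j * eval (q.1 i) (pderiv v (f j)) = 0) →
      (∀ t j, eval (q.2.2 t) (f j) = 0) → ∀ j, f j = 0

/-- Small `b`. `n = D + k + 2`, `Λ = {y = 0}` in the variables `Fin D ⊕ Fin (k + 2)` (see `WarQ/Stmts.lean` and
`WarQ/L.lean`, where cubics are treated; for quadrics there is no hyperplane). On `Λ`: `b` full points and `N(D,2) - D - b`
simple points; by `S_LT2` all `f_j` vanish on `Λ`. Off `Λ`: `c` full points and `eo D k - c` simple points; the `f_j`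
are in `LSaux.ZZ` (the `x`-derivatives at the points of `Λ` are automatically `0`). Choose the parameters generic for `S_LRB`
(`LSaux.pk`, `PK.gen_finrank`) and `S_LT2` at the same time. `N(D,2) - D - b + (eo D k - c) = N(n,2) - (n + D) - (b + c)`
(`Laux.two_NN`, `two_eo`). This gives a configuration with general vectors; `S_PUR` makes it pure; rename the variables. -/
def S_LM : Prop := ∀ n D b c : ℕ, D + 2 ≤ n → 1 ≤ D → 1 ≤ b → c ≤ D → c ≤ b → b + D ≤ NN D 2 →
  MR n D b c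

/-! ## 2. The trade lemma -/

/-- A lemma of Rado type. Induction on `c`, for the existence of one `y` (then `PK.gen_finrank`). Choose `y_c` such that
for every `L ⊆ {1..c-1}` for which `θ_c` is not identically zero on `V_L = {v : θ_l ≡ 0, l ∈ L}`, the functional `θ_c(y_c)` is not
zero on `V_L` (finitely many generic conditions: `Gen.ne`, `Gen.finset`). On `V' = ker θ_c(y_c)` the hypothesis holds with `c - 1`:
if `θ_c` is not identically zero on `V_L` then `dim V'_L ≤ dim V_L - 1`, otherwise `V'_L ≤ V_{L ∪ {c}}`. -/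
def S_RADO : Prop := ∀ (V : Type) [AddCommGroup V] [Module ℂ V] [FiniteDimensional ℂ V]
  (Y : Type) [AddCommGroup Y] [Module ℂ Y] (c ρ : ℕ) (θ : Fin c → Y → V →ₗ[ℂ] ℂ),
  (∀ l v, LP (K := ℂ) fun y => θ l y v) →
  (∀ L : Finset (Fin c), finrank ℂ ↥(⨅ l ∈ L, ⨅ y, LinearMap.ker (θ l y)) ≤ (c - L.card) + ρ) →
  Gen ℂ fun y : Fin c → Y => finrank ℂ ↥(⨅ l, LinearMap.ker (θ l (y l))) ≤ ρ

/-- General position. For fixed `q`, `GP x q` is generic in `x` as soon as it holds for one `x` (for every `k` the subspace of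
`Pol (ν+1) 1` cut out by the evaluations is `0`: `PK.gen_bot`, `Gen.forall`), and the same with `x` and `q` exchanged. Example:
all pure points `0`; mixed points `e_1, ..., e_c`, `y_l = e_(c+l)` (basis of `ℂ^ν`, `2 c ≤ ν`), `w_0 = (1, 0)`,
`w_i = (1, e_(2c+i))`, `1 ≤ i ≤ ν - 2 c`: these are `ν + 2` affinely independent points of `ℂ^(ν+1)`. -/
def S_GEN : Prop := ∀ ν b c e : ℕ, 2 * c ≤ ν →
  Gen ℂ fun x : PT ν b c e => Gen ℂ fun q : WY ν c => GP x q

/-- The trade lemma. All full points are on the hyperplane `H = {x_0 = 0}`: pure points `z_k`, mixed points `Q_l` with vectors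
`a_l`, and the `e` simple points, all from `x`. Off `H`, `ν + 1` simple points: `w_i` (`ν + 1 - 2 c` of them),
`w_0 + hp (Q_l - y_l)` (`c` of them), and `p_l = Fin.cons ε (y_l)` (`c` of them), `ε ≠ 0` small.
Every `F_k` of degree `≤ 2` is `t_k + x_0 g_k`, `t_k` without `x_0` (= `rename Fin.succ`), `g_k` of degree `≤ 1`; replace `g_k` by `g_k/ε`:
for `ε ≠ 0` the map `(t, g) ↦ (t_k + ε⁻¹ x_0 g_k)_k` from `Z = MZ ν x × (Fin b → Pol (ν+1) 1)` is injective and its image contains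
the kernel. The conditions on `(t, g) ∈ Z` are: (1) `g_k(hp z_k) = 0`, `∑_k a_lk g_k(hp Q_l) = 0` (derivative `∂_0` at the full points);
(2) `ε t_k(w) + w_0 g_k(w) = 0` for the points `w = w_i` and `w = w_0 + hp(Q_l - y_l)`; (3) `t_k(y_l) + g_k(p_l) = 0`.
They are polynomial in `ε` (`PK` in the parameter `ε ∈ ℂ`), so by `PK.gen_finrank` it is enough that the dimension is `≤ ρ` for `ε = 0`
(then `Gen.and` with `ε ≠ 0`). Let `ε = 0`. By (2) `g_k` vanishes at all `w`; as `g_k` is affine,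
`g_k(w_0 + hp(Q_l - y_l)) - g_k(w_0) = g_k(hp Q_l) - g_k(hp y_l)`, so `g_k(hp Q_l) = g_k(hp y_l) = - t_k(y_l)` by (3), and (1) gives
`∑_k a_lk t_k(y_l) = 0`: `t` is in the space of the hypothesis. If `t = 0` then `g_k` vanishes at `hp y_l`, `hp Q_l`, `w_i` and `hp z_k`,
so `g_k = 0` by `GP`. So the projection to `t` is injective. -/
def S_TRD : Prop := ∀ (ν b c e ρ : ℕ), 2 * c ≤ ν → ∀ (x : PT ν b c e) (q : WY ν c), GP x q →
  finrank ℂ ↥(MZ ν x ⊓ ⨅ l, LinearMap.ker ((ev ν 2 (q.1 l)).comp (th (x.2 l)))) ≤ ρ →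
  ∃ x' : PT (ν + 1) b c (e + (ν + 1)), finrank ℂ (MZ (ν + 1) x') ≤ ρ

/-- Dimension of `TL`, at least one combination vanishes. `TL` is `PK` in `x` (`th (x.2 l) t = 0` is expressed by the coordinates in a
basis of `Pol ν 2`), so one `x` is enough (`PK.gen_finrank`). Let `j = |L| ≥ 1`, `r = b - j ≤ ν`, `c' = min c r`. If `r = 0`, take the vectors
of `L` to be a basis: `TL = 0`. Otherwise take `x'` from `MR ν D r c'`. The vector of the `i`-th element of `L` is `e_(r+i) + α_i`, and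
the vectors with `l ∉ L` are in `ℂ^r` too (the first `r` coordinates). Then `t ∈ TL` is determined by `(t_k)_{k<r}`, `t_(r+i) = - α_i·(t_k)`;
the pure condition at the point `r + i` is the mixed condition for the `r` forms with the vector `- α_i`; so we have `j + (c - j) = c ≥ c'` mixed
conditions, and can match `c'` of them with those of `x'` (other vectors `0`); the points of `L` and all the others are simple; the total number
of points is `N(ν,2) - (ν + D)` in both cases. So `dim TL ≤ r D - ν c'`. If `c' = c` this is `≤ (c - j) + (b D - (ν+1) c)` as `j ≤ j D`;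
if `c' = r < c` it is `0` as `D ≤ ν`. -/
def S_TL1 : Prop := ∀ ν D b c : ℕ, 1 ≤ D → D ≤ ν → 1 ≤ c → c ≤ b → b ≤ ν + 1 →
  (ν + D) + (b + c) ≤ NN ν 2 →
  (∀ b' c', 1 ≤ b' → b' ≤ ν → c' ≤ b' → c' ≤ c → MR ν D b' c') →
  ∀ L : Finset (Fin c), L.Nonempty →
    Gen ℂ fun x : PT ν b c (NN ν 2 - (ν + D) - (b + c)) =>
      finrank ℂ (TL x L) ≤ (c - L.card) + (b * D - (ν + 1) * c)

/-- Dimension of `MZ` on the hyperplane (this is `TL` for `L = ∅`). If `b ≤ ν`: `MR ν D b c`, and `b D - ν c ≤ c + (b D - (ν+1) c)`.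
If `b = ν + 1`: project `t ↦ t_b`; `t_b` vanishes at all points and doubly at the point `b`: dimension `≤ D` generically (`WarS.SG`, `GG ν 2 1`,
`WarM.ONE`; the number of all points is `N(ν,2) - (ν + D)`). Kernel `t_b = 0`: the other `ν` forms are in `MZ` for the configuration with the last
coordinate of the vectors omitted and the point `b` as a simple one: dimension `≤ ν D - ν c` generically by `MR ν D ν c` (`Gen.comp` with
the projection of the parameters). Sum `D + ν (D - c) = c + ((ν+1) D - (ν+1) c)` since `c ≤ D`. -/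
def S_TL0 : Prop := ∀ ν D b c : ℕ, 1 ≤ D → D ≤ ν → 1 ≤ c → c ≤ b → c ≤ D → b ≤ ν + 1 →
  (ν + D) + (b + c) ≤ NN ν 2 →
  (∀ b' c', 1 ≤ b' → b' ≤ ν → c' ≤ b' → c' ≤ c → MR ν D b' c') →
  Gen ℂ fun x : PT ν b c (NN ν 2 - (ν + D) - (b + c)) =>
    finrank ℂ (MZ ν x) ≤ c + (b * D - (ν + 1) * c)

/-- The induction step. Choose `x` generic for `S_TL0`, for `S_TL1` (all `L`) and for `S_GEN`. `S_RADO` for `V = MZ ν x`,
`Y = ℂ^ν`, `θ_l(y) t = ∑_k a_lk t_k(y)`, `ρ = b D - (ν+1) c` (`⨅ y, ker θ_l(y)` is the set of the `t` with `th (a_l) t = 0`); so there are `(y, w)` with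
`GP` and dimension `≤ ρ`; `S_TRD`. Number of simple points: `N(ν,2) - (ν+D) - (b+c) + (ν+1) = N(ν+1,2) - (ν+1+D) - (b+c)`, as
`N(ν+1,2) = N(ν,2) + ν + 2`. -/
def S_STEP : Prop := ∀ ν D b c : ℕ, 1 ≤ D → D ≤ ν → 1 ≤ c → c ≤ b → c ≤ D → b ≤ ν + 1 →
  2 * c ≤ ν → (ν + D) + (b + c) ≤ NN ν 2 →
  (∀ b' c', 1 ≤ b' → b' ≤ ν → c' ≤ b' → c' ≤ c → MR ν D b' c') → MR (ν + 1) D b c

/-- Base of the induction: `n = 4`, `D = 1`, `c = 1`, `b = 3` and `b = 4`. Homogeneous coordinates `X_0 = 1 - x_1 - ... - x_4`,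
`X_i = x_i` of `ℂ⁴`, vertices `v_0 = 0`, `v_i = e_i`. Pure points `v_1, ..., v_b`, mixed point `v_0` with the vector `(1, ..., 1)`, simple points: the
centroids (all three coordinates `1/3`) of the triangles `{i, i+1, i+3}` mod 5, `i = 0, ..., 4`, and for `b = 3` also `v_4`. A quadric vanishing at the
vertices is `∑_{i<j} c_ij X_i X_j`, and at the centroid of `{i,j,k}` iff `c_ij + c_ik + c_jk = 0`; the gradient at the vertex `v_k` is zero iff `c_kj = 0` for all
`j`. For `f_k` (singular at `v_k`) one gets `f_k = λ_k (X_(k+1) X_(k+4) - X_(k+1) X_(k+2) - X_(k+3) X_(k+4))` (indices mod 5). Mixed condition at `v_0`: with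
`c^k` the coefficients of `f_k`, `∑_k c^k_0j = 0` for `j = 1..4`: `λ_1` (`c_02`), `-λ_1` (`c_04`), `-λ_2` (`c_01`), `-λ_3` (`c_04`), `-λ_4` (`c_01`), `λ_4` (`c_03`):
`j = 2`: `λ_1 = 0`; `j = 3`: `λ_4 = 0`; `j = 4`: `λ_3 = 0`; `j = 1`: `λ_2 = 0`. -/
def S_B4 : Prop := MR 4 1 3 1 ∧ MR 4 1 4 1

/-- All quadrics. Induction on `n`. `c = 0`: `S_MR0`. If `b + D ≤ N(D,2)`: `S_LM`. Otherwise `b ≥ (D² + D + 4)/2`. For `n = 4`: `D = 1`, `b ∈ {3,4}`:
`S_B4` (for `D = 2` one has `b + D ≤ 6 = N(2,2)`). For `n ≥ 5`: `n ≥ b ≥ (D² + D + 4)/2 ≥ 2 D + 1`, so `2 c ≤ n - 1`; and `D + 2 ≤ n - 1`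
(for `D = 1` as `n ≥ 5`, for `D ≥ 2` as `(D² + D + 4)/2 ≥ D + 3`); `S_STEP` with `ν = n - 1 ≥ 4`. -/
def S_MRA : Prop := ∀ n D b c : ℕ, 4 ≤ n → 1 ≤ D → D + 2 ≤ n → 1 ≤ b → b ≤ n → c ≤ b → c ≤ D →
  MR n D b c

/-! ## 3. Cubics -/

/-- Small `q` in degree 3. `q = 1`: `WarQ.S_Q3`. `q ≥ 2` (so `n ≥ 4`): `WarQ.x_SB` with `d = 2`, `ν = n - 1`, `q - 1`, and `QB n 2 b c D`, which is
`MR n D b c` since `b D ≤ n c` (`c ≤ D` from `n c < b (D + 1) ≤ n (D + 1)`). `GG ν 3 (q - 1)` from `WarM.AH`: `(2 n - 1)(n - 3) ≤ N(n-1,3)`.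
`Block n 3 b (n q + D)` has `b q + c` full points (`arith4C1`, see `WarM/BLKA.lean`). -/
def S_SM3 : Prop := ∀ n b c D q : ℕ, 1 ≤ c → c < b → b ≤ n → b * D ≤ n * c →
  n * c < b * (D + 1) → 1 ≤ D → 1 ≤ q → q + D < n → Block n 3 b (n * q + D)

/-- The block lemma in degree 3. As `WarM/BLKA.lean` and `WarM/MB.lean`. `μ = n q + D`, `c = ⌈b D / n⌉`. `D = 0`, or `c = b` and `q + D < n`: `WarM.PB`
(`(2 n + 1)(n - 1) ≤ N(n,3)`). `n ≤ q + D`: `WarM.CORE` with `ν = n - 1`, `δ = 1`, `u = q`, `r = 0`, `k = 0`,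
`w = q + D`, `eH = N(ν,3) - (ν + b) q`, `e = N(n,2) - c - w`; `(2 ν + 1) q ≤ N(ν,3)` as `(2 n - 1)(n + 3) ≤ n (2 n + 5)`.
`q + D < n`, `c < b`: `D' = ⌊n c / b⌋ ≥ D`; if `q + D' < n` then `S_SM3`, otherwise `WarM.CORE` with `D'`; `WarM.Block_anti`. -/
def S_BLK3 : Prop := ∀ n b μ : ℕ, 3 ≤ n → 1 ≤ b → b ≤ n → n ≤ μ →
  (2 * n + 5) * μ ≤ n * NN n 3 → Block n 3 b μ

/-- From the block lemma to the theorem; as `WarM/TOPA.lean`. -/
def S_TOP3 : Prop := ∀ n s h : ℕ, 3 ≤ n → n + 5 ≤ s → s ≤ h → h < NN n 3 →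
  s * NN n 3 ≤ h * (n + s) →
  ∃ (z : Fin h → Fin n → ℂ) (a : Fin h → Fin s → ℂ) (y : Fin 0 → Fin n → ℂ), Kill n 3 z a y

end Pool.Agent.WarC
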