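import Pool.Agent.WarC.Stmts

/-!
# Simultaneous Waring decompositions (MP_db021c_ag), cubics, at least `n + 1` forms   (helper25)

`W(3, h, n, s)` for `s ≥ n + 1`, `n ≥ 3`. The block lemma in degree 3 for all `μ` with `(2 n + 1) μ ≤ n N` (with
three exceptional blocks which are not needed). New: the perturbation lemma `S_PERT` for quadrics with several full
points for each form. The other cases are in `Stmts.lean` (`S_SM3`).
-/

set_option autoImplicit false

open Module MvPolynomial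
open Pool.Agent.War Pool.Agent.WarS Pool.Agent.WarQ

namespace Pool.Agent.WarC

/-- midpoint -/
noncomputable def mid {n : ℕ} (u v : Fin n → ℂ) : Fin n → ℂ := fun i => (u i + v i) / 2

/-- Quadrics which are double at the points `z i` (`i < p`), vanish at the points `y j` (`j < p'`), at the midpoints of the
`y j`, and at the points `s t` (`t < e`): the dimension is generically at most (so, as expected)
`N(n,2) + binom(p,2) - ((n+1) p + p' + binom(p',2) + e)` (truncated subtraction). Proof. The conditions are `PK` in the parameters, so one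
configuration is enough (`PK.gen_finrank`). Take `p + p'` of the `n + 1` vertices `0, e_1, ..., e_n` of the simplex as the `z i`, `y j`. With
the barycentric coordinates `X_0 = 1 - ∑ x_i`, `X_i = x_i`, every `f` of degree `≤ 2` is `∑_{i ≤ j} c_ij X_i X_j`; `f` is double at the vertex `i` iff
`c_ij = 0` for all `j`; vanishes at the vertex `j` iff `c_jj = 0`; then it vanishes at the midpoint of the vertices `j`, `j'` iff `c_jj' = 0`. So
the space for `e = 0` has dimension `≤ binom(n+2-p, 2) - p' - binom(p', 2)`, and `binom(n+2,2) - binom(n+2-p,2) = (n+1) p - binom(p,2)`.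
Then `red`: every general simple point lowers the dimension by one until it is `0`. -/
def S_UK : Prop := ∀ n p p' e : ℕ, 1 ≤ n → p + p' ≤ n + 1 →
  Gen ℂ fun q : (Fin p → Fin n → ℂ) × (Fin p' → Fin n → ℂ) × (Fin e → Fin n → ℂ) =>
    finrank ℂ ↥((⨅ i : Fin p, LinearMap.ker (ev n 2 (q.1 i))) ⊓
      (⨅ i : Fin p × Fin n, LinearMap.ker (dv n 2 i.2 (q.1 i.1))) ⊓
      (⨅ j : Fin p', LinearMap.ker (ev n 2 (q.2.1 j))) ⊓
      (⨅ j : Fin p' × Fin p', LinearMap.ker (ev n 2 (mid (q.2.1 j.1) (q.2.1 j.2)))) ⊓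
      (⨅ t : Fin e, LinearMap.ker (ev n 2 (q.2.2 t)))) ≤
    NN n 2 + p.choose 2 - ((n + 1) * p + p' + p'.choose 2 + e)

/-- The perturbation lemma: `b` quadrics, `r k` full points `(k,i)` for the form `k`, `e` simple points; `σ` is a permutation
without fixed points. Expected kernel dimension `b w - n ∑ r`, `w = N(n,2) - (∑ r + e)`. Proof. The vectors are
`a (k,i) = e_k + ε τ_i e_(σ k)`, `τ_i = i`, with `ε ≠ 0`. Let `f` be in the kernel, `i ≠ i'` two points `z, z'` of type `k`, `d = z' - z`.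
All `f_j` vanish at `z` and `z'` and have degree `≤ 2`: `f_j(z + t d) = λ_j t (1 - t)`, so the derivatives in the direction `d` are `λ_j` at `z` and
`- λ_j` at `z'`, and `λ_j = 4 f_j(mid)`. The full conditions in the direction `d` give `λ_k + ε τ_i λ_(σ k) = 0`, `λ_k + ε τ_i' λ_(σ k) = 0`, so
`λ_(σ k) = 0`: `f_(σ k)` vanishes at `mid z z'`. So for `ε ≠ 0` the kernel is contained in the space `Z_ε` of the `f` with: all `f_j` vanish at all points,
`∇f_k + ε τ_i ∇f_(σ k) = 0` at the point `(k,i)`, and `f_(σ k)` vanishes at all midpoints of the points of type `k`. `Z_ε` is `PK` in `ε ∈ ℂ`, and for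
`ε = 0` it is contained in the product over `k` of the spaces `V_(σ k)`: double at the points of type `σ k`, zero at the points of type `k` and their midpoints, zero
at all the other points. Choose the points generic for `S_UK` for all `k` simultaneously (`Gen.forall`, `Gen.comp`; `p = r (σ k)`, `p' = r k`, the other
`∑ r - r k - r (σ k) + e` points are simple): `dim V_(σ k) ≤ w + binom(r (σ k),2) - n r (σ k) - binom(r k,2)`, and the sum over `k` is
`b w - n ∑ r`, because each difference is `≥ 0` by the hypothesis. (`finrank_pi_leC1`; then `PK.gen_finrank` in `ε` and `Gen.and` with `ε ≠ 0`.) -/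
def S_PERT : Prop := ∀ (n b e w : ℕ) (r : Fin b → ℕ) (σ : Equiv.Perm (Fin b)), 1 ≤ n →
  (∀ k, σ k ≠ k) → (∀ k, r k + r (σ k) ≤ n + 1) →
  (∑ k, r k) + e + w = NN n 2 →
  (∀ k, n * r (σ k) + (r k).choose 2 ≤ w + (r (σ k)).choose 2) →
  ∃ x : (((k : Fin b) × Fin (r k)) ⊕ Fin e → Fin n → ℂ) × (((k : Fin b) × Fin (r k)) → Fin b → ℂ),
    finrank ℂ (TrC1 n 2 x) ≤ b * w - n * ∑ k, r k

/-- The Horace core in degree 3. As `SBaux.core` in `WarQ/SB.lean` (with `δ = 1`), where the generic bound `gA` now comes from the hypothesis and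
`PK_TrC1`; the off points are indexed by `α` (full) and `Fin e` (simple). The polynomials of degree `≤ 1` vanishing at all off points are `0` since there are
at least `ν + 2 = N(ν+1,1)` of them (generic). -/
def S_COR3 : Prop := ∀ (ν b u e eH : ℕ) (α : Type) [Fintype α], 1 ≤ ν →
  GG ν 3 u → NN ν 3 ≤ ν * u + (b * u + eH) → ν + 2 ≤ Fintype.card α + e →
  (∃ x : (α ⊕ Fin e → Fin (ν + 1) → ℂ) × (α → Fin b → ℂ), finrank ℂ (TrC1 (ν + 1) 2 x) ≤ b * u) →
  ∃ (z : (Fin b × Fin u) ⊕ α → Fin (ν + 1) → ℂ) (a : (Fin b × Fin u) ⊕ α → Fin b → ℂ)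
    (y : Fin eH ⊕ Fin e → Fin (ν + 1) → ℂ), Kill (ν + 1) 3 z a y

/-- the exceptional blocks -/
def XB (n b μ : ℕ) : Prop :=
  (n = 4 ∧ b = 4 ∧ μ = 13) ∨ (n = 4 ∧ b = 4 ∧ μ = 15) ∨ (n = 5 ∧ b = 5 ∧ μ = 21)

/-- The choice of the numbers. `u = min q (N(n-1,3) / (2 n - 1))`, except `u = q` for `(n, q, D) = (4,3,1)`, `b ≤ 3`, and `(5,4,1)`, `b ≤ 4`.
`(2 n + 1) q ≤ N(n,3)`, so `r ≤ (n+1)(n+2)(4 n - 3)/(6 (4 n² - 1)) + 1`. All the inequalities were checked by computer for `3 ≤ n < 60`, all `q, D, b`. The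
last line: all forms have `w' := N(n,2) - (b r + c + e) = n r + D + u`. -/
def S_NUMC : Prop := ∀ n b q D c : ℕ, 3 ≤ n → 2 ≤ b → b ≤ n → 1 ≤ D → D < n → n ≤ q + D →
  b * D ≤ n * c → n * c < b * D + n → (2 * n + 1) * (n * q + D) ≤ n * NN n 3 →
  ¬ XB n b (n * q + D) →
  ∃ u r e : ℕ, u + r = q ∧ n ≤ u + D ∧ (n - 1 + b) * u ≤ NN (n - 1) 3 ∧ 9 * u ≤ (n + 2) ^ 2 ∧
    2 * (r + 1) ≤ n + 1 ∧ (b * r + c) + e + (n * r + D + u) = NN n 2 ∧ n + 1 ≤ (b * r + c) + e

/-- The block lemma in degree 3. `μ = n q + D`, `c = ⌈b D / n⌉`. `D = 0`: `WarM.PB`, `WarM.AH`. `b = 1`: `WarM.PB` with `q + 1` (or `q` if `D = 0`) double points;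
`GG n 3 p` for `9 p ≤ (n+3)²` is `War5.CUB` (`Pool/Agent/War5/Cub5.lean`). `q + D < n`: as in `S_BLK3` (`S_SM3`, `WarM.PB`; there `(2 n + 5) μ ≤ n N` is not
needed, `q + D ≤ n - 1` bounds everything; if `D' = ⌊n c / b⌋` has `q + D' ≥ n` use the next case for `n q + D'`, it is not exceptional and
`(2 n + 1)(n q + D') ≤ (2 n + 1) n (n - 1) ≤ n N`, and `WarM.Block_anti`). `n ≤ q + D`, `b ≥ 2`: `S_NUMC`; residual: `S_PERT` for `σ` = rotation of `Fin b`, `r k = r + 1` for
`k < c`, `r k = r` for `k ≥ c` (`∑ r k = b r + c`; conditions: `n (r+1) + binom(r+1,2) ≤ w + binom(r+1,2)`, `n (r+1) + binom(r,2) ≤ w + binom(r+1,2)`,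
`n r + binom(r+1,2) ≤ w + binom(r,2)`, `n r + binom(r,2) ≤ w + binom(r,2)` with `w = n r + D + u`, `D + u ≥ n ≥ r`), kernel dimension
`≤ b (n r + D + u) - n (b r + c) ≤ b u`; then `S_COR3` with `ν = n - 1`, `eH = N(n-1,3) - (n - 1 + b) u`, `GG (n-1) 3 u` from `War5.CUB`. -/
def S_BLKC : Prop := ∀ n b μ : ℕ, 3 ≤ n → 1 ≤ b → b ≤ n → n ≤ μ →
  (2 * n + 1) * μ ≤ n * NN n 3 → ¬ XB n b μ → Block n 3 b μ

/-- From the block lemma to the theorem; as `WarM/TOPA.lean`, blocks of size `n` and a last one. In the cases where the blocks of size `n` are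
exceptional two smaller blocks are used: `(n, μ) = (4, 13)`: `s = 5 = 3 + 2`, `s = 6 = 3 + 3` (`(4 + s) 13 ≤ 140` gives `s ≤ 6`);
`(4, 15)`: `s = 5 = 3 + 2` (`12 + 8 = 20 = h`); `(5, 21)`: `s = 6, 7, 8 = 3 + 3, 4 + 3, 4 + 4` (`26, 30, 34 ≤ 35 = h`). -/
def S_TOPC : Prop := ∀ n s h : ℕ, 3 ≤ n → n + 1 ≤ s → s ≤ h → h < NN n 3 →
  s * NN n 3 ≤ h * (n + s) →
  ∃ (z : Fin h → Fin n → ℂ) (a : Fin h → Fin s → ℂ) (y : Fin 0 → Fin n → ℂ), Kill n 3 z a y

end Pool.Agent.WarC
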