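import Pool.Agent.WarC.Stmts2

/-!
# Simultaneous Waring decompositions (MP_db021c_ag), cubics, `3 ≤ s ≤ n` forms   (helper25)

`W(3, h, n, s)` for `3 ≤ s ≤ n`. Let `Full n s h` say that the space of the `s`-tuples of cubics in `n` variables with `h`
suitable full points has dimension at most `s N(n,3) - (n + s) h` (truncated), and `AA n s` that this holds for all `h`.
`AA n s` is proved by induction on `n`, starting with `n = s - 1`. The step is a decoupled differential Horace argument: of the `h` full points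
`U = ⌊s N(n-1,3) / (n-1+s)⌋` go to the hyperplane, `Y = s N(n-1,3) - (n-1+s) U` go to the hyperplane in the limit `t → 0`, the
other `P` are off the hyperplane. The residual system (quadrics) is bounded by the perturbation lemma, now with some points on the
hyperplane. The numbers were checked by computer. A statement `S_X` is proved by a theorem `x_X : S_X`, or
`x_X (h : S_Y) ... : S_X` if it uses others. The hyperplane is `x_0 = 0`; the ambient space has `n + 1` variables.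
-/

set_option autoImplicit false

open Module MvPolynomial
open Pool.Agent.War Pool.Agent.WarS Pool.Agent.WarQ

namespace Pool.Agent.WarC

/-! ## 0. Definitions -/

section
variable {n d s : ℕ} {I U Y : Type}

/-- `s`-tuples of polynomials of degree `≤ d` with the full points `(z i, a i)` -/
def FK (n d : ℕ) {s : ℕ} {I : Type} (z : I → Fin n → ℂ) (a : I → Fin s → ℂ) :
    Submodule ℂ (Fin s → Pol n d) :=
  TrC1 n d ((fun q => Sum.elim z (fun e : Empty => e.elim) q, a) :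
    (I ⊕ Empty → Fin n → ℂ) × (I → Fin s → ℂ))

theorem mem_FK {z : I → Fin n → ℂ} {a : I → Fin s → ℂ} {f : Fin s → Pol n d} : f ∈ FK n d z a ↔
    (∀ i j, eval (z i) (f j : MvPolynomial (Fin n) ℂ) = 0) ∧
    ∀ i k, ∑ j, a i j * eval (z i) (pderiv k (f j : MvPolynomial (Fin n) ℂ)) = 0 := by
  unfold FK
  rw [mem_TrC1]
  refine and_congr ⟨fun h i j => h (Sum.inl i) j, fun h i j => ?_⟩ Iff.rfl
  rcases i with i | i
  · exact h i j
  · exact i.elim

theorem PK_FK (n d : ℕ) {s : ℕ} {I : Type} [Fintype I] :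
    PK (K := ℂ) fun x : (I → Fin n → ℂ) × (I → Fin s → ℂ) => FK n d x.1 x.2 := by
  let A : (I → Fin n → ℂ) →ₗ[ℂ] (I ⊕ Empty → Fin n → ℂ) :=
    { toFun := fun z q => Sum.elim z (fun e : Empty => e.elim) q
      map_add' := fun x y => by
        funext i
        rcases i with i | i
        · rfl
        · exact i.elim
      map_smul' := fun r x => by
        funext i
        rcases i with i | i
        · rfl
        · exact i.elim }
  let L : (I → Fin n → ℂ) × (I → Fin s → ℂ) →ₗ[ℂ]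
      (I ⊕ Empty → Fin n → ℂ) × (I → Fin s → ℂ) := A.prodMap LinearMap.id
  exact ((PK_TrC1 n d (α := I) (β := Empty) (γ := Fin s)).comp L).congr fun x => rfl

/-- the functional `∑ a_j f_j(z)` -/
noncomputable def om (n d : ℕ) {s : ℕ} (z : Fin n → ℂ) (a : Fin s → ℂ) :
    (Fin s → Pol n d) →ₗ[ℂ] ℂ := ∑ j, a j • (ev n d z).comp (LinearMap.proj j)

theorem om_apply (z : Fin n → ℂ) (a : Fin s → ℂ) (f : Fin s → Pol n d) :
    om n d z a f = ∑ j, a j * eval z (f j : MvPolynomial (Fin n) ℂ) := by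
  simp only [om, LinearMap.sum_apply, LinearMap.smul_apply, LinearMap.comp_apply,
    LinearMap.proj_apply, ev_apply, smul_eq_mul]

/-- the functional `∑ a_j ∂_k f_j(z)` -/
noncomputable def gr (n d : ℕ) {s : ℕ} (k : Fin n) (z : Fin n → ℂ) (a : Fin s → ℂ) :
    (Fin s → Pol n d) →ₗ[ℂ] ℂ := ∑ j, a j • (dv n d k z).comp (LinearMap.proj j)

theorem gr_apply (k : Fin n) (z : Fin n → ℂ) (a : Fin s → ℂ) (f : Fin s → Pol n d) :
    gr n d k z a f = ∑ j, a j * eval z (pderiv k (f j : MvPolynomial (Fin n) ℂ)) := by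
  simp only [gr, LinearMap.sum_apply, LinearMap.smul_apply, LinearMap.comp_apply,
    LinearMap.proj_apply, dv_apply, smul_eq_mul]

/-- points off the hyperplane and points of the hyperplane -/
def jn (w : I → Fin (n + 1) → ℂ) (y : Y → Fin n → ℂ) : I ⊕ Y → Fin (n + 1) → ℂ :=
  Sum.elim w fun i => hp (y i)

/-- quadrics: full at `(w i, b i)`; vanishing at `hp (y i)` with tangential condition with the vector `α i` -/
noncomputable def RV (n : ℕ) {s : ℕ} {I Y : Type} (w : I → Fin (n + 1) → ℂ) (b : I → Fin s → ℂ)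
    (y : Y → Fin n → ℂ) (α : Y → Fin s → ℂ) : Submodule ℂ (Fin s → Pol (n + 1) 2) :=
  FK (n + 1) 2 w b ⊓
    (⨅ q : Y × Fin s, LinearMap.ker ((ev (n + 1) 2 (hp (y q.1))).comp
      (LinearMap.proj q.2 : (Fin s → Pol (n + 1) 2) →ₗ[ℂ] Pol (n + 1) 2))) ⊓
    (⨅ q : Y × Fin n, LinearMap.ker (gr (n + 1) 2 q.2.succ (hp (y q.1)) (α q.1)))

theorem mem_RV {w : I → Fin (n + 1) → ℂ} {b : I → Fin s → ℂ} {y : Y → Fin n → ℂ}
    {α : Y → Fin s → ℂ} {g : Fin s → Pol (n + 1) 2} : g ∈ RV n w b y α ↔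
    g ∈ FK (n + 1) 2 w b ∧
    (∀ i j, eval (hp (y i)) (g j : MvPolynomial (Fin (n + 1)) ℂ) = 0) ∧
    ∀ i (k : Fin n), ∑ j, α i j *
      eval (hp (y i)) (pderiv k.succ (g j : MvPolynomial (Fin (n + 1)) ℂ)) = 0 := by
  unfold RV
  simp only [Submodule.mem_inf, Submodule.mem_iInf, LinearMap.mem_ker, LinearMap.comp_apply,
    LinearMap.proj_apply, ev_apply, gr_apply, Prod.forall, and_assoc]

/-- the residual space: moreover `∑ a_j g_j = 0` at `hp (z i)` with the vector `a i` -/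
noncomputable def RS (n : ℕ) {s : ℕ} {I U Y : Type} (w : I → Fin (n + 1) → ℂ) (b : I → Fin s → ℂ)
    (z : U → Fin n → ℂ) (a : U → Fin s → ℂ) (y : Y → Fin n → ℂ) (α : Y → Fin s → ℂ) :
    Submodule ℂ (Fin s → Pol (n + 1) 2) :=
  RV n w b y α ⊓ ⨅ i, LinearMap.ker (om (n + 1) 2 (hp (z i)) (a i))

/-- the trace space: cubics in `n` variables, full at `(z i, a i)`, with `∑ α_j ρ_j(y) = 0` at `y i` -/
noncomputable def TS (n : ℕ) {s : ℕ} {U Y : Type} (z : U → Fin n → ℂ) (a : U → Fin s → ℂ)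
    (y : Y → Fin n → ℂ) (α : Y → Fin s → ℂ) : Submodule ℂ (Fin s → Pol n 3) :=
  FK n 3 z a ⊓ ⨅ i, LinearMap.ker (om n 3 (y i) (α i))

/-- `h` full points in degree `3` -/
def Full (n s h : ℕ) : Prop := ∃ (z : Fin h → Fin n → ℂ) (a : Fin h → Fin s → ℂ),
  finrank ℂ (FK n 3 z a) ≤ s * NN n 3 - (n + s) * h

def AA (n s : ℕ) : Prop := ∀ h, Full n s h

end

/-! ## 1. The quadrics -/

/-- `S_UK` with some points on the hyperplane `x_0 = 0`: the points `Sum.inr i` are `hp (y i)`. Quadrics which vanish at all points, are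
double at those of `P` and vanish at the midpoints of the points of `Q`. Proof. `PK` in the parameters, so one configuration is enough.
The points of `P ∪ Q` are vertices of the simplex `p_0 = (1, 0)`, `p_(j+1) = (- δ_j, h_j)`, where `h_0 = 0`, `h_j = e_j` (`1 ≤ j ≤ n`) in
`ℂ^n` and `δ_j ∈ {0, 1}`: choose an injection of `P ∪ Q` into `{0, .., n+1}` with the given `inl i ∈ P` to `0`, `δ_j = 0` if the element going to
`j + 1` is an `inr`, and `1` otherwise. These `n + 2` points are affinely independent: `A x = p_0 + ∑ x_j (p_(j+1) - p_0)` is an affine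
automorphism of `ℂ^(n+1)` which maps the standard vertices `0, e_1, .., e_(n+1)` of `S_UK` to them, and `f ↦ f ∘ A` is an
automorphism of `Pol (n+1) 2` (or: write `f` in the barycentric coordinates of the `p_j`); so the space of the quadrics with only the
conditions at `P ∪ Q` has dimension `≤ N + binom(p,2) - ((n+2) p + q + binom(q,2))` (`UKaux` in `UK.lean`: `finrank_U0`, `eq_zero_of_nodes`).
The other points are general, each one lowers the dimension by one until it is `0` (`red`): clear for the points `inl`; a quadric of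
the space which vanishes on the hyperplane is `x_0 l`, and as it is double at `p_0` the affine function `l` and its derivatives vanish there, so `l = 0`.
(In the numbers: `p = |P|`, `q = |Q|`, `(n+1) p + |I ⊕ Y| + binom(q,2) = (n+2) p + q + binom(q,2) + ` number of the other points.) -/
def S_UKH : Prop := ∀ (n : ℕ) (I Y : Type) [Fintype I] [Fintype Y] (P Q : Finset (I ⊕ Y)),
  Disjoint P Q → P.card + Q.card ≤ n + 2 →
  (P.filter fun i => i.isRight = true).card + (Q.filter fun i => i.isRight = true).card ≤ n + 1 →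
  (∃ i, Sum.inl i ∈ P) →
  Gen ℂ fun x : (I → Fin (n + 1) → ℂ) × (Y → Fin n → ℂ) =>
    finrank ℂ ↥(Dbl (n + 1) 2 P (jn x.1 x.2) ⊓
      ⨅ q : {q : (I ⊕ Y) × (I ⊕ Y) // q.1 ∈ Q ∧ q.2 ∈ Q},
        LinearMap.ker (ev (n + 1) 2 (mid (jn x.1 x.2 q.1.1) (jn x.1 x.2 q.1.2)))) ≤
    NN (n + 1) 2 + P.card.choose 2 -
      ((n + 1) * P.card + (Fintype.card I + Fintype.card Y) + Q.card.choose 2)

/-- The perturbation lemma with points on the hyperplane; same proof as `x_PERT` (`PERT.lean`) with `S_UKH` in place of `S_UK`: `κ i` is the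
type of the point `i`, the vectors are `a i = e_(κ i) + ε τ_i e_(σ (κ i))` with different `τ_i`; `P = {κ = σ k}`, `Q = {κ = k}`. -/
def S_PERTH : Prop := ∀ (n s w : ℕ) (I Y : Type) [Fintype I] [Fintype Y] (κ : I ⊕ Y → Fin s)
  (σ : Equiv.Perm (Fin s)), (∀ k, σ k ≠ k) → (∀ k, fib κ k + fib κ (σ k) ≤ n + 2) →
  (∀ k, fib (fun i : Y => κ (Sum.inr i)) k + fib (fun i : Y => κ (Sum.inr i)) (σ k) ≤ n + 1) →
  (∀ k, ∃ i, κ (Sum.inl i) = k) →
  Fintype.card I + Fintype.card Y + w = NN (n + 1) 2 →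
  (∀ k, (n + 1) * fib κ (σ k) + (fib κ k).choose 2 ≤ w + (fib κ (σ k)).choose 2) →
  ∃ (z : I → Fin (n + 1) → ℂ) (y : Y → Fin n → ℂ) (a : I ⊕ Y → Fin s → ℂ),
    finrank ℂ (FK (n + 1) 2 (jn z y) a) ≤ s * w - (n + 1) * (Fintype.card I + Fintype.card Y)

/-- The numerical conditions: `m` variables, `s` forms, `P` points off the hyperplane, `Y` on it, `t = ⌊(P+Y)/s⌋`, `c = (P+Y) % s`. -/
def NC (m s P Y : ℕ) : Prop :=
  P + Y ≤ (m + 1) * (m + 2) / 2 ∧
  ((Y % s ≤ (P + Y) % s ∧ Y / s + 1 ≤ (P + Y) / s) ∨ Y / s + 2 ≤ (P + Y) / s) ∧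
  (((P + Y) % s = 0 ∧ 2 * ((P + Y) / s) ≤ m + 1) ∨ ((P + Y) % s = 1 ∧ 2 * ((P + Y) / s) ≤ m) ∨
    2 * ((P + Y) / s) + 1 ≤ m) ∧
  (((P + Y) % s = 0 ∧ m * ((P + Y) / s) + (P + Y) ≤ (m + 1) * (m + 2) / 2) ∨
    ((P + Y) % s = 1 ∧ m * ((P + Y) / s + 1) + (P + Y) ≤ (m + 1) * (m + 2) / 2 + (P + Y) / s ∧
      (m + 1) * ((P + Y) / s) + (P + Y) ≤ (m + 1) * (m + 2) / 2) ∨
    (m * ((P + Y) / s + 1) + (P + Y) ≤ (m + 1) * (m + 2) / 2 ∧
      (m + 1) * ((P + Y) / s) + (P + Y) ≤ (m + 1) * (m + 2) / 2))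

instance (m s P Y : ℕ) : Decidable (NC m s P Y) := by unfold NC; infer_instance

/-- The types. `σ` = rotation of `Fin s` (`finRotate`). Type `k` gets `t + [k < c]` points, of which `⌊Y/s⌋ + [k < Y % s]` are on the hyperplane (`inr`), the
others (at least one by the second condition of `NC`) are `inl`. Third condition of `NC`: `fib κ k + fib κ (σ k) ≤ n + 2` (if `c = 1` there are no two
adjacent types with `t + 1` points, as `s ≥ 2`). The fourth gives the last condition (cases `(fib κ k, fib κ (σ k)) = (t,t), (t,t+1), (t+1,t), (t+1,t+1)`;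
`binom(t+1,2) = binom(t,2) + t`). `NN m 2 = (m+1)(m+2)/2`. -/
def S_ARR : Prop := ∀ n s P Y : ℕ, 2 ≤ s → NC (n + 1) s P Y →
  ∃ (κ : Fin P ⊕ Fin Y → Fin s) (σ : Equiv.Perm (Fin s)), (∀ k, σ k ≠ k) ∧
    (∀ k, fib κ k + fib κ (σ k) ≤ n + 2) ∧
    (∀ k, fib (fun i : Fin Y => κ (Sum.inr i)) k +
      fib (fun i : Fin Y => κ (Sum.inr i)) (σ k) ≤ n + 1) ∧
    (∀ k, ∃ i, κ (Sum.inl i) = k) ∧ P + Y ≤ NN (n + 1) 2 ∧
    ∀ k, (n + 1) * fib κ (σ k) + (fib κ k).choose 2 ≤
      (NN (n + 1) 2 - (P + Y)) + (fib κ (σ k)).choose 2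

/-- The residual space. Let `(z₀, y₀, a₀)` be as in the hypothesis. `V = RV n w b y α`: for `w = z₀`, `y = y₀` and the vectors `a₀` the space
`V ⊓ ⨅_i ker (gr 0 (hp (y i)) (α i))` is `FK (n+1) 2 (jn w y) _`, so `dim V ≤ B + |Y|` (a functional lowers the dimension by at most one), and this is generic
(`PK`, `PK.gen_finrank`). No element of `V` except `0` vanishes on the hyperplane, generically: `PK` again, for `w i = (1, 0)` and a surjective type `I → Fin s`
(`s ≤ |I|`), pure vectors: `g_j = x_0 l_j`, `l_j` and its derivatives vanish at `w_i`, `i` of type `j`, so `l_j = 0`. Choose `(w, b, y, α)` with both properties; by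
`red` (functionals `om (n+1) 2 (hp z) a`; as `hred` in `COR3.lean`) there are `(z, a)` with `dim RS ≤ B + |Y| - |U|`. `PK.gen_finrank`. -/
def S_RESC : Prop := ∀ (n s B : ℕ) (I U Y : Type) [Fintype I] [Fintype U] [Fintype Y], 1 ≤ s →
  s ≤ Fintype.card I →
  (∃ (z : I → Fin (n + 1) → ℂ) (y : Y → Fin n → ℂ) (a : I ⊕ Y → Fin s → ℂ),
    finrank ℂ (FK (n + 1) 2 (jn z y) a) ≤ B) →
  Gen ℂ fun x : ((I → Fin (n + 1) → ℂ) × (I → Fin s → ℂ)) × ((U → Fin n → ℂ) × (U → Fin s → ℂ)) ×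
      ((Y → Fin n → ℂ) × (Y → Fin s → ℂ)) =>
    finrank ℂ (RS n x.1.1 x.1.2 x.2.1.1 x.2.1.2 x.2.2.1 x.2.2.2) ≤
      (B + Fintype.card Y) - Fintype.card U

/-! ## 2. The Horace step -/

/-- Trace: `U` full points (`Full n s u`) and `Y` general functionals `∑ α_j ρ_j(y)`; `red` (these functionals separate) and `PK.gen_bot`. -/
def S_TRC : Prop := ∀ (n s u v : ℕ), 1 ≤ n → Full n s u → s * NN n 3 ≤ (n + s) * u + v →
  Gen ℂ fun x : ((Fin u → Fin n → ℂ) × (Fin u → Fin s → ℂ)) ×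
      ((Fin v → Fin n → ℂ) × (Fin v → Fin s → ℂ)) => TS n x.1.1 x.1.2 x.2.1 x.2.2 = ⊥

/-- Decoupled differential Horace lemma. For `t ∈ ℂ` let `Z_t` be the space of the `(ρ, g) ∈ (Pol n 3)^s × (Pol (n+1) 2)^s` with: (1) `t ρ + x_0 g` (i.e.
`t • liftL ρ + mulX g`, `ρ` in the variables `x_1, .., x_n`) is full at all `(w i, b i)`; (2) `ρ_j(z i) = 0`, `∑ a_j ∂_k ρ_j(z i) = 0`, `∑ a_j g_j(hp (z i)) = 0`;
(3) `ρ_j(y i) + g_j(t, y i) = 0` for all `j`, `∑ α_j (∂_k ρ_j(y i) + ∂_(k+1) g_j(t, y i)) = 0` for all `k`, `∑ α_j ρ_j(y i) = t ∑ α_j ∂_0 g_j(t, y i)`.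
For `t ≠ 0` the map `(ρ, g) ↦ t ρ + x_0 g` is an isomorphism of `Z_t` with the space on the left (the last condition of (3) is, modulo the first one,
the condition for `∂_0` divided by `-1`), so the latter has dimension `≤ dim Z_t`. `Z_t` is `PK` in `t ∈ ℂ`; by `PK.gen_finrank` `dim Z_t ≤ dim Z_0` for generic `t` (and
`Gen.and` with `t ≠ 0`). If `(ρ, g) ∈ Z_0` then `ρ ∈ TS = ⊥`, so `ρ = 0`; then `g ∈ RS` (`w i 0 ≠ 0`). -/
def S_DHC : Prop := ∀ (n s : ℕ) (I U Y : Type) [Finite I] [Finite U] [Finite Y]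
  (w : I → Fin (n + 1) → ℂ) (b : I → Fin s → ℂ) (z : U → Fin n → ℂ) (a : U → Fin s → ℂ)
  (y : Y → Fin n → ℂ) (α : Y → Fin s → ℂ), (∀ i, w i 0 ≠ 0) → TS n z a y α = ⊥ →
  ∃ t : ℂ, finrank ℂ (FK (n + 1) 3
      (Sum.elim w (Sum.elim (fun i => hp (z i)) fun i => (Fin.cons t (y i) : Fin (n + 1) → ℂ)))
      (Sum.elim b (Sum.elim a α))) ≤
    finrank ℂ (RS n w b z a y α)

/-! ## 3. Numbers -/

/-- exceptional cases of the step -/
def XF (m s h : ℕ) : Prop := (m = 4 ∧ s = 4 ∧ h = 17) ∨ (m = 5 ∧ s = 4 ∧ h = 24) ∨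
  (m = 6 ∧ s = 4 ∧ h = 33) ∨ (m = 6 ∧ s = 4 ∧ h = 34)

/-- the numbers of the step -/
def NF (m s h : ℕ) : Prop :=
  ∃ U Y P : ℕ, (m - 1 + s) * U + Y = s * NN (m - 1) 3 ∧ P + U + Y = h ∧ NC m s P Y

/-- The numbers of the step, small `m`. With `M = N(m-1,3) = m(m+1)(m+2)/6`: `U = s M / (m-1+s)` (quotient), `Y = s M - (m-1+s) U`,
`P = h - U - Y`; `N(m,3) = (m+1)(m+2)(m+3)/6`. Finitely many cases: `decide` for the explicit numbers (checked by computer for `m < 100`). -/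
def S_NUMFa : Prop := ∀ m s h : ℕ, 3 ≤ s → s ≤ m → m < 45 →
  (h = s * NN m 3 / (m + s) ∨ h = (s * NN m 3 + (m + s - 1)) / (m + s)) → ¬ XF m s h → NF m s h

/-- Large `m`, `s ≥ 4`. The same `U`, `Y`, `P`; `T = P + Y = h - U`. Sufficient are `2 s ≤ P` (then `⌊Y/s⌋ + 2 ≤ ⌊T/s⌋`), `2 ⌊T/s⌋ + 1 ≤ m` and
`m (⌊T/s⌋ + 1) + T ≤ N(m,2)` (with `⌊T/s⌋ ≤ m`). Checked by computer for `17 ≤ m < 260`, `s ≥ 4`. Bounds: `s N(m,3) - (m+s) < (m+s) h < s N(m,3) + (m+s)`,
`s M - (m-1+s) < (m-1+s) U ≤ s M`, `Y ≤ m + s - 2`, `N(m,3) = M + N(m,2)`; so `(m+s)(m+s-1) T` differs from `s ((m+s-1) N(m,2) - M)` by less than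
`2 (m+s)²`. Slack for `m ≥ 45`: `P - 2 s ≥ 0.19 m`, `m - 2 ⌊T/s⌋ - 1 ≥ 0.29 m`, third one `≥ 0.067 m²`. If it helps take 60 or 100 in place of 45 (here and in `S_NUMFa`). -/
def S_NUMFb : Prop := ∀ m s h : ℕ, 4 ≤ s → s ≤ m → 45 ≤ m →
  (h = s * NN m 3 / (m + s) ∨ h = (s * NN m 3 + (m + s - 1)) / (m + s)) → NF m s h

/-- `s = 3`. `3 N(m,3) = (m+3) (m+1)(m+2)/2`, so `h = (m+1)(m+2)/2`; `U = m(m+1)/2`, `Y = 0`, `P = m + 1`. (`NC` also for `m = 3, 4, 5, 6`.) -/
def S_NUMFc : Prop := ∀ m h : ℕ, 3 ≤ m →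
  (h = 3 * NN m 3 / (m + 3) ∨ h = (3 * NN m 3 + (m + 3 - 1)) / (m + 3)) → NF m 3 h

/-- Numbers for the base, `n ≠ 5, 9, 12`. As `S_NUMC` with `b = n`, `c = D`, but `μ = n q + D` is the first number with `(2 n + 1) μ > n N`; `u = min q (N(n-1,3)/(2n-1))`,
`r = q - u`, `e = N(n,2) - (n r + D) - (n r + D + u)`. Checked by computer for `n < 80`. For `n ≥ 20` or so: `N(n,3) - 2 μ ≥ 2 n - 2 ≥ N(n-1,3) - (2n-1) u`.
For small `n` the number `μ` is unique (`decide`). -/
def S_NUMB : Prop := ∀ n q D : ℕ, 3 ≤ n → 1 ≤ D → D < n →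
  n * NN n 3 < (2 * n + 1) * (n * q + D) → (2 * n + 1) * (n * q + D) < n * NN n 3 + (2 * n + 1) →
  n ≠ 5 → n ≠ 9 → n ≠ 12 →
  ∃ u r e : ℕ, u + r = q ∧ n ≤ u + D ∧ (2 * n - 1) * u ≤ NN (n - 1) 3 ∧ 9 * u ≤ (n + 2) ^ 2 ∧
    2 * (r + 1) ≤ n + 1 ∧ (n * r + D) + e + (n * r + D + u) = NN n 2 ∧ n + 1 ≤ (n * r + D) + e

/-! ## 4. Assembly -/

/-- `h` full points with the two critical values of `h` are enough: fewer points are a part of the `⌊s N/(n+s)⌋` points (each omitted point raises the dimension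
by at most `n + s`), for more points the space is `0` (the dimension for `⌈s N/(n+s)⌉` is `0`). -/
def S_AAH : Prop := ∀ n s : ℕ, 1 ≤ s → Full n s (s * NN n 3 / (n + s)) →
  Full n s ((s * NN n 3 + (n + s - 1)) / (n + s)) → AA n s

/-- The block of `n` forms for `μ = n q + D`, the first `μ` with `(2 n + 1) μ > n N`. `D = 0`: `WarM.PB`, `GG n 3 q` (`War5.CUB`). `D ≥ 1`, `n ≠ 9, 12`:
`S_NUMB`, `S_PERT` for `b = n`, `r k = r + 1` for `k < D` and `r` for `k ≥ D`, and `S_COR3`, exactly as in `BLKC.lean` (`BLKCaux.main`). `n = 9`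
(`μ = 105`, `q = 11`, `D = 6`): three blocks of `3` forms with `35` full and `80` simple points each (all `115` points are the same for
the three blocks, the full points are disjoint, cf. the cases with two blocks in `TOPC.lean`); such a block: `S_COR3` for
`ν = 8`, `b = 3`, `u = 11`, `eH = 44`, `e = 36`, `α` = 2 points, `S_PERT` with `r = (1, 1, 0)`, `w = 17`. `n = 12` (`μ = 219`, `q = 18`, `D = 3`): three blocks of
`4` forms with `73` full and `163` simple points: `S_COR3` for `ν = 11`, `b = 4`, `u = 18`, `eH = 94`, `e = 69`, `α` = 1 point, `S_PERT` with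
`r = (1, 0, 0, 0)`, `w = 21`. (`GG` from `War5.CUB`.) -/
def S_BLKM : Prop := ∀ n μ : ℕ, 3 ≤ n → n ≠ 5 → n * NN n 3 < (2 * n + 1) * μ →
  (2 * n + 1) * μ < n * NN n 3 + (2 * n + 1) → Block n 3 n μ

/-- The base `s = n + 1`, `n ≥ 3`. `S_AAH`. `h₊ = ⌈(n+1) N/(2n+1)⌉`: `S_TOPC` (`h₊ ≥ n + 1`, `h₊ < N`; the space is `0`). `h₋ = ⌊(n+1) N/(2n+1)⌋`: if `(2n+1) h₋ = (n+1) N`
this is `h₊`. Otherwise `μ = N - h₋` satisfies the hypotheses of `S_BLKM`. `n ≠ 5`: the first `n` forms have `μ` full and `h₋ - μ` simple points (`S_BLKM`; the space is `0`;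
`⌈n μ/n⌉ = μ`, `N - 2 μ = h₋ - μ`); the last form is simple at these `μ` points and double at the other `h₋ - μ` points: dimension `≤ N - h₋ - n (h₋ - μ)
= (n+1) N - (2n+1) h₋` (`WarS.SG`, `GG n 3 (h₋ - μ)` from `War5.CUB` or `WarM.AH`: `(2n+1)(h₋ - μ) ≤ N`). Choose the points general (`Kill` is generic in points and vectors),
vector of a point: in the first `n` coordinates that of the block (first `μ` points) or `0`, last coordinate `0` or `1`. `n = 5`: `h₋ = 30`, each of the `6` forms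
has `5` double and `25` simple points: dimension `≤ 56 - 55 = 1` each (`GG 5 3 5`), sum `6 = 6·56 - 11·30`. -/
def S_BASE : Prop := ∀ n : ℕ, 3 ≤ n → AA n (n + 1)

/-- The exceptional cases. `(4,4,17)`: two blocks of `2` forms; `9` full and `8` simple points: `S_COR3` for `ν = 3`, `b = 2`, `u = 4`, `eH = 0`, `e = 8`, `α` = 1 point,
`S_PERT` with `r = (1, 0)`, `w = 6`: kills. First block: `9` full (points `0..8`) and `8` simple; second: `8` full (points `9..16`) and `9` simple ones (one full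
point replaced by a simple one: the dimension is at most `4`). Sum `4 = 4·35 - 8·17`. `(5,4,24)`: each form has `6` double and `18` simple points, dimension `≤ 2` each
(`GG 5 3 6`), sum `8 = 4·56 - 9·24`. `(6,4,34)`: two blocks of `2` forms, `17` full and `17` simple points each: `S_COR3` for `ν = 5`, `b = 2`, `u = 8`, `eH = 0`,
`e = 17`, `α` = 1 point, `S_PERT` with `r = (1, 0)`, `w = 10`, `GG 5 3 8` (`WarM.CubAH`: `CUBIC`); `34·10 ≥ 4·84`. `(6,4,33)`: the same with `e = 16`, `w = 11`: `17` full and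
`16` simple points kill; second block `16` full and `17` simple ones: dimension `≤ 6 = 4·84 - 10·33`. -/
def S_EXF : Prop := Full 4 4 17 ∧ Full 5 4 24 ∧ Full 6 4 33 ∧ Full 6 4 34

/-- `AA 1 3`: three full points on triples of binary cubics with independent vectors (and four points kill). -/
def S_AA13 : Prop := AA 1 3

end Pool.Agent.WarC
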