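import Pool.Agent.WarC.Stmts3

/-!
# Simultaneous Waring decompositions (MP_db021c_ag), cubics, `s = 2`, `n = 6 k + 2`   (helper25)

`W(3, h, n, 2)` for `n = 6 k + 2`, `k ≥ 1`, `h = (n+1)(n+3)/3 = 12 k² + 16 k + 5`; the count is perfect. Notation of `Stmts3`, the ambient space has
`n + 1 = 6 k + 2` variables. On the hyperplane `H`: `2 u` full points, `u = 6 k² + 6 k + 1`, pure vectors for the trace, `u` for each form. Off `H`: two
points. Near `H`: `4 k - 1` points with general vectors and two points `p`, `q` with the SAME vector `β`. For a quadric `φ` on a line,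
`φ'(0) + φ'(1) = 2 (φ(1) - φ(0))`, so the tangential conditions at these two points in the direction `q - p` add up to a condition for the trace.
A statement `S_X` is proved by a theorem `x_X : S_X`, or `x_X (h : S_Y) ... : S_X` if it uses others.
-/

set_option autoImplicit false

open Module MvPolynomial
open Pool.Agent.War Pool.Agent.WarS Pool.Agent.WarQ

namespace Pool.Agent.WarC

/-- the functional `∑_k (q_k - p_k) (∂_k f(p) + ∂_k f(q))` on polynomials -/
noncomputable def ec (n d : ℕ) (p q : Fin n → ℂ) : Pol n d →ₗ[ℂ] ℂ :=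
  ∑ k, (q k - p k) • (dv n d k p + dv n d k q)

theorem ec_apply {n d : ℕ} (p q : Fin n → ℂ) (f : Pol n d) : ec n d p q f =
    ∑ k, (q k - p k) * (eval p (pderiv k (f : MvPolynomial (Fin n) ℂ)) +
      eval q (pderiv k (f : MvPolynomial (Fin n) ℂ))) := by
  simp only [ec, LinearMap.sum_apply, LinearMap.smul_apply, LinearMap.add_apply, dv_apply,
    smul_eq_mul]

/-- the same for `∑ β_j f_j` -/
noncomputable def ecs (n d : ℕ) {s : ℕ} (p q : Fin n → ℂ) (β : Fin s → ℂ) :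
    (Fin s → Pol n d) →ₗ[ℂ] ℂ := ∑ j, β j • (ec n d p q).comp (LinearMap.proj j)

theorem ecs_apply {n d s : ℕ} (p q : Fin n → ℂ) (β : Fin s → ℂ) (f : Fin s → Pol n d) :
    ecs n d p q β f = ∑ j, β j * ec n d p q (f j) := by
  simp only [ecs, LinearMap.sum_apply, LinearMap.smul_apply, LinearMap.comp_apply,
    LinearMap.proj_apply, smul_eq_mul]

/-- two points -/
def two {A : Type} (p q : A) : Fin 2 → A := ![p, q]

/-- the trace space with the pair `p`, `q` -/
noncomputable def TS2 (n : ℕ) {s : ℕ} {U Y : Type} (z : U → Fin n → ℂ) (a : U → Fin s → ℂ)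
    (y : Y → Fin n → ℂ) (α : Y → Fin s → ℂ) (p q : Fin n → ℂ) (β : Fin s → ℂ) :
    Submodule ℂ (Fin s → Pol n 3) :=
  TS n z a y α ⊓ LinearMap.ker (om n 3 p β) ⊓ LinearMap.ker (om n 3 q β) ⊓
    LinearMap.ker (ecs n 3 p q β)

/-- One cubic. The functionals `f(p)`, `f(q)`, `ec p q f` are independent on the cubics which are double at `u` points. Proof. Let `z_0, .., z_u` be general points for
`GG n 3 (u+1)` such that no quadric `≠ 0` is double at all of them (generic as `u + 1 ≥ n + 1`: at `0, e_1, .., e_n` a quadric double at all these points is `0`; `PK`,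
`PK.gen_bot`). `D` = cubics double at `z_0, .., z_(u-1)`, `p = z_u`, `D₀ = {f ∈ D, f(p) = 0}`, `D₁ = {f ∈ D, f double at p}`: `dim D₁ = N - (n+1)(u+1) > 0`, and `dim D ≥ N - (n+1) u`
(always), so the value and gradient at `p` are independent on `D`, and the gradient map `D₀ → ℂ^n` is surjective. Claim: there is `d` such that on `D₀` the two
functionals `A_d(f) = f(p + 3 d) - 3 f(p + 2 d) + 3 f(p + d) - f(p)` (`= 6` times the cubic part of `f` at `d`) and `B_d(f) = f(p + d)` are independent. Otherwise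
`A_d(f₁) B_d(f₂) = A_d(f₂) B_d(f₁)` for all `d`, `f₁ ∈ D₁`, `f₂ ∈ D₀`. Replace `d` by `x d`, `f_i(p + x d) = x f_i'(d) + x² f_i''(d) + x³ f_i'''(d)`, `f₁' = 0`: the coefficient of `x⁴` gives
`f₁'''(d) f₂'(d) = 0` for all `d` and `f₂ ∈ D₀`; choose `f₂` with `f₂' ≠ 0` (surjectivity), so `f₁''' = 0` for all `f₁ ∈ D₁`, so the elements of `D₁` are quadrics double at `z_0, .., z_u`,
so `D₁ = 0`, a contradiction. Let `q = p + d`. If `f(p) = f(q) = 0` then `ec p q f = f'''(d)` (`f(p + x d) = c₁ x + c₂ x² + c₃ x³`, `c₁ + c₂ + c₃ = 0`,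
`ec = c₁ + (c₁ + 2 c₂ + 3 c₃) = c₃`). So the dimension is `dim D₀ - 2 = N - (n+1) u - 3`. -/
def S_LIN3 : Prop := ∀ n u : ℕ, 1 ≤ n → n ≤ u → GG n 3 (u + 1) → (n + 1) * (u + 1) < NN n 3 →
  ∃ (z : Fin u → Fin n → ℂ) (p q : Fin n → ℂ),
    finrank ℂ ↥(Dbl n 3 Finset.univ z ⊓ LinearMap.ker (ev n 3 p) ⊓ LinearMap.ker (ev n 3 q) ⊓
      LinearMap.ker (ec n 3 p q)) + ((n + 1) * u + 3) ≤ NN n 3

/-- The trace. `β = e_0`, the first `u` points have the vector `e_0`, the last `u` points `e_1`. Form `0`: double at the first `u` points, `0` at `p`, `q`, `ec p q = 0`: dimension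
`≤ N - (n+1) u - 3` by `S_LIN3`, generic (`PK` in `z, p, q`); it vanishes at the other `u` points: `≤ N - (n+2) u - 3` (`red`, and again generic in all the points by `PK`). Form `1`: double at the
last `u` points, `0` at the first `u`: `≤ N - (n+2) u` (`WarS.SG`). Choose the points generic for both; the `v` functionals `∑ α_j f_j(y)` separate: `red`, `2 (N - (n+2) u) - 3 ≤ v`.
Then `TS2 = ⊥` is generic (`PK`, `PK.gen_bot`). -/
def S_TRC2 : Prop := ∀ n u v : ℕ, 1 ≤ n → n ≤ u → GG n 3 (u + 1) → (n + 1) * (u + 1) < NN n 3 →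
  (n + 2) * u + 3 ≤ NN n 3 → 2 * NN n 3 ≤ (n + 2) * (2 * u) + (v + 3) →
  Gen ℂ fun x : ((Fin (2 * u) → Fin n → ℂ) × (Fin (2 * u) → Fin 2 → ℂ)) ×
      ((Fin v → Fin n → ℂ) × (Fin v → Fin 2 → ℂ)) ×
      ((Fin n → ℂ) × (Fin n → ℂ) × (Fin 2 → ℂ)) =>
    TS2 n x.1.1 x.1.2 x.2.1.1 x.2.1.2 x.2.2.1 x.2.2.2.1 x.2.2.2.2 = ⊥

/-- `S_DHC` with the pair: same proof (`DHC.lean`), near points `Y ⊕ Fin 2`. The space `Z_t` gets the additional condition
`ecs p q β ρ + 2 (∑ β_j ρ_j(p) - ∑ β_j ρ_j(q)) = 0`. It follows for `t ≠ 0` from the others: multiply the conditions `∑_j β_j (∂_k ρ_j + ∂_(k+1) g_j(t, ·)) = 0` at `p` and at `q` by `q_k - p_k`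
and add; the quadric `φ(x) = ∑ β_j g_j(t, p + x (q - p))` has `φ'(0) + φ'(1) = 2 (φ(1) - φ(0))`, `φ(0) = - ∑ β_j ρ_j(p)`, `φ(1) = - ∑ β_j ρ_j(q)`. For `t = 0`: `∑ β_j ρ_j = 0` at `p` and `q`,
so `ecs p q β ρ = 0` and `ρ ∈ TS2 = ⊥`. (`two_points` and `tay` in `PERT.lean` may help for the quadric.) -/
def S_DHC2 : Prop := ∀ (n s : ℕ) (I U Y : Type) [Finite I] [Finite U] [Finite Y]
  (w : I → Fin (n + 1) → ℂ) (b : I → Fin s → ℂ) (z : U → Fin n → ℂ) (a : U → Fin s → ℂ)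
  (y : Y → Fin n → ℂ) (α : Y → Fin s → ℂ) (p q : Fin n → ℂ) (β : Fin s → ℂ), (∀ i, w i 0 ≠ 0) →
  TS2 n z a y α p q β = ⊥ →
  ∃ t : ℂ, finrank ℂ (FK (n + 1) 3
      (Sum.elim w (Sum.elim (fun i => hp (z i))
        fun i => (Fin.cons t (Sum.elim y (two p q) i) : Fin (n + 1) → ℂ)))
      (Sum.elim b (Sum.elim a (Sum.elim α fun _ => β)))) ≤
    finrank ℂ (RS n w b z a (Sum.elim y (two p q)) (Sum.elim α fun _ => β))

/-- `S_PERTH` where two points of the same type get the same vector; same proof (`PERTH.lean`) with `τ` equal at these two points and different otherwise. The midpoint of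
these two points is missing, so the bound for one of the spaces `V_(σ k)` and the final bound are larger by `1` (a functional lowers the dimension by at most one). -/
def S_PERTH2 : Prop := ∀ (n s w : ℕ) (I Y : Type) [Fintype I] [Fintype Y]
  (κ : I ⊕ (Y ⊕ Fin 2) → Fin s) (σ : Equiv.Perm (Fin s)), (∀ k, σ k ≠ k) →
  κ (Sum.inr (Sum.inr 0)) = κ (Sum.inr (Sum.inr 1)) →
  (∀ k, fib κ k + fib κ (σ k) ≤ n + 2) →
  (∀ k, fib (fun i : Y ⊕ Fin 2 => κ (Sum.inr i)) k +
    fib (fun i : Y ⊕ Fin 2 => κ (Sum.inr i)) (σ k) ≤ n + 1) →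
  (∀ k, ∃ i, κ (Sum.inl i) = k) →
  Fintype.card I + (Fintype.card Y + 2) + w = NN (n + 1) 2 →
  (∀ k, (n + 1) * fib κ (σ k) + (fib κ k).choose 2 ≤ w + (fib κ (σ k)).choose 2) →
  ∃ (z : I → Fin (n + 1) → ℂ) (y : Y → Fin n → ℂ) (p q : Fin n → ℂ) (b : I → Fin s → ℂ)
    (α : Y → Fin s → ℂ) (β : Fin s → ℂ),
    finrank ℂ (FK (n + 1) 2 (jn z (Sum.elim y (two p q))) (Sum.elim b (Sum.elim α fun _ => β))) ≤
      s * w - (n + 1) * (Fintype.card I + (Fintype.card Y + 2)) + 1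

/-- `S_RESC` for a linear family of near points and vectors; same proof (`RESC.lean`), all `PK` statements are composed with `L` (`PK.comp`). -/
def S_RESCL : Prop := ∀ (n s B : ℕ) (I U Y : Type) [Fintype I] [Fintype U] [Fintype Y]
  (X : Type) [AddCommGroup X] [Module ℂ X]
  (L : X →ₗ[ℂ] (Y → Fin n → ℂ) × (Y → Fin s → ℂ)), 1 ≤ s → s ≤ Fintype.card I →
  (∃ (z : I → Fin (n + 1) → ℂ) (b : I → Fin s → ℂ) (x : X),
    finrank ℂ (FK (n + 1) 2 (jn z (L x).1) (Sum.elim b (L x).2)) ≤ B) →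
  Gen ℂ fun x : ((I → Fin (n + 1) → ℂ) × (I → Fin s → ℂ)) ×
      ((U → Fin n → ℂ) × (U → Fin s → ℂ)) × X =>
    finrank ℂ (RS n x.1.1 x.1.2 x.2.1.1 x.2.1.2 (L x.2.2).1 (L x.2.2).2) ≤
      (B + Fintype.card Y) - Fintype.card U

end Pool.Agent.WarC
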