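import Pool.Agent.WarC.Stmts
import Pool.Agent.WarM.TOPA

/-!
# Simultaneous Waring decompositions (MP_db021c_ag), cubics: from the block lemma to the theorem
(helper19, adapted from `WarM/TOPA.lean` of helper27)
-/

set_option autoImplicit false

open Module MvPolynomial
open Pool.Agent.War Pool.Agent.WarS Pool.Agent.WarM

namespace Pool.Agent.WarC

theorem x_TOP3 (hB : S_BLK3) : S_TOP3 := by
  intro n s h hn hs hsh hN hmain
  obtain ⟨μ, hμ⟩ : ∃ μ, NN n 3 = h + μ := ⟨NN n 3 - h, by omega⟩
  have hμ0 : 0 < μ := by omega
  have h1 : s * μ ≤ n * h := by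
    rw [hμ] at hmain
    nlinarith
  rcases Nat.lt_or_ge μ n with hlt | hge
  · exact top_small (by omega) (by omega) hsh (by omega) hμ hlt.le
  · -- blocks
    have hsn := Nat.div_add_mod s n
    set k := s / n with hk
    set b' := s % n with hb'
    have hb'n : b' < n := Nat.mod_lt _ (by omega)
    let b : Option (Fin k) → ℕ := fun t => t.elim b' fun _ => n
    let m : Option (Fin k) → ℕ := fun t => (b t * μ + n - 1) / n
    have hmn : ∀ i : Fin k, m (some i) = μ := by
      intro i
      show (n * μ + n - 1) / n = μ
      have : n * μ + n - 1 = (n - 1) + n * μ := by omega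
      rw [this, Nat.add_mul_div_left _ _ (by omega), Nat.div_eq_of_lt (by omega), zero_add]
    have hkμ : n * (k * μ) + b' * μ ≤ n * h := by
      have : n * (k * μ) + b' * μ = (n * k + b') * μ := by ring
      rw [this, hsn]
      exact h1
    have hkh : k * μ ≤ h := by
      have : n * (k * μ) ≤ n * h := by omega
      exact Nat.le_of_mul_le_mul_left this (by omega)
    have hm0 : m none ≤ h - k * μ := by
      show (b' * μ + n - 1) / n ≤ h - k * μ
      have h2 : n * (h - k * μ) = n * h - n * (k * μ) := Nat.mul_sub _ _ _
      have h3 : b' * μ + n - 1 < n * ((h - k * μ) + 1) := by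
        rw [mul_add, h2]
        omega
      rw [mul_comm n] at h3
      exact Nat.lt_succ_iff.1 ((Nat.div_lt_iff_lt_mul (by omega)).2 h3)
    have hsum : ∑ t, m t ≤ h := by
      rw [Fintype.sum_option]
      simp only [hmn, Finset.sum_const, Finset.card_univ, Fintype.card_fin, smul_eq_mul]
      omega
    have hmle : ∀ t, m t ≤ h := fun t =>
      (Finset.single_le_sum (f := m) (fun _ _ => Nat.zero_le _) (Finset.mem_univ t)).trans hsum
    have hBn : (2 * n + 5) * μ ≤ n * NN n 3 := by
      rw [hμ]
      nlinarith
    obtain ⟨z, a, y, hK⟩ := asm (n := n) (d := 3) (h := h) b m (fun t => NN n 3 - μ - m t)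
      (fun t => by
        have := hmle t
        omega) hsum (fun t => by
        cases t with
        | none =>
          rcases Nat.eq_zero_or_pos b' with h0 | h0
          · refine ⟨fun _ _ => 0, fun _ _ => 0, fun _ _ => 0, ?_⟩
            intro f _ _ _ _ j
            exact absurd j.2 (by simp [b, h0])
          · exact hB n b' μ hn h0 hb'n.le hge hBn
        | some i => exact hB n n μ hn (by omega) le_rfl hge hBn)
    have hcard : Fintype.card ((t : Option (Fin k)) × Fin (b t)) = s := by
      simp only [Fintype.card_sigma, Fintype.card_fin]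
      rw [Fintype.sum_option]
      simp only [b, Option.elim, Finset.sum_const, Finset.card_univ, Fintype.card_fin,
        smul_eq_mul]
      rw [← hsn]
      ring
    exact ⟨z, _, y, Kill_equiv (Fintype.equivFinOfCardEq hcard).symm hK⟩

end Pool.Agent.WarC
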