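import Pool.Agent.WarC.Stmts2
import Pool.Agent.WarM.TOPA

/-!
# Simultaneous Waring decompositions (MP_db021c_ag): from the block lemma to the theorem, cubics
(helper75)
-/

set_option autoImplicit false

open Module MvPolynomial
open Pool.Agent.War Pool.Agent.WarS

namespace Pool.Agent.WarC

namespace TOPCaux

/-- two blocks -/
theorem two {n s h μ b₁ b₂ : ℕ} (hμ : NN n 3 = h + μ) (hs : b₁ + b₂ = s)
    (hm : (b₁ * μ + n - 1) / n + (b₂ * μ + n - 1) / n ≤ h)
    (h₁ : Block n 3 b₁ μ) (h₂ : Block n 3 b₂ μ) :
    ∃ (z : Fin h → Fin n → ℂ) (a : Fin h → Fin s → ℂ) (y : Fin 0 → Fin n → ℂ), Kill n 3 z a y := by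
  let b : Bool → ℕ := fun t => cond t b₁ b₂
  let m : Bool → ℕ := fun t => (b t * μ + n - 1) / n
  have hm1 : m true + m false ≤ h := hm
  obtain ⟨z, a, y, hK⟩ := asm (n := n) (d := 3) (h := h) b m (fun t => NN n 3 - μ - m t)
    (fun t => by
      have : m t ≤ h := by
        cases t
        · omega
        · omega
      omega) (by
      rw [Fintype.sum_bool]
      exact hm1) (fun t => by
      cases t with
      | false => exact h₂
      | true => exact h₁)
  have hcard : Fintype.card ((t : Bool) × Fin (b t)) = s := by
    simp only [Fintype.card_sigma, Fintype.card_fin]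
    rw [Fintype.sum_bool]
    exact hs
  exact ⟨z, _, y, Kill_equiv (Fintype.equivFinOfCardEq hcard).symm hK⟩

end TOPCaux

open TOPCaux

theorem x_TOPC (hB : S_BLKC) : S_TOPC := by
  intro n s h hn hs hsh hN hmain
  obtain ⟨μ, hμ⟩ : ∃ μ, NN n 3 = h + μ := ⟨NN n 3 - h, by omega⟩
  have hμ0 : 0 < μ := by omega
  have h1 : s * μ ≤ n * h := by
    rw [hμ] at hmain
    nlinarith
  rcases Nat.lt_or_ge μ n with hlt | hge
  · exact WarM.top_small (by omega) (by omega) hsh (by omega) hμ hlt.le
  · have hBn : (2 * n + 1) * μ ≤ n * NN n 3 := by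
      rw [hμ]
      nlinarith
    by_cases hX : XB n n μ
    · -- exceptional cases
      have blk : ∀ b : ℕ, 1 ≤ b → b < n → Block n 3 b μ := fun b hb1 hb2 =>
        hB n b μ hn hb1 hb2.le hge hBn (by
          unfold XB
          unfold XB at hX
          omega)
      rcases hX with ⟨h4, -, h13⟩ | ⟨h4, -, h15⟩ | ⟨h5, -, h21⟩
      · subst h4 h13
        have hN4 : NN 4 3 = 35 := by decide
        have hh : h = 22 := by omega
        subst hh
        have hs5 : s = 5 ∨ s = 6 := by omega
        rcases hs5 with rfl | rfl
        · exact two (b₁ := 3) (b₂ := 2) hμ rfl (by norm_num)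
            (blk 3 (by omega) (by omega)) (blk 2 (by omega) (by omega))
        · exact two (b₁ := 3) (b₂ := 3) hμ rfl (by norm_num)
            (blk 3 (by omega) (by omega)) (blk 3 (by omega) (by omega))
      · subst h4 h15
        have hN4 : NN 4 3 = 35 := by decide
        have hh : h = 20 := by omega
        subst hh
        have hs5 : s = 5 := by omega
        subst hs5
        exact two (b₁ := 3) (b₂ := 2) hμ rfl (by norm_num)
          (blk 3 (by omega) (by omega)) (blk 2 (by omega) (by omega))
      · subst h5 h21
        have hN5 : NN 5 3 = 56 := by decide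
        have hh : h = 35 := by omega
        subst hh
        have hs6 : s = 6 ∨ s = 7 ∨ s = 8 := by omega
        rcases hs6 with rfl | rfl | rfl
        · exact two (b₁ := 3) (b₂ := 3) hμ rfl (by norm_num)
            (blk 3 (by omega) (by omega)) (blk 3 (by omega) (by omega))
        · exact two (b₁ := 4) (b₂ := 3) hμ rfl (by norm_num)
            (blk 4 (by omega) (by omega)) (blk 3 (by omega) (by omega))
        · exact two (b₁ := 4) (b₂ := 4) hμ rfl (by norm_num)
            (blk 4 (by omega) (by omega)) (blk 4 (by omega) (by omega))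
    -- blocks
    have hsn := Nat.div_add_mod s n
    set k := s / n with hk
    set b' := s % n with hb'
    have hb'n : b' < n := Nat.mod_lt _ (by omega)
    let b : Option (Fin k) → ℕ := fun t => t.elim b' fun _ => n
    let m : Option (Fin k) → ℕ := fun t => (b t * μ + n - 1) / n
    have hmn : ∀ i : Fin k, m (some i) = μ := by
      intro i
      show (n * μ + n - 1) / n = μ
      have : n * μ + n - 1 = (n - 1) + n * μ := by omega
      rw [this, Nat.add_mul_div_left _ _ (by omega), Nat.div_eq_of_lt (by omega), zero_add]
    have hkμ : n * (k * μ) + b' * μ ≤ n * h := by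
      have : n * (k * μ) + b' * μ = (n * k + b') * μ := by ring
      rw [this, hsn]
      exact h1
    have hkh : k * μ ≤ h := by
      have : n * (k * μ) ≤ n * h := by omega
      exact Nat.le_of_mul_le_mul_left this (by omega)
    have hm0 : m none ≤ h - k * μ := by
      show (b' * μ + n - 1) / n ≤ h - k * μ
      have h2 : n * (h - k * μ) = n * h - n * (k * μ) := Nat.mul_sub _ _ _
      have h3 : b' * μ + n - 1 < n * ((h - k * μ) + 1) := by
        rw [mul_add, h2]
        omega
      rw [mul_comm n] at h3
      exact Nat.lt_succ_iff.1 ((Nat.div_lt_iff_lt_mul (by omega)).2 h3)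
    have hsum : ∑ t, m t ≤ h := by
      rw [Fintype.sum_option]
      simp only [hmn, Finset.sum_const, Finset.card_univ, Fintype.card_fin, smul_eq_mul]
      omega
    have hmle : ∀ t, m t ≤ h := fun t =>
      (Finset.single_le_sum (f := m) (fun _ _ => Nat.zero_le _) (Finset.mem_univ t)).trans hsum
    obtain ⟨z, a, y, hK⟩ := asm (n := n) (d := 3) (h := h) b m (fun t => NN n 3 - μ - m t)
      (fun t => by
        have := hmle t
        omega) hsum (fun t => by
        cases t with
        | none =>
          rcases Nat.eq_zero_or_pos b' with h0 | h0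
          · refine ⟨fun _ _ => 0, fun _ _ => 0, fun _ _ => 0, ?_⟩
            intro f _ _ _ _ j
            exact absurd j.2 (by simp [b, h0])
          · exact hB n b' μ hn h0 hb'n.le hge hBn (by
              unfold XB
              omega)
        | some i => exact hB n n μ hn (by omega) le_rfl hge hBn hX)
    have hcard : Fintype.card ((t : Option (Fin k)) × Fin (b t)) = s := by
      simp only [Fintype.card_sigma, Fintype.card_fin]
      rw [Fintype.sum_option]
      simp only [b, Option.elim, Finset.sum_const, Finset.card_univ, Fintype.card_fin,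
        smul_eq_mul]
      rw [← hsn]
      ring
    exact ⟨z, _, y, Kill_equiv (Fintype.equivFinOfCardEq hcard).symm hK⟩

end Pool.Agent.WarC
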