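import Pool.Agent.WarC.Stmts4
import Pool.Agent.WarC.Few3
import Pool.Agent.WarM.CubAH
import Pool.Agent.WarM.Num

/-!
# Simultaneous Waring decompositions (MP_db021c_ag), cubics, `s = 2`, `n = 6 k + 2`   (helper25)
-/

set_option autoImplicit false

open Module MvPolynomial
open Pool.Agent.War Pool.Agent.WarS Pool.Agent.WarQ

namespace Pool.Agent.WarC

theorem NN_three_k (k : ℕ) : NN (6 * k + 1) 3 = (6 * k + 2) * ((2 * k + 1) * (3 * k + 2)) := by
  have h := WarM.NN_three (6 * k + 1)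
  have h2 : 6 * NN (6 * k + 1) 3 = 6 * ((6 * k + 2) * ((2 * k + 1) * (3 * k + 2))) := by
    rw [h]
    ring
  omega

theorem NN_two_k (k : ℕ) : NN (6 * k + 1 + 1) 2 = 18 * k ^ 2 + 21 * k + 6 := by
  have h3 := WarM.NN_two (6 * k + 1 + 1)
  have h4 : 2 * NN (6 * k + 1 + 1) 2 = 2 * (18 * k ^ 2 + 21 * k + 6) := by
    rw [h3]
    ring
  omega

/-- the types: `0` for `inl 0`, the pair and the first `2 k - 1` near points, `1` for the others -/
def kap (k : ℕ) : Fin 2 ⊕ (Fin (4 * k - 1) ⊕ Fin 2) → Fin 2 :=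
  Sum.elim id (Sum.elim (fun i => if i.val < 2 * k - 1 then 0 else 1) fun _ => 0)

theorem card_lt (a v : ℕ) (h : a ≤ v) :
    (∑ i : Fin v, if i.val < a then 1 else 0) = a := by
  rw [← Finset.card_filter, Fin.card_filter_val_lt]
  omega

theorem card_ge (a v : ℕ) (h : a ≤ v) :
    (∑ i : Fin v, if i.val < a then 0 else 1) = v - a := by
  have h1 : (∑ i : Fin v, if i.val < a then 0 else 1) + (∑ i : Fin v, if i.val < a then 1 else 0)
      = v := by
    rw [← Finset.sum_add_distrib]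
    have : ∀ i : Fin v, ((if i.val < a then 0 else 1) + if i.val < a then 1 else 0) = 1 := by
      intro i
      split_ifs <;> rfl
    simp [this]
  rw [card_lt a v h] at h1
  omega

theorem kap_inr_zero {k : ℕ} (hk : 1 ≤ k) :
    fib (fun i : Fin (4 * k - 1) ⊕ Fin 2 => kap k (Sum.inr i)) 0 = 2 * k + 1 := by
  have e1 : ∀ i : Fin (4 * k - 1), (if kap k (Sum.inr (Sum.inl i)) = 0 then 1 else 0) =
      if i.val < 2 * k - 1 then 1 else 0 := by
    intro i
    by_cases h : i.val < 2 * k - 1 <;> simp [kap, h]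
  have e2 : ∀ i : Fin 2, (if kap k (Sum.inr (Sum.inr i)) = 0 then 1 else 0) = 1 := by
    intro i
    simp [kap]
  unfold fib
  rw [Finset.card_filter, Fintype.sum_sum_type, Finset.sum_congr rfl fun i _ => e1 i,
    Finset.sum_congr rfl fun i _ => e2 i, card_lt _ _ (by omega)]
  simp
  omega

theorem kap_inr_one {k : ℕ} (hk : 1 ≤ k) :
    fib (fun i : Fin (4 * k - 1) ⊕ Fin 2 => kap k (Sum.inr i)) 1 = 2 * k := by
  have e1 : ∀ i : Fin (4 * k - 1), (if kap k (Sum.inr (Sum.inl i)) = 1 then 1 else 0) =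
      if i.val < 2 * k - 1 then 0 else 1 := by
    intro i
    by_cases h : i.val < 2 * k - 1 <;> simp [kap, h]
  have e2 : ∀ i : Fin 2, (if kap k (Sum.inr (Sum.inr i)) = 1 then 1 else 0) = 0 := by
    intro i
    simp [kap]
  unfold fib
  rw [Finset.card_filter, Fintype.sum_sum_type, Finset.sum_congr rfl fun i _ => e1 i,
    Finset.sum_congr rfl fun i _ => e2 i, card_ge _ _ (by omega)]
  simp
  omega

theorem kap_fib (k : ℕ) (j : Fin 2) :
    fib (kap k) j = 1 + fib (fun i : Fin (4 * k - 1) ⊕ Fin 2 => kap k (Sum.inr i)) j := by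
  unfold fib
  rw [Finset.card_filter, Fintype.sum_sum_type, Finset.card_filter]
  congr 1
  have : ∀ i : Fin 2, (if kap k (Sum.inl i) = j then 1 else 0) = if i = j then 1 else 0 := by
    intro i
    simp [kap]
  rw [Finset.sum_congr rfl fun i _ => this i]
  simp

theorem stepK (hT : S_TRC2) (hR : S_RESCL) (hD : S_DHC2) (hP : S_PERTH2) {k : ℕ} (hk : 1 ≤ k) :
    Full (6 * k + 1 + 1) 2 (12 * k ^ 2 + 16 * k + 5) := by
  classical
  obtain ⟨u, hu⟩ : ∃ u, u = 6 * k ^ 2 + 6 * k + 1 := ⟨_, rfl⟩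
  obtain ⟨v, hv⟩ : ∃ v, v = 4 * k - 1 := ⟨_, rfl⟩
  obtain ⟨w, hw⟩ : ∃ w, w = 18 * k ^ 2 + 17 * k + 3 := ⟨_, rfl⟩
  have hkk : k ≤ k ^ 2 := by nlinarith
  -- numbers of the types
  have f0 := kap_inr_zero hk
  have f1 := kap_inr_one hk
  have g0 : fib (kap k) 0 = 2 * k + 2 := by rw [kap_fib, f0]; omega
  have g1 : fib (kap k) 1 = 2 * k + 1 := by rw [kap_fib, f1]; omega
  have c0 : (2 * k + 2).choose 2 = 2 * k ^ 2 + 3 * k + 1 := by
    rw [Nat.choose_two_right]
    have : (2 * k + 2) * (2 * k + 2 - 1) = 2 * (2 * k ^ 2 + 3 * k + 1) := by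
      rw [show 2 * k + 2 - 1 = 2 * k + 1 by omega]
      ring
    omega
  have c1 : (2 * k + 1).choose 2 = 2 * k ^ 2 + k := by
    rw [Nat.choose_two_right]
    have : (2 * k + 1) * (2 * k + 1 - 1) = 2 * (2 * k ^ 2 + k) := by
      rw [show 2 * k + 1 - 1 = 2 * k by omega]
      ring
    omega
  -- the quadrics
  obtain ⟨z0, y0, p0, q0, b0, α0, β0, hcfg⟩ := hP (6 * k + 1) 2 w (Fin 2) (Fin (4 * k - 1))
    (kap k) (Equiv.swap 0 1)
    (by decide) rfl
    (by
      intro j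
      fin_cases j
      · simp [g0, g1]; omega
      · simp [g0, g1]; omega)
    (by
      intro j
      fin_cases j
      · simp [f0, f1]; omega
      · simp [f0, f1]; omega)
    (fun j => ⟨j, by simp [kap]⟩)
    (by
      simp only [Fintype.card_fin]
      rw [NN_two_k]
      omega)
    (by
      intro j
      fin_cases j
      · simp [g0, g1, c0, c1]
        nlinarith
      · simp [g0, g1, c0, c1]
        nlinarith)
  simp only [Fintype.card_fin] at hcfg
  -- the parameters of the near points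
  let X : Type := ((Fin (4 * k - 1) → Fin (6 * k + 1) → ℂ) × (Fin (4 * k - 1) → Fin 2 → ℂ)) ×
    ((Fin (6 * k + 1) → ℂ) × (Fin (6 * k + 1) → ℂ) × (Fin 2 → ℂ))
  let L : X →ₗ[ℂ] (Fin (4 * k - 1) ⊕ Fin 2 → Fin (6 * k + 1) → ℂ) ×
      (Fin (4 * k - 1) ⊕ Fin 2 → Fin 2 → ℂ) :=
    { toFun := fun x => (Sum.elim x.1.1 (two x.2.1 x.2.2.1), Sum.elim x.1.2 fun _ => x.2.2.2)
      map_add' := fun x x' => by
        refine Prod.ext ?_ ?_
        · funext i
          rcases i with i | i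
          · rfl
          · fin_cases i <;> rfl
        · funext i
          rcases i with i | i <;> rfl
      map_smul' := fun r x => by
        refine Prod.ext ?_ ?_
        · funext i
          rcases i with i | i
          · rfl
          · fin_cases i <;> rfl
        · funext i
          rcases i with i | i <;> rfl }
  have gR := hR (6 * k + 1) 2 (2 * w - (6 * k + 1 + 1) * (2 + (4 * k - 1 + 2)) + 1) (Fin 2)
    (Fin (2 * u)) (Fin (4 * k - 1) ⊕ Fin 2) X L (by norm_num) (by simp)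
    ⟨z0, b0, ((y0, α0), (p0, q0, β0)), hcfg⟩
  simp only [Fintype.card_fin, Fintype.card_sum] at gR
  have hGG : GG (6 * k + 1) 3 (u + 1) := by
    refine WarM.CUBIC _ _ (Or.inl ?_)
    rw [NN_three_k, hu]
    have : 6 * k ^ 2 + 6 * k + 1 + 1 + 1 ≤ (2 * k + 1) * (3 * k + 2) := by nlinarith
    calc (6 * k + 1 + 1) * (6 * k ^ 2 + 6 * k + 1 + 1 + 1)
        ≤ (6 * k + 1 + 1) * ((2 * k + 1) * (3 * k + 2)) := Nat.mul_le_mul_left _ this
      _ = _ := by ring
  have gT := (hT (6 * k + 1) u (4 * k - 1) (by omega) (by rw [hu]; nlinarith) hGG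
    (by
      rw [NN_three_k, hu]
      nlinarith)
    (by
      rw [NN_three_k, hu]
      nlinarith)
    (by
      rw [NN_three_k, hu]
      have : 4 * k - 1 + 3 = 4 * k + 2 := by omega
      rw [this]
      nlinarith)).comp
    (LinearMap.snd ℂ ((Fin 2 → Fin (6 * k + 1 + 1) → ℂ) × (Fin 2 → Fin 2 → ℂ))
      (((Fin (2 * u) → Fin (6 * k + 1) → ℂ) × (Fin (2 * u) → Fin 2 → ℂ)) × X))
    LinearMap.snd_surjective
  have gO := (gen_off (n := 6 * k + 1) (I := Fin 2)).comp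
    ((LinearMap.fst ℂ (Fin 2 → Fin (6 * k + 1 + 1) → ℂ) (Fin 2 → Fin 2 → ℂ)).comp
      (LinearMap.fst ℂ ((Fin 2 → Fin (6 * k + 1 + 1) → ℂ) × (Fin 2 → Fin 2 → ℂ))
      (((Fin (2 * u) → Fin (6 * k + 1) → ℂ) × (Fin (2 * u) → Fin 2 → ℂ)) × X)))
    (by
      rw [LinearMap.coe_comp]
      exact LinearMap.fst_surjective.comp LinearMap.fst_surjective)
  obtain ⟨x, ⟨hx1, hx2⟩, hx3⟩ := ((gR.and gT).and gO).exists
  simp only [LinearMap.snd_apply, LinearMap.comp_apply, LinearMap.fst_apply] at hx2 hx3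
  obtain ⟨t, ht⟩ := hD (6 * k + 1) 2 (Fin 2) (Fin (2 * u)) (Fin (4 * k - 1)) x.1.1 x.1.2
    x.2.1.1 x.2.1.2 x.2.2.1.1 x.2.2.1.2 x.2.2.2.1 x.2.2.2.2.1 x.2.2.2.2.2 hx3 hx2
  refine Full.of_type (I := Fin 2 ⊕ (Fin (2 * u) ⊕ (Fin (4 * k - 1) ⊕ Fin 2)))
    (by simp only [Fintype.card_sum, Fintype.card_fin]; omega) ⟨_, _, (ht.trans hx1).trans ?_⟩
  have e1 : 2 + (4 * k - 1 + 2) = 4 * k + 3 := by omega
  have e2 : 2 * w = (6 * k + 1 + 1) * (4 * k + 3) + (12 * k ^ 2 + 8 * k) := by rw [hw]; ring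
  rw [e1, e2]
  omega

end Pool.Agent.WarC
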